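import Pool.Agent.H47.W.Room2
import Pool.Agent.H33.Q1.Tile

set_option autoImplicit false
open Finset

/-! # Planarity of the strand graph, part 4: geometry of the boundary

The tile `(x, y)` is the label `vt x y = lt (x, y)`. `Bd_hz`, `Bd_vt` : boundary sides; `BC_h`, `BC_v` :
straight boundary segments; `TC_h`, `TC_v` : straight paths of outer tiles. `TC_rows` : the complement
of a region with the rows `0 ≤ y < h`, `a y ≤ x < w` is connected; `BC_rows` : its left arc. -/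

namespace Pool.Agent.H47.W

open Pool.Agent.H75.Perc Pool.Agent.H75.TwoArm Pool.Agent.H99.W Pool.Agent.H13.W

lemma vt_eq_lt (x y : ℤ) : vt x y = Pool.Agent.H33.Q1.lt (x, y) := rfl

lemma vt_inj {x y x' y' : ℤ} (h : vt x y = vt x' y') : x = x' ∧ y = y' := by
  unfold vt at h
  rw [Prod.mk.injEq] at h
  omega

lemma hz_inj {x y x' y' : ℤ} (h : hz x y = hz x' y') : x = x' ∧ y = y' := by
  unfold hz at h
  rw [Prod.mk.injEq] at h
  omega

lemma hz_ne_vt (x y x' y' : ℤ) : hz x y ≠ vt x' y' := by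
  intro h
  unfold hz vt at h
  rw [Prod.mk.injEq] at h
  omega

lemma vt_odd (x y : ℤ) : ((vt x y).1 + (vt x y).2) % 2 = 1 := by
  unfold vt; simp only; omega

lemma exists_vt {e : ℤ × ℤ} (h : (e.1 + e.2) % 2 = 1) : ∃ x y, e = vt x y := by
  obtain ⟨a, b⟩ := e
  simp only at h
  refine ⟨(a + b - 1) / 2, (b - a - 1) / 2, ?_⟩
  unfold vt
  refine Prod.ext ?_ ?_ <;> simp only <;> omega

lemma eW_vt (x y : ℤ) : eW (vt x y) = vt x y := rfl
lemma eE_vt (x y : ℤ) : eE (vt x y) = vt (x + 1) y := by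
  unfold eE vt; refine Prod.ext ?_ ?_ <;> simp only <;> ring
lemma eS_vt (x y : ℤ) : eS (vt x y) = hz x y := by
  unfold eS vt hz; refine Prod.ext ?_ ?_ <;> simp only <;> ring
lemma eN_vt (x y : ℤ) : eN (vt x y) = hz x (y + 1) := by
  unfold eN vt hz; refine Prod.ext ?_ ?_ <;> simp only <;> ring

/-- the two tiles of a vertical side -/
lemma tiles_vt (x y : ℤ) : (lab (vt x y) = vt x y ∧ plab (vt x y) = vt (x - 1) y) ∨
    (lab (vt x y) = vt (x - 1) y ∧ plab (vt x y) = vt x y) := by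
  have h1 := of_side (vt_odd x y) (vt x y) (Or.inl rfl)
  have h2 := of_side (vt_odd (x - 1) y) (vt x y) (Or.inr (Or.inl (by rw [eE_vt, sub_add_cancel])))
  have h3 : vt x y ≠ vt (x - 1) y := fun h => by have := (vt_inj h).1; omega
  have h4 := lab_ne_plab (vt x y)
  rcases h1 with h1 | h1 <;> rcases h2 with h2 | h2
  · exact absurd (h1.trans h2.symm) h3
  · exact Or.inl ⟨h1.symm, h2.symm⟩
  · exact Or.inr ⟨h2.symm, h1.symm⟩
  · exact absurd (h1.trans h2.symm) h3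

/-- the two tiles of a horizontal side -/
lemma tiles_hz (x y : ℤ) : (lab (hz x y) = vt x y ∧ plab (hz x y) = vt x (y - 1)) ∨
    (lab (hz x y) = vt x (y - 1) ∧ plab (hz x y) = vt x y) := by
  have h1 := of_side (vt_odd x y) (hz x y) (Or.inr (Or.inr (Or.inl (eS_vt x y).symm)))
  have h2 := of_side (vt_odd x (y - 1)) (hz x y)
    (Or.inr (Or.inr (Or.inr (by rw [eN_vt, sub_add_cancel]))))
  have h3 : vt x y ≠ vt x (y - 1) := fun h => by have := (vt_inj h).2; omega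
  rcases h1 with h1 | h1 <;> rcases h2 with h2 | h2
  · exact absurd (h1.trans h2.symm) h3
  · exact Or.inl ⟨h1.symm, h2.symm⟩
  · exact Or.inr ⟨h2.symm, h1.symm⟩
  · exact absurd (h1.trans h2.symm) h3

section geo

variable {Λ M : Set (ℤ × ℤ)} {x y : ℤ}

lemma OutT_vt {o : ℤ × ℤ} : OutT Λ (vt x y) o ↔ o ∉ Λ ∧ (o = vt x y ∨ o = vt (x - 1) y) := by
  unfold OutT
  rcases tiles_vt x y with ⟨h1, h2⟩ | ⟨h1, h2⟩ <;> rw [h1, h2]
  tauto

lemma OutT_hz {o : ℤ × ℤ} : OutT Λ (hz x y) o ↔ o ∉ Λ ∧ (o = vt x y ∨ o = vt x (y - 1)) := by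
  unfold OutT
  rcases tiles_hz x y with ⟨h1, h2⟩ | ⟨h1, h2⟩ <;> rw [h1, h2]
  tauto

lemma InT_vt : InT Λ (vt x y) ↔ vt x y ∈ Λ ∨ vt (x - 1) y ∈ Λ := by
  unfold InT
  rcases tiles_vt x y with ⟨h1, h2⟩ | ⟨h1, h2⟩ <;> rw [h1, h2]
  tauto

lemma InT_hz : InT Λ (hz x y) ↔ vt x y ∈ Λ ∨ vt x (y - 1) ∈ Λ := by
  unfold InT
  rcases tiles_hz x y with ⟨h1, h2⟩ | ⟨h1, h2⟩ <;> rw [h1, h2]
  tauto

lemma Bd_vt : Bd Λ (vt x y) ↔ ¬ (vt x y ∈ Λ ↔ vt (x - 1) y ∈ Λ) := by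
  unfold Bd
  simp only [OutT_vt, InT_vt]
  constructor
  · rintro ⟨h, o, h1, rfl | rfl⟩ <;> tauto
  · intro h
    refine ⟨by tauto, ?_⟩
    by_cases h1 : vt x y ∈ Λ
    · exact ⟨vt (x - 1) y, by tauto⟩
    · exact ⟨vt x y, by tauto⟩

lemma Bd_hz : Bd Λ (hz x y) ↔ ¬ (vt x y ∈ Λ ↔ vt x (y - 1) ∈ Λ) := by
  unfold Bd
  simp only [OutT_hz, InT_hz]
  constructor
  · rintro ⟨h, o, h1, rfl | rfl⟩ <;> tauto
  · intro h
    refine ⟨by tauto, ?_⟩
    by_cases h1 : vt x y ∈ Λ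
    · exact ⟨vt x (y - 1), by tauto⟩
    · exact ⟨vt x y, by tauto⟩

lemma OutT.odd {c o : ℤ × ℤ} (h : OutT Λ c o) : (o.1 + o.2) % 2 = 1 := by
  rcases hz_or_vt c with ⟨x, y, rfl⟩ | ⟨x, y, rfl⟩
  · rcases (OutT_hz.1 h).2 with rfl | rfl <;> exact vt_odd _ _
  · rcases (OutT_vt.1 h).2 with rfl | rfl <;> exact vt_odd _ _

lemma Jn_hz (x y : ℤ) : Jn (hz x y) (x, y) (x + 1, y) := Or.inl ⟨pa_hz x y, pb_hz x y⟩

lemma Jn_vt (x y : ℤ) : Jn (vt x y) (x, y) (x, y + 1) := Or.inl ⟨pa_vt x y, pb_vt x y⟩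

/-- horizontal boundary segment -/
lemma BC_h {x0 x1 : ℤ} (h01 : x0 ≤ x1)
    (h : ∀ x, x0 ≤ x → x < x1 → Bd Λ (hz x y) ∧ hz x y ∉ M) : BC Λ M (x0, y) (x1, y) := by
  obtain ⟨n, rfl⟩ : ∃ n : ℕ, x1 = x0 + n := ⟨(x1 - x0).toNat, by omega⟩
  induction n with
  | zero => simpa using BC.refl Λ M (x0, y)
  | succ n ih =>
    obtain ⟨h1, h2⟩ := h (x0 + n) (by omega) (by push_cast; omega)
    refine (ih (by omega) fun x k1 k2 => h x k1 (by push_cast; omega)).trans ?_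
    have := BC.single (Λ := Λ) (M := M) (Jn_hz (x0 + n) y) h1 h2
    push_cast
    rwa [← add_assoc]

/-- vertical boundary segment -/
lemma BC_v {y0 y1 : ℤ} (h01 : y0 ≤ y1)
    (h : ∀ y, y0 ≤ y → y < y1 → Bd Λ (vt x y) ∧ vt x y ∉ M) : BC Λ M (x, y0) (x, y1) := by
  obtain ⟨n, rfl⟩ : ∃ n : ℕ, y1 = y0 + n := ⟨(y1 - y0).toNat, by omega⟩
  induction n with
  | zero => simpa using BC.refl Λ M (x, y0)
  | succ n ih =>
    obtain ⟨h1, h2⟩ := h (y0 + n) (by omega) (by push_cast; omega)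
    refine (ih (by omega) fun y k1 k2 => h y k1 (by push_cast; omega)).trans ?_
    have := BC.single (Λ := Λ) (M := M) (Jn_vt x (y0 + n)) h1 h2
    push_cast
    rwa [← add_assoc]

lemma TA_h (h1 : vt x y ∉ Λ) (h2 : vt (x + 1) y ∉ Λ) : TA Λ (vt x y) (vt (x + 1) y) := by
  refine ⟨h1, h2, vt (x + 1) y, ?_⟩
  have h3 := tiles_vt (x + 1) y
  rw [add_sub_cancel_right] at h3
  rcases h3 with ⟨h4, h5⟩ | ⟨h4, h5⟩
  · exact Or.inr ⟨h5.symm, h4.symm⟩
  · exact Or.inl ⟨h4.symm, h5.symm⟩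

lemma TA_v (h1 : vt x y ∉ Λ) (h2 : vt x (y + 1) ∉ Λ) : TA Λ (vt x y) (vt x (y + 1)) := by
  refine ⟨h1, h2, hz x (y + 1), ?_⟩
  have h3 := tiles_hz x (y + 1)
  rw [add_sub_cancel_right] at h3
  rcases h3 with ⟨h4, h5⟩ | ⟨h4, h5⟩
  · exact Or.inr ⟨h5.symm, h4.symm⟩
  · exact Or.inl ⟨h4.symm, h5.symm⟩

/-- horizontal path of outer tiles -/
lemma TC_h {x0 x1 : ℤ} (h01 : x0 ≤ x1) (h : ∀ x, x0 ≤ x → x ≤ x1 → vt x y ∉ Λ) :
    TC Λ (vt x0 y) (vt x1 y) := by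
  obtain ⟨n, rfl⟩ : ∃ n : ℕ, x1 = x0 + n := ⟨(x1 - x0).toNat, by omega⟩
  induction n with
  | zero => simpa using TC.refl Λ (vt x0 y)
  | succ n ih =>
    refine (ih (by omega) fun x k1 k2 => h x k1 (by push_cast; omega)).tail ?_
    have := TA_h (Λ := Λ) (x := x0 + n) (y := y) (h _ (by omega) (by push_cast; omega))
      (h _ (by omega) (by push_cast; omega))
    push_cast
    rwa [← add_assoc]

/-- vertical path of outer tiles -/
lemma TC_v {y0 y1 : ℤ} (h01 : y0 ≤ y1) (h : ∀ y, y0 ≤ y → y ≤ y1 → vt x y ∉ Λ) :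
    TC Λ (vt x y0) (vt x y1) := by
  obtain ⟨n, rfl⟩ : ∃ n : ℕ, y1 = y0 + n := ⟨(y1 - y0).toNat, by omega⟩
  induction n with
  | zero => simpa using TC.refl Λ (vt x y0)
  | succ n ih =>
    refine (ih (by omega) fun y k1 k2 => h y k1 (by push_cast; omega)).tail ?_
    have := TA_v (Λ := Λ) (x := x) (y := y0 + n) (h _ (by omega) (by push_cast; omega))
      (h _ (by omega) (by push_cast; omega))
    push_cast
    rwa [← add_assoc]

/-- in any direction -/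
lemma TC_h' {x0 x1 : ℤ} (h : ∀ x, min x0 x1 ≤ x → x ≤ max x0 x1 → vt x y ∉ Λ) :
    TC Λ (vt x0 y) (vt x1 y) := by
  rcases le_total x0 x1 with h1 | h1
  · exact TC_h h1 fun x k1 k2 => h x (by omega) (by omega)
  · exact (TC_h h1 fun x k1 k2 => h x (by omega) (by omega)).symm

lemma TC_v' {y0 y1 : ℤ} (h : ∀ y, min y0 y1 ≤ y → y ≤ max y0 y1 → vt x y ∉ Λ) :
    TC Λ (vt x y0) (vt x y1) := by
  rcases le_total y0 y1 with h1 | h1
  · exact TC_v h1 fun y k1 k2 => h y (by omega) (by omega)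
  · exact (TC_v h1 fun y k1 k2 => h y (by omega) (by omega)).symm

/-! ### Regions whose rows are intervals -/

/-- rows `y0 ≤ y < y1`, row `y` is `a y ≤ x < b y` -/
def Rows (Λ : Set (ℤ × ℤ)) (y0 y1 : ℤ) (a b : ℤ → ℤ) : Prop :=
  ∀ x y, vt x y ∈ Λ ↔ y0 ≤ y ∧ y < y1 ∧ a y ≤ x ∧ x < b y

variable {y0 y1 : ℤ} {a b : ℤ → ℤ}

/-- every outer tile is joined to a tile below the region -/
lemma Rows.down (hR : Rows Λ y0 y1 a b) {L R : ℤ} (hL : ∀ y, y0 ≤ y → y < y1 → L < a y)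
    (hb : ∀ y, y0 ≤ y → y < y1 → b y ≤ R) (hx : vt x y ∉ Λ) : TC Λ (vt x y) (vt L (y0 - 1)) := by
  have hcol : ∀ y, vt L y ∉ Λ := fun y h => by
    obtain ⟨h1, h2, h3, -⟩ := (hR _ _).1 h
    have := hL y h1 h2
    omega
  have hcol' : ∀ y, vt R y ∉ Λ := fun y h => by
    obtain ⟨h1, h2, -, h3⟩ := (hR _ _).1 h
    have := hb y h1 h2
    omega
  have hbot : ∀ x, vt x (y0 - 1) ∉ Λ := fun x h => by
    have := ((hR _ _).1 h).1
    omega
  have h1 : ∀ x y, (∀ x', min x L ≤ x' → x' ≤ max x L → vt x' y ∉ Λ) →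
      TC Λ (vt x y) (vt L (y0 - 1)) := fun x y h =>
    (TC_h' h).trans (TC_v' fun y' _ _ => hcol y')
  by_cases h2 : y0 ≤ y ∧ y < y1
  · by_cases h3 : x < a y
    · refine h1 x y fun x' k1 k2 h => ?_
      obtain ⟨-, -, h4, -⟩ := (hR _ _).1 h
      have := hL y h2.1 h2.2
      omega
    · have h4 : b y ≤ x := by
        by_contra h5
        exact hx ((hR _ _).2 ⟨h2.1, h2.2, by omega, by omega⟩)
      refine (TC_h' (x1 := R) fun x' k1 k2 h => ?_).trans ((TC_v' fun y' _ _ => hcol' y').trans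
        (TC_h' fun x' _ _ => hbot x'))
      obtain ⟨-, -, -, h5⟩ := (hR _ _).1 h
      have := hb y h2.1 h2.2
      omega
  · refine h1 x y fun x' _ _ h => h2 ?_
    obtain ⟨h3, h4, -⟩ := (hR _ _).1 h
    exact ⟨h3, h4⟩

/-- bounds for the rows -/
lemma exists_bounds (y0 y1 : ℤ) (a b : ℤ → ℤ) :
    ∃ L R : ℤ, (∀ y, y0 ≤ y → y < y1 → L < a y) ∧ ∀ y, y0 ≤ y → y < y1 → b y ≤ R := by
  obtain ⟨L, hL⟩ := ((Ico y0 y1).image a).finite_toSet.bddBelow
  obtain ⟨R, hR⟩ := ((Ico y0 y1).image b).finite_toSet.bddAbove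
  refine ⟨L - 1, R, fun y h1 h2 => ?_, fun y h1 h2 => ?_⟩
  · have := hL (mem_image_of_mem a (mem_Ico.2 ⟨h1, h2⟩))
    omega
  · exact hR (mem_image_of_mem b (mem_Ico.2 ⟨h1, h2⟩))

/-- **The complement of a region whose rows are intervals is connected.** -/
theorem TC_rows (hR : Rows Λ y0 y1 a b) {o o' : ℤ × ℤ} (ho : (o.1 + o.2) % 2 = 1)
    (ho' : (o'.1 + o'.2) % 2 = 1) (h : o ∉ Λ) (h' : o' ∉ Λ) : TC Λ o o' := by
  obtain ⟨x, y, rfl⟩ := exists_vt ho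
  obtain ⟨x', y', rfl⟩ := exists_vt ho'
  obtain ⟨L, R, hL, hb⟩ := exists_bounds y0 y1 a b
  exact (hR.down hL hb h).trans (hR.down hL hb h').symm

/-- **The left arc** between the feet of the rows `y`, `y'`. -/
theorem BC_rows (hR : Rows Λ y0 y1 a b) (hab : ∀ y, y0 ≤ y → y < y1 → a y < b y)
    (hov : ∀ y, y0 ≤ y → y + 1 < y1 → a y < b (y + 1) ∧ a (y + 1) < b y) {y y' : ℤ} (h0 : y0 ≤ y)
    (hy : y ≤ y') (h1 : y' < y1)
    (hM : ∀ z, y ≤ z → z < y' → vt (a z) z ∉ M)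
    (hM' : ∀ z, y ≤ z → z < y' → ∀ x, min (a z) (a (z + 1)) ≤ x → x < max (a z) (a (z + 1)) →
      hz x (z + 1) ∉ M) : BC Λ M (a y, y) (a y', y') := by
  obtain ⟨n, rfl⟩ : ∃ n : ℕ, y' = y + n := ⟨(y' - y).toNat, by omega⟩
  clear hy
  induction n with
  | zero => simpa using BC.refl Λ M (a y, y)
  | succ n ih =>
    push_cast at h1 hM hM' ⊢
    refine (ih (by omega) (fun z k1 k2 => hM z k1 (by omega))
      (fun z k1 k2 => hM' z k1 (by omega))).trans ?_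
    set z := y + (n : ℤ) with hz'
    have e1 : y + ((n : ℤ) + 1) = z + 1 := by omega
    rw [e1]
    have a1 := hab z (by omega) (by omega)
    have a2 := hab (z + 1) (by omega) (by omega)
    obtain ⟨a3, a4⟩ := hov z (by omega) (by omega)
    refine (BC_v (y1 := z + 1) (by omega) fun t k1 k2 => ?_).trans ?_
    · have e2 : t = z := by omega
      subst e2
      refine ⟨Bd_vt.2 fun h => ?_, hM _ (by omega) (by omega)⟩
      have h2 := h.1 ((hR _ _).2 ⟨by omega, by omega, le_rfl, a1⟩)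
      have := ((hR _ _).1 h2).2.2.1
      omega
    · rcases le_total (a z) (a (z + 1)) with c | c
      · refine BC_h c fun x k1 k2 => ⟨Bd_hz.2 fun h => ?_, hM' z (by omega) (by omega) x
          (by omega) (by omega)⟩
        rw [add_sub_cancel_right] at h
        have h2 := h.2 ((hR _ _).2 ⟨by omega, by omega, k1, by omega⟩)
        have := ((hR _ _).1 h2).2.2.1
        omega
      · refine (BC_h c fun x k1 k2 => ⟨Bd_hz.2 fun h => ?_, hM' z (by omega) (by omega) x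
          (by omega) (by omega)⟩).symm
        rw [add_sub_cancel_right] at h
        have h2 := h.1 ((hR _ _).2 ⟨by omega, by omega, k1, by omega⟩)
        have := ((hR _ _).1 h2).2.2.1
        omega

end geo

end Pool.Agent.H47.W
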