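import Pool.Agent.H47.W.Room2
import Pool.Agent.H73.W.Tangle0

set_option autoImplicit false
open Finset

/-! # Planarity of the strand graph, part 3: the link pattern of a room

`sgp G A cor` : the partner function of the active names `A` (`cor a` = corner of the name `a`).
`sgp_spec` : it is an involution and describes the strands. `Ins_of` : it satisfies the axioms `Ins`
of the tangle table. -/

namespace Pool.Agent.H47.W

open Pool.Agent.H75.Perc Pool.Agent.H75.TwoArm Pool.Agent.H99.W Pool.Agent.H13.W Pool.Agent.H73.W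

variable {α : Type*}

open Classical in
/-- partner of an active name -/
noncomputable def sgp (G : SimpleGraph (ℤ × ℤ)) (A : α → Prop) (cor : α → ℤ × ℤ) (a : α) : α :=
  if h : A a ∧ ∃ b, A b ∧ b ≠ a ∧ G.Reachable (cor a) (cor b) then h.2.choose else a

/-- **Active ends** of a strand graph: the strand of an active end arrives at an active end. -/
structure Act (G : SimpleGraph (ℤ × ℤ)) (A : α → Prop) (cor : α → ℤ × ℤ) : Prop where
  deg : Deg2 G
  ie : ∀ a, A a → IsEnd G (cor a)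
  inj : ∀ a b, A a → A b → cor a = cor b → a = b
  pt : ∀ a, A a → ∃ b, A b ∧ b ≠ a ∧ G.Reachable (cor a) (cor b)

section act

variable {G : SimpleGraph (ℤ × ℤ)} {A : α → Prop} {cor : α → ℤ × ℤ}

lemma Act.sgp_mem (h : Act G A cor) {a : α} (ha : A a) :
    A (sgp G A cor a) ∧ sgp G A cor a ≠ a ∧ G.Reachable (cor a) (cor (sgp G A cor a)) := by
  classical
  have h1 : A a ∧ ∃ b, A b ∧ b ≠ a ∧ G.Reachable (cor a) (cor b) := ⟨ha, h.pt a ha⟩
  unfold sgp
  rw [dif_pos h1]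
  exact h1.2.choose_spec

lemma Act.uniq (h : Act G A cor) {a b c : α} (ha : A a) (hb : A b) (hc : A c) (h1 : b ≠ a)
    (h2 : c ≠ a) (hab : G.Reachable (cor a) (cor b)) (hac : G.Reachable (cor a) (cor c)) :
    b = c := by
  have n1 : cor a ≠ cor b := fun k => h1 (h.inj a b ha hb k).symm
  rcases ends_two h.deg (h.ie a ha) (h.ie b hb) (h.ie c hc) hab hac n1 with k | k
  · exact absurd (h.inj c a hc ha k) h2
  · exact (h.inj c b hc hb k).symm

lemma Act.reach (h : Act G A cor) {a b : α} (ha : A a) (hb : A b) :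
    G.Reachable (cor a) (cor b) ↔ b = a ∨ b = sgp G A cor a := by
  obtain ⟨h1, h2, h3⟩ := h.sgp_mem ha
  constructor
  · intro k
    by_cases hba : b = a
    · exact Or.inl hba
    · exact Or.inr (h.uniq ha hb h1 hba h2 k h3)
  · rintro (rfl | rfl)
    · exact SimpleGraph.Reachable.refl _
    · exact h3

lemma sgp_dead {a : α} (ha : ¬ A a) : sgp G A cor a = a := by
  classical
  unfold sgp
  rw [dif_neg (fun k => ha k.1)]

lemma Act.inv (h : Act G A cor) (a : α) : sgp G A cor (sgp G A cor a) = a := by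
  by_cases ha : A a
  · obtain ⟨h1, h2, h3⟩ := h.sgp_mem ha
    obtain ⟨h4, h5, h6⟩ := h.sgp_mem h1
    rcases (h.reach h1 ha).1 h3.symm with k | k
    · exact absurd k.symm h2
    · exact k.symm
  · rw [sgp_dead ha, sgp_dead ha]

lemma Act.alive (h : Act G A cor) (a : α) : sgp G A cor a ≠ a ↔ A a := by
  constructor
  · intro k
    by_contra ha
    exact k (sgp_dead ha)
  · exact fun ha => (h.sgp_mem ha).2.1

/-- the partner function is the only one -/
lemma Act.sgp_eq (h : Act G A cor) {a b : α} (ha : A a) (hb : A b) (hne : b ≠ a)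
    (hab : G.Reachable (cor a) (cor b)) : sgp G A cor a = b := by
  rcases (h.reach ha hb).1 hab with k | k
  · exact absurd k hne
  · exact k.symm

end act

section sg

variable {Λ D : Set (ℤ × ℤ)} {w : Finset (ℤ × ℤ)} {A : α → Prop} {cor : α → ℤ × ℤ}

/-- active ends of `SG Λ D w` -/
theorem Act_of (hΛ : Λ.Finite) (hi : ∀ a, A a → IsEnd (SG Λ D w) (cor a))
    (hn : ∀ a, A a → ∃ x, (SG Λ D w).Adj (cor a) x)
    (inj : ∀ a b, A a → A b → cor a = cor b → a = b)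
    (hE : ∀ a, A a → ∀ y, IsEnd (SG Λ D w) y → (SG Λ D w).Reachable (cor a) y →
      ∃ b, A b ∧ cor b = y) : Act (SG Λ D w) A cor := by
  refine ⟨SG_deg2, hi, inj, fun a ha => ?_⟩
  obtain ⟨y, h1, h2, h3⟩ := sg_partner hΛ (hi a ha) (hn a ha)
  obtain ⟨b, hb, rfl⟩ := hE a ha y h2 h3
  exact ⟨b, hb, fun h => h1 (by rw [h]), h3⟩

variable {k : ℕ} {m qm qp : ℕ → ℤ × ℤ}

/-- **The link pattern is noncrossing** away from the interior end `z` and its partner -/
theorem sgp_nc (hm : Marks Λ k m qm qp) (h : Act (SG Λ D w) A cor)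
    (hC : ∀ i < k, ∀ j < k, ∀ o o', OutT Λ (m i) o → OutT Λ (m j) o' → TC Λ o o')
    (hD : ∀ i < k, ∀ e ∈ Λ, e ∈ D → eW e ≠ m i ∧ eE e ≠ m i)
    (hDo : ∀ e ∈ Λ, e ∈ D → (e.1 + e.2) % 2 = 1) {pos : α → ℤ} {z : α} {idx : α → ℕ}
    (hidx : ∀ a, A a → a ≠ z → idx a < k ∧ cor a = m (idx a))
    (hpos : ∀ a b, A a → A b → a ≠ z → b ≠ z → pos a < pos b → idx a < idx b)
    {x y : α} (hx : x ≠ z) (hx' : x ≠ sgp (SG Λ D w) A cor z) (hy : y ≠ z)
    (hy' : y ≠ sgp (SG Λ D w) A cor z) : NX pos (sgp (SG Λ D w) A cor) x y := by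
  rintro ⟨h1, h2, h3⟩
  set σ := sgp (SG Λ D w) A cor with hσ
  have ax : A x := (h.alive x).1 fun e => by rw [← hσ] at e; rw [e] at h2; omega
  have ay : A y := (h.alive y).1 fun e => by rw [← hσ] at e; rw [e] at h3; omega
  have asx := (h.sgp_mem ax).1
  have asy := (h.sgp_mem ay).1
  have zx : σ x ≠ z := fun e => hx' (by rw [← e, hσ, h.inv])
  have zy : σ y ≠ z := fun e => hy' (by rw [← e, hσ, h.inv])
  have r1 := (h.sgp_mem ax).2.2
  have r2 := (h.sgp_mem ay).2.2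
  rw [← hσ] at asx asy r1 r2
  obtain ⟨k1, c1⟩ := hidx x ax hx
  obtain ⟨k2, c2⟩ := hidx y ay hy
  obtain ⟨k3, c3⟩ := hidx _ asx zx
  obtain ⟨k4, c4⟩ := hidx _ asy zy
  have l1 := hpos _ _ ax ay hx hy h1
  have l2 := hpos _ _ ay asx hy zx h2
  have l3 := hpos _ _ asx asy zx zy h3
  rw [c1, c3] at r1
  rw [c2, c4] at r2
  refine sg_planar hm l1 l2 l3 k4 (hC _ k1 _ k3) (fun e he hd => ?_) hDo r1 r2
  obtain ⟨g1, g2⟩ := hD _ k1 e he hd
  obtain ⟨g3, g4⟩ := hD _ k3 e he hd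
  exact ⟨g1, g2, g3, g4⟩

/-- **The axioms `Ins` of the tangle table.** -/
theorem Ins_of (hm : Marks Λ k m qm qp) (h : Act (SG Λ D w) A cor)
    (hC : ∀ i < k, ∀ j < k, ∀ o o', OutT Λ (m i) o → OutT Λ (m j) o' → TC Λ o o')
    (hD : ∀ i < k, ∀ e ∈ Λ, e ∈ D → eW e ≠ m i ∧ eE e ≠ m i)
    (hDo : ∀ e ∈ Λ, e ∈ D → (e.1 + e.2) % 2 = 1) {pos : α → ℤ} {z mm x3 x4 : α} {idx : α → ℕ}
    {θ : α → α}
    (hidx : ∀ a, A a → a ≠ z → idx a < k ∧ cor a = m (idx a))
    (hpos : ∀ a b, A a → A b → a ≠ z → b ≠ z → pos a < pos b → idx a < idx b)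
    (pinj : ∀ x y, x ≠ z → y ≠ z → pos x = pos y → x = y)
    (hz : A z) (zθ : θ z = z) (zm : z ≠ mm) (z3 : z ≠ x3) (z4 : z ≠ x4)
    (act : ∀ y, A y ↔ (θ y ≠ y ∨ y = z ∨ y = mm ∨ y = x3 ∨ y = x4)) :
    Ins pos z mm x3 x4 (sgp (SG Λ D w) A cor) θ where
  inv := h.inv
  inj := pinj
  nc x y h1 h2 h3 h4 := sgp_nc hm h hC hD hDo hidx hpos h1 h2 h3 h4
  zθ := zθ
  zσ := (h.alive z).2 hz
  zm := zm
  z3 := z3
  z4 := z4
  act y := by rw [h.alive]; exact act y

end sg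

end Pool.Agent.H47.W
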