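import Pool.Agent.H47.W.Room1
import Pool.Agent.H99.W.Glue

set_option autoImplicit false
open Finset

/-! # Planarity of the strand graph, part 2: marks on the boundary

`BC Λ M p q` : the lattice points `p`, `q` are joined by boundary sides which do not belong to `M`.
`Marks Λ k m qm qp` : marks `m 0, .., m (k - 1)` in this order along the boundary.
`sg_planar` : a strand of `SG Λ D w` does not join `m i1` to `m i3` if another one joins `m i2` to
`m i4`, `i1 < i2 < i3 < i4`. -/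

namespace Pool.Agent.H47.W

open Pool.Agent.H75.Perc Pool.Agent.H75.TwoArm Pool.Agent.H99.W Pool.Agent.H13.W

/-- the side `c` joins the points `p`, `q` -/
def Jn (c p q : ℤ × ℤ) : Prop := (pa c = p ∧ pb c = q) ∨ (pa c = q ∧ pb c = p)

lemma Jn.symm {c p q : ℤ × ℤ} (h : Jn c p q) : Jn c q p := Or.symm h

/-- boundary side: one tile in `Λ`, the other one outside -/
def Bd (Λ : Set (ℤ × ℤ)) (c : ℤ × ℤ) : Prop := InT Λ c ∧ ∃ o, OutT Λ c o

/-- joined by boundary sides which do not belong to `M` -/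
def BC (Λ M : Set (ℤ × ℤ)) (p q : ℤ × ℤ) : Prop :=
  Relation.ReflTransGen (fun p q => ∃ c, Jn c p q ∧ Bd Λ c ∧ c ∉ M) p q

lemma BC.refl (Λ M : Set (ℤ × ℤ)) (p : ℤ × ℤ) : BC Λ M p p := Relation.ReflTransGen.refl

lemma BC.trans {Λ M : Set (ℤ × ℤ)} {p q r : ℤ × ℤ} (h : BC Λ M p q) (h' : BC Λ M q r) :
    BC Λ M p r := Relation.ReflTransGen.trans h h'

lemma BC.single {Λ M : Set (ℤ × ℤ)} {p q c : ℤ × ℤ} (h : Jn c p q) (hb : Bd Λ c) (hm : c ∉ M) :
    BC Λ M p q := Relation.ReflTransGen.single ⟨c, h, hb, hm⟩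

lemma BC.symm {Λ M : Set (ℤ × ℤ)} {p q : ℤ × ℤ} (h : BC Λ M p q) : BC Λ M q p := by
  induction h with
  | refl => exact BC.refl _ _ _
  | tail _ h ih =>
    obtain ⟨c, h1, h2, h3⟩ := h
    exact (BC.single h1.symm h2 h3).trans ih

lemma BC.mono {Λ M M' : Set (ℤ × ℤ)} {p q : ℤ × ℤ} (hM : M' ⊆ M) (h : BC Λ M p q) :
    BC Λ M' p q := by
  induction h with
  | refl => exact BC.refl _ _ _
  | tail _ h ih =>
    obtain ⟨c, h1, h2, h3⟩ := h
    exact ih.trans (BC.single h1 h2 fun k => h3 (hM k))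

/-- **Marks on the boundary** in the order of the indices; `qm i`, `qp i` : first and last point of the
side `m i`. -/
structure Marks (Λ : Set (ℤ × ℤ)) (k : ℕ) (m qm qp : ℕ → ℤ × ℤ) : Prop where
  jn : ∀ i < k, Jn (m i) (qm i) (qp i)
  bd : ∀ i < k, Bd Λ (m i)
  inj : ∀ i < k, ∀ j < k, m i = m j → i = j
  arc : ∀ i, i + 1 < k → BC Λ {c | ∃ j < k, c = m j} (qp i) (qm (i + 1))

section planar

variable {Λ D : Set (ℤ × ℤ)} {w : Finset (ℤ × ℤ)} {k : ℕ} {m qm qp : ℕ → ℤ × ℤ}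

lemma Bd.isEnd {c : ℤ × ℤ} (h : Bd Λ c) : IsEnd (SG Λ D w) c := h.2.choose_spec.isEnd

lemma eq_cases {a b c : ZMod 2} (h : a ≠ b) : c = a ∨ c = b := by
  revert a b c
  decide

/-- **The separating function of a strand between two marks** : `0` outside of the marks, `1` between
them. `C` : complement connected. -/
theorem Marks.exists_sep (hm : Marks Λ k m qm qp) {i1 i3 : ℕ} (h13 : i1 < i3) (h3 : i3 < k)
    (hC : ∀ o o', OutT Λ (m i1) o → OutT Λ (m i3) o' → TC Λ o o')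
    (hD : ∀ e ∈ Λ, e ∈ D → eW e ≠ m i1 ∧ eE e ≠ m i1 ∧ eW e ≠ m i3 ∧ eE e ≠ m i3)
    (hDo : ∀ e ∈ Λ, e ∈ D → (e.1 + e.2) % 2 = 1)
    (hr : (SG Λ D w).Reachable (m i1) (m i3)) :
    ∃ S : ℤ × ℤ → ZMod 2,
      (∀ c, InT Λ c → ¬ (SG Λ D w).Reachable (m i1) c → S (pb c) = S (pa c)) ∧
      (∀ c d, (SG Λ D w).Reachable c d → InT Λ c → ¬ (SG Λ D w).Reachable (m i1) c →
        S (pa c) = S (pa d)) ∧
      (∀ j < k, S (qm j) = if i1 < j ∧ j ≤ i3 then 1 else 0) ∧
      (∀ j < k, S (qp j) = if i1 ≤ j ∧ j < i3 then 1 else 0) ∧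
      (∀ c, Bd Λ c → c ≠ m i1 → c ≠ m i3 → S (pb c) = S (pa c)) := by
  have hb1 := hm.bd i1 (by omega)
  have hb3 := hm.bd i3 h3
  obtain ⟨o1, ho1⟩ := hb1.2
  obtain ⟨o3, ho3⟩ := hb3.2
  have hne : m i1 ≠ m i3 := fun h => by
    have := hm.inj i1 (by omega) i3 h3 h
    omega
  obtain ⟨S0, s1, s2, s3, s4⟩ := Pool.Agent.H47.W.exists_sep hr hne ho1 ho3 (hC _ _ ho1 ho3) hD hDo
  -- boundary sides which are not `m i1`, `m i3` do not belong to the strand
  have hoff : ∀ c, Bd Λ c → c ≠ m i1 → c ≠ m i3 → ¬ (SG Λ D w).Reachable (m i1) c := by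
    intro c hc h1 h3' h
    rcases ends_two SG_deg2 hb1.isEnd hb3.isEnd hc.isEnd hr h hne with h4 | h4
    · exact h1 h4
    · exact h3' h4
  have hbd : ∀ c, Bd Λ c → c ≠ m i1 → c ≠ m i3 → S0 (pb c) = S0 (pa c) := fun c hc h1 h3' =>
    s1 c hc.1 (hoff c hc h1 h3')
  have hJ : ∀ c p q, Jn c p q → Bd Λ c → c ≠ m i1 → c ≠ m i3 → S0 p = S0 q := by
    rintro c p q (⟨rfl, rfl⟩ | ⟨rfl, rfl⟩) hc h1 h3'
    · exact (hbd c hc h1 h3').symm
    · exact hbd c hc h1 h3'
  have hJ' : ∀ c p q, Jn c p q → S0 (pb c) = S0 (pa c) + 1 → S0 q = S0 p + 1 := by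
    rintro c p q (⟨rfl, rfl⟩ | ⟨rfl, rfl⟩) h
    · exact h
    · rw [h]
      have := z2_add_self (1 : ZMod 2)
      linear_combination -this
  have harc : ∀ i, i + 1 < k → S0 (qp i) = S0 (qm (i + 1)) := by
    intro i hi
    have h := hm.arc i hi
    have key : ∀ p q, BC Λ {c | ∃ j < k, c = m j} p q → S0 p = S0 q := by
      intro p q h
      induction h with
      | refl => rfl
      | tail _ h ih =>
        obtain ⟨c, h1, h2, h4⟩ := h
        rw [ih]
        refine hJ c _ _ h1 h2 (fun h5 => h4 ⟨i1, by omega, h5⟩) (fun h5 => h4 ⟨i3, h3, h5⟩)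
    exact key _ _ h
  have hmk : ∀ j < k, S0 (qp j) = S0 (qm j) + if j = i1 ∨ j = i3 then 1 else 0 := by
    intro j hj
    by_cases h1 : j = i1
    · rw [if_pos (Or.inl h1)]
      subst h1
      exact hJ' _ _ _ (hm.jn _ hj) s2
    · by_cases h4 : j = i3
      · rw [if_pos (Or.inr h4)]
        subst h4
        exact hJ' _ _ _ (hm.jn _ hj) s3
      · rw [if_neg (by tauto), add_zero]
        refine (hJ _ _ _ (hm.jn _ hj) (hm.bd _ hj) (fun h5 => h1 ?_) (fun h5 => h4 ?_)).symm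
        · exact hm.inj j hj i1 (by omega) h5
        · exact hm.inj j hj i3 h3 h5
  -- normalisation
  have hqm : ∀ j < k, S0 (qm j) = S0 (qm 0) + if i1 < j ∧ j ≤ i3 then 1 else 0 := by
    intro j
    induction j with
    | zero => intro _; rw [if_neg (by omega), add_zero]
    | succ j ih =>
      intro hj
      rw [← harc j hj, hmk j (by omega), ih (by omega)]
      have h2 := z2_add_self (1 : ZMod 2)
      by_cases a1 : j = i1
      · rw [if_neg (by omega), if_pos (Or.inl a1), if_pos (by omega)]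
        ring
      · by_cases a3 : j = i3
        · rw [if_pos (by omega), if_pos (Or.inr a3), if_neg (by omega)]
          linear_combination h2
        · by_cases a2 : i1 < j ∧ j ≤ i3
          · rw [if_pos a2, if_neg (by omega), if_pos (by omega)]
            ring
          · rw [if_neg a2, if_neg (by omega), if_neg (by omega)]
            ring
  refine ⟨fun p => S0 p + S0 (qm 0), ?_, ?_, ?_, ?_, ?_⟩
  · intro c h1 h2
    beta_reduce
    rw [s1 c h1 h2]
  · intro c d h1 h2 h4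
    beta_reduce
    rw [s4 c d h1 h2 h4]
  · intro j hj
    simp only
    rw [hqm j hj]
    have := z2_add_self (S0 (qm 0))
    linear_combination this
  · intro j hj
    simp only
    rw [hmk j hj, hqm j hj]
    have h2 := z2_add_self (1 : ZMod 2)
    have h4 := z2_add_self (S0 (qm 0))
    by_cases a1 : j = i1
    · rw [if_neg (by omega), if_pos (Or.inl a1), if_pos (by omega)]
      linear_combination h4
    · by_cases a3 : j = i3
      · rw [if_pos (by omega), if_pos (Or.inr a3), if_neg (by omega)]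
        linear_combination h2 + h4
      · by_cases a2 : i1 < j ∧ j ≤ i3
        · rw [if_pos a2, if_neg (by omega), if_pos (by omega)]
          linear_combination h4
        · rw [if_neg a2, if_neg (by omega), if_neg (by omega)]
          linear_combination h4
  · intro c h1 h2 h4
    simp only
    rw [hbd c h1 h2 h4]

/-- value of the separating function at a mark -/
lemma Marks.sep_mark (hm : Marks Λ k m qm qp) {i1 i3 : ℕ} {S : ℤ × ℤ → ZMod 2}
    (hS : ∀ j < k, S (qm j) = if i1 < j ∧ j ≤ i3 then 1 else 0)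
    (hS' : ∀ j < k, S (qp j) = if i1 ≤ j ∧ j < i3 then 1 else 0) {j : ℕ} (hj : j < k)
    (h1 : j ≠ i1) (h3 : j ≠ i3) : S (pa (m j)) = if i1 < j ∧ j < i3 then 1 else 0 := by
  rcases hm.jn j hj with ⟨h, -⟩ | ⟨h, -⟩
  · rw [h, hS j hj]
    by_cases a : i1 < j ∧ j < i3
    · rw [if_pos a, if_pos (by omega)]
    · rw [if_neg a, if_neg (by omega)]
  · rw [h, hS' j hj]
    by_cases a : i1 < j ∧ j < i3
    · rw [if_pos a, if_pos (by omega)]
    · rw [if_neg a, if_neg (by omega)]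

/-- **Planarity of the strand graph.** Two strands between marks do not cross. `Λ`, `D`, `w` are
arbitrary; the outer tiles of the marks `m i1`, `m i3` are joined outside of `Λ`. -/
theorem sg_planar (hm : Marks Λ k m qm qp) {i1 i2 i3 i4 : ℕ} (h12 : i1 < i2) (h23 : i2 < i3)
    (h34 : i3 < i4) (h4 : i4 < k)
    (hC : ∀ o o', OutT Λ (m i1) o → OutT Λ (m i3) o' → TC Λ o o')
    (hD : ∀ e ∈ Λ, e ∈ D → eW e ≠ m i1 ∧ eE e ≠ m i1 ∧ eW e ≠ m i3 ∧ eE e ≠ m i3)
    (hDo : ∀ e ∈ Λ, e ∈ D → (e.1 + e.2) % 2 = 1)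
    (hr : (SG Λ D w).Reachable (m i1) (m i3)) (hr' : (SG Λ D w).Reachable (m i2) (m i4)) :
    False := by
  obtain ⟨S, -, s2, s3, s4, -⟩ := hm.exists_sep (h12.trans h23) (by omega) hC hD hDo hr
  have hne : m i1 ≠ m i3 := fun h => by
    have := hm.inj i1 (by omega) i3 (by omega) h
    omega
  have hoff : ¬ (SG Λ D w).Reachable (m i1) (m i2) := by
    intro h
    rcases ends_two SG_deg2 (hm.bd i1 (by omega)).isEnd (hm.bd i3 (by omega)).isEnd
      (hm.bd i2 (by omega)).isEnd hr h hne with h5 | h5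
    · have := hm.inj i2 (by omega) i1 (by omega) h5
      omega
    · have := hm.inj i2 (by omega) i3 (by omega) h5
      omega
  have h5 := s2 _ _ hr' (hm.bd i2 (by omega)).1 hoff
  rw [hm.sep_mark s3 s4 (by omega) (by omega) (by omega), if_pos ⟨h12, h23⟩,
    hm.sep_mark s3 s4 h4 (by omega) (by omega), if_neg (by omega)] at h5
  exact one_ne_zero h5

end planar

/-! ### Partners -/

/-- partner of an end in a graph with finitely many edges -/
theorem exists_partner' {α : Type*} {G : SimpleGraph α} (hd : Deg2 G) {F : Set α} (hF : F.Finite)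
    (hG : ∀ x y, G.Adj x y → x ∈ F) {a : α} (ha : IsEnd G a) (hn : ∃ x, G.Adj a x) :
    ∃ b, b ≠ a ∧ IsEnd G b ∧ G.Reachable a b := by
  classical
  have : Finite F := hF
  obtain ⟨x, hx⟩ := hn
  have haF : a ∈ F := hG _ _ hx
  have hxF : x ∈ F := hG _ _ hx.symm
  set H : SimpleGraph F := G.induce F with hH
  have hadj : ∀ u v : F, H.Adj u v ↔ G.Adj u v := fun u v => Iff.rfl
  have hd' : Deg2 H := by
    intro v p q r h1 h2 h3
    rcases hd v p q r h1 h2 h3 with h | h | h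
    · exact Or.inl (Subtype.ext h)
    · exact Or.inr (Or.inl (Subtype.ext h))
    · exact Or.inr (Or.inr (Subtype.ext h))
  obtain ⟨b, h1, h2, h3⟩ := exists_partner (G := H) hd' (a := ⟨a, haF⟩)
    (fun p q h1 h2 => Subtype.ext (ha p q h1 h2)) ⟨⟨x, hxF⟩, hx⟩
  refine ⟨b, fun h => h1 (Subtype.ext h), ?_, ?_⟩
  · intro p q hp hq
    have e1 := h2 ⟨p, hG _ _ hp.symm⟩ ⟨q, hG _ _ hq.symm⟩ hp hq
    exact congrArg Subtype.val e1
  · obtain ⟨p⟩ := h3
    have key : ∀ (u v : F) (p : H.Walk u v), G.Reachable u v := by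
      intro u v p
      induction p with
      | nil => exact SimpleGraph.Reachable.refl _
      | @cons u v _ h _ ih =>
        have h' : G.Adj u v := h
        exact h'.reachable.trans ih
    exact key _ _ p

lemma SG_finite {Λ D : Set (ℤ × ℤ)} {w : Finset (ℤ × ℤ)} (hΛ : Λ.Finite) :
    ∃ F : Set (ℤ × ℤ), F.Finite ∧ ∀ x y, (SG Λ D w).Adj x y → x ∈ F := by
  refine ⟨(eW '' Λ) ∪ (eE '' Λ) ∪ (eS '' Λ) ∪ (eN '' Λ), ?_, ?_⟩
  · exact ((((hΛ.image _).union (hΛ.image _)).union (hΛ.image _)).union (hΛ.image _))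
  · rintro x y ⟨e, he, h⟩
    rcases side_cases x h.label with h1 | h1 | h1 | h1
    · exact Or.inl (Or.inl (Or.inl ⟨e, he, h1.symm⟩))
    · exact Or.inl (Or.inl (Or.inr ⟨e, he, h1.symm⟩))
    · exact Or.inl (Or.inr ⟨e, he, h1.symm⟩)
    · exact Or.inr ⟨e, he, h1.symm⟩

/-- **every strand end has a partner** -/
theorem sg_partner {Λ D : Set (ℤ × ℤ)} {w : Finset (ℤ × ℤ)} (hΛ : Λ.Finite) {a : ℤ × ℤ}
    (ha : IsEnd (SG Λ D w) a) (hn : ∃ x, (SG Λ D w).Adj a x) :
    ∃ b, b ≠ a ∧ IsEnd (SG Λ D w) b ∧ (SG Λ D w).Reachable a b := by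
  obtain ⟨F, hF, hG⟩ := SG_finite (D := D) (w := w) hΛ
  exact exists_partner' SG_deg2 hF hG ha hn

end Pool.Agent.H47.W
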