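import Pool.Agent.H47.W.Room15
import Pool.Agent.H29.W.RoomY

set_option autoImplicit false
open Finset

/-! # Planarity of the strand graph, part 16: the form needed for the outside of a fine room

`plnC_S` : helper29's structure `PlnC` for the world of a shape; the far ends are counted counterclockwise from
the exit (`oj`). -/

namespace Pool.Agent.H47.W

open Pool.Agent.H75.Perc hiding WL CT hh PB
open Pool.Agent.H75.TwoArm Pool.Agent.H99.W Pool.Agent.H13.W
open Pool.Agent.H33.Q1
open Pool.Agent.H33.FM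
open Pool.Agent.Q1.M4 (Cell Good IsSide nextSide tail head PType Adj4 Conn4)
open Pool.Agent.H54.W (CD)
open Pool.Agent.H21.W (RP tr_lt)
open Pool.Agent.H21.FM
open Pool.Agent.H20.W
open Pool.Agent.H45.W (tr)
open Pool.Agent.H29.W (BLk TLk Lc sn sw nw PlnC Dgn fBL fTL fSE fNE qBL qTL qSE qNE Mk_cases)
open Pool.Agent.H74.W (Lam3 Del Ex Wp yy GW Cv)
open Pool.Agent.H78.W (FRm)

lemma Lc_eq (C : CD) (n s : ℤ) (Λ : Set (ℤ × ℤ)) : Lc C n s Λ = LamX Λ C n s := by
  ext e
  unfold Lc LamX Rem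
  simp only [Set.mem_ofPred_eq, not_exists, not_and, not_or]

lemma tr_eS (s x y : ℤ) : tr (-s) s (eS (lt (x, y))) = eS (lt (x, y + s)) := by
  unfold tr eS lt
  refine Prod.ext ?_ ?_ <;> simp only <;> ring

lemma tr_eW (s x y : ℤ) : tr (-s) s (eW (lt (x, y))) = eW (lt (x, y + s)) := by
  unfold tr eW lt
  refine Prod.ext ?_ ?_ <;> simp only <;> ring

section

variable {C : CD} {n s : ℤ} {c0 : Bool}

/-- the sides `sw` are sides at the corners -/
lemma sw_SK (hn : 8 ≤ n) (a : {k // Mk C c0 k}) : SK C n s a.1 (sw C n s c0 a) ∧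
    (wd C c0 a.1 ≠ 2 → ∀ y, sw C n s c0 a ≠ hz (n * C.W) y) := by
  obtain ⟨k, hk⟩ := a
  have H0 := C.H0
  have ltW : ∀ k, 0 ≤ k → k < C.H → n * C.A k + n ≤ n * C.W := by
    intro k h1 h2
    have := C.AW k h1 h2
    nlinarith
  have nz : ∀ x y x' y' : ℤ, x < x' → eS (lt (x, y)) ≠ hz x' y' := by
    intro x y x' y' h e
    unfold eS lt hz at e
    simp only [Prod.mk.injEq] at e
    omega
  have nv : ∀ x y x' y' : ℤ, eW (lt (x, y)) ≠ hz x' y' := by
    intro x y x' y' e
    unfold eW lt hz at e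
    simp only [Prod.mk.injEq] at e
    omega
  unfold sw sn
  simp only
  rcases Mk_cases hk with rfl | h | h | rfl
  · have g := (fSE (C := C) (cr := fun _ => c0) (c0 := c0) hn rfl).2.2
    rw [qSE.1, qSE.2, mul_zero]
    by_cases h1 : col C c0 (-1) = false
    · rw [if_pos h1] at g
      rw [if_pos g, tr_eS, zero_add]
      exact ⟨.se2, fun h => absurd g h⟩
    · rw [if_neg h1] at g
      rw [if_neg (by rw [g]; decide), if_neg (by rw [g]; decide), if_pos g, if_pos rfl, tr_eS, zero_add]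
      exact ⟨.se1, fun _ y => nz _ _ _ _ (by omega)⟩
  · obtain ⟨q1, q2, q3, q4⟩ := qBL h
    have g := (fBL (cr := fun _ => c0) (c0 := c0) hn h).2.2
    have hk2 : k ≠ -1 := by rcases h with h | h <;> omega
    rw [q3, q4]
    by_cases h1 : col C c0 k = false
    · rw [if_pos h1] at g
      rw [if_neg (by rw [g]; decide), if_neg (by rw [g]; decide), if_pos g, if_neg hk2, tr_eS]
      refine ⟨.bl1 k h, fun _ y => nz _ _ _ _ ?_⟩
      have := ltW k (by rcases h with h | h <;> omega) (by rcases h with h | h <;> omega)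
      omega
    · rw [if_neg h1] at g
      rw [if_neg (by rw [g]; decide), if_neg (by rw [g]; decide), if_neg (by rw [g]; decide),
        if_pos h, tr_eW]
      exact ⟨.bl3 k h, fun _ y => nv _ _ _ _⟩
  · obtain ⟨q1, q2, q3, q4⟩ := qTL h
    have g := (fTL (cr := fun _ => c0) (c0 := c0) hn h).2.2
    have hk2 : k ≠ C.H + 1 := by rcases h with h | h <;> omega
    have hk3 : ¬ BLk C k := by
      unfold BLk
      rcases h with h | h <;> omega
    rw [q3, q4]
    by_cases h1 : col C c0 k = false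
    · rw [if_pos h1] at g
      rw [if_neg (by rw [g]; decide), if_neg (by rw [g]; decide), if_neg (by rw [g]; decide),
        if_neg hk3, tr_eW]
      have e : n * k - 1 + s = n * k + s - 1 := by ring
      rw [e]
      exact ⟨.tl3 k h, fun _ y => nv _ _ _ _⟩
    · rw [if_neg h1] at g
      rw [if_neg (by rw [g]; decide), if_pos g, if_neg hk2, tr_eS]
      refine ⟨.tl0 k h, fun _ y => nz _ _ _ _ ?_⟩
      have := ltW (k - 1) (by rcases h with h | h <;> omega) (by rcases h with h | h <;> omega)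
      omega
  · have g := (fNE (C := C) (cr := fun _ => !c0) (c0 := c0) hn rfl).2.2
    rw [qNE.1, qNE.2]
    by_cases h1 : col C c0 (C.H + 1) = false
    · rw [if_pos h1] at g
      rw [if_neg (by rw [g]; decide), if_pos g, if_pos rfl, tr_eS]
      exact ⟨.ne0, fun _ y => nz _ _ _ _ (by omega)⟩
    · rw [if_neg h1] at g
      rw [if_pos g, tr_eS]
      exact ⟨.ne2, fun h => absurd g h⟩

/-- a named end on the right is at a corner of the right wall -/
lemma nw_SE (a : {k // Mk C c0 k}) (hn : 8 ≤ n) (ha : a.1 = -1) :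
    nw C n s c0 a = hz (n * C.W) s ∨ nw C n s c0 a = vt (n * C.W) (s - 1) := by
  obtain ⟨k, hk⟩ := a
  simp only at ha
  subst ha
  have g := (fSE (C := C) (cr := fun _ => c0) (c0 := c0) hn rfl).2.2
  unfold nw nm sdp
  simp only
  rw [qSE.1, qSE.2, mul_zero]
  by_cases h1 : col C c0 (-1) = false
  · rw [if_pos h1] at g
    rw [if_neg (by rw [g]; decide), if_neg (by rw [g]; decide), if_pos g, tr_eS, zero_add]
    left
    rw [← vt_eq_lt, eS_vt]
  · rw [if_neg h1] at g
    rw [if_neg (by rw [g]; decide), if_pos g, tr_eW, ← vt_eq_lt, eW_vt]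
    right
    congr 1
    ring

lemma nw_NE (a : {k // Mk C c0 k}) (hn : 8 ≤ n) (ha : a.1 = C.H + 1) :
    nw C n s c0 a = hz (n * C.W) (n * C.H + s) ∨ nw C n s c0 a = vt (n * C.W) (n * C.H + s) := by
  obtain ⟨k, hk⟩ := a
  simp only at ha
  subst ha
  have g := (fNE (C := C) (cr := fun _ => !c0) (c0 := c0) hn rfl).2.2
  unfold nw nm sdp
  simp only
  rw [qNE.1, qNE.2]
  by_cases h1 : col C c0 (C.H + 1) = false
  · rw [if_pos h1] at g
    rw [if_pos g, tr_eW, ← vt_eq_lt, eW_vt]
    exact Or.inr rfl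
  · rw [if_neg h1] at g
    rw [if_neg (by rw [g]; decide), if_neg (by rw [g]; decide), if_pos g, tr_eS, ← vt_eq_lt, eS_vt]
    exact Or.inl rfl

/-- width 2 : the named end is the horizontal side at the corner of the right wall -/
lemma wd2 (hn : 8 ≤ n) (a : {k // Mk C c0 k}) (h : wd C c0 a.1 = 2) :
    (a.1 = -1 ∧ nw C n s c0 a = hz (n * C.W) s ∧ sw C n s c0 a = hz (n * C.W) s) ∨
    (a.1 = C.H + 1 ∧ nw C n s c0 a = hz (n * C.W) (n * C.H + s) ∧
      sw C n s c0 a = hz (n * C.W) (n * C.H + s)) := by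
  obtain ⟨k, hk⟩ := a
  simp only at h
  rcases Mk_cases hk with rfl | h1 | h1 | rfl
  · left
    unfold nw nm sdp sw sn
    simp only
    rw [qSE.1, qSE.2, mul_zero, if_neg (by rw [h]; decide), if_neg (by rw [h]; decide), if_pos h,
      if_pos h, tr_eS, zero_add, ← vt_eq_lt, eS_vt]
    refine ⟨?_, rfl, rfl⟩
    first | rfl | trivial
  · exfalso
    have g := (fBL (cr := fun _ => c0) (c0 := c0) hn h1).2.2
    rw [h] at g
    split_ifs at g
    · exact absurd g (by decide)
    · exact absurd g (by decide)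
  · exfalso
    have g := (fTL (cr := fun _ => c0) (c0 := c0) hn h1).2.2
    rw [h] at g
    split_ifs at g
    · exact absurd g (by decide)
    · exact absurd g (by decide)
  · right
    unfold nw nm sdp sw sn
    simp only
    rw [qNE.1, qNE.2, if_neg (by rw [h]; decide), if_neg (by rw [h]; decide), if_pos h,
      if_pos h, tr_eS, ← vt_eq_lt, eS_vt]
    refine ⟨?_, rfl, rfl⟩
    first | rfl | trivial

end

/-- lattice point of a multiple of `n` at one end of a side -/
lemma sd_corner {n : ℤ} (hn : 8 ≤ n) {s : Cell × ℤ} {b : Bool} {X Y : ℤ}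
    (h : mkS n s b = hz (n * X) (n * Y) ∨ mkS n s b = vt (n * X) (n * Y - 1) ∨
      mkS n s b = vt (n * X) (n * Y)) : tail s + dir s.2 = (X, Y) := by
  have e : wp n s n = (n * (tail s + dir s.2).1, n * (tail s + dir s.2).2) := by
    unfold wp
    refine Prod.ext ?_ ?_ <;> simp only [Prod.fst_add, Prod.snd_add] <;> ring
  set V := tail s + dir s.2 with hV
  have hk : ∃ k, mkS n s b = sd (n * V.1, n * V.2) k := by
    cases b with
    | true => exact ⟨_, by rw [mkS_true, e]⟩
    | false => exact ⟨_, by rw [mkS_false, e]⟩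
  obtain ⟨k, hk⟩ := hk
  rw [hk] at h
  have mul : ∀ a b : ℤ, n * a = n * b → a = b := fun a b h => by
    exact mul_left_cancel₀ (by omega) h
  have mul1 : ∀ a b : ℤ, n * a - 1 ≠ n * b := by
    intro a b h
    have h1 : n * (a - b) = 1 := by ring_nf; linarith
    have h2 : n ∣ 1 := ⟨a - b, h1.symm⟩
    have := Int.le_of_dvd (by norm_num) h2
    omega
  unfold sd hz vt at h
  simp only at h
  have hV' : V = (V.1, V.2) := rfl
  rw [hV']
  split_ifs at h <;> simp only [Prod.mk.injEq] at h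
  all_goals
    first
    | (rcases h with ⟨h1, h2⟩ | ⟨h1, h2⟩ | ⟨h1, h2⟩ <;>
        first
        | exact Prod.ext (mul V.1 X (by omega)) (mul V.2 Y (by omega))
        | (exfalso; omega)
        | (exfalso; exact mul1 V.1 X (by omega))
        | (exfalso; exact mul1 V.2 Y (by omega))
        | (exfalso; exact mul1 Y V.2 (by omega)))

namespace CutH

variable {P : PType} {n : ℤ} {mk : ℕ → Prop} {Λ0 : Set (ℤ × ℤ)} {C : CD} {y0 : ℤ} {t0 : ℕ}
  {u : Fin 3 → ℕ} (H : CutH P n mk Λ0 C y0 t0 u)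

include H

/-- a mark at a corner of the right wall -/
lemma mark_corner {i : Fin 3} {Y : ℤ} (h0 : 0 ≤ Y) (h1 : Y ≤ C.H)
    (hv : tail (P.side (u i)) + dir (P.side (u i)).2 = (C.W, y0 + Y)) :
    (0 < Y ∧ (P.side (u i)).1 = (C.W - 1, y0 + Y - 1) ∧ (P.side (u i)).2 % 4 = 1) ∨
    (Y < C.H ∧ (P.side (u i + 1)).1 = (C.W - 1, y0 + Y) ∧ (P.side (u i + 1)).2 % 4 = 1) := by
  have hs := isSide_side' P (u i)
  have hc := H.hL.cvx _ (H.um i)
  have hs2 := isSide_side' P (u i + 1)
  rw [hc] at hs2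
  rw [hc]
  obtain ⟨d0, d1, d2, d3⟩ := dir_vals
  set s := P.side (u i) with hsd
  obtain ⟨c, k⟩ := s
  obtain ⟨hq, hq'⟩ := hs
  obtain ⟨-, hq2⟩ := hs2
  have ek : k + 1 - 1 = k := by ring
  simp only [ek] at hq hq' hq2 hv ⊢
  unfold tail at hv
  simp only at hv
  have inn := H.inn
  have rt := H.rt
  have hA : ∀ Z, 0 ≤ Z → Z < C.H → (C.W - 1, y0 + Z) ∈ P.Q := fun Z a b =>
    inn _ _ a b (by have := C.AW Z a b; omega) (by omega)
  have hR : ∀ Z, -1 ≤ Z → Z ≤ C.H → (C.W, y0 + Z) ∉ P.Q := rt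
  rcases dir_cases k with ⟨a, e⟩ | ⟨a, e⟩ | ⟨a, e⟩ | ⟨a, e⟩
  · -- bottom side of the cell `c`
    rw [if_pos a, e] at hv
    rw [Prod.ext_iff] at hv
    simp only [Prod.fst_add, Prod.snd_add, add_zero] at hv
    have hc1 : c = (C.W - 1, y0 + Y) := Prod.ext (by simp only; omega) hv.2
    have hd : dir (k - 1) = (0, -1) := by
      rw [← d3]; exact dir_congr (by omega)
    right
    refine ⟨?_, hc1, by omega⟩
    by_contra hY
    have hYH : Y = C.H := by omega
    rw [hc1, hd] at hq'
    apply hq'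
    have := hA (C.H - 1) (by have := C.H0; omega) (by omega)
    have e2 : ((C.W - 1, y0 + Y) + (0, -1) : ℤ × ℤ) = (C.W - 1, y0 + (C.H - 1)) := by
      rw [Prod.mk_add_mk, hYH]
      exact Prod.ext (by simp) (by simp only; ring)
    rw [e2]
    exact this
  · -- right side
    rw [if_neg (by omega), if_pos a, e] at hv
    rw [Prod.ext_iff] at hv
    simp only [Prod.fst_add, Prod.snd_add, add_zero] at hv
    have hc1 : c = (C.W - 1, y0 + Y - 1) := Prod.ext (by simp only; omega) (by simp only; omega)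
    left
    refine ⟨?_, hc1, a⟩
    by_contra hY
    have hY0 : Y = 0 := by omega
    rw [hc1, e] at hq2
    apply hq2
    have := hA 0 le_rfl (by have := C.H0; omega)
    have e2 : ((C.W - 1, y0 + Y - 1) + (0, 1) : ℤ × ℤ) = (C.W - 1, y0 + 0) := by
      rw [Prod.mk_add_mk, hY0]
      exact Prod.ext (by simp) (by simp only; ring)
    rw [e2]
    exact this
  · -- top side
    exfalso
    rw [if_neg (by omega), if_neg (by omega), if_pos a, e] at hv
    rw [Prod.ext_iff] at hv
    simp only [Prod.fst_add, Prod.snd_add, add_zero] at hv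
    have hc1 : c = (C.W, y0 + (Y - 1)) := Prod.ext (by simp only; omega) (by simp only; omega)
    exact hR (Y - 1) (by omega) (by omega) (hc1 ▸ hq)
  · -- left side
    exfalso
    rw [if_neg (by omega), if_neg (by omega), if_neg (by omega), e] at hv
    rw [Prod.ext_iff] at hv
    simp only [Prod.fst_add, Prod.snd_add, add_zero] at hv
    have hc1 : c = (C.W, y0 + Y) := Prod.ext (by simp only; omega) (by simp only; omega)
    exact hR Y (by omega) h1 (hc1 ▸ hq)

lemma lt_u (i : Fin 3) : t0 + C.H.toNat ≤ u i + 1 ∧ u i < t0 + P.N := by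
  have h1 := H.u0
  have h2 := H.u01
  have h3 := H.u12
  have h4 := H.u2
  fin_cases i <;> simp only [Fin.zero_eta, Fin.mk_one, Fin.reduceFinMk] <;> omega

/-- a mark at the start of the right wall is the last one -/
lemma mark_SE {i : Fin 3} (hv : tail (P.side (u i)) + dir (P.side (u i)).2 = (C.W, y0)) : i = 2 := by
  have h0 := C.H0
  rcases H.mark_corner (i := i) (Y := 0) le_rfl h0.le (by rw [add_zero]; exact hv) with ⟨h, -⟩ | ⟨-, h1, h2⟩
  · exact absurd h (lt_irrefl _)
  · rw [add_zero, ← H.t0c] at h1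
    have hk := H.t0k
    have hm := H.side_injP h1 (by omega)
    obtain ⟨g1, g2⟩ := H.lt_u i
    have h5 := (Nat.modEq_iff_dvd' (by omega : t0 ≤ u i + 1)).1 (show t0 ≡ u i + 1 [MOD P.N] from hm.symm)
    have h6 := Nat.le_of_dvd (by omega) h5
    have h3 := H.u01
    have h4 := H.u12
    have h7 := H.u2
    have : u i + 1 = t0 + P.N := by omega
    fin_cases i
    · simp only [Fin.zero_eta] at this; omega
    · simp only [Fin.mk_one] at this; omega
    · rfl

/-- a mark at the end of the right wall is the first one -/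
lemma mark_NE {i : Fin 3} (hv : tail (P.side (u i)) + dir (P.side (u i)).2 = (C.W, y0 + C.H)) :
    i = 0 := by
  have h0 := C.H0
  rcases H.mark_corner (i := i) (Y := C.H) h0.le le_rfl hv with ⟨-, h1, h2⟩ | ⟨h, -⟩
  · have hH : ((C.H - 1).toNat : ℤ) = C.H - 1 := Int.toNat_of_nonneg (by omega)
    obtain ⟨w1, w2⟩ := H.wall (j := (C.H - 1).toNat) (by omega)
    have e1 : (P.side (u i)).1 = (P.side (t0 + (C.H - 1).toNat)).1 := by
      rw [w1, h1, hH]
      refine Prod.ext rfl ?_
      simp only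
      ring
    have hm := H.side_injP e1 (by omega)
    obtain ⟨g1, g2⟩ := H.lt_u i
    have hle : t0 + (C.H - 1).toNat ≤ u i := by omega
    have h5 := (Nat.modEq_iff_dvd' hle).1 (show t0 + (C.H - 1).toNat ≡ u i [MOD P.N] from hm.symm)
    have h3 := H.u01
    have h4 := H.u12
    have h7 := H.u0
    have : u i = t0 + (C.H - 1).toNat := by
      by_contra hne
      have h6 := Nat.le_of_dvd (by omega) h5
      omega
    fin_cases i
    · rfl
    · simp only [Fin.mk_one] at this; omega
    · simp only [Fin.reduceFinMk] at this; omega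
  · exact absurd h (lt_irrefl _)

end CutH

section shape

variable {S : Shape} {h : ℕ} {κ : Type*} {pl : Cell → Option κ} {W y0 y1 : ℤ} {A : ℤ → ℤ} {C : CD}

/-- **Planarity outside of a fine room.** The far ends are counted counterclockwise from the exit. -/
theorem plnC_S (hh : 4 ≤ h) (R : FRm S.P.Q pl W y0 y1 A) (hH : C.H = y1 - y0) (hW : C.W = W)
    (hA : ∀ Y, 0 ≤ Y → Y < C.H → C.A Y = A (y0 + Y)) {t0 : ℕ} (ht : t0 < S.N)
    (tc : (S.P.side t0).1 = (W - 1, y0)) (tk : (S.P.side t0).2 % 4 = 1) (c0 : Bool) (q : ℤ × ℤ)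
    {D : Set (ℤ × ℤ)} {w : Finset (ℤ × ℤ)}
    (hD : Disjoint D (Lc C (2 * h) (2 * h * y0) (Lam3 S h : Set (ℤ × ℤ)))) :
    PlnC C (2 * h) (2 * h * y0) c0 (Lam3 S h : Set (ℤ × ℤ)) D w (fun i => yy S h q (oj S t0 i)) := by
  have H := cutH_S hh R hH hW hA ht tc tk
  have hn := H.hn
  rw [Lc_eq] at hD
  have pl := fun (c : Fin 4 → ℤ × ℤ) (p : Fin 4 → ℤ) hp hc hi =>
    cut_planar_S (c := c) (p := p) hh R hH hW hA ht tc tk q hD (w := w) hp hc hi
  -- the sides which are not at a degenerate mark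
  have inT : ∀ a : {k // Mk C c0 k}, ¬ Dgn C (2 * h) (2 * h * y0) c0 (Lam3 S h : Set (ℤ × ℤ)) a →
      InT (LamX (Lam3 S h : Set (ℤ × ℤ)) C (2 * h) (2 * h * y0)) (sw C (2 * h) (2 * h * y0) c0 a) := by
    intro a ha
    by_cases h2 : wd C c0 a.1 = 2
    · have ho : ∀ e, Pool.Agent.H45.W.od e →
          Pool.Agent.H45.W.sq (nw C (2 * h) (2 * h * y0) c0 a) e → e ∈ Lam3 S h := by
        intro e h3 h4
        by_contra h5
        exact ha ⟨h2, e, h3, h4, h5⟩
      rcases wd2 hn a h2 with ⟨-, g1, g2⟩ | ⟨-, g1, g2⟩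
      · rw [g2, InT_hz]
        right
        refine ⟨ho _ (Pool.Agent.H29.W.od_lt _ _) ?_, ?_⟩
        · rw [g1]
          unfold Pool.Agent.H45.W.sq hz vt
          simp only
          omega
        · rw [H.mem_Rem' (eS := 0) (eN := 0)]
          omega
      · rw [g2, InT_hz]
        left
        refine ⟨ho _ (Pool.Agent.H29.W.od_lt _ _) ?_, ?_⟩
        · rw [g1]
          unfold Pool.Agent.H45.W.sq hz vt
          simp only
          omega
        · rw [H.mem_Rem' (eS := 0) (eN := 0)]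
          omega
    · have hk := sw_SK (s := 2 * h * y0) hn a
      exact H.SK_inT hk.1 (hk.2 h2 _) (hk.2 h2 _)
  -- the interior marks are not degenerate
  have mid : ∀ a b : {k // Mk C c0 k}, a.1 < b.1 → b.1 < C.H + 1 →
      ¬ Dgn C (2 * h) (2 * h * y0) c0 (Lam3 S h : Set (ℤ × ℤ)) b := by
    intro a b hab hbc hd
    have h1 := a.2.1
    rcases wd2 (s := 2 * h * y0) hn b hd.1 with ⟨g, -⟩ | ⟨g, -⟩ <;> omega
  have yS : ∀ (b : {k // Mk C c0 k}) (j : Fin 3),
      ¬ Dgn C (2 * h) (2 * h * y0) c0 (Lam3 S h : Set (ℤ × ℤ)) b →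
      (SG (LamX (Lam3 S h : Set (ℤ × ℤ)) C (2 * h) (2 * h * y0)) D w).Reachable
        (sw C (2 * h) (2 * h * y0) c0 b) (yy S h q (oj S t0 j)) →
      InT (LamX (Lam3 S h : Set (ℤ × ℤ)) C (2 * h) (2 * h * y0)) (yy S h q (oj S t0 j)) := by
    intro b j hb hr
    obtain ⟨bb, hbb⟩ := yy_uS (S := S) (h := h) q t0
    have hne : sw C (2 * h) (2 * h * y0) c0 b ≠ yy S h q (oj S t0 j) := by
      rw [hbb j]
      exact H.SK_ne_mk (sw_SK hn b).1 (inT b hb) (H.um j) _
    obtain ⟨c, hc⟩ := Pool.Agent.H29.W.adj_of_reach' hr.symm hne.symm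
    exact InT.of_adj hc
  have sk := fun a => (sw_SK (C := C) (c0 := c0) (s := 2 * h * y0) hn a).1
  have vert : ∀ (i : Fin 3) (Y : ℤ), (yy S h q (oj S t0 i) = hz (2 * h * C.W) (2 * h * Y) ∨
      yy S h q (oj S t0 i) = vt (2 * h * C.W) (2 * h * Y - 1) ∨
      yy S h q (oj S t0 i) = vt (2 * h * C.W) (2 * h * Y)) →
      tail (S.P.side (uS S t0 i)) + dir (S.P.side (uS S t0 i)).2 = (C.W, Y) := by
    intro i Y hv
    obtain ⟨bb, hbb⟩ := yy_uS (S := S) (h := h) q t0
    rw [hbb i] at hv
    exact sd_corner hn hv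
  constructor
  · intro a b c d hab hbc hcd ha hd h1 h2
    rw [Lc_eq] at h1 h2
    refine pl ![sw C (2 * h) (2 * h * y0) c0 a, sw C (2 * h) (2 * h * y0) c0 b,
      sw C (2 * h) (2 * h * y0) c0 c, sw C (2 * h) (2 * h * y0) c0 d] ![a.1, b.1, c.1, d.1]
      ?_ ?_ ?_ h1 h2
    · rw [Fin.strictMono_iff_lt_succ]
      intro i
      fin_cases i
      · exact hab
      · exact hbc
      · exact hcd
    · intro i
      left
      fin_cases i
      · exact sk a
      · exact sk b
      · exact sk c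
      · exact sk d
    · have h3 := d.2.2.1
      intro i
      fin_cases i
      · exact inT a ha
      · exact inT b (mid a b hab (by omega))
      · exact inT c (mid b c hbc (by omega))
      · exact inT d hd
  · intro a b c hab hbc j ha hc h1 h2
    rw [Lc_eq] at h1 h2
    have h3 := c.2.2.1
    have hb := mid a b hab (by omega)
    refine pl ![sw C (2 * h) (2 * h * y0) c0 a, sw C (2 * h) (2 * h * y0) c0 b,
      sw C (2 * h) (2 * h * y0) c0 c, yy S h q (oj S t0 j)] ![a.1, b.1, c.1, C.H + 2 + (j.val : ℤ)]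
      ?_ ?_ ?_ h1 h2
    · rw [Fin.strictMono_iff_lt_succ]
      intro i
      fin_cases i
      · exact hab
      · exact hbc
      · show c.1 < C.H + 2 + (j.val : ℤ)
        omega
    · intro i
      fin_cases i
      · exact Or.inl (sk a)
      · exact Or.inl (sk b)
      · exact Or.inl (sk c)
      · exact Or.inr ⟨j, rfl, rfl⟩
    · intro i
      fin_cases i
      · exact inT a ha
      · exact inT b hb
      · exact inT c hc
      · exact yS b j hb h2
  · intro a b hab i j hij ha hb h1 h2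
    rw [Lc_eq] at h1 h2
    have h3 := b.2.2.1
    refine pl ![sw C (2 * h) (2 * h * y0) c0 a, sw C (2 * h) (2 * h * y0) c0 b,
      yy S h q (oj S t0 i), yy S h q (oj S t0 j)]
      ![a.1, b.1, C.H + 2 + (i.val : ℤ), C.H + 2 + (j.val : ℤ)] ?_ ?_ ?_ h1 h2
    · rw [Fin.strictMono_iff_lt_succ]
      intro t
      fin_cases t
      · exact hab
      · show b.1 < C.H + 2 + (i.val : ℤ)
        omega
      · show C.H + 2 + (i.val : ℤ) < C.H + 2 + (j.val : ℤ)
        have : i.val < j.val := hij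
        omega
    · intro t
      fin_cases t
      · exact Or.inl (sk a)
      · exact Or.inl (sk b)
      · exact Or.inr ⟨i, rfl, rfl⟩
      · exact Or.inr ⟨j, rfl, rfl⟩
    · intro t
      fin_cases t
      · exact inT a ha
      · exact inT b hb
      · exact yS a i ha h1
      · exact yS b j hb h2
  · intro a ha i hi
    refine H.mark_SE (vert i y0 ?_)
    rw [hi]
    rcases nw_SE (s := 2 * h * y0) a hn ha with g | g
    · exact Or.inl g
    · exact Or.inr (Or.inl g)
  · intro a ha i hi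
    refine H.mark_NE (vert i (y0 + C.H) ?_)
    rw [hi]
    have e : 2 * (h : ℤ) * (y0 + C.H) = 2 * h * C.H + 2 * h * y0 := by ring
    rw [e]
    rcases nw_NE (s := 2 * h * y0) a hn ha with g | g
    · exact Or.inl g
    · exact Or.inr (Or.inr g)

end shape

end Pool.Agent.H47.W
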