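import Pool.Agent.H47.W.Room7
import Pool.Agent.H74.W.World
import Pool.Agent.H33.FM.Wires

set_option autoImplicit false
open Finset

/-! # Planarity of the strand graph, part 8: the third end in the glued world of a shape

`third_end_poly` : a block near the outer boundary between the marks `x` and `y` of a polygon with wall
layers: the strand of the interior end does not arrive at the third mark.
`lamV3` : the region `Lam3` of World.lean. `third_end_V` : the same for the world `GW`. -/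

namespace Pool.Agent.H47.W

open Pool.Agent.H75.Perc hiding WL CT hh PB
open Pool.Agent.H75.TwoArm Pool.Agent.H99.W Pool.Agent.H13.W
open Pool.Agent.H33.Q1 Pool.Agent.H21.FM
open Pool.Agent.Q1.M4 (Cell Good IsSide nextSide tail head PType Adj4 Conn4)
open Pool.Agent.H5.Q1 (oc)
open Pool.Agent.H33.FM (side_isSide)
open Pool.Agent.H37.W (dg dg_eq dg_inj dg_not_LY dg_not_EE)
open Pool.Agent.H74.W (Lam3 Del Ex Wp yy GW Cv)

/-! ### General polygons -/

section poly

variable {P : PType} {n : ℤ} {mk : ℕ → Prop} {Λ D I : Set (ℤ × ℤ)} {w : Finset (ℤ × ℤ)}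

/-- marks of different diagonal tiles are different -/
lemma mkS_ne_of (hn : 4 ≤ n) (hL : LamV P n mk Λ) {i j : ℕ} (hi : mk (i + 1)) (hj : mk (j + 1))
    (hd : ott n (P.side i) n 1 ≠ ott n (P.side j) n 1) (b b' : Bool) :
    mkS n (P.side i) b ≠ mkS n (P.side j) b' := by
  intro h
  have h1 := (mark_out hn hL hi b (o := lt (ott n (P.side i) n 1))).2 rfl
  rw [h] at h1
  exact hd (lt_inj ((mark_out hn hL hj b').1 h1))

lemma mkS_b {n : ℤ} {s : Cell × ℤ} {b b' : Bool} (h : mkS n s b = mkS n s b') : b = b' := by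
  cases b <;> cases b'
  · rfl
  · exact absurd h.symm (mkS_ne n s)
  · exact absurd h (mkS_ne n s)
  · rfl

/-- **The third end, polygon form.** -/
theorem third_end_poly (hn : 4 ≤ n) (hL : LamV P n mk Λ) {ix iy iu : ℕ} {bx bY bu : Bool}
    (mx : mk (ix + 1)) (my : mk (iy + 1)) (mu : mk (iu + 1))
    (dyx : ott n (P.side iy) n 1 ≠ ott n (P.side ix) n 1)
    (dux : ott n (P.side iu) n 1 ≠ ott n (P.side ix) n 1)
    (duy : ott n (P.side iu) n 1 ≠ ott n (P.side iy) n 1)
    (hdo : ∀ e ∈ Λ, e ∈ D → (e.1 + e.2) % 2 = 1)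
    (hD : ∀ e ∈ Λ, e ∈ D → eW e ≠ mkS n (P.side ix) bx ∧ eE e ≠ mkS n (P.side ix) bx ∧
      eW e ≠ mkS n (P.side iy) bY ∧ eE e ≠ mkS n (P.side iy) bY)
    {b z : ℤ × ℤ} (hI : ∀ s t, s ∈ I → t ∉ I → (SG Λ D w).Adj s t → t = b) (hz : z ∈ I)
    (hu : mkS n (P.side iu) bu ∉ I) (hx : mkS n (P.side ix) bx ∉ I) (iz : InT Λ z)
    {i : ℕ} {a : ℤ} (h0 : r0 P.Q (P.side i) ≤ a) (h1 : a ≤ r1 P.Q n (P.side i))
    (hiy : i ≤ iy) (hno : ∀ t, i < t → t ≤ iy → ¬ mk t)
    (hyu : iy < iu) (hno' : ∀ t, iy + 1 < t → t ≤ iu → ¬ mk t)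
    {p : ℤ × ℤ} (hp : p = pa z ∨ p = pb z) (hpq : PI Λ I p (ol n (P.side i) a))
    (hxy : (SG Λ D w).Reachable (mkS n (P.side ix) bx) (mkS n (P.side iy) bY)) :
    ¬ (SG Λ D w).Reachable z (mkS n (P.side iu) bu) := by
  set x := mkS n (P.side ix) bx with hx'
  set y := mkS n (P.side iy) bY with hy'
  set u := mkS n (P.side iu) bu with hu'
  set M : Set (ℤ × ℤ) := {x, y, u} with hM'
  have nyx : y ≠ x := mkS_ne_of hn hL my mx dyx bY bx
  have nux : u ≠ x := mkS_ne_of hn hL mu mx dux bu bx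
  have nuy : u ≠ y := mkS_ne_of hn hL mu my duy bu bY
  have hM : MOk P n M := by
    intro c hc q hq
    rcases hc with rfl | rfl | rfl
    · exact mark_MOk hn ix bx q hq
    · exact mark_MOk hn iy bY q hq
    · exact mark_MOk hn iu bu q hq
  have other : ∀ b', b' ≠ bY → mkS n (P.side iy) b' ∉ M := by
    intro b' hb' hc
    rcases hc with h | h | h
    · exact mkS_ne_of hn hL my mx dyx b' bx h
    · exact hb' (mkS_b h)
    · exact mkS_ne_of hn hL mu my duy bu b' h.symm
  have otherU : ∀ b', b' ≠ bu → mkS n (P.side iu) b' ∉ M := by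
    intro b' hb' hc
    rcases hc with h | h | h
    · exact mkS_ne_of hn hL mu mx dux b' bx h
    · exact mkS_ne_of hn hL mu my duy b' bY h
    · exact hb' (mkS_b h)
  refine third_end (M := M) (b := b) hdo hD (mark_bd hn hL mx bx) (mark_bd hn hL my bY)
    (mark_bd hn hL mu bu) nyx.symm nux nuy ?_ (Or.inl rfl) (Or.inr (Or.inl rfl)) hI hz hu hx iz hp hpq
    (qm := mkm n (P.side iy) bY) (qp := mkp n (P.side iy) bY) (um := mkm n (P.side iu) bu)
    (up := mkp n (P.side iu) bu) ?_ (Jn_mkS _ _ _) ?_ (Jn_mkS _ _ _) hxy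
  · intro o o' ho ho'
    rw [(mark_out hn hL mx bx).1 ho, (mark_out hn hL my bY).1 ho']
    exact TC_dg hn hL mx my
  · have e1 := BC_arc hn hL hM hiy hno h0 h1
    rw [r1_mark hL my] at e1
    refine e1.trans (BC_to_mark hn hL my bY fun hb => other false ?_)
    rw [hb]; simp
  · refine (BC_from_mark hn hL my bY fun hb => other true ?_).trans ?_
    · rw [hb]; simp
    have e1 := BC_arc hn hL hM (i := iy + 1) (i' := iu) hyu hno' (a := 0)
      (r0_mark hL my).le ?_
    · rw [r1_mark hL mu] at e1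
      refine e1.trans (BC_to_mark hn hL mu bu fun hb => otherU false ?_)
      rw [hb]; simp
    · have := r1_range P.Q n (P.side (iy + 1))
      omega

/-! ### The deleted row -/

/-- the half row of a tile of the polygon does not touch the marks -/
lemma del_mark (hn : 4 ≤ n) (hL : LamV P n mk Λ) {i : ℕ} (hi : mk (i + 1)) (b : Bool) {p e : ℤ × ℤ}
    (hp : ct n p ∈ P.Q) (he : e ∈ Λ) (hd : e ∈ Del P.Q n p) :
    eW e ≠ mkS n (P.side i) b ∧ eE e ≠ mkS n (P.side i) b := by
  obtain ⟨ho, h1, h2, h3⟩ := hd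
  obtain ⟨t, ht, htt⟩ := tiles_mkS n (P.side i) b
  have hm := hL.mark i hi
  have hcv := cvx_cells (hL.cvx i hi)
  have hsd := isSide_side' P i
  -- the tile `e`
  have key : ∀ c, c = mkS n (P.side i) b → (e = lab c ∨ e = plab c) → e = lt t := by
    rintro c rfl h
    rcases htt with ⟨a1, a2⟩ | ⟨a1, a2⟩ <;> rcases h with h | h
    · exact h.trans a1
    · exact absurd (a2 ▸ h ▸ he) hm
    · exact absurd (a1 ▸ h ▸ he) hm
    · exact h.trans a2
  -- the other tile
  have other : ∀ c o, c = mkS n (P.side i) b → (o = lab c ∨ o = plab c) → o ≠ e → e = lt t →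
      o = lt (ott n (P.side i) n 1) := by
    rintro c o rfl h h4 h5
    rcases htt with ⟨a1, a2⟩ | ⟨a1, a2⟩ <;> rcases h with h | h
    · exact absurd (h.trans (a1.trans h5.symm)) h4
    · exact h.trans a2
    · exact h.trans a1
    · exact absurd (h.trans (a2.trans h5.symm)) h4
  set s := P.side i with hs
  -- cells
  have c1 : ct n (ott n s n 1) = s.1 + dir s.2 + dir (s.2 - 1) := by
    rw [ct_ott (by omega) s (a := 1) (b := 1) (by omega) (by omega) (by omega) (by omega)]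
    refine Prod.ext ?_ ?_ <;> simp <;> ring
  have c2 : ct n (ott n s n 0) = s.1 + dir s.2 := by
    rw [ct_ott (by omega) s (a := 1) (b := 0) (by omega) (by omega) (by omega) (by omega)]
    refine Prod.ext ?_ ?_ <;> simp
  have c2' : ct n (ott n s n (-1)) = s.1 + dir s.2 := by
    rw [ct_ott (by omega) s (a := 1) (b := 0) (by omega) (by omega) (by omega) (by omega)]
    refine Prod.ext ?_ ?_ <;> simp
  have c3 : ct n (ott n s (n - 1) 1) = s.1 + dir (s.2 - 1) := by
    rw [ct_ott (by omega) s (a := 0) (b := 1) (by omega) (by omega) (by omega) (by omega)]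
    refine Prod.ext ?_ ?_ <;> simp
  have c3' : ct n (ott n s (n - 2) 1) = s.1 + dir (s.2 - 1) := by
    rw [ct_ott (by omega) s (a := 0) (b := 1) (by omega) (by omega) (by omega) (by omega)]
    refine Prod.ext ?_ ?_ <;> simp
  have ct0 : ct n t ∉ P.Q := by
    rw [ht]
    cases b with
    | true => simpa [c2] using hcv.1
    | false => simpa [c3] using hsd.2
  have cp : e = lt t → p ≠ t := by
    intro h4 h5
    exact ct0 (h5 ▸ hp)
  have ttt : e = lt t → tt e = t := by
    rintro rfl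
    exact tt_lt t
  -- behind the layer tile
  have behind : ∀ v : ℤ × ℤ, ott n s n 1 = t + v → ct n (t - v) ∉ P.Q := by
    intro v hv
    cases b with
    | true =>
      have e0 : t = ott n s n 0 := by simpa using ht
      have e1 : ott n s n 1 = ott n s n 0 + dir (s.2 - 1) := by
        have := ott_add n s n 0 0 1
        rw [add_zero, zero_add] at this
        rw [this]
        refine Prod.ext ?_ ?_ <;> simp
      have e2 : v = dir (s.2 - 1) := by
        rw [e0, e1] at hv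
        exact (add_left_cancel hv).symm
      have e3 : t - v = ott n s n (-1) := by
        have := ott_add n s n 0 0 (-1)
        rw [add_zero, zero_add] at this
        rw [this, e0, e2]
        refine Prod.ext ?_ ?_ <;> simp <;> ring
      rw [e3, c2']
      exact hcv.1
    | false =>
      have e0 : t = ott n s (n - 1) 1 := by simpa using ht
      have e1 : ott n s n 1 = ott n s (n - 1) 1 + dir s.2 := by
        have := ott_add n s (n - 1) 1 1 0
        rw [add_zero, sub_add_cancel] at this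
        rw [this]
        refine Prod.ext ?_ ?_ <;> simp
      have e2 : v = dir s.2 := by
        rw [e0, e1] at hv
        exact (add_left_cancel hv).symm
      have e3 : t - v = ott n s (n - 2) 1 := by
        have := ott_add n s (n - 1) 1 (-1) 0
        rw [add_zero] at this
        have e4 : n - 1 + -1 = n - 2 := by ring
        rw [e4] at this
        rw [this, e0, e2]
        refine Prod.ext ?_ ?_ <;> simp <;> ring
      rw [e3, c3']
      exact hsd.2
  have ne_lt : p.1 < t.1 ∨ e ≠ lt t := by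
    by_cases h4 : e = lt t
    · left
      rw [ttt h4] at h1 h2
      rcases lt_or_eq_of_le h2 with h5 | h5
      · exact h5
      · exact absurd (Prod.ext h5 h1.symm) (cp h4)
    · exact Or.inr h4
  constructor
  · intro hc
    obtain ⟨x, y, rfl⟩ := exists_vt ho
    rw [eW_vt] at hc
    have h4 := key _ hc (by rcases tiles_vt x y with ⟨a, b⟩ | ⟨a, b⟩ <;> tauto)
    have h5 := other _ (vt (x - 1) y) hc
      (by rcases tiles_vt x y with ⟨a, b⟩ | ⟨a, b⟩ <;> tauto)
      (fun h => by have := (vt_inj h).1; omega) h4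
    have h6 : t = (x, y) := by
      rw [vt_eq_lt] at h4
      exact (lt_inj h4).symm
    have h7 : ott n s n 1 = (x - 1, y) := by
      rw [vt_eq_lt] at h5
      exact (lt_inj h5).symm
    have h8 : p.1 < t.1 := by
      rcases ne_lt with h | h
      · exact h
      · exact absurd h4 h
    rw [h6] at h8
    rw [ttt h4, h6] at h1 h3
    have h9 := h3 (x - 1) (by simp only at h8; omega) (by simp only; omega)
    simp only at h1
    rw [← h1, ← h7, c1] at h9
    exact hcv.2 h9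
  · intro hc
    obtain ⟨x, y, rfl⟩ := exists_vt ho
    rw [eE_vt] at hc
    have h40 := tiles_vt (x + 1) y
    rw [add_sub_cancel_right] at h40
    have h4 := key _ hc (by rcases h40 with ⟨a, b⟩ | ⟨a, b⟩ <;> tauto)
    have h5 := other _ (vt (x + 1) y) hc
      (by rcases h40 with ⟨a, b⟩ | ⟨a, b⟩ <;> tauto)
      (fun h => by have := (vt_inj h).1; omega) h4
    have h6 : t = (x, y) := by
      rw [vt_eq_lt] at h4
      exact (lt_inj h4).symm
    have h7 : ott n s n 1 = (x + 1, y) := by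
      rw [vt_eq_lt] at h5
      exact (lt_inj h5).symm
    have h8 : p.1 < t.1 := by
      rcases ne_lt with h | h
      · exact h
      · exact absurd h4 h
    rw [h6] at h8
    rw [ttt h4, h6] at h1 h3
    have h9 := h3 (x - 1) (by simp only at h8; omega) (by simp only; omega)
    have h10 := behind (1, 0) (by rw [h7, h6]; simp)
    rw [h6] at h10
    simp only at h1
    apply h10
    convert h9 using 2
    refine Prod.ext ?_ ?_ <;> simp <;> omega

end poly

/-! ### The region of World.lean -/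

section shape

lemma sd_congr (p : ℤ × ℤ) {k l : ℤ} (h : k % 4 = l % 4) : sd p k = sd p l := by
  unfold sd
  rw [h]

lemma sd_rev (p : ℤ × ℤ) (k : ℤ) : sd (p + dir k) (k + 2) = sd p k := by
  unfold sd
  obtain ⟨x, y⟩ := p
  rcases dir_cases k with ⟨h, e⟩ | ⟨h, e⟩ | ⟨h, e⟩ | ⟨h, e⟩ <;> rw [e]
  · rw [if_neg (by omega), if_neg (by omega), if_pos (by omega), if_pos h]
    simp
  · rw [if_neg (by omega), if_neg (by omega), if_neg (by omega), if_neg (by omega), if_pos h]
    simp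
  · rw [if_pos (by omega), if_neg (by omega), if_neg (by omega), if_pos h]
    simp [sub_eq_add_neg]
  · rw [if_neg (by omega), if_pos (by omega), if_neg (by omega), if_neg (by omega),
      if_neg (by omega)]
    simp [sub_eq_add_neg]

lemma oc_eq_sd (v : ℤ × ℤ) (k : ℤ) : oc v k = sd (tv v) (k + 2) := by
  rcases Pool.Agent.H5.Q1.oc_cases v k with ⟨h, e⟩ | ⟨h, e⟩ | ⟨h, e⟩ | ⟨h, e⟩ <;> rw [e] <;>
    unfold sd tv
  · rw [if_neg (by omega), if_neg (by omega), if_pos (by omega)]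
    unfold hz
    refine Prod.ext ?_ ?_ <;> simp only <;> ring
  · rw [if_neg (by omega), if_neg (by omega), if_neg (by omega)]
    unfold vt
    refine Prod.ext ?_ ?_ <;> simp only <;> ring
  · rw [if_pos (by omega)]
    unfold hz
    refine Prod.ext ?_ ?_ <;> simp only <;> ring
  · rw [if_neg (by omega), if_pos (by omega)]
    unfold vt
    refine Prod.ext ?_ ?_ <;> simp only <;> ring

lemma mkS_true (n : ℤ) (s : Cell × ℤ) : mkS n s true = sd (wp n s n) s.2 := rfl

lemma mkS_false (n : ℤ) (s : Cell × ℤ) : mkS n s false = sd (wp n s n) (s.2 - 1) := by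
  have h := sd_rev (wp n s n) (s.2 - 1)
  have e : s.2 - 1 + 2 = s.2 + 1 := by ring
  rw [e] at h
  exact h

lemma ott_four (n : ℤ) (s : Cell × ℤ) (j r : ℤ) : ott n (s.1, s.2 + 4) j r = ott n s j r := by
  have e1 : dir (s.2 + 4) = dir s.2 := dir_congr (by omega)
  have e2 : dir (s.2 + 4 - 1) = dir (s.2 - 1) := dir_congr (by omega)
  have e3 := io_four s.2
  have e4 := tail_four s
  unfold ott it wp
  simp only [e1, e2, e3, e4]

variable (S : Shape) (h : ℕ)

lemma side_add (i m : ℕ) :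
    S.P.side (i + m * S.N) = ((S.P.side i).1, (S.P.side i).2 + 4 * m) := by
  induction m with
  | zero => simp
  | succ m ih =>
    have e : i + (m + 1) * S.N = S.P.N + (i + m * S.N) := by
      show i + (m + 1) * S.P.N = S.P.N + (i + m * S.P.N)
      ring
    rw [e, side_period, ih]
    refine Prod.ext rfl ?_
    simp only
    push_cast
    ring

lemma ott_add4 (n : ℤ) (s : Cell × ℤ) (m : ℕ) (j r : ℤ) :
    ott n (s.1, s.2 + 4 * m) j r = ott n s j r := by
  induction m with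
  | zero => simp
  | succ m ih =>
    rw [← ih, ← ott_four n (s.1, s.2 + 4 * m)]
    congr 2
    push_cast
    ring

lemma ott_mod (i : ℕ) (n j r : ℤ) :
    ott n (S.P.side i) j r = ott n (S.P.side (i % S.N)) j r := by
  have e : i = i % S.N + i / S.N * S.N := by
    rw [Nat.mul_comm]; exact (Nat.mod_add_div i S.N).symm
  conv_lhs => rw [e]
  rw [side_add, ott_add4]

/-- the marks -/
def mk3 (t : ℕ) : Prop := t % S.N = 0 ∨ t % S.N = S.m2 ∨ t % S.N = S.m3

variable {S h}

lemma posN : 0 < S.m2 ∧ S.m2 < S.m3 ∧ S.m3 < S.N := by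
  have a1 := S.h02; have a2 := S.h23; have a3 := S.h34; have a4 := S.P.hmN
  refine ⟨a1, a2, ?_⟩
  show S.m3 < S.P.N
  omega

lemma mk3_red {i : ℕ} (hm : mk3 S (i + 1)) : i % S.N + 1 = S.m2 ∨ i % S.N + 1 = S.m3 ∨
    i % S.N + 1 = S.N := by
  obtain ⟨a1, a2, a3⟩ := posN (S := S)
  have h1 : i % S.N < S.N := Nat.mod_lt _ (by omega)
  have h2 : (i + 1) % S.N = (i % S.N + 1) % S.N := by simp [Nat.add_mod]
  unfold mk3 at hm
  rw [h2] at hm
  rcases lt_or_ge (i % S.N + 1) S.N with h3 | h3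
  · rw [Nat.mod_eq_of_lt h3] at hm
    omega
  · right; right; omega

lemma mk3_of {i : ℕ} (hm : i % S.N + 1 = S.m2 ∨ i % S.N + 1 = S.m3 ∨ i % S.N + 1 = S.N) :
    mk3 S (i + 1) := by
  obtain ⟨a1, a2, a3⟩ := posN (S := S)
  have h2 : (i + 1) % S.N = (i % S.N + 1) % S.N := by simp [Nat.add_mod]
  unfold mk3
  rw [h2]
  rcases hm with h | h | h
  · rw [h, Nat.mod_eq_of_lt (by omega)]; tauto
  · rw [h, Nat.mod_eq_of_lt (by omega)]; tauto
  · rw [h, Nat.mod_self]; tauto

lemma mem_Lam3 {e : ℤ × ℤ} : e ∈ Lam3 S h ↔ e ∈ EE S h ∨ (∃ i < S.N, e ∈ LY (2 * h) (S.P.side i)) ∨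
    ∃ i < S.N, Cv S i ∧ dg S h i = e := by
  classical
  unfold Lam3
  rw [mem_union, mem_union, mem_biUnion, mem_image, or_assoc]
  simp only [mem_range, mem_filter, and_assoc]

lemma cvx_mod {i : ℕ} : (S.P.side (i + 1) = ((S.P.side i).1, (S.P.side i).2 + 1)) ↔
    (S.P.side (i % S.N + 1) = ((S.P.side (i % S.N)).1, (S.P.side (i % S.N)).2 + 1)) := by
  have e : i = i % S.N + i / S.N * S.N := by
    rw [Nat.mul_comm]; exact (Nat.mod_add_div i S.N).symm
  have e' : i + 1 = i % S.N + 1 + i / S.N * S.N := by omega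
  have h1 : S.P.side i = ((S.P.side (i % S.N)).1, (S.P.side (i % S.N)).2 + 4 * ((i / S.N : ℕ) : ℤ)) := by
    conv_lhs => rw [e]
    rw [side_add]
  have h2 : S.P.side (i + 1) = ((S.P.side (i % S.N + 1)).1,
      (S.P.side (i % S.N + 1)).2 + 4 * ((i / S.N : ℕ) : ℤ)) := by
    conv_lhs => rw [e']
    rw [side_add]
  rw [h1, h2]
  simp only [Prod.ext_iff]
  constructor <;> rintro ⟨h3, h4⟩ <;> exact ⟨h3, by linarith⟩

lemma dg_ott (i : ℕ) : lt (ott (2 * h) (S.P.side i) (2 * h) 1) = dg S h (i % S.N) := by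
  rw [ott_mod, ott_one, dg_eq]

/-- **The region `Lam3` is a polygon with wall layers.** -/
theorem lamV3 (hh : 1 ≤ h) : LamV S.P (2 * h) (mk3 S) (Lam3 S h : Set (ℤ × ℤ)) := by
  obtain ⟨a1, a2, a3⟩ := posN (S := S)
  have hlt : ∀ i, i % S.N < S.N := fun i => Nat.mod_lt _ (by omega)
  have hn : (0 : ℤ) < 2 * h := by omega
  refine ⟨?_, ?_, ?_, ?_, ?_⟩
  · intro i j h0 h1
    rw [mem_coe, mem_Lam3]
    right; left
    refine ⟨i % S.N, hlt i, ?_⟩
    rw [ott_mod, ott_one, mem_LY' hn]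
    exact ⟨j, ⟨h0, h1⟩, rfl⟩
  · intro i hc hm
    rw [mem_coe, mem_Lam3]
    right; right
    refine ⟨i % S.N, hlt i, ⟨cvx_mod.1 hc, ?_, ?_, ?_⟩, (dg_ott i).symm⟩
    · exact fun e => hm (mk3_of (Or.inl e))
    · exact fun e => hm (mk3_of (Or.inr (Or.inl e)))
    · exact fun e => hm (mk3_of (Or.inr (Or.inr e)))
  · intro i hm
    rw [cvx_mod]
    refine S.cvx _ ?_
    rcases mk3_red hm with h1 | h1 | h1
    · tauto
    · tauto
    · right; right; right; exact h1
  · intro i hm hmem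
    rw [dg_ott, mem_coe, mem_Lam3] at hmem
    have hc : S.P.side (i % S.N + 1) = ((S.P.side (i % S.N)).1, (S.P.side (i % S.N)).2 + 1) := by
      refine S.cvx _ ?_
      rcases mk3_red hm with h1 | h1 | h1
      · tauto
      · tauto
      · right; right; right; exact h1
    rcases hmem with h1 | ⟨j, -, h1⟩ | ⟨j, hj, h1, h2⟩
    · exact dg_not_EE hh hc h1
    · exact dg_not_LY hh hc h1
    · have := dg_inj hh hj (hlt i) h2
      subst this
      obtain ⟨-, b1, b2, b3⟩ := h1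
      rcases mk3_red hm with h1 | h1 | h1
      · exact b1 h1
      · exact b2 h1
      · exact b3 h1
  · intro p hp hmem
    rw [mem_coe, mem_Lam3] at hmem
    rcases hmem with h1 | ⟨j, hj, h1⟩ | ⟨j, hj, h1, h2⟩
    · unfold Pool.Agent.H21.FM.EE at h1
      rw [lt_mem_TL hn] at h1
      have := hp 0 0 (by omega) (by omega) (by omega) (by omega)
      apply this
      convert h1 using 2
      refine Prod.ext ?_ ?_ <;> simp
    · rw [mem_LY' hn] at h1
      obtain ⟨t, ⟨t0, t1⟩, h1⟩ := h1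
      have h2 := lt_inj h1
      have h3 := ct_it (S.P.side j) t0 t1
      have h4 : it (2 * h) (S.P.side j) t = p + (-(dir ((S.P.side j).2 - 1)).1, -(dir ((S.P.side j).2 - 1)).2) := by
        rw [h2]; unfold ot; refine Prod.ext ?_ ?_ <;> simp
      rw [h4] at h3
      have hs := side_isSide S j
      rcases io_dir (S.P.side j).2 with ⟨-, -, -, d⟩ | ⟨-, -, -, d⟩ | ⟨-, -, -, d⟩ | ⟨-, -, -, d⟩ <;>
        rw [d] at h3 <;> refine hp _ _ ?_ ?_ ?_ ?_ (h3 ▸ hs.1) <;> simp
    · rw [dg_eq] at h2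
      have h3 := lt_inj h2
      have h4 := ct_it (n := 2 * h) (S.P.side j) (j := 2 * h - 1) (by omega) (by omega)
      have h5 : it (2 * h) (S.P.side j) (2 * h - 1) = p +
          (-(dir ((S.P.side j).2 - 1)).1 - (dir (S.P.side j).2).1,
            -(dir ((S.P.side j).2 - 1)).2 - (dir (S.P.side j).2).2) := by
        rw [← h3]; unfold ot it wp; refine Prod.ext ?_ ?_ <;> simp <;> ring
      rw [h5] at h4
      have hs := side_isSide S j
      rcases io_dir (S.P.side j).2 with ⟨-, -, c, d⟩ | ⟨-, -, c, d⟩ | ⟨-, -, c, d⟩ | ⟨-, -, c, d⟩ <;>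
        rw [c, d] at h4 <;> refine hp _ _ ?_ ?_ ?_ ?_ (h4 ▸ hs.1) <;> simp

/-! ### The far ends -/

lemma mkS_four (n : ℤ) (s : Cell × ℤ) (b : Bool) : mkS n (s.1, s.2 + 4) b = mkS n s b := by
  have e1 : dir (s.2 + 4) = dir s.2 := dir_congr (by omega)
  have e4 := tail_four s
  have e5 : wp n (s.1, s.2 + 4) n = wp n s n := by
    unfold wp
    simp only [e1, e4]
  cases b with
  | true => rw [mkS_true, mkS_true, e5]; exact sd_congr _ (by simp only; omega)
  | false => rw [mkS_false, mkS_false, e5]; exact sd_congr _ (by simp only; omega)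

lemma mkS_N (n : ℤ) (i : ℕ) (b : Bool) :
    mkS n (S.P.side (S.N + i)) b = mkS n (S.P.side i) b := by
  have : S.P.side (S.N + i) = ((S.P.side i).1, (S.P.side i).2 + 4) := side_period S.P i
  rw [this, mkS_four]

/-- the side before the mark `j` -/
def vx3 (S : Shape) (j : Fin 3) : ℕ := if j = 0 then S.N - 1 else if j = 1 then S.m2 - 1 else S.m3 - 1

lemma vx3_lt (j : Fin 3) : vx3 S j < S.N := by
  obtain ⟨a1, a2, a3⟩ := posN (S := S)
  unfold vx3
  split_ifs <;> omega

lemma vx3_mk (j : Fin 3) : mk3 S (vx3 S j + 1) := by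
  obtain ⟨a1, a2, a3⟩ := posN (S := S)
  apply mk3_of
  rw [Nat.mod_eq_of_lt (vx3_lt j)]
  unfold vx3
  split_ifs <;> omega

lemma vx3_inj {j j' : Fin 3} (h : vx3 S j = vx3 S j') : j = j' := by
  obtain ⟨a1, a2, a3⟩ := posN (S := S)
  unfold vx3 at h
  fin_cases j <;> fin_cases j' <;> simp at h ⊢ <;> omega

/-- corner at the head of a side -/
lemma oc_head (i : ℕ) (b : Bool) {k : ℤ} (hc : S.P.side (i + 1) = ((S.P.side i).1, (S.P.side i).2 + 1))
    (hk : k % 4 = (S.k (i + 1) + if b then 1 else 0) % 4) :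
    oc (wv h (S.P.side (i + 1)) 0) k = mkS (2 * h) (S.P.side i) b := by
  have e1 : tv (wv h (S.P.side (i + 1)) 0) = wp (2 * h) (S.P.side i) (2 * h) := by
    rw [tv_wv, ← wp_next S.P.Q, ← side_succ]
    unfold wp
    refine Prod.ext ?_ ?_ <;> simp
  have e2 : S.k (i + 1) = (S.P.side i).2 + 1 := by
    unfold Shape.k
    rw [hc]
  rw [oc_eq_sd, e1]
  rw [e2] at hk
  cases b with
  | true => rw [mkS_true]; apply sd_congr; simp only [if_true] at hk; omega
  | false => rw [mkS_false]; apply sd_congr; simp only [Bool.false_eq_true, if_false] at hk; omega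

/-- **The far ends are marks.** -/
lemma yy_mark (p : ℤ × ℤ) (j : Fin 3) : ∃ b, yy S h p j = mkS (2 * h) (S.P.side (vx3 S j)) b := by
  classical
  obtain ⟨a1, a2, a3⟩ := posN (S := S)
  have hm := vx3_mk (S := S) j
  have hc : S.P.side (vx3 S j + 1) = ((S.P.side (vx3 S j)).1, (S.P.side (vx3 S j)).2 + 1) := by
    have := mk3_red hm
    rw [Nat.mod_eq_of_lt (vx3_lt j)] at this
    refine S.cvx _ ?_
    rcases this with h1 | h1 | h1
    · tauto
    · tauto
    · right; right; right; exact h1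
  unfold yy
  by_cases h0 : j = 0
  · subst h0
    rw [if_pos rfl]
    refine ⟨true, ?_⟩
    have e : vx3 S 0 + 1 = S.N := by
      have : vx3 S 0 = S.N - 1 := by unfold vx3; rw [if_pos rfl]
      omega
    rw [← oc_head (h := h) (vx3 S 0) true hc (k := S.k (vx3 S 0 + 1) + 1) (by simp), e,
      wv_side_N, S.kN]
    unfold Pool.Agent.H21.FM.r1 v1
    exact Pool.Agent.H5.Q1.oc_congr _ (by omega)
  · rw [if_neg h0]
    by_cases h1 : j = 1
    · subst h1
      rw [if_pos rfl]
      have e : vx3 S 1 + 1 = S.m2 := by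
        have : vx3 S 1 = S.m2 - 1 := by unfold vx3; rw [if_neg (by decide), if_pos rfl]
        omega
      by_cases hx : ∃ t, Ex S h p t ∧ t < S.m2
      · refine ⟨true, ?_⟩
        rw [if_pos hx, ← oc_head (h := h) (vx3 S 1) true hc (k := S.k (vx3 S 1 + 1) + 1) (by simp), e]
      · refine ⟨false, ?_⟩
        rw [if_neg hx, ← oc_head (h := h) (vx3 S 1) false hc (k := S.k (vx3 S 1 + 1) + 0) (by simp), e]
    · have h2 : j = 2 := by omega
      subst h2
      rw [if_neg (by decide)]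
      have e : vx3 S 2 + 1 = S.m3 := by
        have : vx3 S 2 = S.m3 - 1 := by unfold vx3; rw [if_neg (by decide), if_neg (by decide)]
        omega
      by_cases hx : ∃ t, Ex S h p t ∧ t < S.m3
      · refine ⟨false, ?_⟩
        rw [if_pos hx, ← oc_head (h := h) (vx3 S 2) false hc (k := S.k (vx3 S 2 + 1) + 0) (by simp), e]
      · refine ⟨true, ?_⟩
        rw [if_neg hx, ← oc_head (h := h) (vx3 S 2) true hc (k := S.k (vx3 S 2 + 1) + 1) (by simp), e]

lemma dgV_ne {j j' : Fin 3} (hh : 1 ≤ h) (hj : j ≠ j') :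
    ott (2 * h) (S.P.side (vx3 S j)) (2 * h) 1 ≠ ott (2 * h) (S.P.side (vx3 S j')) (2 * h) 1 := by
  intro e
  have e1 := congrArg lt e
  rw [dg_ott, dg_ott, Nat.mod_eq_of_lt (vx3_lt j), Nat.mod_eq_of_lt (vx3_lt j')] at e1
  exact hj (vx3_inj (dg_inj hh (vx3_lt j) (vx3_lt j') e1))

/-- the far ends are ends of the strand graph, boundary sides, different -/
lemma yy_bd (hh : 2 ≤ h) (p : ℤ × ℤ) (j : Fin 3) :
    Bd (Lam3 S h : Set (ℤ × ℤ)) (yy S h p j) := by
  obtain ⟨b, e⟩ := yy_mark (S := S) (h := h) p j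
  rw [e]
  exact mark_bd (by omega) (lamV3 (S := S) (h := h) (by omega)) (vx3_mk j) b

lemma yy_ne (hh : 2 ≤ h) (p : ℤ × ℤ) {j j' : Fin 3} (hj : j ≠ j') : yy S h p j ≠ yy S h p j' := by
  obtain ⟨b, e⟩ := yy_mark (S := S) (h := h) p j
  obtain ⟨b', e'⟩ := yy_mark (S := S) (h := h) p j'
  rw [e, e']
  exact mkS_ne_of (by omega) (lamV3 (S := S) (h := h) (by omega)) (vx3_mk j) (vx3_mk j')
    (dgV_ne (by omega) hj) b b'

/-- the arc `j` : the sides from the mark `j` to the mark `j + 1` -/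
def Arc (S : Shape) (j : Fin 3) (i : ℕ) : Prop :=
  (j = 0 → i < S.m2) ∧ (j = 1 → S.m2 ≤ i ∧ i < S.m3) ∧ (j = 2 → S.m3 ≤ i ∧ i < S.N)

lemma lab_lt_mem (hh : 1 ≤ h) {p : ℤ × ℤ} (hp : ct (2 * h) p ∈ S.P.Q) :
    lt p ∈ (Lam3 S h : Set (ℤ × ℤ)) := by
  rw [mem_coe, mem_Lam3]
  left
  unfold Pool.Agent.H21.FM.EE
  rw [lt_mem_TL (by omega)]
  exact hp

lemma eW_lt_inT (hh : 1 ≤ h) {p : ℤ × ℤ} (hp : ct (2 * h) p ∈ S.P.Q) :
    InT (Lam3 S h : Set (ℤ × ℤ)) (eW (lt p)) := by
  have h1 := lab_lt_mem (S := S) hh hp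
  rcases of_side (lt_odd p) (eW (lt p)) (Or.inl rfl) with h2 | h2
  · left; rw [← h2]; exact h1
  · right; rw [← h2]; exact h1

lemma mem_Del_self (p : ℤ × ℤ) : lt p ∈ Del S.P.Q (2 * h) p := by
  refine ⟨lt_odd p, ?_, ?_, ?_⟩
  · rw [tt_lt]
  · rw [tt_lt]
  · intro x h1 h2
    rw [tt_lt] at h2
    omega

/-- `eW (lt p)` is an end -/
lemma eW_isEnd {ω : Finset (ℤ × ℤ)} (p : ℤ × ℤ) : IsEnd (GW S h p ω) (eW (lt p)) :=
  isEnd_eW (mem_Del_self p) (lt_odd p)

lemma yy_isEnd (hh : 2 ≤ h) {ω : Finset (ℤ × ℤ)} (p : ℤ × ℤ) (j : Fin 3) :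
    IsEnd (GW S h p ω) (yy S h p j) := (yy_bd hh p j).isEnd

lemma ott_ne {i i' : ℕ} (hh : 1 ≤ h) (hi : i % S.N ≠ i' % S.N) :
    ott (2 * h) (S.P.side i) (2 * h) 1 ≠ ott (2 * h) (S.P.side i') (2 * h) 1 := by
  obtain ⟨a1, a2, a3⟩ := posN (S := S)
  intro e
  have e1 := congrArg lt e
  rw [dg_ott, dg_ott] at e1
  exact hi (dg_inj hh (Nat.mod_lt _ (by omega)) (Nat.mod_lt _ (by omega)) e1)

/-- the world `GW`, marks given by sides -/
theorem third_end_side (hh : 2 ≤ h) {p : ℤ × ℤ} (hp : ct (2 * h) p ∈ S.P.Q) {ω : Finset (ℤ × ℤ)}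
    {I : Set (ℤ × ℤ)} {b x y u : ℤ × ℤ} {ix iy iu : ℕ} {bx bY bu : Bool}
    (ex : x = mkS (2 * h) (S.P.side ix) bx) (ey : y = mkS (2 * h) (S.P.side iy) bY)
    (eu : u = mkS (2 * h) (S.P.side iu) bu) (mx : mk3 S (ix + 1)) (my : mk3 S (iy + 1))
    (mu : mk3 S (iu + 1)) (dyx : iy % S.N ≠ ix % S.N) (dux : iu % S.N ≠ ix % S.N)
    (duy : iu % S.N ≠ iy % S.N)
    (hI : ∀ s t, s ∈ I → t ∉ I → (GW S h p ω).Adj s t → t = b) (hz : eW (lt p) ∈ I)
    (hx : x ∉ I) (hu : u ∉ I)
    (hfar : ∃ c, (c = eW (lt p) ∨ c = y ∨ c = u) ∧ c ≠ x ∧ (GW S h p ω).Reachable x c)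
    {i : ℕ} {a : ℤ} (a0 : r0 S.P.Q (S.P.side i) ≤ a) (a1 : a ≤ r1 S.P.Q (2 * h) (S.P.side i))
    (hiy : i ≤ iy) (hno : ∀ t, i < t → t ≤ iy → ¬ mk3 S t)
    (hyu : iy < iu) (hno' : ∀ t, iy + 1 < t → t ≤ iu → ¬ mk3 S t)
    {q : ℤ × ℤ} (hq : q = pa (eW (lt p)) ∨ q = pb (eW (lt p)))
    (hpi : PI (Lam3 S h : Set (ℤ × ℤ)) I q (ol (2 * h) (S.P.side i) a)) :
    ¬ (GW S h p ω).Reachable (eW (lt p)) u := by
  have hL := lamV3 (S := S) (h := h) (by omega)
  have hn : (4 : ℤ) ≤ 2 * h := by omega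
  subst ex ey eu
  intro hzu
  have bdx := mark_bd hn hL mx bx
  have bdu := mark_bd hn hL mu bu
  have nux := mkS_ne_of hn hL mu mx (ott_ne (by omega) dux) bu bx
  have hxy := pair_rest (G := GW S h p ω) SG_deg2 bdx.isEnd (eW_isEnd p) bdu.isEnd hfar
    (fun e => hx (e ▸ hz)) nux (fun e => hu (e ▸ hz)) hzu
  refine third_end_poly hn hL mx my mu (ott_ne (by omega) dyx) (ott_ne (by omega) dux)
    (ott_ne (by omega) duy) (fun e _ h2 => h2.1) (fun e h1 h2 => ?_) hI hz hu hx
    (eW_lt_inT (by omega) hp) a0 a1 hiy hno hyu hno' hq hpi hxy hzu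
  have k1 := del_mark hn hL mx bx hp h1 h2
  have k2 := del_mark hn hL my bY hp h1 h2
  exact ⟨k1.1, k1.2, k2.1, k2.2⟩

/-- **The third end is not reached.** `I` : a set of sides with one exit `b`, the interior end is in
`I`, the far ends `j` and `j + 2` are not, and `I` contains a path from an end point of the interior end to
the outer line of a side of the arc `j`. -/
theorem third_end_V (hh : 2 ≤ h) {p : ℤ × ℤ} (hp : ct (2 * h) p ∈ S.P.Q) {ω : Finset (ℤ × ℤ)}
    {j : Fin 3} {I : Set (ℤ × ℤ)} {b : ℤ × ℤ}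
    (hI : ∀ s t, s ∈ I → t ∉ I → (GW S h p ω).Adj s t → t = b) (hz : eW (lt p) ∈ I)
    (hx : yy S h p j ∉ I) (hu : yy S h p (j + 2) ∉ I)
    (hfar : ∃ c, (c = eW (lt p) ∨ c = yy S h p (j + 1) ∨ c = yy S h p (j + 2)) ∧ c ≠ yy S h p j ∧
      (GW S h p ω).Reachable (yy S h p j) c)
    {i : ℕ} (hi : Arc S j i) {a : ℤ} (a0 : r0 S.P.Q (S.P.side i) ≤ a)
    (a1 : a ≤ r1 S.P.Q (2 * h) (S.P.side i))
    {q : ℤ × ℤ} (hq : q = pa (eW (lt p)) ∨ q = pb (eW (lt p)))
    (hpi : PI (Lam3 S h : Set (ℤ × ℤ)) I q (ol (2 * h) (S.P.side i) a)) :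
    ¬ (GW S h p ω).Reachable (eW (lt p)) (yy S h p (j + 2)) := by
  obtain ⟨n1, n2, n3⟩ := posN (S := S)
  obtain ⟨bx, ex⟩ := yy_mark (S := S) (h := h) p j
  obtain ⟨bY, ey⟩ := yy_mark (S := S) (h := h) p (j + 1)
  obtain ⟨bu, eu⟩ := yy_mark (S := S) (h := h) p (j + 2)
  have v0 : vx3 S 0 = S.N - 1 := by unfold vx3; rw [if_pos rfl]
  have v1 : vx3 S 1 = S.m2 - 1 := by unfold vx3; rw [if_neg (by decide), if_pos rfl]
  have v2 : vx3 S 2 = S.m3 - 1 := by unfold vx3; rw [if_neg (by decide), if_neg (by decide)]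
  have nomk : ∀ t, t < S.N → t ≠ 0 → t ≠ S.m2 → t ≠ S.m3 → ¬ mk3 S t := by
    intro t t1 t2 t3 t4 hm
    unfold mk3 at hm
    rw [Nat.mod_eq_of_lt t1] at hm
    tauto
  have hmod : ∀ j : Fin 3, vx3 S j % S.N = vx3 S j := fun j => Nat.mod_eq_of_lt (vx3_lt j)
  have hne : ∀ {j j' : Fin 3}, j ≠ j' → vx3 S j % S.N ≠ vx3 S j' % S.N := by
    intro j j' hj
    rw [hmod, hmod]
    exact fun e => hj (vx3_inj e)
  obtain ⟨i0, i1, i2⟩ := hi
  have hj : j = 0 ∨ j = 1 ∨ j = 2 := by omega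
  rcases hj with rfl | rfl | rfl
  · have i0 := i0 rfl
    refine third_end_side hh hp ex ey eu (vx3_mk _) (vx3_mk _) (vx3_mk _) (hne (by decide))
      (hne (by decide)) (hne (by decide)) hI hz hx hu hfar a0 a1 ?_ ?_ ?_ ?_ hq hpi
    · show i ≤ vx3 S 1; omega
    · intro t t1 t2
      change t ≤ vx3 S 1 at t2
      exact nomk t (by omega) (by omega) (by omega) (by omega)
    · show vx3 S 1 < vx3 S 2; omega
    · intro t t1 t2
      change t ≤ vx3 S 2 at t2
      change vx3 S 1 + 1 < t at t1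
      exact nomk t (by omega) (by omega) (by omega) (by omega)
  · obtain ⟨i1, i1'⟩ := i1 rfl
    refine third_end_side hh hp ex ey eu (vx3_mk _) (vx3_mk _) (vx3_mk _) (hne (by decide))
      (hne (by decide)) (hne (by decide)) hI hz hx hu hfar a0 a1 ?_ ?_ ?_ ?_ hq hpi
    · show i ≤ vx3 S 2; omega
    · intro t t1 t2
      change t ≤ vx3 S 2 at t2
      exact nomk t (by omega) (by omega) (by omega) (by omega)
    · show vx3 S 2 < vx3 S 0; omega
    · intro t t1 t2
      change t ≤ vx3 S 0 at t2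
      change vx3 S 2 + 1 < t at t1
      exact nomk t (by omega) (by omega) (by omega) (by omega)
  · obtain ⟨i2, i2'⟩ := i2 rfl
    have eu' : yy S h p (2 + 2) = mkS (2 * h) (S.P.side (S.N + vx3 S 1)) bu := by
      rw [mkS_N]; exact eu
    have hm1 : (S.N + vx3 S 1) % S.N = vx3 S 1 % S.N := Nat.add_mod_left _ _
    have mu : mk3 S (S.N + vx3 S 1 + 1) := by
      apply mk3_of
      rw [hm1, hmod, v1]
      omega
    refine third_end_side hh hp ex ey eu' (vx3_mk _) (vx3_mk _) mu (hne (by decide))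
      ?_ ?_ hI hz hx hu hfar a0 a1 ?_ ?_ ?_ ?_ hq hpi
    · rw [hm1]; exact hne (by decide)
    · rw [hm1]; exact hne (by decide)
    · show i ≤ vx3 S 0; omega
    · intro t t1 t2
      change t ≤ vx3 S 0 at t2
      exact nomk t (by omega) (by omega) (by omega) (by omega)
    · show vx3 S 0 < S.N + vx3 S 1; omega
    · intro t t1 t2 hm
      change vx3 S 0 + 1 < t at t1
      unfold mk3 at hm
      have e1 : t % S.N = t - S.N := by
        rw [Nat.mod_eq_sub_mod (by omega), Nat.mod_eq_of_lt (by omega)]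
      rw [e1] at hm
      omega

end shape

end Pool.Agent.H47.W
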