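import Mathlib
import Pool.Agent.H13.W.Graph

set_option autoImplicit false
open Finset

/-! # Planarity of the strand graph, part 1: separating functions

`pa c`, `pb c` : the end points of the side `c` in the tile frame. `exists_pot` : a closed mod 2 cochain
on the sides of all tiles has a potential on the lattice points. `exists_sep` : a strand of
`SG Λ D w` between two boundary sides `x1`, `x3` whose outer tiles are joined outside of `Λ` has a
separating function `S` on the lattice points of the tile frame: `S` is constant along all other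
strands and changes along the boundary exactly at `x1` and `x3`. `Λ`, `D`, `w` are arbitrary. -/

namespace Pool.Agent.H47.W

open Pool.Agent.H75.Perc Pool.Agent.H75.TwoArm Pool.Agent.H99.W Pool.Agent.H13.W

/-- left or lower end point of the side `c` (tile frame) -/
def pa (c : ℤ × ℤ) : ℤ × ℤ :=
  if (c.1 + c.2) % 2 = 0 then ((c.1 + c.2) / 2 - 1, (c.2 - c.1) / 2)
  else ((c.1 + c.2 - 1) / 2, (c.2 - c.1 - 1) / 2)

/-- right or upper end point of the side `c` (tile frame) -/
def pb (c : ℤ × ℤ) : ℤ × ℤ :=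
  if (c.1 + c.2) % 2 = 0 then ((c.1 + c.2) / 2, (c.2 - c.1) / 2)
  else ((c.1 + c.2 - 1) / 2, (c.2 - c.1 + 1) / 2)

/-- horizontal side from `(x, y)` to `(x + 1, y)` -/
def hz (x y : ℤ) : ℤ × ℤ := (x + 1 - y, x + 1 + y)

/-- vertical side from `(x, y)` to `(x, y + 1)` -/
def vt (x y : ℤ) : ℤ × ℤ := (x - y, x + y + 1)

@[simp] lemma pa_hz (x y : ℤ) : pa (hz x y) = (x, y) := by
  unfold pa hz
  simp only
  rw [if_pos (by omega)]
  refine Prod.ext ?_ ?_ <;> simp only <;> omega

@[simp] lemma pb_hz (x y : ℤ) : pb (hz x y) = (x + 1, y) := by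
  unfold pb hz
  simp only
  rw [if_pos (by omega)]
  refine Prod.ext ?_ ?_ <;> simp only <;> omega

@[simp] lemma pa_vt (x y : ℤ) : pa (vt x y) = (x, y) := by
  unfold pa vt
  simp only
  rw [if_neg (by omega)]
  refine Prod.ext ?_ ?_ <;> simp only <;> omega

@[simp] lemma pb_vt (x y : ℤ) : pb (vt x y) = (x, y + 1) := by
  unfold pb vt
  simp only
  rw [if_neg (by omega)]
  refine Prod.ext ?_ ?_ <;> simp only <;> omega

lemma hz_or_vt (c : ℤ × ℤ) : (∃ x y, c = hz x y) ∨ ∃ x y, c = vt x y := by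
  obtain ⟨a, b⟩ := c
  rcases Int.emod_two_eq_zero_or_one (a + b) with h | h
  · left
    refine ⟨(a + b) / 2 - 1, (b - a) / 2, ?_⟩
    unfold hz
    refine Prod.ext ?_ ?_ <;> simp only <;> omega
  · right
    refine ⟨(a + b - 1) / 2, (b - a - 1) / 2, ?_⟩
    unfold vt
    refine Prod.ext ?_ ?_ <;> simp only <;> omega

lemma z2_add_self (a : ZMod 2) : a + a = 0 := CharTwo.add_self_eq_zero a

/-- primitive of a function on `ℤ` with values in `ZMod 2` -/
lemma exists_prim (f : ℤ → ZMod 2) (c : ZMod 2) :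
    ∃ F : ℤ → ZMod 2, F 0 = c ∧ ∀ n, F (n + 1) = F n + f n := by
  refine ⟨fun n => c + (∑ i ∈ Ico 0 n, f i + ∑ i ∈ Ico n 0, f i), ?_, ?_⟩
  · simp
  · intro n
    beta_reduce
    rcases lt_or_ge n 0 with h | h
    · have h1 : Ico (0 : ℤ) (n + 1) = ∅ := Finset.Ico_eq_empty (by omega)
      have h2 : Ico (0 : ℤ) n = ∅ := Finset.Ico_eq_empty (by omega)
      have h3 : Ico n (0 : ℤ) = insert n (Ico (n + 1) 0) := by
        ext i
        simp only [mem_Ico, mem_insert]
        omega
      rw [h1, h2, h3, Finset.sum_insert (by simp)]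
      simp only [sum_empty, zero_add]
      have := z2_add_self (f n)
      linear_combination -this
    · have h1 : Ico (n + 1) (0 : ℤ) = ∅ := Finset.Ico_eq_empty (by omega)
      have h2 : Ico n (0 : ℤ) = ∅ := Finset.Ico_eq_empty (by omega)
      have h3 : Ico (0 : ℤ) (n + 1) = insert n (Ico 0 n) := by
        ext i
        simp only [mem_Ico, mem_insert]
        omega
      rw [h1, h2, h3, Finset.sum_insert (by simp)]
      simp only [sum_empty, add_zero]
      ring

/-- a relation which is propagated in both directions -/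
lemma int_prop {P : ℤ → Prop} (h0 : P 0) (h : ∀ n, P n ↔ P (n + 1)) (n : ℤ) : P n := by
  induction n using Int.induction_on with
  | zero => exact h0
  | succ i ih => exact (h _).1 ih
  | pred i ih => exact (h _).2 (by simpa using ih)

/-- **Potential of a closed cochain.** -/
theorem exists_pot {K : ℤ × ℤ → ZMod 2}
    (hK : ∀ x y, K (hz x y) + K (vt (x + 1) y) + K (hz x (y + 1)) + K (vt x y) = 0) :
    ∃ S : ℤ × ℤ → ZMod 2, ∀ c, S (pb c) = S (pa c) + K c := by
  obtain ⟨V, -, hV⟩ := exists_prim (fun y => K (vt 0 y)) 0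
  choose F hF0 hF using fun y => exists_prim (fun x => K (hz x y)) (V y)
  have hvt : ∀ x y, F (y + 1) x = F y x + K (vt x y) := by
    intro x y
    refine int_prop (P := fun x => F (y + 1) x = F y x + K (vt x y)) ?_ ?_ x
    · rw [hF0, hF0, hV]
    · intro n
      rw [hF (y + 1) n, hF y n]
      have h1 := hK n y
      have h2 := z2_add_self (K (hz n y))
      have h3 := z2_add_self (K (hz n (y + 1)))
      have h4 := z2_add_self (K (vt n y))
      have h5 := z2_add_self (K (vt (n + 1) y))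
      constructor
      · intro h
        linear_combination h + h1 - h2 - h5
      · intro h
        linear_combination h - h1 + h2 + h5
  refine ⟨fun p => F p.2 p.1, fun c => ?_⟩
  rcases hz_or_vt c with ⟨x, y, rfl⟩ | ⟨x, y, rfl⟩
  · rw [pa_hz, pb_hz]; exact hF y x
  · rw [pa_vt, pb_vt]; exact hvt x y

/-- sum over the four sides of a tile -/
def bd4 (K : ℤ × ℤ → ZMod 2) (e : ℤ × ℤ) : ZMod 2 := K (eW e) + K (eE e) + K (eS e) + K (eN e)

/-- potential, label form -/
theorem exists_pot' {K : ℤ × ℤ → ZMod 2} (hK : ∀ e : ℤ × ℤ, (e.1 + e.2) % 2 = 1 → bd4 K e = 0) :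
    ∃ S : ℤ × ℤ → ZMod 2, ∀ c, S (pb c) = S (pa c) + K c := by
  refine exists_pot fun x y => ?_
  have h := hK (vt x y) (by unfold vt; simp only; omega)
  unfold bd4 at h
  have e1 : eW (vt x y) = vt x y := rfl
  have e2 : eE (vt x y) = vt (x + 1) y := by
    unfold eE vt; refine Prod.ext ?_ ?_ <;> simp only <;> ring
  have e3 : eS (vt x y) = hz x y := by
    unfold eS vt hz; refine Prod.ext ?_ ?_ <;> simp only <;> ring
  have e4 : eN (vt x y) = hz x (y + 1) := by
    unfold eN vt hz; refine Prod.ext ?_ ?_ <;> simp only <;> ring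
  rw [e1, e2, e3, e4] at h
  linear_combination h

/-! ### Tiles -/

section tile

variable {Λ D : Set (ℤ × ℤ)} {w : Finset (ℤ × ℤ)} {e c d : ℤ × ℤ}

/-- the two arcs of a natural tile -/
lemma tile_cases (hD : e ∉ D) (ho : (e.1 + e.2) % 2 = 1) :
    (TJ D w e (eW e) (eN e) ∧ TJ D w e (eS e) (eE e)) ∨
      (TJ D w e (eW e) (eS e) ∧ TJ D w e (eN e) (eE e)) := by
  obtain ⟨x, y⟩ := e
  simp only at ho
  rcases Int.emod_two_eq_zero_or_one x with hx | hx
  · have hy : y % 2 = 1 := by omega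
    have hy1 : (y + 1) % 2 = 0 := by omega
    have hx1 : (x + 1) % 2 = 1 := by omega
    have lN : lab (eN (x, y)) = (x, y) := by simp [lab, eN, hx, hy1]
    have lS : lab (eS (x, y)) = (x, y) := by simp [lab, eS, hx1, hy]
    by_cases hw : (x, y) ∈ w
    · left
      refine ⟨Or.inr ⟨hD, Or.inr ⟨lN, ?_⟩⟩, Or.inr ⟨hD, Or.inl ⟨lS, ?_⟩⟩⟩
      · unfold nx; rw [lN, if_pos hw]; simp [nxO, eN, eW, hx, hy1]
      · unfold nx; rw [lS, if_pos hw]; simp [nxO, eS, eE, hx1, hy]
    · right
      refine ⟨Or.inr ⟨hD, Or.inr ⟨lS, ?_⟩⟩, Or.inr ⟨hD, Or.inl ⟨lN, ?_⟩⟩⟩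
      · unfold nx; rw [lS, if_neg hw]; simp [nxC, eS, eW, hx1, hy]
      · unfold nx; rw [lN, if_neg hw]; simp [nxC, eN, eE, hx, hy1]
  · have hy : y % 2 = 0 := by omega
    have hy1 : (y + 1) % 2 = 1 := by omega
    have hx1 : (x + 1) % 2 = 0 := by omega
    have lW : lab (eW (x, y)) = (x, y) := by simp [lab, eW, hx, hy]
    have lE : lab (eE (x, y)) = (x, y) := by simp [lab, eE, hx1, hy1]
    by_cases hw : (x, y) ∈ w
    · right
      refine ⟨Or.inr ⟨hD, Or.inl ⟨lW, ?_⟩⟩, Or.inr ⟨hD, Or.inr ⟨lE, ?_⟩⟩⟩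
      · unfold nx; rw [lW, if_pos hw]; simp [nxO, eS, eW, hx, hy]
      · unfold nx; rw [lE, if_pos hw]; simp [nxO, eN, eE, hx1, hy1]
    · left
      refine ⟨Or.inr ⟨hD, Or.inl ⟨lW, ?_⟩⟩, Or.inr ⟨hD, Or.inr ⟨lE, ?_⟩⟩⟩
      · unfold nx; rw [lW, if_neg hw]; simp [nxC, eN, eW, hx, hy]
      · unfold nx; rw [lE, if_neg hw]; simp [nxC, eS, eE, hx1, hy1]

lemma TJ_del (hD : e ∈ D) (ho : (e.1 + e.2) % 2 = 1) : TJ D w e (eS e) (eN e) :=
  Or.inl ⟨hD, ho, Or.inl ⟨rfl, rfl⟩⟩

lemma sides_ne (e : ℤ × ℤ) : eW e ≠ eE e ∧ eW e ≠ eS e ∧ eW e ≠ eN e ∧ eE e ≠ eS e ∧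
    eE e ≠ eN e ∧ eS e ≠ eN e := by
  unfold eW eE eS eN
  simp [Prod.ext_iff]

/-- in a natural tile the joined sides have a common end point -/
lemma nx_share (w : Finset (ℤ × ℤ)) (c : ℤ × ℤ) : pa c = pa (nx w c) ∨ pa c = pb (nx w c) ∨
    pb c = pa (nx w c) ∨ pb c = pb (nx w c) := by
  have key : ∀ d, (d = nxC c ∨ d = nxO c) → pa c = pa d ∨ pa c = pb d ∨ pb c = pa d ∨ pb c = pb d := by
    obtain ⟨a, b⟩ := c
    intro d hd
    rcases ty_cases (a, b) with ⟨-, h1, h2, -, h4, h5⟩ | ⟨-, h1, h2, -, h4, h5⟩ |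
        ⟨-, h1, h2, -, h4, h5⟩ | ⟨-, h1, h2, -, h4, h5⟩ <;>
    simp only at h1 h2 h4 h5 <;> rw [h4, h5] at hd <;> rcases hd with rfl | rfl <;>
    unfold pa pb <;> dsimp only <;> split_ifs <;> (try omega) <;> simp only [Prod.mk.injEq] <;> omega
  refine key _ ?_
  unfold nx
  split_ifs
  · exact Or.inr rfl
  · exact Or.inl rfl

/-- end points of the sides of a tile -/
lemma pts (ho : (e.1 + e.2) % 2 = 1) : pa (eW e) = pa (eS e) ∧ pb (eW e) = pa (eN e) := by
  obtain ⟨x, y⟩ := e
  simp only at ho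
  unfold pa pb eW eS eN
  dsimp only
  split_ifs <;> (try omega) <;> simp only [Prod.mk.injEq] <;> omega

/-- a step of a strand does not change a potential which is constant along its sides -/
lemma TJ_pot {S K : ℤ × ℤ → ZMod 2} (hS : ∀ c, S (pb c) = S (pa c) + K c)
    (hW : e ∈ D → K (eW e) = 0) (hc : K c = 0) (hd : K d = 0) (h : TJ D w e c d) :
    S (pa c) = S (pa d) := by
  have nat : ∀ c d : ℤ × ℤ, K c = 0 → K d = 0 → nx w c = d → S (pa c) = S (pa d) := by
    intro c d hc hd h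
    have h1 := hS c
    have h2 := hS d
    rw [hc, add_zero] at h1
    rw [hd, add_zero] at h2
    rcases nx_share w c with k | k | k | k <;> rw [h] at k
    · rw [k]
    · rw [k, h2]
    · rw [← h1, k]
    · rw [← h1, k, h2]
  rcases h with ⟨hD, ho, h⟩ | ⟨-, ⟨-, h⟩ | ⟨-, h⟩⟩
  · obtain ⟨k1, k2⟩ := pts ho
    have h1 := hS (eW e)
    rw [hW hD, add_zero, k1, k2] at h1
    rcases h with ⟨rfl, rfl⟩ | ⟨rfl, rfl⟩
    · exact h1.symm
    · exact h1
  · exact nat c d hc hd h
  · exact (nat d c hd hc h).symm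

/-- **A strand along which the cochain vanishes does not change the potential.** -/
theorem strand_const {S K : ℤ × ℤ → ZMod 2} (hS : ∀ c, S (pb c) = S (pa c) + K c)
    (hW : ∀ e ∈ Λ, e ∈ D → K (eW e) = 0) (h : (SG Λ D w).Reachable c d)
    (hK : ∀ x, (SG Λ D w).Reachable c x → K x = 0) : S (pa c) = S (pa d) := by
  obtain ⟨p⟩ := h
  have key : ∀ (a b : ℤ × ℤ) (p : (SG Λ D w).Walk a b), (SG Λ D w).Reachable c a →
      S (pa a) = S (pa b) := by
    intro a b p
    induction p with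
    | nil => exact fun _ => rfl
    | @cons u v x h q ih =>
      intro hu
      have hv : (SG Λ D w).Reachable c v := hu.trans h.reachable
      obtain ⟨e, he, h1⟩ := h
      exact (TJ_pot hS (hW e he) (hK u hu) (hK v hv) h1).trans (ih hv)
  exact key c d p (SimpleGraph.Reachable.refl c)

end tile

/-! ### Paths of tiles outside of `Λ` -/

/-- neighbouring tiles outside of `Λ` -/
def TA (Λ : Set (ℤ × ℤ)) (e e' : ℤ × ℤ) : Prop :=
  e ∉ Λ ∧ e' ∉ Λ ∧ ∃ c, (e = lab c ∧ e' = plab c) ∨ (e = plab c ∧ e' = lab c)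

lemma TA.symm {Λ : Set (ℤ × ℤ)} {e e' : ℤ × ℤ} (h : TA Λ e e') : TA Λ e' e := by
  obtain ⟨h1, h2, c, h3⟩ := h
  exact ⟨h2, h1, c, by tauto⟩

/-- joined by tiles outside of `Λ` -/
def TC (Λ : Set (ℤ × ℤ)) (e e' : ℤ × ℤ) : Prop := Relation.ReflTransGen (TA Λ) e e'

lemma TC.refl (Λ : Set (ℤ × ℤ)) (e : ℤ × ℤ) : TC Λ e e := Relation.ReflTransGen.refl

lemma TC.trans {Λ : Set (ℤ × ℤ)} {a b c : ℤ × ℤ} (h : TC Λ a b) (h' : TC Λ b c) : TC Λ a c :=
  Relation.ReflTransGen.trans h h'

lemma TC.symm {Λ : Set (ℤ × ℤ)} {a b : ℤ × ℤ} (h : TC Λ a b) : TC Λ b a := by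
  induction h with
  | refl => exact TC.refl _ _
  | tail _ h ih => exact Relation.ReflTransGen.head h.symm ih

lemma TC.mono {Λ Λ' : Set (ℤ × ℤ)} {a b : ℤ × ℤ} (hs : Λ' ⊆ Λ) (h : TC Λ a b) : TC Λ' a b := by
  induction h with
  | refl => exact TC.refl _ _
  | tail _ h ih => exact ih.tail ⟨fun k => h.1 (hs k), fun k => h.2.1 (hs k), h.2.2⟩

/-- indicator of a side -/
def ind (c x : ℤ × ℤ) : ZMod 2 := if x = c then 1 else 0

lemma bd4_ind (c : ℤ × ℤ) {e : ℤ × ℤ} (ho : (e.1 + e.2) % 2 = 1) :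
    bd4 (ind c) e = if e = lab c ∨ e = plab c then 1 else 0 := by
  obtain ⟨n1, n2, n3, n4, n5, n6⟩ := sides_ne e
  unfold bd4 ind
  by_cases h : e = lab c ∨ e = plab c
  · rw [if_pos h]
    rcases side_cases c h with rfl | rfl | rfl | rfl
    · rw [if_pos rfl, if_neg n1.symm, if_neg n2.symm, if_neg n3.symm]; simp
    · rw [if_neg n1, if_pos rfl, if_neg n4.symm, if_neg n5.symm]; simp
    · rw [if_neg n2, if_neg n4, if_pos rfl, if_neg n6.symm]; simp
    · rw [if_neg n3, if_neg n5, if_neg n6, if_pos rfl]; simp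
  · rw [if_neg h]
    have k : ∀ x, (x = eW e ∨ x = eE e ∨ x = eS e ∨ x = eN e) → x ≠ c := by
      rintro x hx rfl
      exact h (of_side ho x hx)
    rw [if_neg (k _ (Or.inl rfl)), if_neg (k _ (Or.inr (Or.inl rfl))),
      if_neg (k _ (Or.inr (Or.inr (Or.inl rfl)))), if_neg (k _ (Or.inr (Or.inr (Or.inr rfl))))]
    simp

lemma bd4_add (K K' : ℤ × ℤ → ZMod 2) (e : ℤ × ℤ) :
    bd4 (fun x => K x + K' x) e = bd4 K e + bd4 K' e := by
  unfold bd4
  ring

/-- **cochain of a path of tiles outside of `Λ`** -/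
theorem exists_path_cochain {Λ : Set (ℤ × ℤ)} {a b : ℤ × ℤ} (h : TC Λ a b) :
    ∃ K : ℤ × ℤ → ZMod 2, (∀ c, K c ≠ 0 → lab c ∉ Λ ∧ plab c ∉ Λ) ∧
      ∀ e : ℤ × ℤ, (e.1 + e.2) % 2 = 1 → bd4 K e = (if e = a then 1 else 0) + (if e = b then 1 else 0) := by
  induction h with
  | refl =>
    refine ⟨fun _ => 0, fun c hc => absurd rfl hc, fun e _ => ?_⟩
    rw [z2_add_self]
    unfold bd4
    simp
  | @tail b c _ h ih =>
    obtain ⟨K, h1, h2⟩ := ih
    obtain ⟨hb, hc, s, hs⟩ := h
    refine ⟨fun x => K x + ind s x, ?_, ?_⟩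
    · intro x hx
      by_cases h3 : x = s
      · subst h3
        rcases hs with ⟨e1, e2⟩ | ⟨e1, e2⟩
        · rw [← e1, ← e2]; exact ⟨hb, hc⟩
        · rw [← e1, ← e2]; exact ⟨hc, hb⟩
      · refine h1 x fun h4 => hx ?_
        simp only
        rw [h4]
        unfold ind
        rw [if_neg h3, add_zero]
    · intro e he
      rw [bd4_add, h2 e he, bd4_ind s he]
      have hne : b ≠ c := by
        rcases hs with ⟨e1, e2⟩ | ⟨e1, e2⟩
        · rw [e1, e2]; exact lab_ne_plab s
        · rw [e1, e2]; exact (lab_ne_plab s).symm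
      have h4 : (e = lab s ∨ e = plab s) ↔ (e = b ∨ e = c) := by
        rcases hs with ⟨e1, e2⟩ | ⟨e1, e2⟩
        · rw [e1, e2]
        · rw [e1, e2]; exact or_comm
      have h5 : (if e = lab s ∨ e = plab s then (1 : ZMod 2) else 0) =
          (if e = b then 1 else 0) + (if e = c then 1 else 0) := by
        by_cases k1 : e = b
        · have k2 : e ≠ c := fun k => hne (k1.symm.trans k)
          rw [if_pos (h4.2 (Or.inl k1)), if_pos k1, if_neg k2, add_zero]
        · by_cases k2 : e = c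
          · rw [if_pos (h4.2 (Or.inr k2)), if_neg k1, if_pos k2, zero_add]
          · rw [if_neg (fun k => (h4.1 k).elim k1 k2), if_neg k1, if_neg k2, add_zero]
      rw [h5]
      have := z2_add_self (if e = b then (1 : ZMod 2) else 0)
      linear_combination this

/-! ### Separating functions -/

section sep

variable {Λ D : Set (ℤ × ℤ)} {w : Finset (ℤ × ℤ)} {x1 x3 o1 o3 : ℤ × ℤ}

/-- `o` is a tile outside of `Λ` with the side `x` -/
def OutT (Λ : Set (ℤ × ℤ)) (x o : ℤ × ℤ) : Prop := o ∉ Λ ∧ (o = lab x ∨ o = plab x)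

lemma OutT.isEnd (h : OutT Λ x1 o1) : IsEnd (SG Λ D w) x1 := by
  refine isEnd_of_notMem ?_
  rcases h.2 with h1 | h1
  · left; rw [← h1]; exact h.1
  · right; rw [← h1]; exact h.1

/-- the tile on the other side belongs to `Λ` -/
def InT (Λ : Set (ℤ × ℤ)) (x : ℤ × ℤ) : Prop := lab x ∈ Λ ∨ plab x ∈ Λ

lemma InT.of_adj {x y : ℤ × ℤ} (h : (SG Λ D w).Adj x y) : InT Λ x := by
  obtain ⟨e, he, h1⟩ := h
  rcases h1.label with h2 | h2
  · left; rw [← h2]; exact he
  · right; rw [← h2]; exact he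

lemma lab_odd' (c : ℤ × ℤ) : ((lab c).1 + (lab c).2) % 2 = 1 := by
  obtain ⟨a, b⟩ := c
  rcases ty_cases (a, b) with ⟨-, h1, h2, h3, -⟩ | ⟨-, h1, h2, h3, -⟩ | ⟨-, h1, h2, h3, -⟩ |
    ⟨-, h1, h2, h3, -⟩ <;> rw [h3] <;> simp only at h1 h2 ⊢ <;> omega

/-- **The separating function of a strand** between two boundary sides. -/
theorem exists_sep (h : (SG Λ D w).Reachable x1 x3) (hne : x1 ≠ x3) (h1 : OutT Λ x1 o1)
    (h3 : OutT Λ x3 o3) (hp : TC Λ o1 o3)
    (hD : ∀ e ∈ Λ, e ∈ D → eW e ≠ x1 ∧ eE e ≠ x1 ∧ eW e ≠ x3 ∧ eE e ≠ x3)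
    (hDo : ∀ e ∈ Λ, e ∈ D → (e.1 + e.2) % 2 = 1) :
    ∃ S : ℤ × ℤ → ZMod 2,
      (∀ c, InT Λ c → ¬ (SG Λ D w).Reachable x1 c → S (pb c) = S (pa c)) ∧
      S (pb x1) = S (pa x1) + 1 ∧ S (pb x3) = S (pa x3) + 1 ∧
      (∀ c d, (SG Λ D w).Reachable c d → InT Λ c → ¬ (SG Λ D w).Reachable x1 c →
        S (pa c) = S (pa d)) := by
  classical
  set G := SG Λ D w with hG
  have hd2 : Deg2 G := SG_deg2
  have e1 : IsEnd G x1 := h1.isEnd
  have e3 : IsEnd G x3 := h3.isEnd
  -- both ends have a tile in `Λ`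
  have hin : InT Λ x1 ∧ InT Λ x3 := by
    obtain ⟨⟨y, hy⟩, ⟨y', hy'⟩⟩ : (∃ y, G.Adj x1 y) ∧ ∃ y, G.Adj x3 y := by
      constructor
      · obtain ⟨p⟩ := h
        cases p with
        | nil => exact absurd rfl hne
        | cons h _ => exact ⟨_, h⟩
      · obtain ⟨p⟩ := h.symm
        cases p with
        | nil => exact absurd rfl hne
        | cons h _ => exact ⟨_, h⟩
    exact ⟨InT.of_adj hy, InT.of_adj hy'⟩
  have hends : ∀ c, G.Reachable x1 c → IsEnd G c → c = x1 ∨ c = x3 := fun c hc he =>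
    ends_two hd2 e1 e3 he h hc hne
  obtain ⟨Ko, ho1, ho2⟩ := exists_path_cochain hp
  set Ki : ℤ × ℤ → ZMod 2 := fun c => if G.Reachable x1 c then 1 else 0 with hKi
  set K : ℤ × ℤ → ZMod 2 := fun c => Ki c + Ko c with hK
  have hKo : ∀ c, InT Λ c → Ko c = 0 := by
    intro c hc
    by_contra hn
    obtain ⟨k1, k2⟩ := ho1 c hn
    exact hc.elim k1 k2
  have hKi0 : ∀ c, ¬ G.Reachable x1 c → Ki c = 0 := fun c hc => if_neg hc
  have hpair : ∀ e ∈ Λ, ∀ c d, TJ D w e c d → Ki c = Ki d := by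
    intro e he c d hj
    have hadj : G.Adj c d := ⟨e, he, hj⟩
    simp only [hKi]
    by_cases k : G.Reachable x1 c
    · rw [if_pos k, if_pos (k.trans hadj.reachable)]
    · rw [if_neg k, if_neg (fun k' => k (k'.trans hadj.symm.reachable))]
  have hWE : ∀ e ∈ Λ, e ∈ D → Ki (eW e) = 0 ∧ Ki (eE e) = 0 := by
    intro e he hd
    obtain ⟨k1, k2, k3, k4⟩ := hD e he hd
    constructor
    · refine hKi0 _ fun k => ?_
      rcases hends _ k (isEnd_eW hd (hDo e he hd)) with h5 | h5
      · exact k1 h5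
      · exact k3 h5
    · refine hKi0 _ fun k => ?_
      have hend : IsEnd G (eE e) := by
        rintro a b ⟨f1, hf1, g1⟩ ⟨f2, hf2, g2⟩
        have h0 := of_side (hDo e he hd) (eE e) (Or.inr (Or.inl rfl))
        have n1 : f1 ≠ e := fun h => not_TJ_eE hd (h ▸ g1)
        have n2 : f2 ≠ e := fun h => not_TJ_eE hd (h ▸ g2)
        have : f1 = f2 := by
          rcases g1.label with l1 | l1 <;> rcases g2.label with l2 | l2 <;> rcases h0 with l0 | l0
          · exact absurd (l1.trans l0.symm) n1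
          · rw [l1, l2]
          · exact absurd (l1.trans l0.symm) n1
          · exact absurd (l2.trans l0.symm) n2
          · exact absurd (l2.trans l0.symm) n2
          · exact absurd (l1.trans l0.symm) n1
          · rw [l1, l2]
          · exact absurd (l1.trans l0.symm) n1
        subst this
        exact g1.unique g2
      rcases hends _ k hend with h5 | h5
      · exact k2 h5
      · exact k4 h5
  -- the cochain is closed
  have hcl : ∀ e : ℤ × ℤ, (e.1 + e.2) % 2 = 1 → bd4 K e = 0 := by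
    intro e he
    rw [hK, bd4_add, ho2 e he]
    by_cases hL : e ∈ Λ
    · have k1 : e ≠ o1 := fun k => h1.1 (k ▸ hL)
      have k3 : e ≠ o3 := fun k => h3.1 (k ▸ hL)
      rw [if_neg k1, if_neg k3, add_zero, add_zero]
      unfold bd4
      by_cases hd : e ∈ D
      · obtain ⟨k4, k5⟩ := hWE e hL hd
        rw [k4, k5, hpair e hL _ _ (TJ_del hd he)]
        have := z2_add_self (Ki (eN e))
        linear_combination this
      · rcases tile_cases (w := w) hd he with ⟨g1, g2⟩ | ⟨g1, g2⟩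
        · rw [hpair e hL _ _ g1, hpair e hL _ _ g2]
          have a1 := z2_add_self (Ki (eN e))
          have a2 := z2_add_self (Ki (eE e))
          linear_combination a1 + a2
        · rw [hpair e hL _ _ g1, hpair e hL _ _ g2]
          have a1 := z2_add_self (Ki (eS e))
          have a2 := z2_add_self (Ki (eE e))
          linear_combination a1 + a2
    · -- outside
      have hside : ∀ c, (c = eW e ∨ c = eE e ∨ c = eS e ∨ c = eN e) →
          Ki c = ind x1 c + ind x3 c := by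
        intro c hc
        have hl := of_side he c hc
        have hec : IsEnd G c := isEnd_of_notMem (by
          rcases hl with hl | hl
          · left; rw [← hl]; exact hL
          · right; rw [← hl]; exact hL)
        unfold ind
        by_cases k : G.Reachable x1 c
        · rw [hKi]
          simp only
          rw [if_pos k]
          rcases hends c k hec with h5 | h5
          · rw [if_pos h5, if_neg (fun h6 => hne (h5.symm.trans h6)), add_zero]
          · rw [if_neg (fun h6 => hne (h6.symm.trans h5)), if_pos h5, zero_add]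
        · rw [hKi0 c k, if_neg (fun h6 => k (by rw [h6])), if_neg (fun h6 => k (by rw [h6]; exact h)),
            add_zero]
      have hb : bd4 Ki e = bd4 (fun c => ind x1 c + ind x3 c) e := by
        unfold bd4
        rw [hside _ (Or.inl rfl), hside _ (Or.inr (Or.inl rfl)),
          hside _ (Or.inr (Or.inr (Or.inl rfl))), hside _ (Or.inr (Or.inr (Or.inr rfl)))]
      rw [hb, bd4_add, bd4_ind x1 he, bd4_ind x3 he]
      have hout : ∀ {x o : ℤ × ℤ}, OutT Λ x o → InT Λ x →
          ((e = lab x ∨ e = plab x) ↔ e = o) := by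
        intro x o hx hi
        constructor
        · intro k
          rcases hx.2 with k1 | k1 <;> rcases k with k2 | k2
          · exact k2.trans k1.symm
          · exfalso
            rcases hi with k3 | k3
            · exact hx.1 (k1 ▸ k3)
            · exact hL (k2 ▸ k3)
          · exfalso
            rcases hi with k3 | k3
            · exact hL (k2 ▸ k3)
            · exact hx.1 (k1 ▸ k3)
          · exact k2.trans k1.symm
        · rintro rfl
          exact hx.2
      simp only [hout h1 hin.1, hout h3 hin.2]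
      have a1 := z2_add_self (if e = o1 then (1 : ZMod 2) else 0)
      have a2 := z2_add_self (if e = o3 then (1 : ZMod 2) else 0)
      linear_combination a1 + a2
  obtain ⟨S, hS⟩ := exists_pot' hcl
  have hK0 : ∀ c, InT Λ c → ¬ G.Reachable x1 c → K c = 0 := by
    intro c hc hn
    rw [hK]
    simp only
    rw [hKi0 c hn, hKo c hc, add_zero]
  have hK1 : ∀ c, InT Λ c → G.Reachable x1 c → K c = 1 := by
    intro c hc hn
    rw [hK, hKi]
    simp only
    rw [if_pos hn, hKo c hc, add_zero]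
  refine ⟨S, fun c hc hn => ?_, ?_, ?_, fun c d hcd hc hn => ?_⟩
  · rw [hS c, hK0 c hc hn, add_zero]
  · rw [hS x1, hK1 x1 hin.1 (SimpleGraph.Reachable.refl _)]
  · rw [hS x3, hK1 x3 hin.2 h]
  · refine strand_const hS (fun e he hd => ?_) hcd fun x hx => ?_
    · have hEW : InT Λ (eW e) := by
        rcases of_side (hDo e he hd) (eW e) (Or.inl rfl) with k | k
        · left; rw [← k]; exact he
        · right; rw [← k]; exact he
      refine hK0 _ hEW fun k => ?_
      have := (hWE e he hd).1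
      rw [hKi] at this
      simp only at this
      rw [if_pos k] at this
      exact one_ne_zero this
    · have hxi : InT Λ x := by
        by_cases hxc : x = c
        · rw [hxc]; exact hc
        · obtain ⟨p⟩ := hx.symm
          cases p with
          | nil => exact absurd rfl hxc
          | cons h _ => exact InT.of_adj h
      exact hK0 x hxi fun k => hn (k.trans hx.symm)

end sep

end Pool.Agent.H47.W
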