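import Pool.Agent.H47.W.FrozenEval

/-!
# The pairing with the line deleted is noncrossing away from its end

`Pl.del_nc`.
-/

namespace Pool.Agent.H47.W

variable {D : Type*} [DecidableEq D]

section delnc

variable {pos : D → ℤ} {e : D} {T : List (D × D)} {O : Finset D} {s : D → D}

/-- the partner of the image of a leg of the line after the deletion -/
theorem del_part (T : List (D × D)) (s : D → D) (wn : WN T s) (nn : ∀ x ∈ nms T, s x ∉ nms T) :
    ∀ t ∈ T, del T s (s t.2) = s t.1 ∧ del T s (s t.1) = s t.2 := by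
  induction T generalizing s with
  | nil => intro t ht; simp at ht
  | cons u T ih =>
    intro t ht
    have hs := wn.inv
    have f := wn.fr
    have nu1 := nn u.1 (by simp)
    have nu2 := nn u.2 (by simp)
    simp only [nms_cons, List.mem_cons, not_or] at nu1 nu2
    have ne12 : s u.1 ≠ s u.2 := fun e' => f.ne (hs.injective e')
    have hsame : ∀ x ∈ nms T, Pool.Agent.H47.W.jo u.1 u.2 s x = s x := by
      intro x hx
      have h1 := wn.notin hx
      have h2 := nn x (by simp [hx])
      simp only [nms_cons, List.mem_cons, not_or] at h2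
      exact jo_other hs h1.1 h1.2 h2.1 h2.2.1
    rcases List.mem_cons.1 ht with rfl | ht'
    · have j1 : Pool.Agent.H47.W.jo t.1 t.2 s (s t.2) = s t.1 := by
        unfold Pool.Agent.H47.W.jo
        rw [if_neg (not_or.2 ⟨nu2.1, f.ay⟩), if_neg (Ne.symm ne12), if_pos rfl]
      have j2 : Pool.Agent.H47.W.jo t.1 t.2 s (s t.1) = s t.2 := by
        unfold Pool.Agent.H47.W.jo
        rw [if_neg (not_or.2 ⟨f.ax, nu1.2.1⟩), if_pos rfl]
      constructor
      · rw [del_cons, del_other wn.jo nu2.2.2 (by rw [j1]; exact nu1.2.2), j1]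
      · rw [del_cons, del_other wn.jo nu1.2.2 (by rw [j2]; exact nu2.2.2), j2]
    · have h1 := ih _ wn.jo (fun x hx => by
        rw [hsame x hx]
        have h2 := nn x (by simp [hx])
        simp only [nms_cons, List.mem_cons, not_or] at h2
        exact h2.2.2) t ht'
      rw [hsame _ (mem_nms.2 ⟨t, ht', Or.inl rfl⟩), hsame _ (mem_nms.2 ⟨t, ht', Or.inr rfl⟩)] at h1
      exact h1

/-- **After the deletion the pairing is noncrossing away from the end** -/
theorem Pl.del_nc (hp : Function.Injective pos) (h : Pl pos e T O s) {x y : D}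
    (hx : x ≠ e) (hx' : del T s x ≠ e) (hy : y ≠ e) (hy' : del T s y ≠ e) :
    ¬ (pos x < pos y ∧ pos y < pos (del T s x) ∧ pos (del T s x) < pos (del T s y)) := by
  obtain ⟨T', s', h1, h2, hO, -⟩ := exists_red hp h
  rw [h2] at hx' hy' ⊢
  clear h2 h
  have hs := h1.wf.inv
  have wn := h1.wf.wn
  have nn : ∀ x ∈ e :: nms T', s' x ∉ e :: nms T' := fun x hx h' => h1.blk_notO h' (hO x hx)
  have part := del_part T' s' wn fun x hx h' => nn x (by simp [hx]) (by simp [h'])
  have rev : ∀ x ∈ e :: nms T', ∀ y ∈ e :: nms T', pos x < pos y → pos (s' y) < pos (s' x) := by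
    intro x hx y hy hxy
    have h1' := h1.nc x y
    have h2 := h1.pos_blk hy (hO x hx)
    have h3 : pos (s' x) ≠ pos (s' y) := fun e' => by
      have := hs.injective (hp e')
      rw [this] at hxy
      exact lt_irrefl _ hxy
    omega
  have m1 : ∀ t ∈ T', t.1 ∈ e :: nms T' := fun t ht => List.mem_cons_of_mem _
    (mem_nms.2 ⟨t, ht, Or.inl rfl⟩)
  have m2 : ∀ t ∈ T', t.2 ∈ e :: nms T' := fun t ht => List.mem_cons_of_mem _
    (mem_nms.2 ⟨t, ht, Or.inr rfl⟩)
  have me : e ∈ e :: nms T' := by simp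
  -- every name is of one of two kinds
  have kind : ∀ z, z ≠ e → del T' s' z ≠ e → del T' s' z ≠ z →
      (z ∈ O ∧ del T' s' z = s' z ∧ s' z ∈ O) ∨
      ∃ t ∈ T', (z = s' t.2 ∧ del T' s' z = s' t.1) ∨ (z = s' t.1 ∧ del T' s' z = s' t.2) := by
    intro z hz hz' hal
    have hal' : z ∉ nms T' ∧ s' z ≠ z := by
      rw [Ne, del_fix wn, not_or] at hal
      exact hal
    have hzO : z ∈ O := by
      rcases h1.out z hal'.2 with h3 | h3 | h3
      · exact absurd h3 hz
      · exact absurd h3 hal'.1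
      · exact h3
    by_cases hsz : s' z ∈ nms T'
    · right
      obtain ⟨t, ht, h3 | h3⟩ := mem_nms.1 hsz
      · have h4 : z = s' t.1 := by rw [← h3, hs]
        exact ⟨t, ht, Or.inr ⟨h4, by rw [h4]; exact (part t ht).2⟩⟩
      · have h4 : z = s' t.2 := by rw [← h3, hs]
        exact ⟨t, ht, Or.inl ⟨h4, by rw [h4]; exact (part t ht).1⟩⟩
    · left
      have h3 : del T' s' z = s' z := del_other wn hal'.1 hsz
      refine ⟨hzO, h3, ?_⟩
      have h4 : s' (s' z) ≠ s' z := fun e' => hal'.2 (hs.injective e')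
      rcases h1.out _ h4 with h5 | h5 | h5
      · rw [h3] at hz'; exact absurd h5 hz'
      · exact absurd h5 hsz
      · exact h5
  -- an outer arc does not enclose the image of a leg
  have encl : ∀ z ∈ e :: nms T', ∀ w, w ∈ O → s' w ∈ O →
      ¬ (pos w < pos (s' z) ∧ pos (s' z) < pos (s' w)) := by
    rintro z hz w hw hw' ⟨c1, c2⟩
    refine h1.nc z w ⟨h1.pos_blk hz hw, c1, c2⟩
  rintro ⟨c1, c2, c3⟩
  have ax : del T' s' x ≠ x := fun e' => by rw [e'] at c2; omega
  have ay : del T' s' y ≠ y := fun e' => by rw [e'] at c3; omega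
  rcases kind x hx hx' ax with ⟨kx1, kx2, kx3⟩ | ⟨t, ht, ⟨kx1, kx2⟩ | ⟨kx1, kx2⟩⟩
  · rcases kind y hy hy' ay with ⟨ky1, ky2, ky3⟩ | ⟨u, hu, ⟨ky1, ky2⟩ | ⟨ky1, ky2⟩⟩
    · rw [kx2] at c2 c3
      rw [ky2] at c3
      exact h1.nc x y ⟨c1, c2, c3⟩
    · rw [kx2] at c2
      rw [ky1] at c1 c2
      exact encl _ (m2 u hu) x kx1 kx3 ⟨c1, c2⟩
    · rw [kx2] at c2
      rw [ky1] at c1 c2
      exact encl _ (m1 u hu) x kx1 kx3 ⟨c1, c2⟩
  · rcases kind y hy hy' ay with ⟨ky1, ky2, ky3⟩ | ⟨u, hu, ⟨ky1, ky2⟩ | ⟨ky1, ky2⟩⟩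
    · rw [kx2] at c2 c3
      rw [ky2] at c3
      exact encl _ (m1 t ht) y ky1 ky3 ⟨c2, c3⟩
    · -- two arcs of the line, `x = s' t.2`, `y = s' u.2`
      rw [kx1, ky1] at c1
      rw [kx2] at c2 c3
      rw [ky2] at c3
      have o1 : pos u.2 < pos t.2 := by
        by_contra hc
        rcases lt_or_eq_of_le (not_lt.1 hc) with hc | hc
        · have := rev _ (m2 t ht) _ (m2 u hu) hc; omega
        · rw [hp hc] at c1; omega
      have o2 : pos u.1 < pos t.1 := by
        by_contra hc
        rcases lt_or_eq_of_le (not_lt.1 hc) with hc | hc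
        · have := rev _ (m1 t ht) _ (m1 u hu) hc; omega
        · rw [hp hc] at c3; omega
      -- the order of the two tiles
      have : t = u ∨ (pos u.1 < pos t.1 ∧ pos t.2 < pos u.2) ∨
          (pos t.1 < pos u.1 ∧ pos u.2 < pos t.2) := by
        obtain ⟨A, C, hA⟩ := List.append_of_mem ht
        have srt := h1.srt
        rw [hA] at hu srt
        have q1 := List.pairwise_append.1 srt
        rcases List.mem_append.1 hu with h5 | h5
        · right; right
          have := q1.2.2 u h5 t (by simp)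
          exact ⟨this.1, this.2⟩
        · rcases List.mem_cons.1 h5 with h6 | h6
          · left; exact h6.symm
          · right; left
            exact (List.pairwise_cons.1 q1.2.1).1 u h6
      rcases this with h5 | h5 | h5
      · rw [h5] at o1; omega
      · omega
      · omega
    · have l1 := h1.lr t ht
      have l2 := h1.lr u hu
      rw [kx2] at c2
      rw [ky1] at c2
      rw [kx2] at c3
      rw [ky2] at c3
      have q := rev _ (m1 t ht) _ (m2 u hu) (by omega)
      omega
  · rcases kind y hy hy' ay with ⟨ky1, ky2, ky3⟩ | ⟨u, hu, ⟨ky1, ky2⟩ | ⟨ky1, ky2⟩⟩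
    · rw [kx2] at c2 c3
      rw [ky2] at c3
      exact encl _ (m2 t ht) y ky1 ky3 ⟨c2, c3⟩
    · have l1 := h1.lr t ht
      have l2 := h1.lr u hu
      rw [kx1] at c1
      rw [kx2] at c2
      have q := rev _ (m1 t ht) _ (m2 t ht) (by omega)
      omega
    · have l1 := h1.lr t ht
      have l2 := h1.lr u hu
      rw [kx1] at c1
      rw [kx2] at c2
      have q := rev _ (m1 t ht) _ (m2 t ht) (by omega)
      omega

end delnc

end Pool.Agent.H47.W
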