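import Mathlib

/-!
# The frozen line lemma: local moves

A pairing of ends is an involution `s`; fixed points of `s` are dead names. A frozen half line starts
at the end `e` and crosses the tiles `(l, r)` of a list (nearest tile first): at each tile the head `e`
is joined with `l` (weight `a`, the new head is `r`) or with `r` (weight `b`, the new head is `l`).
With `a + b = 1`, `a * b = 1` the line may be pulled off everything which does not separate its two
ends: `Val_r1`, `Val_l2`, `Val_r2`.
-/

namespace Pool.Agent.H47.W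

variable {D : Type*} [DecidableEq D]

/-- join the ends `x` and `y`; they become dead -/
def jo (x y : D) (s : D → D) (t : D) : D :=
  if t = x ∨ t = y then t else if t = s x then s y else if t = s y then s x else s t

/-- exchange the names `x` and `y` -/
def ren (x y : D) (s : D → D) (t : D) : D := Equiv.swap x y (s (Equiv.swap x y t))

/-- the head `e` is joined with `l`, the new head is `r` -/
def stA (e l r : D) (s : D → D) : D → D := ren e r (jo e l s)

/-- the head `e` is joined with `r`, the new head is `l` -/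
def stB (e l r : D) (s : D → D) : D → D := ren e l (jo e r s)

/-- the sum over the states of the tiles of the line -/
noncomputable def Val (a b : ℂ) (e : D) (v : (D → D) → ℂ) : List (D × D) → (D → D) → ℂ
  | [], s => v s
  | t :: T, s => a * Val a b e v T (stA e t.1 t.2 s) + b * Val a b e v T (stB e t.1 t.2 s)

@[simp] theorem Val_nil (a b : ℂ) (e : D) (v : (D → D) → ℂ) (s : D → D) :
    Val a b e v [] s = v s := rfl

theorem Val_cons (a b : ℂ) (e : D) (v : (D → D) → ℂ) (t : D × D) (T : List (D × D)) (s : D → D) :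
    Val a b e v (t :: T) s =
      a * Val a b e v T (stA e t.1 t.2 s) + b * Val a b e v T (stB e t.1 t.2 s) := rfl

/-! ### Involutions -/

/-- the names are different and alive -/
structure Fr (s : D → D) (x y : D) : Prop where
  inv : Function.Involutive s
  ne : x ≠ y
  ax : s x ≠ x
  ay : s y ≠ y

theorem jo_inv {x y : D} {s : D → D} (h : Fr s x y) : Function.Involutive (jo x y s) := by
  intro t
  have a1 := h.inv x
  have a2 := h.inv y
  have a4 := h.inv t
  have a5 := h.ne
  have a6 := h.ax
  have a7 := h.ay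
  unfold jo
  grind (splits := 60)

theorem ren_inv {x y : D} {s : D → D} (h : Function.Involutive s) :
    Function.Involutive (ren x y s) := by
  intro t
  unfold ren
  rw [Equiv.swap_apply_self, h, Equiv.swap_apply_self]

theorem stA_inv {e l r : D} {s : D → D} (h : Fr s e l) : Function.Involutive (stA e l r s) :=
  ren_inv (jo_inv h)

theorem stB_inv {e l r : D} {s : D → D} (h : Fr s e r) : Function.Involutive (stB e l r s) :=
  ren_inv (jo_inv h)

/-- which names are alive after a join -/
theorem jo_fix {x y : D} {s : D → D} (h : Fr s x y) (t : D) :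
    jo x y s t = t ↔ t = x ∨ t = y ∨ s t = t := by
  have a1 := h.inv x
  have a2 := h.inv y
  have a4 := h.inv t
  have a5 := h.ne
  have a6 := h.ax
  have a7 := h.ay
  unfold jo
  grind (splits := 60)

theorem stA_fix {e l r : D} {s : D → D} (h : Fr s e l) (h1 : e ≠ r) (h2 : l ≠ r) (h3 : s r ≠ r)
    (t : D) : stA e l r s t = t ↔ t = l ∨ t = r ∨ s t = t := by
  have a1 := h.inv e
  have a2 := h.inv l
  have a3 := h.inv r
  have a4 := h.inv t
  have a5 := h.ne
  have a6 := h.ax
  have a7 := h.ay
  unfold stA ren jo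
  simp only [Equiv.swap_apply_def]
  grind (splits := 60)

theorem stB_fix {e l r : D} {s : D → D} (h : Fr s e r) (h1 : e ≠ l) (h2 : l ≠ r) (h3 : s l ≠ l)
    (t : D) : stB e l r s t = t ↔ t = l ∨ t = r ∨ s t = t := by
  have a1 := h.inv e
  have a2 := h.inv l
  have a3 := h.inv r
  have a4 := h.inv t
  have a5 := h.ne
  have a6 := h.ax
  have a7 := h.ay
  unfold stB ren jo
  simp only [Equiv.swap_apply_def]
  grind (splits := 60)

theorem jo_comm {x y z w : D} {s : D → D} (h : Fr s x y) (h' : Fr s z w) (h1 : x ≠ z) (h2 : x ≠ w)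
    (h3 : y ≠ z) (h4 : y ≠ w) : jo x y (jo z w s) = jo z w (jo x y s) := by
  funext t
  have a1 := h.inv x
  have a2 := h.inv y
  have a3 := h.inv z
  have a8 := h.inv w
  have a4 := h.inv t
  have a5 := h.ne
  have a6 := h.ax
  have a7 := h.ay
  have b5 := h'.ne
  have b6 := h'.ax
  have b7 := h'.ay
  unfold jo
  grind (splits := 60)

theorem jo_ren {x y z w : D} {s : D → D} (h1 : x ≠ z) (h2 : x ≠ w) (h3 : y ≠ z) (h4 : y ≠ w) :
    jo x y (ren z w s) = ren z w (jo x y s) := by
  funext t
  unfold jo ren
  have e1 : Equiv.swap z w x = x := Equiv.swap_apply_of_ne_of_ne h1 h2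
  have e2 : Equiv.swap z w y = y := Equiv.swap_apply_of_ne_of_ne h3 h4
  rw [e1, e2]
  have e3 : ∀ u, (t = Equiv.swap z w u ↔ Equiv.swap z w t = u) := fun u => by
    constructor
    · rintro rfl; simp
    · rintro rfl; simp
  have e4 : (Equiv.swap z w t = x ↔ t = x) := by rw [← e3, e1]
  have e5 : (Equiv.swap z w t = y ↔ t = y) := by rw [← e3, e2]
  simp only [e3, e4, e5]
  split_ifs with c1 c2 c3
  · simp
  · rfl
  · rfl
  · rfl

theorem jo_stA {x y e l r : D} {s : D → D} (h : Fr s x y) (h' : Fr s e l) (h1 : x ≠ e)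
    (h2 : x ≠ l) (h3 : x ≠ r) (h4 : y ≠ e) (h5 : y ≠ l) (h6 : y ≠ r) :
    jo x y (stA e l r s) = stA e l r (jo x y s) := by
  unfold stA
  rw [jo_ren h1 h3 h4 h6, jo_comm h h' h1 h2 h4 h5]

theorem jo_stB {x y e l r : D} {s : D → D} (h : Fr s x y) (h' : Fr s e r) (h1 : x ≠ e)
    (h2 : x ≠ l) (h3 : x ≠ r) (h4 : y ≠ e) (h5 : y ≠ l) (h6 : y ≠ r) :
    jo x y (stB e l r s) = stB e l r (jo x y s) := by
  unfold stB
  rw [jo_ren h1 h2 h4 h5, jo_comm h h' h1 h3 h4 h6]

/-! ### The first move -/

theorem stA_eq_stB_l {e l r : D} {s : D → D} (hs : Function.Involutive s) (h1 : e ≠ l) (h2 : e ≠ r)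
    (h3 : l ≠ r) (hr : s r ≠ r) (h : s e = l) : stA e l r s = stB e l r s := by
  funext t
  have a1 := hs e
  have a2 := hs l
  have a3 := hs r
  have a4 := hs t
  unfold stA stB ren jo
  simp only [Equiv.swap_apply_def]
  grind (splits := 60)

theorem stA_eq_stB_r {e l r : D} {s : D → D} (hs : Function.Involutive s) (h1 : e ≠ l) (h2 : e ≠ r)
    (h3 : l ≠ r) (hl : s l ≠ l) (h : s e = r) : stA e l r s = stB e l r s := by
  funext t
  have a1 := hs e
  have a2 := hs l
  have a3 := hs r
  have a4 := hs t
  unfold stA stB ren jo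
  simp only [Equiv.swap_apply_def]
  grind (splits := 60)

/-! ### The second move -/

section two

variable {e l r l' r' : D} {s : D → D}

theorem r2_id (hs : Function.Involutive s)
    (hnd : [e, l, r, l', r'].Nodup) (he : s e ≠ e) (hr : s r ≠ r) (h : s l = l') :
    stB e l' r' (stA e l r s) = jo l l' (jo r r' s) := by
  funext t
  have a0 := hs e
  have a1 := hs l
  have a2 := hs r
  have a3 := hs r'
  have a4 := hs t
  simp only [List.nodup_cons, List.mem_cons, List.not_mem_nil, or_false, not_or] at hnd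
  unfold stA stB ren jo
  simp only [Equiv.swap_apply_def]
  grind (splits := 60)

theorem r2_x1 (hs : Function.Involutive s)
    (hnd : [e, l, r, l', r'].Nodup) (he : s e ≠ e) (hr : s r ≠ r) (h : s l = l') :
    stA e l' r' (stA e l r s) = stA e l' r' (stB e l r s) := by
  funext t
  have a0 := hs e
  have a1 := hs l
  have a2 := hs r
  have a3 := hs r'
  have a4 := hs t
  simp only [List.nodup_cons, List.mem_cons, List.not_mem_nil, or_false, not_or] at hnd
  unfold stA stB ren jo
  simp only [Equiv.swap_apply_def]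
  grind (splits := 80)

theorem r2_x2 (hs : Function.Involutive s)
    (hnd : [e, l, r, l', r'].Nodup) (he : s e ≠ e) (hr : s r ≠ r) (hr' : s r' ≠ r') (h : s l = l') :
    stB e l' r' (stB e l r s) = stA e l' r' (stB e l r s) := by
  funext t
  have a0 := hs e
  have a1 := hs l
  have a2 := hs r
  have a3 := hs r'
  have a4 := hs t
  simp only [List.nodup_cons, List.mem_cons, List.not_mem_nil, or_false, not_or] at hnd
  unfold stA stB ren jo
  simp only [Equiv.swap_apply_def]
  grind (splits := 80)

end two

/-! ### The moves inside a list of tiles -/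

/-- the names of a list of tiles -/
def nms (T : List (D × D)) : List D := T.flatMap fun t => [t.1, t.2]

@[simp] theorem nms_nil : nms ([] : List (D × D)) = [] := rfl

@[simp] theorem nms_cons (t : D × D) (T : List (D × D)) : nms (t :: T) = t.1 :: t.2 :: nms T := rfl

@[simp] theorem nms_append (T T' : List (D × D)) : nms (T ++ T') = nms T ++ nms T' := by
  unfold nms; rw [List.flatMap_append]

/-- well formed: `s` is an involution, all names are different and alive -/
structure WF (e : D) (T : List (D × D)) (s : D → D) : Prop where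
  inv : Function.Involutive s
  nd : (e :: nms T).Nodup
  al : ∀ x ∈ e :: nms T, s x ≠ x

theorem stA_other {e l r u : D} {s : D → D} (hs : Function.Involutive s) (h1 : u ≠ e) (h2 : u ≠ l)
    (h3 : u ≠ r) (h4 : s u ≠ e) (h5 : s u ≠ l) (h6 : s u ≠ r) : stA e l r s u = s u := by
  have a1 := hs u
  have a2 := hs e
  have a3 := hs l
  unfold stA ren jo
  simp only [Equiv.swap_apply_def]
  grind (splits := 60)

theorem stB_other {e l r u : D} {s : D → D} (hs : Function.Involutive s) (h1 : u ≠ e) (h2 : u ≠ l)
    (h3 : u ≠ r) (h4 : s u ≠ e) (h5 : s u ≠ l) (h6 : s u ≠ r) : stB e l r s u = s u := by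
  have a1 := hs u
  have a2 := hs e
  have a3 := hs r
  unfold stB ren jo
  simp only [Equiv.swap_apply_def]
  grind (splits := 60)

section wf

variable {e : D} {t t' : D × D} {T T' : List (D × D)} {s : D → D}

theorem WF.head (h : WF e (t :: T) s) : e ≠ t.1 ∧ e ≠ t.2 ∧ t.1 ≠ t.2 ∧ s e ≠ e ∧ s t.1 ≠ t.1 ∧
    s t.2 ≠ t.2 := by
  have h1 := h.nd
  simp only [nms_cons, List.nodup_cons, List.mem_cons, not_or] at h1
  exact ⟨h1.1.1, h1.1.2.1, h1.2.1.1, h.al _ (by simp), h.al _ (by simp), h.al _ (by simp)⟩

theorem WF.notin (h : WF e (t :: T) s) {x : D} (hx : x ∈ nms T) : x ≠ e ∧ x ≠ t.1 ∧ x ≠ t.2 := by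
  have h1 := h.nd
  simp only [nms_cons, List.nodup_cons, List.mem_cons, not_or] at h1
  refine ⟨?_, ?_, ?_⟩
  · rintro rfl; exact h1.1.2.2 hx
  · rintro rfl; exact h1.2.1.2 hx
  · rintro rfl; exact h1.2.2.1 hx

theorem WF.stA (h : WF e (t :: T) s) : WF e T (stA e t.1 t.2 s) := by
  obtain ⟨h1, h2, h3, h4, h5, h6⟩ := h.head
  have hf : Fr s e t.1 := ⟨h.inv, h1, h4, h5⟩
  refine ⟨stA_inv hf, ?_, ?_⟩
  · have := h.nd
    simp only [nms_cons, List.nodup_cons, List.mem_cons, not_or] at this
    rw [List.nodup_cons]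
    exact ⟨this.1.2.2, this.2.2.2⟩
  · intro x hx hx'
    rw [stA_fix hf h2 h3 h6] at hx'
    rcases List.mem_cons.1 hx with rfl | hx
    · rcases hx' with h' | h' | h'
      · exact h1 h'
      · exact h2 h'
      · exact h4 h'
    · obtain ⟨n1, n2, n3⟩ := h.notin hx
      rcases hx' with h' | h' | h'
      · exact n2 h'
      · exact n3 h'
      · exact h.al x (by simp [hx]) h'

theorem WF.stB (h : WF e (t :: T) s) : WF e T (stB e t.1 t.2 s) := by
  obtain ⟨h1, h2, h3, h4, h5, h6⟩ := h.head
  have hf : Fr s e t.2 := ⟨h.inv, h2, h4, h6⟩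
  refine ⟨stB_inv hf, ?_, ?_⟩
  · have := h.nd
    simp only [nms_cons, List.nodup_cons, List.mem_cons, not_or] at this
    rw [List.nodup_cons]
    exact ⟨this.1.2.2, this.2.2.2⟩
  · intro x hx hx'
    rw [stB_fix hf h1 h3 h5] at hx'
    rcases List.mem_cons.1 hx with rfl | hx
    · rcases hx' with h' | h' | h'
      · exact h1 h'
      · exact h2 h'
      · exact h4 h'
    · obtain ⟨n1, n2, n3⟩ := h.notin hx
      rcases hx' with h' | h' | h'
      · exact n2 h'
      · exact n3 h'
      · exact h.al x (by simp [hx]) h'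

end wf

/-- the mirror image -/
theorem Val_swap (a b : ℂ) (e : D) (v : (D → D) → ℂ) (T : List (D × D)) (s : D → D) :
    Val a b e v T s = Val b a e v (T.map Prod.swap) s := by
  induction T generalizing s with
  | nil => rfl
  | cons t T ih =>
    rw [List.map_cons, Val_cons, Val_cons, ih, ih, add_comm]
    rfl

section moves

variable {a b : ℂ} (h1 : a + b = 1) (h2 : a * b = 1) {e : D} (v : (D → D) → ℂ)
include h1

/-- **The first move**: the head is joined with the first left leg -/
theorem Val_r1 {l r : D} {T : List (D × D)} {s : D → D} (h : WF e ((l, r) :: T) s)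
    (he : s e = l ∨ s e = r) :
    Val a b e v ((l, r) :: T) s = Val a b e v T (stA e l r s) := by
  obtain ⟨n1, n2, n3, n4, n5, n6⟩ := h.head
  have : stB e l r s = stA e l r s := by
    rcases he with he | he
    · exact (stA_eq_stB_l h.inv n1 n2 n3 n6 he).symm
    · exact (stA_eq_stB_r h.inv n1 n2 n3 n5 he).symm
  rw [Val_cons, this, ← add_mul, h1, one_mul]

include h2

theorem Val_l2_nil {l r l' r' : D} {T : List (D × D)} {s : D → D}
    (h : WF e ((l, r) :: (l', r') :: T) s) (hl : s l = l') :
    Val a b e v ((l, r) :: (l', r') :: T) s = Val a b e v T (jo l l' (jo r r' s)) := by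
  obtain ⟨n1, n2, n3, n4, n5, n6⟩ := h.head
  have hr' : s r' ≠ r' := h.al _ (by simp)
  have hnd : [e, l, r, l', r'].Nodup := by
    have := h.nd
    simp only [nms_cons, List.nodup_cons, List.mem_cons, not_or] at this
    simp only [List.nodup_cons, List.mem_cons, not_or, List.not_mem_nil, not_false_eq_true,
      List.nodup_nil, and_true]
    tauto
  rw [Val_cons, Val_cons, Val_cons]
  simp only
  rw [r2_id h.inv hnd n4 n6 hl, r2_x1 h.inv hnd n4 n6 hl, r2_x2 h.inv hnd n4 n6 hr' hl]
  have : a * a + b * a + b * b = 0 := by linear_combination (a + b) * h1 + h1 - h2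
  linear_combination Val a b e v T (jo l l' (jo r r' s)) * h2 +
    Val a b e v T (Pool.Agent.H47.W.stA e l' r' (Pool.Agent.H47.W.stB e l r s)) * this

/-- **The second move**, left legs -/
theorem Val_l2 {l r l' r' : D} {T1 T2 : List (D × D)} {s : D → D}
    (h : WF e (T1 ++ (l, r) :: (l', r') :: T2) s) (hl : s l = l') :
    Val a b e v (T1 ++ (l, r) :: (l', r') :: T2) s =
      Val a b e v (T1 ++ T2) (jo l l' (jo r r' s)) := by
  induction T1 generalizing s with
  | nil => exact Val_l2_nil h1 h2 v h hl
  | cons t T1 ih =>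
    have hl' : s l' = l := by rw [← hl, h.inv]
    rw [List.cons_append] at h
    obtain ⟨n1, n2, n3, n4, n5, n6⟩ := h.head
    have ml : l ∈ nms (T1 ++ (l, r) :: (l', r') :: T2) := by simp
    have ml' : l' ∈ nms (T1 ++ (l, r) :: (l', r') :: T2) := by simp
    have mr : r ∈ nms (T1 ++ (l, r) :: (l', r') :: T2) := by simp
    have mr' : r' ∈ nms (T1 ++ (l, r) :: (l', r') :: T2) := by simp
    obtain ⟨ol1, ol2, ol3⟩ := h.notin ml
    obtain ⟨ol1', ol2', ol3'⟩ := h.notin ml'
    obtain ⟨or1, or2, or3⟩ := h.notin mr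
    obtain ⟨or1', or2', or3'⟩ := h.notin mr'
    have nd2 : ((l, r) :: (l', r') :: T2 |> nms).Nodup := by
      have := h.nd
      rw [nms_cons, nms_append] at this
      have h3 := (List.nodup_cons.1 (List.nodup_cons.1 (List.nodup_cons.1 this).2).2).2
      exact (List.nodup_append.1 h3).2.1
    simp only [nms_cons, List.nodup_cons, List.mem_cons, not_or] at nd2
    have frr : Fr s r r' := ⟨h.inv, nd2.2.1.2.1, h.al _ (by simp), h.al _ (by simp)⟩
    have fll : Fr (jo r r' s) l l' := by
      refine ⟨jo_inv frr, nd2.1.2.1, ?_, ?_⟩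
      · rw [Ne, jo_fix frr]
        rintro (h' | h' | h')
        · exact nd2.1.1 h'
        · exact nd2.1.2.2.1 h'
        · exact h.al l (by simp) h'
      · rw [Ne, jo_fix frr]
        rintro (h' | h' | h')
        · exact nd2.2.1.1 h'.symm
        · exact nd2.2.2.1.1 h'
        · exact h.al l' (by simp) h'
    rw [List.cons_append, Val_cons, List.cons_append, Val_cons]
    have eA : Pool.Agent.H47.W.stA e t.1 t.2 s l = l' := by
      rw [stA_other h.inv ol1 ol2 ol3 (by rw [hl]; exact ol1') (by rw [hl]; exact ol2')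
        (by rw [hl]; exact ol3'), hl]
    have eB : Pool.Agent.H47.W.stB e t.1 t.2 s l = l' := by
      rw [stB_other h.inv ol1 ol2 ol3 (by rw [hl]; exact ol1') (by rw [hl]; exact ol2')
        (by rw [hl]; exact ol3'), hl]
    have fA : Fr s e t.1 := ⟨h.inv, n1, n4, n5⟩
    have fB : Fr s e t.2 := ⟨h.inv, n2, n4, n6⟩
    have fA' : Fr (jo r r' s) e t.1 := by
      refine ⟨jo_inv frr, n1, ?_, ?_⟩
      · rw [Ne, jo_fix frr]
        rintro (h' | h' | h')
        · exact or1 h'.symm
        · exact or1' h'.symm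
        · exact n4 h'
      · rw [Ne, jo_fix frr]
        rintro (h' | h' | h')
        · exact or2 h'.symm
        · exact or2' h'.symm
        · exact n5 h'
    have fB' : Fr (jo r r' s) e t.2 := by
      refine ⟨jo_inv frr, n2, ?_, ?_⟩
      · rw [Ne, jo_fix frr]
        rintro (h' | h' | h')
        · exact or1 h'.symm
        · exact or1' h'.symm
        · exact n4 h'
      · rw [Ne, jo_fix frr]
        rintro (h' | h' | h')
        · exact or3 h'.symm
        · exact or3' h'.symm
        · exact n6 h'
    rw [ih h.stA eA, ih h.stB eB, jo_stA frr fA or1 or2 or3 or1' or2' or3',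
      jo_stB frr fB or1 or2 or3 or1' or2' or3', jo_stA fll fA' ol1 ol2 ol3 ol1' ol2' ol3',
      jo_stB fll fB' ol1 ol2 ol3 ol1' ol2' ol3']

end moves

end Pool.Agent.H47.W
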