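import Pool.Agent.H47.W.FrozenRed

/-!
# The frozen line lemma: evaluation

`p = del T s` is the pairing with the line deleted. The line crosses exactly the arcs of `p` which
separate the partner `p e` of its end from the beginning: `Val T s v = Ev xs p v`, where `xs` is the list
of the left ends of these arcs, innermost first (`Val_eval`). In particular `Val` depends only on the
restriction of `p` to the outer legs and `e` (`Val_congr`).
-/

namespace Pool.Agent.H47.W

variable {D : Type*} [DecidableEq D]

/-- surgery: `e` is joined with `x`, the old partner of `e` with the old partner of `x` -/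
def su (e x : D) (p : D → D) (t : D) : D :=
  if t = e then x else if t = x then e else if t = p e then p x else if t = p x then p e else p t

/-- the sum over the resolutions of the crossings of the line with the arcs `x ~ p x`, `x ∈ xs` -/
noncomputable def Ev (a b : ℂ) (e : D) (v : (D → D) → ℂ) : List D → (D → D) → ℂ
  | [], p => v p
  | x :: xs, p => a * Ev a b e v xs (su e x p) + b * Ev a b e v xs (su e (p x) p)

theorem Ev_nil (a b : ℂ) (e : D) (v : (D → D) → ℂ) (p : D → D) : Ev a b e v [] p = v p := rfl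

theorem Ev_cons (a b : ℂ) (e : D) (v : (D → D) → ℂ) (x : D) (xs : List D) (p : D → D) :
    Ev a b e v (x :: xs) p = a * Ev a b e v xs (su e x p) + b * Ev a b e v xs (su e (p x) p) := rfl

theorem stA_eq_su {e l r : D} {s : D → D} (hs : Function.Involutive s) (h1 : e ≠ l) (h2 : e ≠ r)
    (h3 : l ≠ r) (he : s e ≠ e) (hl : s l ≠ l) (hr : s r ≠ r) (h4 : s e ≠ l) (h5 : s e ≠ r)
    (h6 : s l ≠ r) : stA e l r s = su e (s r) (jo l r s) := by
  funext t
  have a1 := hs e
  have a2 := hs l
  have a3 := hs r
  have a4 := hs t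
  unfold stA su ren jo
  simp only [Equiv.swap_apply_def]
  grind (splits := 80)

theorem stB_eq_su {e l r : D} {s : D → D} (hs : Function.Involutive s) (h1 : e ≠ l) (h2 : e ≠ r)
    (h3 : l ≠ r) (he : s e ≠ e) (hl : s l ≠ l) (hr : s r ≠ r) (h4 : s e ≠ l) (h5 : s e ≠ r)
    (h6 : s l ≠ r) : stB e l r s = su e (s l) (jo l r s) := by
  funext t
  have a1 := hs e
  have a2 := hs l
  have a3 := hs r
  have a4 := hs t
  unfold stB su ren jo
  simp only [Equiv.swap_apply_def]
  grind (splits := 80)

theorem jo_su {e x l r : D} {s : D → D} (hs : Function.Involutive s) (h1 : e ≠ l) (h2 : e ≠ r)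
    (h4 : x ≠ l) (h5 : x ≠ r) (h7 : s e ≠ l) (h8 : s e ≠ r) (h9 : s x ≠ l) (h10 : s x ≠ r) :
    jo l r (su e x s) = su e x (jo l r s) := by
  funext t
  have a1 := hs e
  have a2 := hs x
  have a3 := hs l
  have a4 := hs r
  have a5 := hs t
  unfold su jo
  grind (splits := 80)

theorem su_inv {e x : D} {s : D → D} (hs : Function.Involutive s) (he : s e ≠ e) (hx : s x ≠ x)
    (h1 : e ≠ x) (h2 : s e ≠ x) : Function.Involutive (su e x s) := by
  intro t
  have a1 := hs e
  have a2 := hs x
  have a5 := hs t
  unfold su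
  grind (splits := 80)

theorem su_fix {e x : D} {s : D → D} (hs : Function.Involutive s) (he : s e ≠ e) (hx : s x ≠ x)
    (h1 : e ≠ x) (t : D) : su e x s t = t ↔ s t = t := by
  have a1 := hs e
  have a2 := hs x
  have a5 := hs t
  unfold su
  grind (splits := 80)

theorem su_other {e x : D} {s : D → D} {t : D} (h1 : t ≠ e) (h2 : t ≠ x) (h3 : t ≠ s e)
    (h4 : t ≠ s x) : su e x s t = s t := by
  unfold su
  rw [if_neg h1, if_neg h2, if_neg h3, if_neg h4]

theorem del_su {T : List (D × D)} {s : D → D} (h : WN T s) {e x : D} (he : s e ≠ e) (hx : s x ≠ x)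
    (hex' : s e ≠ x) (h1 : e ∉ nms T) (h2 : x ∉ nms T) (h3 : s e ∉ nms T)
    (h4 : s x ∉ nms T) : del T (su e x s) = su e x (del T s) := by
  induction T generalizing s with
  | nil => rfl
  | cons t T ih =>
    simp only [nms_cons, List.mem_cons, not_or] at h1 h2 h3 h4
    have e1 : jo t.1 t.2 s e = s e := jo_other h.inv h1.1 h1.2.1 h3.1 h3.2.1
    have e2 : jo t.1 t.2 s x = s x := jo_other h.inv h2.1 h2.2.1 h4.1 h4.2.1
    rw [del_cons, del_cons, jo_su h.inv h1.1 h1.2.1 h2.1 h2.2.1 h3.1 h3.2.1 h4.1 h4.2.1,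
      ih h.jo (by rw [e1]; exact he) (by rw [e2]; exact hx) (by rw [e1]; exact hex') h1.2.2 h2.2.2
        (by rw [e1]; exact h3.2.2) (by rw [e2]; exact h4.2.2)]

/-- the evaluation of a reduced line -/
theorem Val_of_out {e : D} {T : List (D × D)} {s : D → D} (h : WF e T s)
    (hO : ∀ x ∈ e :: nms T, s x ∉ e :: nms T) (a b : ℂ) (v : (D → D) → ℂ) :
    Val a b e v T s = Ev a b e v (T.map fun t => s t.2) (del T s) := by
  induction T generalizing s with
  | nil => rfl
  | cons t T ih =>
    obtain ⟨l, r⟩ := t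
    obtain ⟨n1, n2, n3, n4, n5, n6⟩ := h.head
    simp only at n1 n2 n3 n5 n6
    have hs := h.inv
    have he := hO e (by simp)
    have hl := hO l (by simp)
    have hr := hO r (by simp)
    simp only [nms_cons, List.mem_cons, not_or] at he hl hr
    have ser : s e ≠ s r := fun e' => n2 (hs.injective e')
    have sel : s e ≠ s l := fun e' => n1 (hs.injective e')
    have f : Fr s l r := ⟨hs, n3, n5, n6⟩
    have wn : WN T (jo l r s) := h.wn.jo
    have j1 : jo l r s (s r) = s l := by
      have a1 := hs r
      have a2 := hs l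
      have a3 : s r ≠ l := hr.2.1
      have a4 : s r ≠ r := n6
      unfold jo
      rw [if_neg (not_or.2 ⟨a3, a4⟩)]
      by_cases c : s r = s l
      · exact absurd (hs.injective c) (Ne.symm n3)
      · rw [if_neg c, if_pos rfl]
    have j2 : jo l r s (s l) = s r := by
      have a3 : s l ≠ r := hl.2.2.1
      unfold jo
      rw [if_neg (not_or.2 ⟨n5, a3⟩), if_pos rfl]
    have je : jo l r s e = s e := jo_other hs n1 n2 he.2.1 he.2.2.1
    have hn : ∀ x ∈ nms T, x ≠ e ∧ x ≠ l ∧ x ≠ r := fun x hx => h.notin hx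
    have hnx : ∀ x ∈ nms T, s x ∉ e :: nms ((l, r) :: T) := fun x hx => hO x (by simp [hx])
    have en : e ∉ nms T := fun h' => (hn e h').1 rfl
    -- the partners of the other names do not change
    have oA : ∀ x ∈ nms T, stA e l r s x = s x := by
      intro x hx
      have h1 := hn x hx
      have h2 := hnx x hx
      simp only [nms_cons, List.mem_cons, not_or] at h2
      exact stA_other hs h1.1 h1.2.1 h1.2.2 h2.1 h2.2.1 h2.2.2.1
    have oB : ∀ x ∈ nms T, stB e l r s x = s x := by
      intro x hx
      have h1 := hn x hx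
      have h2 := hnx x hx
      simp only [nms_cons, List.mem_cons, not_or] at h2
      exact stB_other hs h1.1 h1.2.1 h1.2.2 h2.1 h2.2.1 h2.2.2.1
    have eA := stA_eq_su hs n1 n2 n3 n4 n5 n6 he.2.1 he.2.2.1 hl.2.2.1
    have eB := stB_eq_su hs n1 n2 n3 n4 n5 n6 he.2.1 he.2.2.1 hl.2.2.1
    have sAe : stA e l r s e = s r := by rw [eA]; unfold su; rw [if_pos rfl]
    have sBe : stB e l r s e = s l := by rw [eB]; unfold su; rw [if_pos rfl]
    have hOA : ∀ x ∈ e :: nms T, stA e l r s x ∉ e :: nms T := by
      intro x hx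
      rcases List.mem_cons.1 hx with rfl | hx
      · rw [sAe, List.mem_cons, not_or]; exact ⟨hr.1, hr.2.2.2⟩
      · rw [oA x hx]
        have := hnx x hx
        simp only [nms_cons, List.mem_cons, not_or] at this
        rw [List.mem_cons, not_or]
        exact ⟨this.1, this.2.2.2⟩
    have hOB : ∀ x ∈ e :: nms T, stB e l r s x ∉ e :: nms T := by
      intro x hx
      rcases List.mem_cons.1 hx with rfl | hx
      · rw [sBe, List.mem_cons, not_or]; exact ⟨hl.1, hl.2.2.2⟩
      · rw [oB x hx]
        have := hnx x hx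
        simp only [nms_cons, List.mem_cons, not_or] at this
        rw [List.mem_cons, not_or]
        exact ⟨this.1, this.2.2.2⟩
    have dr : del T (jo l r s) (s r) = s l := by
      rw [del_other wn hr.2.2.2 (by rw [j1]; exact hl.2.2.2), j1]
    have mapA : (T.map fun t => stA e l r s t.2) = T.map fun t => s t.2 :=
      List.map_congr_left fun t ht => oA _ (mem_nms.2 ⟨t, ht, Or.inr rfl⟩)
    have mapB : (T.map fun t => stB e l r s t.2) = T.map fun t => s t.2 :=
      List.map_congr_left fun t ht => oB _ (mem_nms.2 ⟨t, ht, Or.inr rfl⟩)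
    have srr : s l ≠ s r := fun e' => n3 (hs.injective e')
    rw [Val_cons, List.map_cons, del_cons, Ev_cons]
    simp only
    rw [dr, ih h.stA hOA, ih h.stB hOB, mapA, mapB]
    congr 2
    · congr 1
      rw [eA, del_su wn (by rw [je]; exact n4) (by rw [j1]; exact srr)
        (by rw [je]; exact ser) en hr.2.2.2 (by rw [je]; exact he.2.2.2)
        (by rw [j1]; exact hl.2.2.2)]
    · congr 1
      rw [eB, del_su wn (by rw [je]; exact n4) (by rw [j2]; exact srr.symm)
        (by rw [je]; exact sel) en hl.2.2.2 (by rw [je]; exact he.2.2.2)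
        (by rw [j2]; exact hr.2.2.2)]

/-! ### The evaluation of a planar line -/

section eval

variable {pos : D → ℤ} {e : D} {T : List (D × D)} {O : Finset D} {s : D → D}

/-- the arcs crossed by the line: left ends, innermost first -/
structure Arcs (pos : D → ℤ) (e : D) (p : D → D) (xs : List D) : Prop where
  srt : xs.Pairwise fun x y => pos y < pos x
  mem : ∀ x, x ∈ xs ↔ pos x < pos (p e) ∧ pos (p e) < pos (p x)

theorem Pl.blk_notO (h : Pl pos e T O s) {x : D} (hx : x ∈ e :: nms T) : x ∉ O := fun hO =>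
  lt_irrefl _ (h.pos_blk hx hO)

theorem Pl.arcs (hp : Function.Injective pos) (h : Pl pos e T O s)
    (hO : ∀ x ∈ e :: nms T, s x ∈ O) : Arcs pos e (del T s) (T.map fun t => s t.2) := by
  have hs := h.wf.inv
  have wn := h.wf.wn
  have nn : ∀ x ∈ e :: nms T, s x ∉ e :: nms T := fun x hx h' => h.blk_notO h' (hO x hx)
  have en : e ∉ nms T := (List.nodup_cons.1 h.wf.nd).1
  have oth : ∀ x, x ∉ nms T → s x ∉ nms T → del T s x = s x := fun x h1 h2 => del_other wn h1 h2
  have pe : del T s e = s e := oth e en fun h' => nn e (by simp) (by simp [h'])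
  -- order reversal
  have rev : ∀ x ∈ e :: nms T, ∀ y ∈ e :: nms T, pos x < pos y → pos (s y) < pos (s x) := by
    intro x hx y hy hxy
    have h1 := h.nc x y
    have h2 := h.pos_blk hy (hO x hx)
    have h3 : pos (s x) ≠ pos (s y) := fun e' => by
      have := hs.injective (hp e')
      rw [this] at hxy
      exact lt_irrefl _ hxy
    omega
  -- the partner in the deleted pairing
  have part : ∀ (T : List (D × D)) (s : D → D), WN T s → (∀ x ∈ nms T, s x ∉ nms T) →
      ∀ t ∈ T, del T s (s t.2) = s t.1 ∧ del T s (s t.1) = s t.2 := by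
    intro T
    induction T with
    | nil => intro s _ _ t ht; simp at ht
    | cons u T ih =>
      intro s wn nn t ht
      have hs := wn.inv
      have f := wn.fr
      have nu1 := nn u.1 (by simp)
      have nu2 := nn u.2 (by simp)
      simp only [nms_cons, List.mem_cons, not_or] at nu1 nu2
      have ne12 : s u.1 ≠ s u.2 := fun e' => f.ne (hs.injective e')
      have hsame : ∀ x ∈ nms T, Pool.Agent.H47.W.jo u.1 u.2 s x = s x := by
        intro x hx
        have h1 := wn.notin hx
        have h2 := nn x (by simp [hx])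
        simp only [nms_cons, List.mem_cons, not_or] at h2
        exact jo_other hs h1.1 h1.2 h2.1 h2.2.1
      rcases List.mem_cons.1 ht with rfl | ht'
      · have j1 : Pool.Agent.H47.W.jo t.1 t.2 s (s t.2) = s t.1 := by
          unfold Pool.Agent.H47.W.jo
          rw [if_neg (not_or.2 ⟨nu2.1, f.ay⟩), if_neg (Ne.symm ne12), if_pos rfl]
        have j2 : Pool.Agent.H47.W.jo t.1 t.2 s (s t.1) = s t.2 := by
          unfold Pool.Agent.H47.W.jo
          rw [if_neg (not_or.2 ⟨f.ax, nu1.2.1⟩), if_pos rfl]
        constructor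
        · rw [del_cons, del_other wn.jo nu2.2.2 (by rw [j1]; exact nu1.2.2), j1]
        · rw [del_cons, del_other wn.jo nu1.2.2 (by rw [j2]; exact nu2.2.2), j2]
      · have h1 := ih _ wn.jo (fun x hx => by
          rw [hsame x hx]
          have h2 := nn x (by simp [hx])
          simp only [nms_cons, List.mem_cons, not_or] at h2
          exact h2.2.2) t ht'
        rw [hsame _ (mem_nms.2 ⟨t, ht', Or.inl rfl⟩), hsame _ (mem_nms.2 ⟨t, ht', Or.inr rfl⟩)] at h1
        exact h1
  have part' := part T s wn fun x hx h' => nn x (by simp [hx]) (by simp [h'])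
  have m1 : ∀ t ∈ T, t.1 ∈ e :: nms T := fun t ht => List.mem_cons_of_mem _
    (mem_nms.2 ⟨t, ht, Or.inl rfl⟩)
  have m2 : ∀ t ∈ T, t.2 ∈ e :: nms T := fun t ht => List.mem_cons_of_mem _
    (mem_nms.2 ⟨t, ht, Or.inr rfl⟩)
  have me : e ∈ e :: nms T := by simp
  constructor
  · rw [List.pairwise_map]
    refine (List.Pairwise.and_mem.1 h.srt).imp fun {t t'} h' => ?_
    exact rev _ (m2 t h'.1) _ (m2 t' h'.2.1) h'.2.2.2
  · intro x
    rw [pe, List.mem_map]
    constructor
    · rintro ⟨t, ht, rfl⟩
      have hl := h.lr t ht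
      refine ⟨rev _ me _ (m2 t ht) hl.2, ?_⟩
      rw [(part' t ht).1]
      exact rev _ (m1 t ht) _ me hl.1
    · rintro ⟨h1, h2⟩
      have hx1 : x ≠ e := by
        rintro rfl
        rw [pe] at h2
        exact lt_irrefl _ h2
      have hal : del T s x ≠ x := fun e' => by rw [e'] at h2; omega
      have hal' : x ∉ nms T ∧ s x ≠ x := by
        rw [Ne, del_fix wn, not_or] at hal
        exact hal
      have hxO : x ∈ O := by
        rcases h.out x hal'.2 with h3 | h3 | h3
        · exact absurd h3 hx1
        · exact absurd h3 hal'.1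
        · exact h3
      by_cases hsx : s x ∈ nms T
      · obtain ⟨t, ht, h3 | h3⟩ := mem_nms.1 hsx
        · exfalso
          have h4 : x = s t.1 := by rw [← h3, hs]
          have h5 := rev _ (m1 t ht) _ me (h.lr t ht).1
          rw [h4] at h1
          omega
        · exact ⟨t, ht, by rw [← h3, hs]⟩
      · exfalso
        rw [oth x hal'.1 hsx] at h2
        exact h.nc e x ⟨(h.po x hxO).1, h1, h2⟩

/-- **The evaluation of a planar frozen line** -/
theorem Val_eval (hp : Function.Injective pos) (h : Pl pos e T O s) :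
    ∃ xs, Arcs pos e (del T s) xs ∧ 2 * xs.length + 1 ≤ O.card ∧
      ∀ (a b : ℂ), a + b = 1 → a * b = 1 → ∀ v, Val a b e v T s = Ev a b e v xs (del T s) := by
  obtain ⟨T', s', h1, h2, h3, h4⟩ := exists_red hp h
  refine ⟨T'.map fun t => s' t.2, by rw [h2]; exact h1.arcs hp h3, ?_, ?_⟩
  · rw [List.length_map]; exact h1.card h3
  · intro a b hab hab' v
    rw [h4 a b hab hab' v, h2]
    exact Val_of_out h1.wf (fun x hx h' => h1.blk_notO h' (h3 x hx)) a b v

/-! ### Uniqueness -/

omit [DecidableEq D] in
theorem Arcs.unique {p : D → D} {xs ys : List D} (hx : Arcs pos e p xs) (hy : Arcs pos e p ys) :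
    xs = ys := by
  have n1 : xs.Nodup := hx.srt.imp fun h h' => by rw [h'] at h; exact lt_irrefl _ h
  have n2 : ys.Nodup := hy.srt.imp fun h h' => by rw [h'] at h; exact lt_irrefl _ h
  have hperm : xs.Perm ys := (List.perm_ext_iff_of_nodup n1 n2).2 fun a => by rw [hx.mem, hy.mem]
  exact List.Perm.eq_of_pairwise (fun a b _ _ h1 h2 => absurd h1 (lt_asymm h2)) hx.srt hy.srt hperm

theorem Ev_congr {A : Set D} {v : (D → D) → ℂ}
    (hv : ∀ f g : D → D, (∀ x ∈ A, f x = g x) → v f = v g) {a b : ℂ} (he : e ∈ A) {xs : List D}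
    (hxs : ∀ x ∈ xs, x ∈ A) {p q : D → D} (hpq : ∀ x ∈ A, p x = q x) (hA : ∀ x ∈ A, p x ∈ A) :
    Ev a b e v xs p = Ev a b e v xs q := by
  induction xs generalizing p q with
  | nil => exact hv _ _ hpq
  | cons x xs ih =>
    have hx := hxs x (by simp)
    have key : ∀ y ∈ A, (∀ z ∈ A, su e y p z = su e y q z) ∧ ∀ z ∈ A, su e y p z ∈ A := by
      intro y hy
      constructor
      · intro z hz
        unfold su
        rw [hpq e he, hpq y hy, hpq z hz]
      · intro z hz
        unfold su
        split_ifs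
        · exact hy
        · exact he
        · exact hA _ hy
        · exact hA _ he
        · exact hA _ hz
    have h1 := key x hx
    have h2 := key (p x) (hA x hx)
    rw [Ev_cons, Ev_cons, ih (fun y hy => hxs y (by simp [hy])) h1.1 h1.2, ← hpq x hx,
      ih (fun y hy => hxs y (by simp [hy])) h2.1 h2.2]

/-- **The value depends only on the pairing with the line deleted**, restricted to `e` and the outer
legs. -/
theorem Val_congr (hp : Function.Injective pos) {T' : List (D × D)} {s' : D → D}
    (h : Pl pos e T O s) (h' : Pl pos e T' O s') {a b : ℂ} (hab : a + b = 1) (hab' : a * b = 1)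
    {v : (D → D) → ℂ}
    (hv : ∀ f g : D → D, (∀ x, x = e ∨ x ∈ O → f x = g x) → v f = v g)
    (hpq : ∀ x, x = e ∨ x ∈ O → del T s x = del T' s' x) :
    Val a b e v T s = Val a b e v T' s' := by
  obtain ⟨xs, h1, -, h2⟩ := Val_eval hp h
  obtain ⟨ys, g1, -, g2⟩ := Val_eval hp h'
  have cl : ∀ {T : List (D × D)} {s : D → D}, Pl pos e T O s →
      ∀ x, x = e ∨ x ∈ O → (del T s x = e ∨ del T s x ∈ O) := by
    intro T s h x hx
    have wn := h.wf.wn
    have hi := del_inv wn
    by_cases hf : del T s x = x
    · rw [hf]; exact hx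
    · have h3 : del T s (del T s x) ≠ del T s x := fun e' => hf (hi.injective e')
      rw [Ne, del_fix wn, not_or] at h3
      rcases h.out _ h3.2 with h4 | h4 | h4
      · exact Or.inl h4
      · exact absurd h4 h3.1
      · exact Or.inr h4
  have out : ∀ {T : List (D × D)} {s : D → D}, Pl pos e T O s → ∀ {x : D}, del T s x ≠ x →
      x = e ∨ x ∈ O := by
    intro T s h x hx
    rw [Ne, del_fix h.wf.wn, not_or] at hx
    rcases h.out _ hx.2 with h4 | h4 | h4
    · exact Or.inl h4
    · exact absurd h4 hx.1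
    · exact Or.inr h4
  have g1' : Arcs pos e (del T s) ys := by
    refine ⟨g1.srt, fun x => ?_⟩
    rw [g1.mem, hpq e (Or.inl rfl)]
    constructor
    · rintro ⟨h3, h4⟩
      have hx : del T' s' x ≠ x := fun e' => by rw [e'] at h4; omega
      have := out h' hx
      rw [hpq x this]
      exact ⟨h3, h4⟩
    · rintro ⟨h3, h4⟩
      have hx : del T s x ≠ x := fun e' => by rw [e'] at h4; omega
      have := out h hx
      rw [← hpq x this]
      exact ⟨h3, h4⟩
  have hxy := h1.unique g1'
  subst hxy
  rw [h2 a b hab hab' v, g2 a b hab hab' v]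
  refine Ev_congr (A := {x | x = e ∨ x ∈ O}) hv (Or.inl rfl) ?_ hpq (cl h)
  intro x hx
  have h3 := (h1.mem x).1 hx
  exact out h (x := x) fun e' => by rw [e'] at h3; omega

end eval

end Pool.Agent.H47.W
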