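import Pool.Agent.H47.W.Frozen

/-!
# The frozen line lemma: planar pairings

The legs of the rest of the network are placed on a line (`pos`): the left legs of the tiles, the end
`e`, the right legs of the tiles, the outer legs `O`; the pairing `s` is noncrossing. The frozen line
can be reduced (`exists_red`) until all its legs are paired with outer legs, hence the sum over its
states is bounded by `2 ^ (|O| / 2)` (`norm_Val_le`).
-/

namespace Pool.Agent.H47.W

variable {D : Type*} [DecidableEq D]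

/-- noncrossing -/
def NC (pos : D → ℤ) (s : D → D) : Prop :=
  ∀ x y, ¬ (pos x < pos y ∧ pos y < pos (s x) ∧ pos (s x) < pos (s y))

/-- `c` lies between `a` and `b` -/
def Bw (a b c : ℤ) : Prop := (a < c ∧ c < b) ∨ (b < c ∧ c < a)

theorem bw_iff {a b c : ℤ} (h1 : c ≠ a) (h2 : c ≠ b) : Bw a b c ↔ (a < c ↔ ¬ b < c) := by
  unfold Bw
  constructor
  · rintro (⟨h3, h4⟩ | ⟨h3, h4⟩)
    · exact ⟨fun _ h => by omega, fun _ => h3⟩
    · exact ⟨fun h => by omega, fun h => absurd h3 h⟩
  · intro h
    by_cases h3 : a < c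
    · left; have := h.1 h3; omega
    · right
      have : b < c := by by_contra h4; exact h3 (h.2 h4)
      omega

theorem bw_symm {a b c : ℤ} : Bw a b c ↔ Bw b a c := or_comm

theorem bw_par {x y x' y' c : ℤ} (hxy : x < y) (d1 : c ≠ x) (d2 : c ≠ y) (d3 : c ≠ x') (d4 : c ≠ y')
    (d5 : ¬ (x < c ∧ c < y)) : Bw x' y' c ↔ (Bw x x' c ↔ ¬ Bw y y' c) := by
  rw [bw_iff d3 d4, bw_iff d1 d3, bw_iff d2 d4]
  have h : (x < c ↔ y < c) := by constructor <;> intro h <;> omega
  rw [h]
  tauto

section nc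

variable {pos : D → ℤ} (hp : Function.Injective pos) {s : D → D}
include hp

omit [DecidableEq D] in
theorem NC.bw_imp (hs : Function.Involutive s) (h : NC pos s) {x w : D} (h1 : w ≠ x) (h2 : w ≠ s x) :
    Bw (pos x) (pos (s x)) (pos w) → Bw (pos x) (pos (s x)) (pos (s w)) := by
  have i1 : pos w ≠ pos x := fun e => h1 (hp e)
  have i2 : pos w ≠ pos (s x) := fun e => h2 (hp e)
  have i3 : pos (s w) ≠ pos x := fun e => h2 (by rw [← hp e, hs])
  have i4 : pos (s w) ≠ pos (s x) := fun e => h1 (hs.injective (hp e))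
  have n1 := h x w
  have n2 := h (s x) w
  have n3 := h (s w) x
  have n4 := h (s w) (s x)
  rw [hs] at n2 n3 n4
  rw [hs] at n4
  unfold Bw
  omega

omit [DecidableEq D] in
theorem NC.bw (hs : Function.Involutive s) (h : NC pos s) {x w : D} (h1 : w ≠ x) (h2 : w ≠ s x) :
    Bw (pos x) (pos (s x)) (pos w) ↔ Bw (pos x) (pos (s x)) (pos (s w)) := by
  refine ⟨h.bw_imp hp hs h1 h2, fun h' => ?_⟩
  have := h.bw_imp hp hs (x := x) (w := s w) (fun e => h2 (by rw [← e, hs]))
    (fun e => h1 (hs.injective e)) h'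
  rwa [hs] at this

omit [DecidableEq D] in
/-- a criterion -/
theorem NC.mk' (_ : Function.Involutive s)
    (h : ∀ x w, s x ≠ x → s w ≠ w → w ≠ x → w ≠ s x →
      Bw (pos x) (pos (s x)) (pos w) → Bw (pos x) (pos (s x)) (pos (s w))) : NC pos s := by
  rintro x y ⟨h1, h2, h3⟩
  have a1 : s x ≠ x := fun e => by rw [e] at h2; omega
  have a2 : s y ≠ y := fun e => by rw [e] at h3; omega
  have := h x y a1 a2 (fun e => by rw [e] at h1; omega) (fun e => by rw [e] at h2; omega)
    (Or.inl ⟨h1, h2⟩)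
  unfold Bw at this
  omega

/-- joining two neighbours -/
theorem NC.jo (h : NC pos s) {x y : D} (f : Fr s x y) (hxy : pos x < pos y)
    (hb : ∀ z, s z ≠ z → ¬ (pos x < pos z ∧ pos z < pos y)) : NC pos (jo x y s) := by
  have hs := f.inv
  apply NC.mk' hp (jo_inv f)
  intro u w hu hw h1 h2 hbw
  rw [Ne, jo_fix f] at hu hw
  simp only [not_or] at hu hw
  -- `w` and its old partner are not between `x` and `y`
  have bw1 := hb w hw.2.2
  have bw2 := hb (s w) (fun e => hw.2.2 (hs.injective e))
  have iw1 : pos w ≠ pos x := fun e => hw.1 (hp e)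
  have iw2 : pos w ≠ pos y := fun e => hw.2.1 (hp e)
  have bu1 := hb u hu.2.2
  have bu2 := hb (s u) (fun e => hu.2.2 (hs.injective e))
  have iu1 : pos u ≠ pos x := fun e => hu.1 (hp e)
  have iu2 : pos u ≠ pos y := fun e => hu.2.1 (hp e)
  have ju : Pool.Agent.H47.W.jo x y s u = if u = s x then s y else if u = s y then s x else s u := by
    unfold Pool.Agent.H47.W.jo; rw [if_neg (not_or.2 ⟨hu.1, hu.2.1⟩)]
  have jw : Pool.Agent.H47.W.jo x y s w = if w = s x then s y else if w = s y then s x else s w := by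
    unfold Pool.Agent.H47.W.jo; rw [if_neg (not_or.2 ⟨hw.1, hw.2.1⟩)]
  have sx : s (s x) = x := hs x
  have sy : s (s y) = y := hs y
  by_cases c1 : u = s x ∨ u = s y
  · -- the new chord
    have hpos : (pos u = pos (s x) ∧ pos (Pool.Agent.H47.W.jo x y s u) = pos (s y)) ∨
        (pos u = pos (s y) ∧ pos (Pool.Agent.H47.W.jo x y s u) = pos (s x)) := by
      rcases c1 with c | c
      · left; rw [ju, if_pos c, c]; exact ⟨rfl, rfl⟩
      · right
        rw [ju]
        by_cases c' : u = s x
        · exfalso; exact f.ne (hs.injective (by rw [← c', ← c]))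
        · rw [if_neg c', if_pos c, c]; exact ⟨rfl, rfl⟩
    have w1 : w ≠ s x := by
      rintro rfl
      rcases c1 with c | c
      · exact h1 c.symm
      · apply h2; rw [ju]
        by_cases c' : u = s x
        · exact absurd c' (fun e => h1 e.symm)
        · rw [if_neg c', if_pos c]
    have w2 : w ≠ s y := by
      rintro rfl
      rcases c1 with c | c
      · apply h2; rw [ju, if_pos c]
      · exact h1 c.symm
    rw [jw, if_neg w1, if_neg w2]
    have k1 := h.bw hp hs (x := x) (w := w) hw.1 w1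
    have k2 := h.bw hp hs (x := y) (w := w) hw.2.1 w2
    have iw3 : pos (s w) ≠ pos x := fun e => w1 (by rw [← hp e, hs])
    have iw4 : pos (s w) ≠ pos y := fun e => w2 (by rw [← hp e, hs])
    have iw5 : pos w ≠ pos (s x) := fun e => w1 (hp e)
    have iw6 : pos w ≠ pos (s y) := fun e => w2 (hp e)
    have iw7 : pos (s w) ≠ pos (s x) := fun e => hw.1 (hs.injective (hp e))
    have iw8 : pos (s w) ≠ pos (s y) := fun e => hw.2.1 (hs.injective (hp e))
    have p1 := bw_par hxy iw1 iw2 iw5 iw6 bw1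
    have p2 := bw_par hxy iw3 iw4 iw7 iw8 bw2
    rcases hpos with ⟨e1, e2⟩ | ⟨e1, e2⟩
    · rw [e1, e2] at hbw ⊢
      rw [p2, ← k1, ← k2, ← p1]; exact hbw
    · rw [e1, e2, bw_symm] at hbw ⊢
      rw [p2, ← k1, ← k2, ← p1]; exact hbw
  · push Not at c1
    rw [ju, if_neg c1.1, if_neg c1.2] at h2 hbw ⊢
    have k := h.bw hp hs (x := u) (w := w) h1 h2
    by_cases c2 : w = s x ∨ w = s y
    · have k1 := h.bw hp hs (x := u) (w := x) (fun e => hu.1 e.symm)
        (fun e => c1.1 (by rw [e, hs]))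
      have k2 := h.bw hp hs (x := u) (w := y) (fun e => hu.2.1 e.symm)
        (fun e => c1.2 (by rw [e, hs]))
      have iu3 : pos (s u) ≠ pos x := fun e => c1.1 (by rw [← hp e, hs])
      have iu4 : pos (s u) ≠ pos y := fun e => c1.2 (by rw [← hp e, hs])
      have key : Bw (pos u) (pos (s u)) (pos x) ↔ Bw (pos u) (pos (s u)) (pos y) := by
        rw [bw_iff iu1.symm iu3.symm, bw_iff iu2.symm iu4.symm]
        have e1 : (pos u < pos x ↔ pos u < pos y) := by constructor <;> intro h <;> omega
        have e2 : (pos (s u) < pos x ↔ pos (s u) < pos y) := by constructor <;> intro h <;> omega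
        rw [e1, e2]
      rcases c2 with c | c
      · rw [jw, if_pos c]
        rw [c] at hbw
        exact k2.1 (key.1 (k1.2 hbw))
      · have c' : w ≠ s x := fun e => f.ne (hs.injective (by rw [← e, ← c]))
        rw [jw, if_neg c', if_pos c]
        rw [c] at hbw
        exact k1.1 (key.2 (k2.2 hbw))
    · push Not at c2
      rw [jw, if_neg c2.1, if_neg c2.2]
      exact k.1 hbw

/-- renaming of a name to a dead neighbour -/
theorem NC.ren (hs : Function.Involutive s) (h : NC pos s) {e r : D} (he : s e = e) (hr : s r ≠ r)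
    (hb : ∀ z, s z ≠ z → ¬ Bw (pos e) (pos r) (pos z)) : NC pos (ren e r s) := by
  have her : e ≠ r := by rintro rfl; exact hr he
  have hR : Function.Involutive (Pool.Agent.H47.W.ren e r s) := ren_inv hs
  apply NC.mk' hp hR
  intro u w hu hw h1 h2 hbw
  -- values
  have val : ∀ t, t ≠ e → t ≠ r → s t ≠ r → Pool.Agent.H47.W.ren e r s t = s t := by
    intro t t1 t2 t3
    have t4 : s t ≠ e := fun e' => t1 (by rw [← hs t, e', he])
    unfold Pool.Agent.H47.W.ren
    rw [Equiv.swap_apply_of_ne_of_ne t1 t2, Equiv.swap_apply_of_ne_of_ne t4 t3]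
  have vr : Pool.Agent.H47.W.ren e r s r = r := by
    unfold Pool.Agent.H47.W.ren
    rw [Equiv.swap_apply_right, he, Equiv.swap_apply_left]
  have sre : s r ≠ e := fun e' => her (by
    have h3 : s (s r) = r := hs r
    rw [e', he] at h3
    exact h3)
  have ve : Pool.Agent.H47.W.ren e r s e = s r := by
    unfold Pool.Agent.H47.W.ren
    rw [Equiv.swap_apply_left, Equiv.swap_apply_of_ne_of_ne sre hr]
  have vsr : Pool.Agent.H47.W.ren e r s (s r) = e := by rw [← ve, hR]
  have ur : u ≠ r := fun e' => hu (by rw [e', vr])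
  have wr : w ≠ r := fun e' => hw (by rw [e', vr])
  -- positions relative to e and r
  have cmp : ∀ z, s z ≠ z → z ≠ r → ((pos z < pos e ↔ pos z < pos r) ∧ (pos e < pos z ↔ pos r < pos z)) := by
    intro z hz zr
    have b1 := hb z hz
    have b2 : pos z ≠ pos e := fun e' => hz (by rw [hp e', he])
    have b3 : pos z ≠ pos r := fun e' => zr (hp e')
    unfold Bw at b1
    omega
  have srr : s (s r) ≠ s r := fun e' => hr (hs.injective e')
  -- new chords
  by_cases cu : u = e ∨ u = s r
  · have wn1 : w ≠ e := by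
      rintro rfl
      rcases cu with c | c
      · exact h1 c.symm
      · exact h2 (by rw [c, vsr])
    have wn2 : w ≠ s r := by
      rintro rfl
      rcases cu with c | c
      · exact h2 (by rw [c, ve])
      · exact h1 c.symm
    have wn3 : s w ≠ r := fun e' => wn2 (by rw [← hs w, e'])
    have vw := val w wn1 wr wn3
    rw [vw] at hw ⊢
    have sw : s (s w) ≠ s w := fun e' => hw (hs.injective e')
    have k := h.bw hp hs (x := r) (w := w) wr wn2
    have c1 := cmp w hw wr
    have c2 := cmp (s w) sw wn3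
    have k' : Bw (pos e) (pos (s r)) (pos w) ↔ Bw (pos e) (pos (s r)) (pos (s w)) := by
      unfold Bw at k ⊢
      rw [c1.1, c1.2, c2.1, c2.2]
      exact k
    rcases cu with c | c
    · subst c
      rw [ve] at hbw ⊢
      exact k'.1 hbw
    · subst c
      rw [vsr, bw_symm] at hbw ⊢
      exact k'.1 hbw
  · push Not at cu
    have un3 : s u ≠ r := fun e' => cu.2 (by rw [← hs u, e'])
    have vu := val u cu.1 ur un3
    rw [vu] at hu h2 hbw ⊢
    have su : s (s u) ≠ s u := fun e' => hu (hs.injective e')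
    by_cases cw : w = e ∨ w = s r
    · have k := h.bw hp hs (x := u) (w := r) (fun e' => ur e'.symm) (fun e' => un3 e'.symm)
      have c1 := cmp u hu ur
      have c2 := cmp (s u) su un3
      have ke : Bw (pos u) (pos (s u)) (pos e) ↔ Bw (pos u) (pos (s u)) (pos r) := by
        unfold Bw
        rw [c1.1, c1.2, c2.1, c2.2]
      rcases cw with c | c
      · rw [c] at hbw ⊢
        rw [ve]
        exact k.1 (ke.1 hbw)
      · rw [c] at hbw ⊢
        rw [vsr]
        exact ke.2 (k.2 hbw)
    · push Not at cw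
      have wn3 : s w ≠ r := fun e' => cw.2 (by rw [← hs w, e'])
      rw [val w cw.1 wr wn3]
      exact (h.bw hp hs h1 h2).1 hbw

end nc

/-! ### Planar data -/

/-- join `l` and `r` of every tile: the line is deleted -/
def del : List (D × D) → (D → D) → D → D
  | [], s => s
  | t :: T, s => del T (jo t.1 t.2 s)

@[simp] theorem del_nil (s : D → D) : del [] s = s := rfl

theorem del_cons (t : D × D) (T : List (D × D)) (s : D → D) :
    del (t :: T) s = del T (jo t.1 t.2 s) := rfl

/-- **Planar data**: on the line `pos` the order is: left legs, `e`, right legs, outer legs -/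
structure Pl (pos : D → ℤ) (e : D) (T : List (D × D)) (O : Finset D) (s : D → D) : Prop where
  wf : WF e T s
  out : ∀ x, s x ≠ x → x = e ∨ x ∈ nms T ∨ x ∈ O
  lr : ∀ t ∈ T, pos t.1 < pos e ∧ pos e < pos t.2
  srt : T.Pairwise (fun t t' => pos t'.1 < pos t.1 ∧ pos t.2 < pos t'.2)
  po : ∀ x ∈ O, pos e < pos x ∧ ∀ t ∈ T, pos t.2 < pos x
  nc : NC pos s

theorem mem_nms {x : D} {T : List (D × D)} : x ∈ nms T ↔ ∃ t ∈ T, x = t.1 ∨ x = t.2 := by
  unfold nms
  rw [List.mem_flatMap]
  simp

section red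

variable {pos : D → ℤ} {e : D} {T : List (D × D)} {O : Finset D} {s : D → D}

theorem Pl.pos_nms (h : Pl pos e T O s) {x : D} (hx : x ∈ nms T) {o : D} (ho : o ∈ O) :
    pos x < pos o := by
  obtain ⟨t, ht, hx⟩ := mem_nms.1 hx
  have h1 := h.po o ho
  have h2 := h.lr t ht
  have h3 := h1.2 t ht
  rcases hx with rfl | rfl
  · omega
  · exact h3

theorem Pl.pos_blk (h : Pl pos e T O s) {x : D} (hx : x ∈ e :: nms T) {o : D} (ho : o ∈ O) :
    pos x < pos o := by
  rcases List.mem_cons.1 hx with rfl | hx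
  · exact (h.po o ho).1
  · exact h.pos_nms hx ho

/-- a pair inside the block without elements of the block between -/
theorem Pl.exists_nb (hp : Function.Injective pos) (h : Pl pos e T O s)
    (hx : ∃ x ∈ e :: nms T, s x ∈ e :: nms T) :
    ∃ x ∈ e :: nms T, s x ∈ e :: nms T ∧ pos x < pos (s x) ∧
      ∀ z ∈ e :: nms T, ¬ (pos x < pos z ∧ pos z < pos (s x)) := by
  classical
  set B := e :: nms T with hB
  set F := B.toFinset.filter fun x => s x ∈ B with hF
  have hne : F.Nonempty := by
    obtain ⟨x, hx, hx'⟩ := hx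
    exact ⟨x, Finset.mem_filter.2 ⟨List.mem_toFinset.2 hx, hx'⟩⟩
  obtain ⟨x0, hx0, hmin⟩ := Finset.exists_min_image F (fun x => |pos (s x) - pos x|) hne
  have hx0' := Finset.mem_filter.1 hx0
  have hs := h.wf.inv
  -- choose the orientation
  have key : ∀ x, x ∈ F → (∀ y ∈ F, |pos (s x) - pos x| ≤ |pos (s y) - pos y|) →
      pos x < pos (s x) → ∀ z ∈ B, ¬ (pos x < pos z ∧ pos z < pos (s x)) := by
    intro x hxF hm hlt z hz hzb
    have hzx : z ≠ x := by rintro rfl; omega
    have hzx' : z ≠ s x := by rintro rfl; omega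
    have b1 := h.nc.bw_imp hp hs (x := x) (w := z) hzx hzx' (Or.inl hzb)
    have b2 : pos x < pos (s z) ∧ pos (s z) < pos (s x) := by
      unfold Bw at b1
      omega
    have hal : s z ≠ z := h.wf.al z hz
    have hal' : s (s z) ≠ s z := fun e' => hal (hs.injective e')
    have hxF' := Finset.mem_filter.1 hxF
    have hszB : s z ∈ B := by
      rcases h.out _ hal' with h1 | h1 | h1
      · rw [h1]; simp [hB]
      · simp [hB, h1]
      · exfalso
        have := h.pos_blk hxF'.2 h1
        omega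
    have := hm z (Finset.mem_filter.2 ⟨List.mem_toFinset.2 hz, hszB⟩)
    rw [abs_of_pos (by omega)] at this
    rcases abs_cases (pos (s z) - pos z) with ⟨h1, _⟩ | ⟨h1, _⟩ <;> rw [h1] at this <;> omega
  have hmem : x0 ∈ B := List.mem_toFinset.1 hx0'.1
  have hne' : pos x0 ≠ pos (s x0) := fun e' => h.wf.al x0 hmem (hp e').symm
  rcases lt_or_gt_of_ne hne' with hlt | hlt
  · exact ⟨x0, hmem, hx0'.2, hlt, key x0 hx0 hmin hlt⟩
  · have hs0 : s (s x0) = x0 := hs x0
    refine ⟨s x0, hx0'.2, by rw [hs0]; exact hmem, by rw [hs0]; exact hlt, ?_⟩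
    refine key (s x0) ?_ ?_ (by rw [hs0]; exact hlt)
    · exact Finset.mem_filter.2 ⟨List.mem_toFinset.2 hx0'.2, by rw [hs0]; exact hmem⟩
    · intro y hy
      rw [hs0, abs_sub_comm]
      exact hmin y hy

/-- the kinds of neighbouring pairs -/
inductive NbK (e : D) (T : List (D × D)) (s : D → D) : Prop
  | eL (t : D × D) (T' : List (D × D)) (h : T = t :: T') (h' : s e = t.1)
  | eR (t : D × D) (T' : List (D × D)) (h : T = t :: T') (h' : s e = t.2)
  | ll (T1 : List (D × D)) (t t' : D × D) (T2 : List (D × D)) (h : T = T1 ++ t :: t' :: T2)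
      (h' : s t.1 = t'.1)
  | rr (T1 : List (D × D)) (t t' : D × D) (T2 : List (D × D)) (h : T = T1 ++ t :: t' :: T2)
      (h' : s t.2 = t'.2)

omit [DecidableEq D] in
theorem Pl.first (hsrt : T.Pairwise (fun t t' => pos t'.1 < pos t.1 ∧ pos t.2 < pos t'.2))
    {t : D × D} (ht : t ∈ T) (h : ∀ t' ∈ T, ¬ (pos t.1 < pos t'.1 ∧ pos t'.2 < pos t.2)) :
    ∃ T', T = t :: T' := by
  cases T with
  | nil => simp at ht
  | cons t0 T0 =>
    rcases List.mem_cons.1 ht with rfl | ht'
    · exact ⟨T0, rfl⟩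
    · exact absurd ((List.pairwise_cons.1 hsrt).1 t ht') (h t0 (by simp))

omit [DecidableEq D] in
theorem Pl.next (hsrt : T.Pairwise (fun t t' => pos t'.1 < pos t.1 ∧ pos t.2 < pos t'.2))
    {t t' : D × D} (ht : t ∈ T) (ht' : t' ∈ T) (hlt : pos t'.1 < pos t.1 ∨ pos t.2 < pos t'.2)
    (h : ∀ u ∈ T, ¬ (pos u.1 < pos t.1 ∧ pos t.2 < pos u.2 ∧ pos t'.1 < pos u.1 ∧
      pos u.2 < pos t'.2)) :
    ∃ T1 T2, T = T1 ++ t :: t' :: T2 := by
  obtain ⟨A, C, rfl⟩ := List.append_of_mem ht
  have h1 := List.pairwise_append.1 hsrt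
  have h2 := List.pairwise_cons.1 h1.2.1
  rcases List.mem_append.1 ht' with h3 | h3
  · exfalso
    have := h1.2.2 t' h3 t (by simp)
    omega
  · rcases List.mem_cons.1 h3 with h4 | h4
    · exfalso; rw [h4] at hlt; omega
    · cases C with
      | nil => simp at h4
      | cons c C' =>
        rcases List.mem_cons.1 h4 with h5 | h5
        · exact ⟨A, C', by rw [h5]⟩
        · exfalso
          have h6 := h2.1 c (by simp)
          have h7 := (List.pairwise_cons.1 h2.2).1 t' h5
          exact h c (by simp) ⟨h6.1, h6.2, h7.1, h7.2⟩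

theorem Pl.nbK (hp : Function.Injective pos) (h : Pl pos e T O s)
    (hx : ∃ x ∈ e :: nms T, s x ∈ e :: nms T) : NbK e T s := by
  obtain ⟨x, hx, hsx, hlt, hb⟩ := h.exists_nb hp hx
  have hs := h.wf.inv
  have hbe := hb e (by simp)
  have hbt : ∀ t ∈ T, ¬ (pos x < pos t.1 ∧ pos t.1 < pos (s x)) ∧
      ¬ (pos x < pos t.2 ∧ pos t.2 < pos (s x)) := fun t ht =>
    ⟨hb _ (List.mem_cons_of_mem _ (mem_nms.2 ⟨t, ht, Or.inl rfl⟩)),
      hb _ (List.mem_cons_of_mem _ (mem_nms.2 ⟨t, ht, Or.inr rfl⟩))⟩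
  have hx' : x = e ∨ ∃ t ∈ T, x = t.1 ∨ x = t.2 := by
    rcases List.mem_cons.1 hx with h1 | h1
    · exact Or.inl h1
    · exact Or.inr (mem_nms.1 h1)
  have hy' : s x = e ∨ ∃ t ∈ T, s x = t.1 ∨ s x = t.2 := by
    rcases List.mem_cons.1 hsx with h1 | h1
    · exact Or.inl h1
    · exact Or.inr (mem_nms.1 h1)
  rcases hx' with h1 | ⟨t, ht, h1 | h1⟩
  · rcases hy' with h2 | ⟨t', ht', h2 | h2⟩
    · rw [h2, h1] at hlt; exact absurd hlt (lt_irrefl _)
    · have := h.lr t' ht'
      rw [h2, h1] at hlt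
      omega
    · obtain ⟨T', hT⟩ := Pl.first h.srt ht' fun u hu => by
        have := (hbt u hu).2
        have h3 := h.lr u hu
        rw [h2, h1] at this
        omega
      exact .eR t' T' hT (by rw [← h1, h2])
  · have h3 := h.lr t ht
    rcases hy' with h2 | ⟨t', ht', h2 | h2⟩
    · obtain ⟨T', hT⟩ := Pl.first h.srt ht fun u hu => by
        have := (hbt u hu).1
        have h3 := h.lr u hu
        rw [h2, h1] at this
        omega
      exact .eL t T' hT (by rw [← h1, ← h2, hs])
    · obtain ⟨T1, T2, hT⟩ := Pl.next h.srt ht' ht (Or.inl (by rw [← h1, ← h2]; exact hlt))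
        fun u hu => by
          have := (hbt u hu).1
          rw [h2, h1] at this
          omega
      exact .ll T1 t' t T2 hT (by rw [← h2, hs, h1])
    · exfalso
      have h4 := h.lr t' ht'
      apply hbe
      rw [h2, h1]
      exact ⟨h3.1, h4.2⟩
  · have h3 := h.lr t ht
    rcases hy' with h2 | ⟨t', ht', h2 | h2⟩
    · rw [h2, h1] at hlt; omega
    · have h4 := h.lr t' ht'
      rw [h2, h1] at hlt; omega
    · obtain ⟨T1, T2, hT⟩ := Pl.next h.srt ht ht' (Or.inr (by rw [← h1, ← h2]; exact hlt))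
        fun u hu => by
          have := (hbt u hu).2
          rw [h2, h1] at this
          omega
      exact .rr T1 t t' T2 hT (by rw [← h1, h2])

end red

end Pool.Agent.H47.W
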