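import Pool.Agent.H47.W.FrozenPl

/-!
# The frozen line lemma: the reduction

`exists_red`: a frozen half line over a planar pairing can be reduced, without changing the weighted sum
`Val` (for every functional `v`) nor the pairing `del` with the line deleted, until all its legs are
paired with outer legs. `norm_Val_le`: the sum is bounded by `2 ^ ((|O| - 1) / 2)`. `Val_three`: for
three outer legs the frozen line may be deleted.
-/

namespace Pool.Agent.H47.W

variable {D : Type*} [DecidableEq D]

theorem jo_symm {x y : D} {s : D → D} (hs : Function.Involutive s) :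
    jo x y s = jo y x s := by
  funext t
  have a1 := hs x
  have a2 := hs y
  have a3 := hs t
  unfold jo
  grind (splits := 60)

theorem jo_of_l {e l r : D} {s : D → D} (hs : Function.Involutive s) (h1 : e ≠ l) (h2 : e ≠ r)
    (h3 : l ≠ r) (hr : s r ≠ r) (h : s e = l) : stA e l r s = jo l r s := by
  funext t
  have a1 := hs e
  have a2 := hs l
  have a3 := hs r
  have a4 := hs t
  unfold stA ren jo
  simp only [Equiv.swap_apply_def]
  grind (splits := 60)

theorem jo_of_r {e l r : D} {s : D → D} (hs : Function.Involutive s) (h1 : e ≠ l) (h2 : e ≠ r)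
    (h3 : l ≠ r) (h : s e = r) : stA e l r s = jo l r s := by
  funext t
  have a1 := hs e
  have a2 := hs l
  have a3 := hs r
  have a4 := hs t
  unfold stA ren jo
  simp only [Equiv.swap_apply_def]
  grind (splits := 60)

theorem jo_sq {l r l' r' : D} {s : D → D} (hs : Function.Involutive s) (hnd : [l, r, l', r'].Nodup)
    (hr : s r ≠ r) (h : s l = l') :
    jo l' r' (jo l r s) = jo l l' (jo r r' s) := by
  funext t
  have a1 := hs l
  have a2 := hs r
  have a3 := hs r'
  have a4 := hs t
  simp only [List.nodup_cons, List.mem_cons, List.not_mem_nil, or_false, not_or] at hnd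
  unfold jo
  grind (splits := 60)

theorem jo_sq' {l r l' r' : D} {s : D → D} (hs : Function.Involutive s) (hnd : [l, r, l', r'].Nodup)
    (hl : s l ≠ l) (h : s r = r') :
    jo l' r' (jo l r s) = jo l l' (jo r r' s) := by
  funext t
  have a1 := hs r
  have a2 := hs l
  have a3 := hs l'
  have a4 := hs t
  simp only [List.nodup_cons, List.mem_cons, List.not_mem_nil, or_false, not_or] at hnd
  unfold jo
  grind (splits := 60)

theorem jo_other {x y u : D} {s : D → D} (hs : Function.Involutive s) (h1 : u ≠ x) (h2 : u ≠ y)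
    (h4 : s u ≠ x) (h5 : s u ≠ y) : jo x y s u = s u := by
  have a1 := hs u
  have a2 := hs x
  have a3 := hs y
  unfold jo
  grind (splits := 60)

/-! ### Deleting the line -/

/-- well formed, without the end -/
structure WN (T : List (D × D)) (s : D → D) : Prop where
  inv : Function.Involutive s
  nd : (nms T).Nodup
  al : ∀ x ∈ nms T, s x ≠ x

theorem WF.wn {e : D} {T : List (D × D)} {s : D → D} (h : WF e T s) : WN T s :=
  ⟨h.inv, (List.nodup_cons.1 h.nd).2, fun x hx => h.al x (List.mem_cons_of_mem _ hx)⟩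

theorem WN.fr {t : D × D} {T : List (D × D)} {s : D → D} (h : WN (t :: T) s) : Fr s t.1 t.2 := by
  have h1 := h.nd
  simp only [nms_cons, List.nodup_cons, List.mem_cons, not_or] at h1
  exact ⟨h.inv, h1.1.1, h.al _ (by simp), h.al _ (by simp)⟩

theorem WN.notin {t : D × D} {T : List (D × D)} {s : D → D} (h : WN (t :: T) s) {x : D}
    (hx : x ∈ nms T) : x ≠ t.1 ∧ x ≠ t.2 := by
  have h1 := h.nd
  simp only [nms_cons, List.nodup_cons, List.mem_cons, not_or] at h1
  exact ⟨by rintro rfl; exact h1.1.2 hx, by rintro rfl; exact h1.2.1 hx⟩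

theorem WN.jo {t : D × D} {T : List (D × D)} {s : D → D} (h : WN (t :: T) s) :
    WN T (jo t.1 t.2 s) := by
  refine ⟨jo_inv h.fr, ?_, ?_⟩
  · have h1 := h.nd
    simp only [nms_cons, List.nodup_cons] at h1
    exact h1.2.2
  · intro x hx
    rw [Ne, jo_fix h.fr]
    obtain ⟨h1, h2⟩ := h.notin hx
    rintro (h3 | h3 | h3)
    · exact h1 h3
    · exact h2 h3
    · exact h.al x (by simp [hx]) h3

theorem del_inv {T : List (D × D)} {s : D → D} (h : WN T s) : Function.Involutive (del T s) := by
  induction T generalizing s with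
  | nil => exact h.inv
  | cons t T ih => exact ih h.jo

theorem del_fix {T : List (D × D)} {s : D → D} (h : WN T s) (x : D) :
    del T s x = x ↔ x ∈ nms T ∨ s x = x := by
  induction T generalizing s with
  | nil => simp
  | cons t T ih =>
    rw [del_cons, ih h.jo, jo_fix h.fr, nms_cons, List.mem_cons, List.mem_cons]
    tauto

theorem del_append (T T' : List (D × D)) (s : D → D) : del (T ++ T') s = del T' (del T s) := by
  induction T generalizing s with
  | nil => rfl
  | cons t T ih => rw [List.cons_append, del_cons, ih, del_cons]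

theorem del_jo {T : List (D × D)} {s : D → D} (h : WN T s) {x y : D} (f : Fr s x y)
    (hx : x ∉ nms T) (hy : y ∉ nms T) : del T (jo x y s) = jo x y (del T s) := by
  induction T generalizing s with
  | nil => rfl
  | cons t T ih =>
    simp only [nms_cons, List.mem_cons, not_or] at hx hy
    have f' : Fr (jo t.1 t.2 s) x y := by
      refine ⟨jo_inv h.fr, f.ne, ?_, ?_⟩
      · rw [Ne, jo_fix h.fr]
        rintro (h3 | h3 | h3)
        · exact hx.1 h3
        · exact hx.2.1 h3
        · exact f.ax h3
      · rw [Ne, jo_fix h.fr]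
        rintro (h3 | h3 | h3)
        · exact hy.1 h3
        · exact hy.2.1 h3
        · exact f.ay h3
    rw [del_cons, del_cons, ← ih h.jo f' hx.2.2 hy.2.2,
      jo_comm h.fr f (Ne.symm hx.1) (Ne.symm hy.1) (Ne.symm hx.2.1) (Ne.symm hy.2.1)]

theorem del_other {T : List (D × D)} {s : D → D} (h : WN T s) {u : D} (h1 : u ∉ nms T)
    (h2 : s u ∉ nms T) : del T s u = s u := by
  induction T generalizing s with
  | nil => rfl
  | cons t T ih =>
    simp only [nms_cons, List.mem_cons, not_or] at h1 h2
    have e : jo t.1 t.2 s u = s u := jo_other h.inv h1.1 h1.2.1 h2.1 h2.2.1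
    rw [del_cons, ih h.jo h1.2.2 (by rw [e]; exact h2.2.2), e]

/-! ### The mirror image -/

theorem nms_swap_perm (T : List (D × D)) : (nms (T.map Prod.swap)).Perm (nms T) := by
  induction T with
  | nil => exact List.Perm.refl _
  | cons t T ih =>
    rw [List.map_cons, nms_cons, nms_cons, Prod.fst_swap, Prod.snd_swap]
    exact (List.Perm.swap _ _ _).trans ((ih.cons _).cons _)

theorem WF.swap {e : D} {T : List (D × D)} {s : D → D} (h : WF e T s) :
    WF e (T.map Prod.swap) s := by
  have hp := (nms_swap_perm T).cons e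
  exact ⟨h.inv, hp.nodup_iff.2 h.nd, fun x hx => h.al x (hp.mem_iff.1 hx)⟩

/-- **The second move**, right legs -/
theorem Val_r2 {a b : ℂ} (h1 : a + b = 1) (h2 : a * b = 1) {e : D} (v : (D → D) → ℂ)
    {l r l' r' : D} {T1 T2 : List (D × D)} {s : D → D}
    (h : WF e (T1 ++ (l, r) :: (l', r') :: T2) s) (hr : s r = r') :
    Val a b e v (T1 ++ (l, r) :: (l', r') :: T2) s =
      Val a b e v (T1 ++ T2) (jo r r' (jo l l' s)) := by
  have h' := h.swap
  simp only [List.map_append, List.map_cons, Prod.swap_prod_mk] at h'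
  rw [Val_swap, List.map_append, List.map_cons, List.map_cons, Prod.swap_prod_mk,
    Prod.swap_prod_mk, Val_l2 (by rw [add_comm]; exact h1) (by rw [mul_comm]; exact h2) v h' hr,
    Val_swap a b, List.map_append]

/-! ### The reduction -/

section red

variable {pos : D → ℤ} {e : D} {T : List (D × D)} {O : Finset D} {s : D → D}

theorem Pl.sub (h : Pl pos e T O s) {T' : List (D × D)} {s' : D → D} (hT : T'.Sublist T)
    (wf : WF e T' s') (out : ∀ x, s' x ≠ x → x = e ∨ x ∈ nms T' ∨ x ∈ O) (nc : NC pos s') :
    Pl pos e T' O s' :=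
  ⟨wf, out, fun t ht => h.lr t (hT.subset ht), h.srt.sublist hT,
    fun x hx => ⟨(h.po x hx).1, fun t ht => (h.po x hx).2 t (hT.subset ht)⟩, nc⟩

theorem Pl.two (hp : Function.Injective pos) {l r l' r' : D} {T1 T2 : List (D × D)}
    (h : Pl pos e (T1 ++ (l, r) :: (l', r') :: T2) O s) (hk : s l = l' ∨ s r = r') :
    Pl pos e (T1 ++ T2) O (jo l l' (jo r r' s)) ∧
      del (T1 ++ (l, r) :: (l', r') :: T2) s = del (T1 ++ T2) (jo l l' (jo r r' s)) := by
  have hs := h.wf.inv
  have hsub : (T1 ++ T2).Sublist (T1 ++ (l, r) :: (l', r') :: T2) :=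
    List.Sublist.append (List.Sublist.refl _)
      ((List.sublist_cons_self _ _).trans (List.sublist_cons_self _ _))
  -- names
  have nd := (List.nodup_cons.1 h.wf.nd).2
  have nde := (List.nodup_cons.1 h.wf.nd).1
  simp only [nms_append, nms_cons] at nd nde
  have nd1 := List.nodup_append.1 nd
  have nd2 := nd1.2.1
  simp only [List.nodup_cons, List.mem_cons, not_or] at nd2
  have hl : s l ≠ l := h.wf.al l (by simp)
  have hr : s r ≠ r := h.wf.al r (by simp)
  have hl' : s l' ≠ l' := h.wf.al l' (by simp)
  have hr' : s r' ≠ r' := h.wf.al r' (by simp)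
  have frr : Fr s r r' := ⟨hs, nd2.2.1.2.1, hr, hr'⟩
  have fll : Fr (jo r r' s) l l' := by
    refine ⟨jo_inv frr, nd2.1.2.1, ?_, ?_⟩
    · rw [Ne, jo_fix frr]
      rintro (h' | h' | h')
      · exact nd2.1.1 h'
      · exact nd2.1.2.2.1 h'
      · exact hl h'
    · rw [Ne, jo_fix frr]
      rintro (h' | h' | h')
      · exact nd2.2.1.1 h'.symm
      · exact nd2.2.2.1.1 h'
      · exact hl' h'
  have fix : ∀ x, jo l l' (jo r r' s) x = x ↔ x = l ∨ x = l' ∨ x = r ∨ x = r' ∨ s x = x := by
    intro x
    rw [jo_fix fll, jo_fix frr]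
  have mem4 : ∀ x, x = l ∨ x = l' ∨ x = r ∨ x = r' → x ∉ nms T1 ∧ x ∉ nms T2 ∧ x ≠ e := by
    intro x hx
    refine ⟨fun h1 => ?_, fun h1 => ?_, fun h1 => ?_⟩
    · refine nd1.2.2 x h1 x ?_ rfl
      simp only [List.mem_cons]
      tauto
    · rcases hx with rfl | rfl | rfl | rfl
      · exact nd2.1.2.2.2 h1
      · exact nd2.2.2.1.2 h1
      · exact nd2.2.1.2.2 h1
      · exact nd2.2.2.2.1 h1
    · apply nde
      rw [← h1]
      simp only [List.mem_append, List.mem_cons]
      tauto
  -- the positions
  have srt := List.pairwise_append.1 h.srt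
  have srt2 := List.pairwise_cons.1 srt.2.1
  have srt3 := List.pairwise_cons.1 srt2.2
  have o1 := srt2.1 (l', r') (by simp)
  simp only at o1
  have nb : ∀ t ∈ T1 ++ (l, r) :: (l', r') :: T2,
      (pos l ≤ pos t.1 ∧ pos t.2 ≤ pos r) ∨ (pos t.1 ≤ pos l' ∧ pos r' ≤ pos t.2) := by
    intro t ht
    rcases List.mem_append.1 ht with h1 | h1
    · have := srt.2.2 t h1 (l, r) (by simp)
      simp only at this
      left; omega
    · rcases List.mem_cons.1 h1 with h2 | h2
      · left; rw [h2]; exact ⟨le_rfl, le_rfl⟩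
      · rcases List.mem_cons.1 h2 with h3 | h3
        · right; rw [h3]; exact ⟨le_rfl, le_rfl⟩
        · have := srt3.1 t h3
          simp only at this
          right; omega
  have lrl := h.lr (l, r) (by simp)
  have lrl' := h.lr (l', r') (by simp)
  simp only at lrl lrl'
  have nbr : ∀ z, s z ≠ z → ¬ (pos r < pos z ∧ pos z < pos r') := by
    intro z hz hzb
    rcases h.out z hz with h1 | h1 | h1
    · rw [h1] at hzb; omega
    · obtain ⟨t, ht, h2⟩ := mem_nms.1 h1
      have h3 := h.lr t ht
      have h4 := nb t ht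
      rcases h2 with h2 | h2 <;> rw [h2] at hzb <;> omega
    · have := (h.po z h1).2 (l', r') (by simp)
      simp only at this
      omega
  have nbl : ∀ z, s z ≠ z → ¬ (pos l' < pos z ∧ pos z < pos l) := by
    intro z hz hzb
    rcases h.out z hz with h1 | h1 | h1
    · rw [h1] at hzb; omega
    · obtain ⟨t, ht, h2⟩ := mem_nms.1 h1
      have h3 := h.lr t ht
      have h4 := nb t ht
      rcases h2 with h2 | h2 <;> rw [h2] at hzb <;> omega
    · have := (h.po z h1).1
      omega
  refine ⟨h.sub hsub ⟨jo_inv fll, ?_, ?_⟩ ?_ ?_, ?_⟩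
  · refine (List.Nodup.sublist ?_ h.wf.nd)
    refine List.Sublist.cons_cons _ ?_
    rw [nms_append, nms_append, nms_cons, nms_cons]
    exact List.Sublist.append (List.Sublist.refl _)
      (((List.sublist_cons_self _ _).trans (List.sublist_cons_self _ _)).trans
        ((List.sublist_cons_self _ _).trans (List.sublist_cons_self _ _)))
  · intro x hx
    have hx1 : x = e ∨ x ∈ nms T1 ∨ x ∈ nms T2 := by
      rcases List.mem_cons.1 hx with h1 | h1
      · exact Or.inl h1
      · rw [nms_append, List.mem_append] at h1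
        exact Or.inr h1
    have hx2 : ¬ (x = l ∨ x = l' ∨ x = r ∨ x = r') := fun h1 => by
      have := mem4 x h1
      rcases hx1 with h2 | h2 | h2
      · exact this.2.2 h2
      · exact this.1 h2
      · exact this.2.1 h2
    rw [Ne, fix]
    have hx3 : s x ≠ x := h.wf.al x (by
      simp only [nms_append, nms_cons, List.mem_cons, List.mem_append]
      tauto)
    tauto
  · intro x hx
    rw [Ne, fix] at hx
    have hx3 : s x ≠ x := fun h1 => hx (by tauto)
    rcases h.out x hx3 with h1 | h1 | h1
    · exact Or.inl h1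
    · rw [nms_append, nms_cons, nms_cons, List.mem_append, List.mem_cons, List.mem_cons,
        List.mem_cons, List.mem_cons] at h1
      rw [nms_append, List.mem_append]
      simp only at h1
      tauto
    · exact Or.inr (Or.inr h1)
  · have k1 := h.nc.jo hp frr o1.2 nbr
    rw [jo_symm (jo_inv frr)]
    refine k1.jo hp ⟨jo_inv frr, Ne.symm fll.ne, fll.ay, fll.ax⟩ o1.1 ?_
    intro z hz
    exact nbl z (fun h1 => hz ((jo_fix frr z).2 (Or.inr (Or.inr h1))))
  · have w1 : WN T1 s := ⟨hs, nd1.1, fun x hx => h.wf.al x (by simp [hx])⟩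
    rw [del_append, del_cons, del_cons, del_append]
    simp only
    congr 1
    have m := fun x hx => (mem4 x hx).1
    have fix1 : ∀ x, del T1 s x = x ↔ x ∈ nms T1 ∨ s x = x := del_fix w1
    have al1 : ∀ x, x ∉ nms T1 → s x ≠ x → del T1 s x ≠ x := by
      intro x h1 h2 h3
      rw [fix1] at h3
      tauto
    have w2 : WN T1 (jo r r' s) := by
      refine ⟨jo_inv frr, nd1.1, fun x hx => ?_⟩
      rw [Ne, jo_fix frr]
      rintro (h3 | h3 | h3)
      · exact m x (by tauto) hx
      · exact m x (by tauto) hx
      · exact w1.al x hx h3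
    rw [del_jo w2 fll (m l (by tauto)) (m l' (by tauto)), del_jo w1 frr (m r (by tauto))
      (m r' (by tauto))]
    have hnd : [l, r, l', r'].Nodup := by
      simp only [List.nodup_cons, List.mem_cons, not_or, List.not_mem_nil, not_false_eq_true,
        List.nodup_nil, and_true]
      exact ⟨⟨nd2.1.1, nd2.1.2.1, nd2.1.2.2.1⟩, ⟨nd2.2.1.1, nd2.2.1.2.1⟩, nd2.2.2.1.1⟩
    rcases hk with hk | hk
    · refine jo_sq (del_inv w1) hnd (al1 r (m r (by tauto)) hr) ?_
      rw [del_other w1 (m l (by tauto)) (by rw [hk]; exact m l' (by tauto)), hk]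
    · refine jo_sq' (del_inv w1) hnd (al1 l (m l (by tauto)) hl) ?_
      rw [del_other w1 (m r (by tauto)) (by rw [hk]; exact m r' (by tauto)), hk]

/-- **One step of the reduction** -/
theorem Pl.step (hp : Function.Injective pos) (h : Pl pos e T O s)
    (hx : ∃ x ∈ e :: nms T, s x ∈ e :: nms T) :
    ∃ T' s', T'.length < T.length ∧ Pl pos e T' O s' ∧ del T s = del T' s' ∧
      ∀ (a b : ℂ), a + b = 1 → a * b = 1 → ∀ v, Val a b e v T s = Val a b e v T' s' := by
  have hs := h.wf.inv
  rcases h.nbK hp hx with ⟨⟨l, r⟩, T', rfl, he⟩ | ⟨⟨l, r⟩, T', rfl, he⟩ | ⟨T1, ⟨l, r⟩, ⟨l', r'⟩, T2, rfl, he⟩ |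
    ⟨T1, ⟨l, r⟩, ⟨l', r'⟩, T2, rfl, he⟩
  · simp only at he
    obtain ⟨n1, n2, n3, n4, n5, n6⟩ := h.wf.head
    simp only at n1 n2 n3 n5 n6
    have hlr := h.lr (l, r) (by simp)
    simp only at hlr
    have f : Fr s e l := ⟨hs, n1, n4, n5⟩
    refine ⟨T', stA e l r s, by simp, h.sub (List.sublist_cons_self _ _) h.wf.stA ?_ ?_, ?_, ?_⟩
    · intro x hx
      rw [Ne, stA_fix f n2 n3 n6, not_or, not_or] at hx
      rcases h.out x hx.2.2 with h1 | h1 | h1
      · exact Or.inl h1
      · simp only [nms_cons, List.mem_cons] at h1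
        rcases h1 with h1 | h1 | h1
        · exact absurd h1 hx.1
        · exact absurd h1 hx.2.1
        · exact Or.inr (Or.inl h1)
      · exact Or.inr (Or.inr h1)
    · have hsrt := List.pairwise_cons.1 h.srt
      have k1 : NC pos (Pool.Agent.H47.W.jo e l s) := by
        rw [jo_symm hs]
        refine h.nc.jo hp ⟨hs, Ne.symm n1, n5, n4⟩ hlr.1 ?_
        intro z hz hzb
        rcases h.out z hz with h1 | h1 | h1
        · rw [h1] at hzb; omega
        · obtain ⟨t, ht, h2⟩ := mem_nms.1 h1
          have h3 := h.lr t ht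
          rcases h2 with h2 | h2
          · rcases List.mem_cons.1 ht with h4 | h4
            · rw [h2, h4] at hzb; simp at hzb
            · have := hsrt.1 t h4
              simp only at this
              rw [h2] at hzb; omega
          · rw [h2] at hzb; omega
        · have := (h.po z h1).1
          omega
      refine k1.ren hp (jo_inv f) ?_ ?_ ?_
      · rw [jo_fix f]; exact Or.inl rfl
      · rw [Ne, jo_fix f]
        rintro (h1 | h1 | h1)
        · exact n2 h1.symm
        · exact n3 h1.symm
        · exact n6 h1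
      · intro z hz hzb
        rw [Ne, jo_fix f, not_or, not_or] at hz
        have hzb' : pos e < pos z ∧ pos z < pos r := by unfold Bw at hzb; omega
        rcases h.out z hz.2.2 with h1 | h1 | h1
        · exact hz.1 h1
        · obtain ⟨t, ht, h2⟩ := mem_nms.1 h1
          have h3 := h.lr t ht
          rcases h2 with h2 | h2
          · rw [h2] at hzb'; omega
          · rcases List.mem_cons.1 ht with h4 | h4
            · rw [h2, h4] at hzb'; simp at hzb'
            · have := hsrt.1 t h4
              simp only at this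
              rw [h2] at hzb'; omega
        · have := (h.po z h1).2 (l, r) (by simp)
          simp only at this
          omega
    · rw [del_cons, jo_of_l hs n1 n2 n3 n6 he]
    · intro a b hab _ v
      exact Val_r1 hab v h.wf (Or.inl he)
  · simp only at he
    obtain ⟨n1, n2, n3, n4, n5, n6⟩ := h.wf.head
    simp only at n1 n2 n3 n5 n6
    have hlr := h.lr (l, r) (by simp)
    simp only at hlr
    have f : Fr s e r := ⟨hs, n2, n4, n6⟩
    have f' : Fr s e l := ⟨hs, n1, n4, n5⟩
    refine ⟨T', stA e l r s, by simp, h.sub (List.sublist_cons_self _ _) h.wf.stA ?_ ?_, ?_, ?_⟩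
    · intro x hx
      rw [Ne, stA_fix f' n2 n3 n6, not_or, not_or] at hx
      rcases h.out x hx.2.2 with h1 | h1 | h1
      · exact Or.inl h1
      · simp only [nms_cons, List.mem_cons] at h1
        rcases h1 with h1 | h1 | h1
        · exact absurd h1 hx.1
        · exact absurd h1 hx.2.1
        · exact Or.inr (Or.inl h1)
      · exact Or.inr (Or.inr h1)
    · have hsrt := List.pairwise_cons.1 h.srt
      rw [stA_eq_stB_r hs n1 n2 n3 n5 he]
      have k1 : NC pos (Pool.Agent.H47.W.jo e r s) := by
        refine h.nc.jo hp f hlr.2 ?_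
        intro z hz hzb
        rcases h.out z hz with h1 | h1 | h1
        · rw [h1] at hzb; omega
        · obtain ⟨t, ht, h2⟩ := mem_nms.1 h1
          have h3 := h.lr t ht
          rcases h2 with h2 | h2
          · rw [h2] at hzb; omega
          · rcases List.mem_cons.1 ht with h4 | h4
            · rw [h2, h4] at hzb; simp at hzb
            · have := hsrt.1 t h4
              simp only at this
              rw [h2] at hzb; omega
        · have := (h.po z h1).2 (l, r) (by simp)
          simp only at this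
          omega
      refine k1.ren hp (jo_inv f) ?_ ?_ ?_
      · rw [jo_fix f]; exact Or.inl rfl
      · rw [Ne, jo_fix f]
        rintro (h1 | h1 | h1)
        · exact n1 h1.symm
        · exact n3 h1
        · exact n5 h1
      · intro z hz hzb
        rw [Ne, jo_fix f, not_or, not_or] at hz
        have hzb' : pos l < pos z ∧ pos z < pos e := by unfold Bw at hzb; omega
        rcases h.out z hz.2.2 with h1 | h1 | h1
        · exact hz.1 h1
        · obtain ⟨t, ht, h2⟩ := mem_nms.1 h1
          have h3 := h.lr t ht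
          rcases h2 with h2 | h2
          · rcases List.mem_cons.1 ht with h4 | h4
            · rw [h2, h4] at hzb'; simp at hzb'
            · have := hsrt.1 t h4
              simp only at this
              rw [h2] at hzb'; omega
          · rw [h2] at hzb'; omega
        · have := (h.po z h1).1
          omega
    · rw [del_cons, jo_of_r hs n1 n2 n3 he]
    · intro a b hab _ v
      exact Val_r1 hab v h.wf (Or.inr he)
  · simp only at he
    obtain ⟨h1, h2⟩ := h.two hp (Or.inl he)
    refine ⟨T1 ++ T2, _, ?_, h1, h2, fun a b hab hab' v => Val_l2 hab hab' v h.wf he⟩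
    simp only [List.length_append, List.length_cons]
    omega
  · simp only at he
    obtain ⟨h1, h2⟩ := h.two hp (Or.inr he)
    refine ⟨T1 ++ T2, _, ?_, h1, h2, fun a b hab hab' v => ?_⟩
    · simp only [List.length_append, List.length_cons]
      omega
    · rw [Val_r2 hab hab' v h.wf he]
      have nd := (List.nodup_cons.1 h.wf.nd).2
      simp only [nms_append, nms_cons] at nd
      have nd2 := (List.nodup_append.1 nd).2.1
      simp only [List.nodup_cons, List.mem_cons, not_or] at nd2
      have hl : s l ≠ l := h.wf.al l (by simp)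
      have hr : s r ≠ r := h.wf.al r (by simp)
      have hl' : s l' ≠ l' := h.wf.al l' (by simp)
      have hr' : s r' ≠ r' := h.wf.al r' (by simp)
      rw [jo_comm ⟨hs, nd2.2.1.2.1, hr, hr'⟩ ⟨hs, nd2.1.2.1, hl, hl'⟩ (Ne.symm nd2.1.1)
        nd2.2.1.1 (Ne.symm nd2.1.2.2.1) (Ne.symm nd2.2.2.1.1)]

/-- **The reduction** -/
theorem exists_red (hp : Function.Injective pos) (h : Pl pos e T O s) :
    ∃ T' s', Pl pos e T' O s' ∧ del T s = del T' s' ∧ (∀ x ∈ e :: nms T', s' x ∈ O) ∧
      ∀ (a b : ℂ), a + b = 1 → a * b = 1 → ∀ v, Val a b e v T s = Val a b e v T' s' := by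
  induction hn : T.length using Nat.strong_induction_on generalizing T s with
  | _ n ih =>
    by_cases hx : ∃ x ∈ e :: nms T, s x ∈ e :: nms T
    · obtain ⟨T1, s1, hlt, h1, h2, h3⟩ := h.step hp hx
      obtain ⟨T2, s2, g1, g2, g3, g4⟩ := ih T1.length (by omega) h1 rfl
      exact ⟨T2, s2, g1, h2.trans g2, g3, fun a b hab hab' v => (h3 a b hab hab' v).trans
        (g4 a b hab hab' v)⟩
    · refine ⟨T, s, h, rfl, ?_, fun _ _ _ _ _ => rfl⟩
      intro x hx'
      have h1 : s x ∉ e :: nms T := fun h1 => hx ⟨x, hx', h1⟩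
      have h2 : s (s x) ≠ s x := fun h2 => h.wf.al x hx' (h.wf.inv.injective h2)
      rcases h.out _ h2 with h3 | h3 | h3
      · exact absurd (by rw [h3]; simp) h1
      · exact absurd (List.mem_cons_of_mem _ h3) h1
      · exact h3

theorem length_nms (T : List (D × D)) : (nms T).length = 2 * T.length := by
  induction T with
  | nil => rfl
  | cons t T ih => rw [nms_cons, List.length_cons, List.length_cons, ih, List.length_cons]; ring

/-- the number of tiles of a reduced line -/
theorem Pl.card (h : Pl pos e T O s) (hO : ∀ x ∈ e :: nms T, s x ∈ O) :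
    2 * T.length + 1 ≤ O.card := by
  have h1 : ((e :: nms T).toFinset.image s) ⊆ O := by
    intro y hy
    obtain ⟨x, hx, rfl⟩ := Finset.mem_image.1 hy
    exact hO x (List.mem_toFinset.1 hx)
  have h2 := Finset.card_le_card h1
  rw [Finset.card_image_of_injective _ h.wf.inv.injective, List.toFinset_card_of_nodup h.wf.nd,
    List.length_cons, length_nms] at h2
  exact h2

/-- a crude bound -/
theorem norm_Val_le_two_pow {a b : ℂ} (ha : ‖a‖ ≤ 1) (hb : ‖b‖ ≤ 1) {v : (D → D) → ℂ} {M : ℝ}
    (hv : ∀ f, ‖v f‖ ≤ M) (T : List (D × D)) (s : D → D) :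
    ‖Val a b e v T s‖ ≤ 2 ^ T.length * M := by
  induction T generalizing s with
  | nil => simpa using hv s
  | cons t T ih =>
    rw [Val_cons, List.length_cons, pow_succ]
    have hM : 0 ≤ M := (norm_nonneg _).trans (hv s)
    calc _ ≤ ‖a‖ * ‖Val a b e v T (stA e t.1 t.2 s)‖ + ‖b‖ * ‖Val a b e v T (stB e t.1 t.2 s)‖ := by
          refine (norm_add_le _ _).trans ?_
          rw [norm_mul, norm_mul]
      _ ≤ 1 * (2 ^ T.length * M) + 1 * (2 ^ T.length * M) := by
          gcongr
          · exact ih _
          · exact ih _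
      _ = _ := by ring

/-- **The frozen line is bounded**: the sum over the states of a frozen half line over a planar
pairing is at most `2 ^ (|O| / 2)` times the bound of the functional. -/
theorem norm_Val_le (hp : Function.Injective pos) (h : Pl pos e T O s) {a b : ℂ} (hab : a + b = 1)
    (hab' : a * b = 1) (ha : ‖a‖ ≤ 1) (hb : ‖b‖ ≤ 1) {v : (D → D) → ℂ} {M : ℝ}
    (hv : ∀ f, ‖v f‖ ≤ M) : ‖Val a b e v T s‖ ≤ 2 ^ ((O.card - 1) / 2) * M := by
  obtain ⟨T', s', h1, -, h2, h3⟩ := exists_red hp h
  rw [h3 a b hab hab' v]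
  refine (norm_Val_le_two_pow ha hb hv T' s').trans ?_
  have hM : 0 ≤ M := (norm_nonneg _).trans (hv s)
  have := h1.card h2
  gcongr
  · norm_num
  · omega

/-- for at most four outer legs the frozen line may be deleted -/
theorem Val_eq_del (hp : Function.Injective pos) (h : Pl pos e T O s) (hO : O.card ≤ 2) {a b : ℂ}
    (hab : a + b = 1) (hab' : a * b = 1) (v : (D → D) → ℂ) : Val a b e v T s = v (del T s) := by
  obtain ⟨T', s', h1, h0, h2, h3⟩ := exists_red hp h
  have := h1.card h2
  have hT : T' = [] := List.length_eq_zero_iff.1 (by omega)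
  subst hT
  rw [h3 a b hab hab' v, h0]
  rfl

end red

end Pool.Agent.H47.W
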