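import Pool.Agent.H47.W.FrozenEval
import Pool.Agent.H11.W.Frz3

/-!
# The link pattern of a grown region is noncrossing

`nc_Bw`: for every state `s` of the tiles of a region grown by the rules of `H11.W.Bw` (arbitrary weights)
the pairing `s`, restricted to the free ends of the region, is noncrossing in the order of the front.
-/

namespace Pool.Agent.H47.W

open Pool.Agent.H64.Q1 Pool.Agent.H64.Q1.LP Pool.Agent.H13.Q1 Pool.Agent.H11.W

variable {D : Type*} [DecidableEq D]

/-- restriction of a pairing to the names of a list (the other names become dead) -/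
def res (L : List D) (s : D → D) (x : D) : D := if x ∈ L then s x else x

theorem res_mem {L : List D} {s : D → D} {x : D} (h : x ∈ L) : res L s x = s x := if_pos h

theorem res_not_mem {L : List D} {s : D → D} {x : D} (h : x ∉ L) : res L s x = x := if_neg h

theorem res_inv {L : List D} {s : D → D} (hs : Function.Involutive s)
    (hL : ∀ x ∈ L, s x ∈ L) : Function.Involutive (res L s) := by
  intro x
  by_cases h : x ∈ L
  · rw [res_mem h, res_mem (hL x h), hs]
  · rw [res_not_mem h, res_not_mem h]

theorem res_alive {L : List D} {s : D → D} (hne : ∀ x, s x ≠ x) {x : D} :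
    res L s x ≠ x ↔ x ∈ L := by
  constructor
  · intro h
    by_contra h'
    exact h (res_not_mem h')
  · intro h
    rw [res_mem h]
    exact hne x

theorem res_congr {L L' : List D} {s : D → D} (h : ∀ x, x ∈ L ↔ x ∈ L') : res L s = res L' s := by
  funext x
  unfold res
  simp only [h]

/-- the order of a list -/
def Ord (pos : D → ℤ) (L : List D) : Prop := L.Pairwise fun x y => pos x < pos y

theorem NC.congr_pos {pos pos' : D → ℤ} {s : D → D} (hs : Function.Involutive s)
    (h : ∀ x y, s x ≠ x → s y ≠ y → (pos x < pos y ↔ pos' x < pos' y)) (hn : NC pos s) :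
    NC pos' s := by
  rintro x y ⟨h1, h2, h3⟩
  have a1 : s x ≠ x := fun e => by rw [e] at h2; omega
  have a2 : s y ≠ y := fun e => by rw [e] at h3; omega
  have a3 : s (s x) ≠ s x := fun e => a1 (hs.injective e)
  have a4 : s (s y) ≠ s y := fun e => a2 (hs.injective e)
  exact hn x y ⟨(h _ _ a1 a2).2 h1, (h _ _ a2 a3).2 h2, (h _ _ a3 a4).2 h3⟩

/-- neighbours in an ordered list -/
theorem Ord.nb {pos : D → ℤ} {A B : List D} {x y : D} (h : Ord pos (A ++ x :: y :: B)) :
    pos x < pos y ∧ ∀ z ∈ A ++ x :: y :: B, ¬ (pos x < pos z ∧ pos z < pos y) := by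
  have h1 := List.pairwise_append.1 h
  have h2 := List.pairwise_cons.1 h1.2.1
  have h3 := List.pairwise_cons.1 h2.2
  refine ⟨h2.1 y (by simp), ?_⟩
  intro z hz
  rcases List.mem_append.1 hz with h4 | h4
  · have := h1.2.2 z h4 x (by simp); omega
  · rcases List.mem_cons.1 h4 with rfl | h5
    · omega
    · rcases List.mem_cons.1 h5 with rfl | h6
      · omega
      · have := h3.1 z h6; omega

theorem Ord.nodup {pos : D → ℤ} {L : List D} (h : Ord pos L) : L.Nodup :=
  h.imp fun h' e => by rw [e] at h'; exact lt_irrefl _ h'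

/-- contraction of two names of a list -/
theorem res_jn {A B : List D} {x y : D} {τ κ : ℤ} {f : LP D} (hnd : (A ++ x :: y :: B).Nodup)
    (hf : ∀ z ∈ A ++ x :: y :: B, f z ∈ A ++ x :: y :: B) :
    res (A ++ B) (jn x y τ κ f) = jo x y (res (A ++ x :: y :: B) f) := by
  have hxy : x ≠ y := by
    have h1 := (List.nodup_append.1 hnd).2.1
    rw [List.nodup_cons, List.mem_cons, not_or] at h1
    exact h1.1.1
  have hx : x ∈ A ++ x :: y :: B := by simp
  have hy : y ∈ A ++ x :: y :: B := by simp
  have hmem : ∀ t, t ∈ A ++ B ↔ t ∈ A ++ x :: y :: B ∧ t ≠ x ∧ t ≠ y := by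
    intro t
    have h1 := List.nodup_append.1 hnd
    have h2 := List.nodup_cons.1 h1.2.1
    have h3 := List.nodup_cons.1 h2.2
    constructor
    · intro h
      refine ⟨?_, ?_, ?_⟩
      · simp only [List.mem_append, List.mem_cons] at h ⊢
        tauto
      · rintro rfl
        rcases List.mem_append.1 h with h4 | h4
        · exact h1.2.2 _ h4 _ (by simp) rfl
        · exact h2.1 (by simp [h4])
      · rintro rfl
        rcases List.mem_append.1 h with h4 | h4
        · exact h1.2.2 _ h4 _ (by simp) rfl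
        · exact h3.1 h4
    · rintro ⟨h, h4, h5⟩
      simp only [List.mem_append, List.mem_cons] at h ⊢
      tauto
  funext t
  by_cases ht : t ∈ A ++ B
  · have h1 := (hmem t).1 ht
    rw [res_mem ht, jn_apply _ _ _ _ _ hxy, if_neg h1.2.1, if_neg h1.2.2]
    unfold jo
    rw [if_neg (not_or.2 h1.2), res_mem hx, res_mem hy, res_mem h1.1]
  · rw [res_not_mem ht]
    unfold jo
    by_cases h1 : t = x ∨ t = y
    · rw [if_pos h1]
    · rw [if_neg h1]
      have h2 : t ∉ A ++ x :: y :: B := fun h3 => ht ((hmem t).2 ⟨h3, not_or.1 h1⟩)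
      rw [res_mem hx, res_mem hy, if_neg (fun e => h2 (by rw [e]; exact hf _ hx)),
        if_neg (fun e => h2 (by rw [e]; exact hf _ hy)), res_not_mem h2]

theorem jn_maps {A B : List D} {x y : D} {τ κ : ℤ} {f : LP D} (hnd : (A ++ x :: y :: B).Nodup)
    (hf : ∀ z ∈ A ++ x :: y :: B, f z ∈ A ++ x :: y :: B) :
    ∀ z ∈ A ++ B, jn x y τ κ f z ∈ A ++ B := by
  intro z hz
  have hxy : x ≠ y := by
    have h1 := (List.nodup_append.1 hnd).2.1
    rw [List.nodup_cons, List.mem_cons, not_or] at h1
    exact h1.1.1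
  have hmem : ∀ t, t ∈ A ++ B ↔ t ∈ A ++ x :: y :: B ∧ t ≠ x ∧ t ≠ y := by
    intro t
    have h1 := List.nodup_append.1 hnd
    have h2 := List.nodup_cons.1 h1.2.1
    have h3 := List.nodup_cons.1 h2.2
    constructor
    · intro h
      refine ⟨?_, ?_, ?_⟩
      · simp only [List.mem_append, List.mem_cons] at h ⊢
        tauto
      · rintro rfl
        rcases List.mem_append.1 h with h4 | h4
        · exact h1.2.2 _ h4 _ (by simp) rfl
        · exact h2.1 (by simp [h4])
      · rintro rfl
        rcases List.mem_append.1 h with h4 | h4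
        · exact h1.2.2 _ h4 _ (by simp) rfl
        · exact h3.1 h4
    · rintro ⟨h, h4, h5⟩
      simp only [List.mem_append, List.mem_cons] at h ⊢
      tauto
  have h1 := (hmem z).1 hz
  have hx : x ∈ A ++ x :: y :: B := by simp
  have hy : y ∈ A ++ x :: y :: B := by simp
  have ix := f.invol x
  have iy := f.invol y
  have iz := f.invol z
  have nx := f.ne x
  have ny := f.ne y
  rw [hmem, jn_apply _ _ _ _ _ hxy, if_neg h1.2.1, if_neg h1.2.2]
  split_ifs with c1 c2
  · refine ⟨hf _ hy, ?_, ny⟩
    intro e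
    apply h1.2.2
    rw [c1, ← e, iy]
  · refine ⟨hf _ hx, nx, ?_⟩
    intro e
    apply h1.2.1
    rw [c2, ← e, ix]
  · refine ⟨hf _ h1.1, fun e => c1 (by rw [← e, iz]), fun e => c2 (by rw [← e, iz])⟩

theorem res_fr {L : List D} {x y : D} {f : LP D} (hf : ∀ z ∈ L, f z ∈ L) (hx : x ∈ L) (hy : y ∈ L)
    (hxy : x ≠ y) : Fr (res L f) x y :=
  ⟨res_inv f.invol hf, hxy, by rw [res_mem hx]; exact f.ne x, by rw [res_mem hy]; exact f.ne y⟩

/-- contraction of neighbours of a list -/
theorem NC.res_jn {pos : D → ℤ} (hp : Function.Injective pos) {A B : List D} {x y : D} {τ κ : ℤ}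
    {f : LP D} (ho : Ord pos (A ++ x :: y :: B))
    (hf : ∀ z ∈ A ++ x :: y :: B, f z ∈ A ++ x :: y :: B)
    (hn : NC pos (res (A ++ x :: y :: B) f)) : NC pos (res (A ++ B) (jn x y τ κ f)) := by
  have hnd := ho.nodup
  obtain ⟨h1, h2⟩ := ho.nb
  have hxy : x ≠ y := fun e => by rw [e] at h1; exact lt_irrefl _ h1
  rw [Pool.Agent.H47.W.res_jn hnd hf]
  refine hn.jo hp (res_fr hf (by simp) (by simp) hxy) h1 ?_
  intro z hz
  exact h2 z ((res_alive f.ne).1 hz)

/-- every list without repetitions is ordered by some injective position -/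
theorem exists_pos [Countable D] {L : List D} (hL : L.Nodup) :
    ∃ pos : D → ℤ, Function.Injective pos ∧ Ord pos L := by
  obtain ⟨ι, hι⟩ := exists_injective_nat D
  refine ⟨fun x => if x ∈ L then (L.idxOf x : ℤ) else -1 - (ι x : ℤ), ?_, ?_⟩
  · intro x y hxy
    simp only at hxy
    by_cases hx : x ∈ L <;> by_cases hy : y ∈ L
    · rw [if_pos hx, if_pos hy] at hxy
      exact (List.idxOf_inj hx).1 (by exact_mod_cast hxy)
    · rw [if_pos hx, if_neg hy] at hxy; omega
    · rw [if_neg hx, if_pos hy] at hxy; omega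
    · rw [if_neg hx, if_neg hy] at hxy
      exact hι (by omega)
  · unfold Ord
    rw [List.pairwise_iff_getElem]
    intro i j hi hj hij
    simp only
    rw [if_pos (List.getElem_mem hi), if_pos (List.getElem_mem hj), hL.idxOf_getElem,
      hL.idxOf_getElem]
    exact_mod_cast hij

/-- two positions which order the same list compare its elements in the same way -/
theorem Ord.cmp {pos pos' : D → ℤ} {L : List D} (h : Ord pos L) (h' : Ord pos' L) :
    ∀ z ∈ L, ∀ w ∈ L, (pos z < pos w ↔ pos' z < pos' w) := by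
  induction L with
  | nil => intro z hz; simp at hz
  | cons x L ih =>
    have h1 := List.pairwise_cons.1 h
    have h2 := List.pairwise_cons.1 h'
    intro z hz w hw
    rcases List.mem_cons.1 hz with rfl | hz' <;> rcases List.mem_cons.1 hw with rfl | hw'
    · simp
    · exact ⟨fun _ => h2.1 _ hw', fun _ => h1.1 _ hw'⟩
    · have a1 := h1.1 _ hz'
      have a2 := h2.1 _ hz'
      constructor <;> intro a3 <;> omega
    · exact ih h1.2 h2.2 z hz' w hw'

/-- what is known about a pairing on a front -/
structure Fro (u v : D) (L : List D) (s : D → D) : Prop where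
  uv : s u = v
  nu : u ∉ L
  nv : v ∉ L
  nd : L.Nodup
  mp : ∀ x ∈ L, s x ∈ L
  nc : ∃ pos : D → ℤ, Function.Injective pos ∧ Ord pos L ∧ NC pos (res L s)

/-- the position may be chosen -/
theorem Fro.ncp {u v : D} {L : List D} {s : LP D} (h : Fro u v L s) {pos : D → ℤ}
    (ho : Ord pos L) : NC pos (res L s) := by
  obtain ⟨pos', -, ho', hn⟩ := h.nc
  have hinv : Function.Involutive (res L s) := res_inv s.invol h.mp
  refine NC.congr_pos hinv ?_ hn
  intro z w hz hw
  exact ho'.cmp ho z ((res_alive s.ne).1 hz) w ((res_alive s.ne).1 hw)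

theorem Fro.jn {u v : D} {A B : List D} {x y : D} {τ κ : ℤ} {f : LP D}
    (h : Fro u v (A ++ x :: y :: B) f) : Fro u v (A ++ B) (LP.jn x y τ κ f) := by
  have hnd := h.nd
  have hxy : x ≠ y := by
    have h1 := (List.nodup_append.1 hnd).2.1
    rw [List.nodup_cons, List.mem_cons, not_or] at h1
    exact h1.1.1
  have hx : x ∈ A ++ x :: y :: B := by simp
  have hy : y ∈ A ++ x :: y :: B := by simp
  have hsl : (A ++ B).Sublist (A ++ x :: y :: B) :=
    List.Sublist.append (List.Sublist.refl _)
      ((List.sublist_cons_self _ _).trans (List.sublist_cons_self _ _))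
  obtain ⟨pos, hp, ho, hn⟩ := h.nc
  refine ⟨?_, fun h' => h.nu (hsl.subset h'), fun h' => h.nv (hsl.subset h'), hnd.sublist hsl,
    jn_maps hnd h.mp, pos, hp, List.Pairwise.sublist hsl ho, hn.res_jn hp ho h.mp⟩
  rw [jn_apply _ _ _ _ _ hxy, if_neg (fun e => h.nu (by rw [e]; exact hx)),
    if_neg (fun e => h.nu (by rw [e]; exact hy)),
    if_neg (fun e => h.nu (by rw [e]; exact h.mp _ hx)),
    if_neg (fun e => h.nu (by rw [e]; exact h.mp _ hy)), h.uv]

theorem Fro.tl {u v : D} {A B : List D} {z0 z1 z2 z3 : D} {f : LP D} (b : Bool)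
    (h : Fro u v (A ++ z0 :: z1 :: z2 :: z3 :: B) f) :
    Fro u v (A ++ B) (LP.tl b z0 z1 z2 z3 f) := by
  unfold LP.tl
  cases b with
  | true =>
    rw [if_pos rfl]
    have h1 : Fro u v ((A ++ [z0, z1]) ++ z2 :: z3 :: B) f := by
      simpa [List.append_assoc] using h
    have h2 := h1.jn (τ := 1) (κ := 0)
    have h3 : Fro u v (A ++ z0 :: z1 :: B) (LP.jn z2 z3 1 0 f) := by
      simpa [List.append_assoc] using h2
    exact h3.jn
  | false =>
    rw [if_neg (by simp)]
    have h1 : Fro u v ((A ++ [z0]) ++ z1 :: z2 :: (z3 :: B)) f := by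
      simpa [List.append_assoc] using h
    have h2 := h1.jn (τ := 1) (κ := 0)
    have h3 : Fro u v (A ++ z0 :: z3 :: B) (LP.jn z1 z2 1 0 f) := by
      simpa [List.append_assoc] using h2
    exact h3.jn

/-- insertion of an arc -/
theorem Fro.edge [Countable D] {u v : D} {A B : List D} {x : D} {s : LP D}
    (h : Fro u v (A ++ B) s) (hx : x ∉ A ++ B) (hx' : s x ∉ A ++ B) (xu : x ≠ u) (xv : x ≠ v) :
    Fro u v (A ++ x :: s x :: B) s := by
  have hnd : (A ++ x :: s x :: B).Nodup := by
    have h1 := List.nodup_append.1 h.nd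
    rw [List.mem_append, not_or] at hx hx'
    rw [List.nodup_append]
    refine ⟨h1.1, ?_, ?_⟩
    · rw [List.nodup_cons, List.nodup_cons, List.mem_cons, not_or]
      exact ⟨⟨s.ne2 x, hx.2⟩, hx'.2, h1.2.1⟩
    · intro a ha b hb
      rcases List.mem_cons.1 hb with rfl | hb
      · rintro rfl; exact hx.1 ha
      · rcases List.mem_cons.1 hb with rfl | hb
        · rintro rfl; exact hx'.1 ha
        · exact h1.2.2 a ha b hb
  have hsu : s v = u := by rw [← h.uv, s.invol]
  have su : s x ≠ u := fun e => xv (by rw [← s.invol x, e, h.uv])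
  have sv : s x ≠ v := fun e => xu (by rw [← s.invol x, e, hsu])
  have mem : ∀ z, z ∈ A ++ x :: s x :: B ↔ z ∈ A ++ B ∨ z = x ∨ z = s x := by
    intro z
    simp only [List.mem_append, List.mem_cons]
    tauto
  have mp : ∀ z ∈ A ++ x :: s x :: B, s z ∈ A ++ x :: s x :: B := by
    intro z hz
    rw [mem] at hz ⊢
    rcases hz with h1 | h1 | h1
    · exact Or.inl (h.mp z h1)
    · right; right; rw [h1]
    · right; left; rw [h1, s.invol]
  obtain ⟨pos, hp, ho⟩ := exists_pos hnd
  have hsl : (A ++ B).Sublist (A ++ x :: s x :: B) :=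
    List.Sublist.append (List.Sublist.refl _)
      ((List.sublist_cons_self _ _).trans (List.sublist_cons_self _ _))
  refine ⟨h.uv, ?_, ?_, hnd, mp, pos, hp, ho, ?_⟩
  · rw [mem]
    rintro (h1 | h1 | h1)
    · exact h.nu h1
    · exact xu h1.symm
    · exact su h1.symm
  · rw [mem]
    rintro (h1 | h1 | h1)
    · exact h.nv h1
    · exact xv h1.symm
    · exact sv h1.symm
  · have ho' : Ord pos (A ++ B) := List.Pairwise.sublist hsl ho
    have hn := h.ncp ho'
    obtain ⟨nb1, nb2⟩ := ho.nb
    rintro z w ⟨h1, h2, h3⟩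
    set R := res (A ++ x :: s x :: B) s with hR
    have az : R z ≠ z := fun e => by rw [e] at h2; omega
    have aw : R w ≠ w := fun e => by rw [e] at h3; omega
    have mz := (res_alive s.ne).1 az
    have mw := (res_alive s.ne).1 aw
    have vz : R z = s z := res_mem mz
    have vw : R w = s w := res_mem mw
    rw [vz] at h2 h3
    rw [vw] at h3
    have msz := mp z mz
    have cz : z ∈ A ++ B := by
      rcases (mem z).1 mz with c | c | c
      · exact c
      · exfalso
        rw [c] at h1 h2
        exact nb2 w mw ⟨h1, h2⟩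
      · exfalso
        rw [c, s.invol] at h2
        rw [c] at h1
        omega
    have cw : w ∈ A ++ B := by
      rcases (mem w).1 mw with c | c | c
      · exact c
      · exfalso
        rw [c] at h2 h3
        exact nb2 _ msz ⟨h2, h3⟩
      · exfalso
        rw [c, s.invol] at h3
        rw [c] at h2
        omega
    exact hn z w ⟨h1, by rw [res_mem cz]; exact h2, by rw [res_mem cz, res_mem cw]; exact h3⟩

/-- rotation of the front -/
theorem Fro.rot [Countable D] {u v : D} {L : List D} {x : D} {s : LP D}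
    (h : Fro u v (x :: L) s) : Fro u v (L ++ [x]) s := by
  have hperm : (L ++ [x]).Perm (x :: L) := List.perm_append_singleton x L
  have hnd : (L ++ [x]).Nodup := hperm.nodup_iff.2 h.nd
  have mem : ∀ z, z ∈ L ++ [x] ↔ z ∈ x :: L := fun z => hperm.mem_iff
  obtain ⟨pos, hp, ho⟩ := exists_pos hnd
  have mp : ∀ z ∈ L ++ [x], s z ∈ L ++ [x] := fun z hz => (mem _).2 (h.mp z ((mem z).1 hz))
  refine ⟨h.uv, fun h' => h.nu ((mem _).1 h'), fun h' => h.nv ((mem _).1 h'), hnd, mp, pos, hp,
    ho, ?_⟩
  -- the position with `x` at the beginning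
  obtain ⟨m, hm⟩ : ∃ m : ℤ, ∀ z ∈ x :: L, m < pos z := by
    have : ∀ L : List D, ∃ m : ℤ, ∀ z ∈ L, m < pos z := by
      intro L
      induction L with
      | nil => exact ⟨0, fun z hz => by simp at hz⟩
      | cons y L ih =>
        obtain ⟨m, hm⟩ := ih
        refine ⟨min m (pos y - 1), fun z hz => ?_⟩
        rcases List.mem_cons.1 hz with rfl | hz
        · omega
        · have := hm z hz; omega
    exact this _
  have h1 := List.pairwise_append.1 ho
  have hxL : ∀ z ∈ L, pos z < pos x := fun z hz => h1.2.2 z hz x (by simp)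
  have xL : x ∉ L := (List.nodup_cons.1 h.nd).1
  set pos' : D → ℤ := Function.update pos x m with hpos'
  have px : pos' x = m := Function.update_self ..
  have po : ∀ z, z ≠ x → pos' z = pos z := fun z hz => Function.update_of_ne hz ..
  have ho' : Ord pos' (x :: L) := by
    refine List.pairwise_cons.2 ⟨?_, ?_⟩
    · intro z hz
      rw [px, po z (fun e => xL (e ▸ hz))]
      exact hm z (by simp [hz])
    · refine (List.Pairwise.and_mem.1 h1.1).imp fun {z w} hzw => ?_
      rw [po z (fun e => xL (e ▸ hzw.1)), po w (fun e => xL (e ▸ hzw.2.1))]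
      exact hzw.2.2
  have hn := h.ncp ho'
  have hres : res (x :: L) s = res (L ++ [x]) s := res_congr fun z => (mem z).symm
  rw [hres] at hn
  set R := res (L ++ [x]) s with hR
  have Rinv : Function.Involutive R := res_inv s.invol mp
  have al : ∀ z, R z ≠ z → z ∈ x :: L := fun z hz => (mem z).1 ((res_alive s.ne).1 hz)
  have inL : ∀ z, R z ≠ z → z ≠ x → z ∈ L := fun z hz hzx => by
    rcases List.mem_cons.1 (al z hz) with h2 | h2
    · exact absurd h2 hzx
    · exact h2
  rintro z w ⟨c1, c2, c3⟩
  have az : R z ≠ z := fun e => by rw [e] at c2; omega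
  have aw : R w ≠ w := fun e => by rw [e] at c3; omega
  have az' : R (R z) ≠ R z := fun e => az (Rinv.injective e)
  have aw' : R (R w) ≠ R w := fun e => aw (Rinv.injective e)
  have zx : z ≠ x := by
    rintro rfl
    have : w ∈ L := inL w aw (by rintro rfl; omega)
    have := hxL w this
    omega
  have wx : w ≠ x := by
    rintro rfl
    have : R z ∈ L := inL _ az' (by intro e; rw [e] at c2; omega)
    have := hxL _ this
    omega
  have zx' : R z ≠ x := by
    intro e
    have : R w ∈ L := inL _ aw' (by intro e'; rw [e, e'] at c3; omega)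
    have := hxL _ this
    rw [e] at c3
    omega
  by_cases wx' : R w = x
  · -- the arc `w ~ x` and the arc `z ~ R z`
    have hRx : R x = w := by rw [← wx', Rinv]
    refine hn x z ⟨?_, ?_, ?_⟩
    · rw [px, po z zx]; exact hm z (al z az)
    · rw [hRx, po z zx, po w wx]; exact c1
    · rw [hRx, po w wx, po _ zx']; exact c2
  · refine hn z w ⟨?_, ?_, ?_⟩
    · rw [po z zx, po w wx]; exact c1
    · rw [po w wx, po _ zx']; exact c2
    · rw [po _ zx', po _ wx']; exact c3

/-- **The link pattern of a grown region is noncrossing**, for every state of its tiles. -/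
theorem fro_Bw [Countable D] {g : LP D} {u v : D} {T : Set D} {l : List (Tl D)} {F : List (Fe D)}
    (h : Pool.Agent.H11.W.Bw g u v T l F) : ∀ s, St g l s → Fro u v (fn F) s := by
  induction h with
  | nil h =>
    intro s hs
    cases hs
    refine ⟨h, by simp [fn], by simp [fn], by simp [fn], by simp [fn], ?_⟩
    obtain ⟨pos, hp, ho⟩ := exists_pos (L := ([] : List D)) List.nodup_nil
    refine ⟨pos, hp, ho, ?_⟩
    rintro x y ⟨h1, h2, -⟩
    rw [show fn ([] : List (Fe D)) = [] from rfl, res_not_mem (by simp)] at h2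
    omega
  | edge F1 F2 x k a b h hx ha hab ih =>
    rename_i T l
    intro s hs
    have hi := h.inv
    have h1 := ih s hs
    have ho := hi.out s hs
    have sx : g x = s x := (ho.2 x hx).1
    have hgx : g x ∉ T := fun h1 => hx (by have := hi.Tg _ h1; rwa [g.invol] at this)
    have e1 : fn (F1 ++ (x, k, a) :: (g x, k + g.d x + 2, b) :: F2) =
        fn F1 ++ x :: s x :: fn F2 := by
      rw [← sx]; simp [fn]
    have e2 : fn (F1 ++ F2) = fn F1 ++ fn F2 := by simp [fn]
    rw [e2] at h1
    rw [e1]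
    refine h1.edge ?_ ?_ ?_ ?_
    · rw [← e2]; exact fun h2 => hx (hi.FT _ h2)
    · rw [← e2, ← sx]; exact fun h2 => hgx (hi.FT _ h2)
    · rintro rfl; exact hx hi.T0.1
    · rintro rfl; exact hx hi.T0.2
  | fill F1 F2 z0 z1 z2 z3 k a0 a1 a2 a3 w h h02 h13 hw ih =>
    rename_i T l
    intro s hs
    obtain ⟨b, s0, hs0, rfl⟩ : ∃ b s0, St g l s0 ∧ s = (⟨z0, z1, z2, z3, w⟩ : Tl D).op b s0 := by
      cases hs with
      | cons b h' => exact ⟨b, _, h', rfl⟩
    have h1 := ih s0 hs0
    have e1 : fn (F1 ++ (z0, k, a0) :: (z1, k - 1, a1) :: (z2, k - 2, a2) :: (z3, k - 3, a3) :: F2) =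
        fn F1 ++ z0 :: z1 :: z2 :: z3 :: fn F2 := by simp [fn]
    have e2 : fn (F1 ++ F2) = fn F1 ++ fn F2 := by simp [fn]
    rw [e1] at h1
    rw [e2]
    exact h1.tl b
  | rot F x k a h ha ih =>
    rename_i T l
    intro s hs
    have h1 := ih s hs
    have e1 : fn ((x, k, a) :: F) = x :: fn F := by simp [fn]
    have e2 : fn (F ++ [(x, k + 4, 1 - a⁻¹)]) = fn F ++ [x] := by simp [fn]
    rw [e1] at h1
    rw [e2]
    exact h1.rot

end Pool.Agent.H47.W
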