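import Pool.Agent.H47.W.Room9
import Pool.Agent.H73.W.JCut

set_option autoImplicit false
open Finset

/-! # Planarity of the strand graph, part 10: the thin region of the junction box

`LamT_rows`, `LamC_rows` : the rows of the regions `LamT` (uncut) and `LamC` (cut along the deleted row
of the slit) are intervals. `nc_J` : the link pattern of the ends of `LamC` is noncrossing in the order
`posJ`. `nc_T` : the same for `LamT`. -/

namespace Pool.Agent.H47.W

open Pool.Agent.H75.Perc hiding WL CT hh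
open Pool.Agent.H75.TwoArm Pool.Agent.H99.W Pool.Agent.H13.W
open Pool.Agent.H33.Q1 Pool.Agent.H6.W Pool.Agent.H61.W Pool.Agent.H73.W

section box

variable (b : JBox) (n : ℤ)

/-- distance of the row `y` from the axis -/
def ab (y : ℤ) : ℤ := if 0 ≤ y then y else -1 - y

/-- left end (in cells) of the cell rows of level `q` -/
def lf (q : ℤ) : ℤ := if q < b.H then -b.X else b.st (q - b.H).toNat

/-- left end of the row `y` of the thin region, without marks -/
def aT0 (y : ℤ) : ℤ := lf b ((ab y - 1) / n) * n - 1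

open Classical in
/-- left end of the row `y` of `LamT` -/
noncomputable def aT (M : Finset (Bool × ℕ)) (y : ℤ) : ℤ :=
  aT0 b n y + if ∃ c ∈ M, (dgt b n c).2 = y then 1 else 0

/-- left end of the row `y` of `LamC` -/
noncomputable def aK (M : Finset (Bool × ℕ)) (s : Bool) (x1 : ℤ) (y : ℤ) : ℤ :=
  if y = Yr s then x1 else aT b n M y

variable {b n}

lemma ab_nonneg (y : ℤ) : 0 ≤ ab y := by unfold ab; split_ifs <;> omega

lemma ab_div (hn : 0 < n) (y : ℤ) : ab y / n = if 0 ≤ y then y / n else -1 - y / n := by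
  unfold ab
  split_ifs with h
  · rfl
  · have h1 := Int.emod_add_mul_ediv y n
    have h2 := Int.emod_nonneg y hn.ne'
    have h3 := Int.emod_lt_of_pos y hn
    have h4 : -1 - y = (n - 1 - y % n) + n * (-1 - y / n) := by
      rw [mul_sub]; linarith
    rw [h4, Int.add_mul_ediv_left _ _ hn.ne', Int.ediv_eq_zero_of_lt (by omega) (by omega), zero_add]

section ok

variable {δ σ : ℝ} (hb : b.Ok δ σ)

include hb

lemma X_pos : 0 < b.X := by
  have h1 := hb.X_ge
  have h2 := hb.H0
  rcases Nat.eq_zero_or_pos b.X with h | h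
  · rw [h] at h1
    have : (0 : ℝ) < b.H := by exact_mod_cast h2
    simp at h1
    linarith
  · exact h

lemma st_mono' {i j : ℕ} (hij : i ≤ j) (hj : j < b.K) : b.st i ≤ b.st j := by
  obtain ⟨d, rfl⟩ : ∃ d, j = i + d := ⟨j - i, by omega⟩
  clear hij
  induction d with
  | zero => simp
  | succ d ih =>
    have := hb.st_mono (i + d) (by omega)
    have := ih (by omega)
    have e : i + (d + 1) = i + d + 1 := by ring
    rw [e]
    omega

lemma lf_mono {q q' : ℤ} (h : q ≤ q') (h' : q' < b.H + b.K) : lf b q ≤ lf b q' := by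
  unfold lf
  split_ifs with h1 h2
  · exact le_rfl
  · have := (hb.st_lo (q' - b.H).toNat (by omega)).1
    omega
  · omega
  · exact st_mono' hb (by omega) (by omega)

lemma lf_bds {q : ℤ} (h' : q < b.H + b.K) : -(b.X : ℤ) ≤ lf b q ∧ lf b q < b.X := by
  have hX := X_pos hb
  unfold lf
  split_ifs with h1
  · omega
  · have := hb.st_lo (q - b.H).toNat (by omega)
    omega

/-- **Rows of the box.** -/
lemma InQ_iff (hn : 0 < n) (x y : ℤ) :
    InQ b n x y ↔ ab y < (b.H + b.K) * n ∧ lf b (ab y / n) * n ≤ x ∧ x < b.X * n := by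
  have e1 : ab y < (b.H + b.K) * n ↔ ab y / n < b.H + b.K := by
    rw [Int.ediv_lt_iff_lt_mul hn]
  have e2 : ∀ c : ℤ, c * n ≤ x ↔ c ≤ x / n := fun c => (Int.le_ediv_iff_mul_le hn).symm
  have e3 : ∀ c : ℤ, x < c * n ↔ x / n < c := fun c => (Int.ediv_lt_iff_lt_mul hn).symm
  rw [e1, e2, e3, ab_div hn]
  unfold InQ JBox.Q RC
  rw [mem_union, mem_biUnion]
  simp only [mem_union, mem_product, mem_Ico, mem_range]
  have hsgn : 0 ≤ y ↔ 0 ≤ y / n := (Int.ediv_nonneg_iff_of_pos hn).symm
  have hH := hb.H0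
  set X := x / n
  set Y := y / n
  set q := if 0 ≤ y then Y else -1 - Y with hq
  have hq0 : 0 ≤ q := by rw [hq]; split_ifs with h <;> omega
  constructor
  · rintro (⟨⟨h1, h2⟩, h3, h4⟩ | ⟨i, hi, ⟨⟨h1, h2⟩, h3, h4⟩ | ⟨⟨h1, h2⟩, h3, h4⟩⟩)
    · have : q < b.H := by rw [hq]; split_ifs with h <;> omega
      refine ⟨by omega, ?_, h2⟩
      unfold lf
      rw [if_pos this]
      exact h1
    · have e : q = b.H + i := by rw [hq]; split_ifs with h <;> omega
      refine ⟨by omega, ?_, h2⟩
      unfold lf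
      rw [if_neg (by omega), e]
      have : ((b.H : ℤ) + i - b.H).toNat = i := by omega
      rw [this]
      exact h1
    · have e : q = b.H + i := by rw [hq]; split_ifs with h <;> omega
      refine ⟨by omega, ?_, h2⟩
      unfold lf
      rw [if_neg (by omega), e]
      have : ((b.H : ℤ) + i - b.H).toNat = i := by omega
      rw [this]
      exact h1
  · rintro ⟨h1, h2, h3⟩
    unfold lf at h2
    by_cases c : q < b.H
    · rw [if_pos c] at h2
      left
      refine ⟨⟨h2, h3⟩, ?_⟩
      rw [hq] at c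
      split_ifs at c with h <;> omega
    · rw [if_neg c] at h2
      right
      refine ⟨(q - b.H).toNat, by omega, ?_⟩
      by_cases h : 0 ≤ y
      · left
        have e : q = Y := by rw [hq, if_pos h]
        refine ⟨⟨h2, h3⟩, by omega, by omega⟩
      · right
        have e : q = -1 - Y := by rw [hq, if_neg h]
        refine ⟨⟨h2, h3⟩, by omega, by omega⟩

/-- rows of the thin layer, without marks -/
lemma near_iff (hn : 0 < n) (x y : ℤ) :
    (∃ i j : ℤ, |i| ≤ 1 ∧ |j| ≤ 1 ∧ InQ b n (x + i) (y + j)) ↔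
      ab y - 1 < (b.H + b.K) * n ∧ aT0 b n y ≤ x ∧ x < b.X * n + 1 := by
  have hH := hb.H0
  have hX := X_pos hb
  have hdiv : ∀ {u v : ℤ}, u ≤ v → u / n ≤ v / n := fun h => Int.ediv_le_ediv hn h
  constructor
  · rintro ⟨i, j, hi, hj, h⟩
    rw [abs_le] at hi hj
    rw [InQ_iff hb hn] at h
    obtain ⟨h1, h2, h3⟩ := h
    have h4 : ab y - 1 ≤ ab (y + j) := by unfold ab; split_ifs <;> omega
    refine ⟨by omega, ?_, by omega⟩
    unfold aT0
    have h5 := lf_mono hb (hdiv h4) ((Int.ediv_lt_iff_lt_mul hn).2 h1)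
    have h6 := mul_le_mul_of_nonneg_right h5 hn.le
    omega
  · rintro ⟨h1, h2, h3⟩
    unfold aT0 at h2
    have hB : ab y - 1 < (b.H + b.K) * n := h1
    obtain ⟨j, hj, hj'⟩ : ∃ j : ℤ, |j| ≤ 1 ∧ lf b (ab (y + j) / n) = lf b ((ab y - 1) / n) ∧
        ab (y + j) < (b.H + b.K) * n := by
      by_cases c : ab y = 0
      · refine ⟨0, by simp, ?_, ?_⟩
        · rw [add_zero, c]
          unfold lf
          rw [if_pos, if_pos]
          · have : (0 - 1 : ℤ) / n < 0 := Int.ediv_neg_of_neg_of_pos (by norm_num) hn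
            omega
          · simp; omega
        · rw [add_zero, c]
          positivity
      · have := ab_nonneg y
        by_cases c' : 0 ≤ y
        · refine ⟨-1, by simp, ?_⟩
          have e : ab (y + -1) = ab y - 1 := by unfold ab at c ⊢; rw [if_pos c'] at c ⊢; rw [if_pos (by omega)]; ring
          rw [e]
          exact ⟨rfl, hB⟩
        · refine ⟨1, by simp, ?_⟩
          have e : ab (y + 1) = ab y - 1 := by unfold ab at c ⊢; rw [if_neg c'] at c ⊢; rw [if_neg (by omega)]; ring
          rw [e]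
          exact ⟨rfl, hB⟩
    obtain ⟨hj', hj''⟩ := hj'
    obtain ⟨f1, f2⟩ := lf_bds hb (q := (ab y - 1) / n) ((Int.ediv_lt_iff_lt_mul hn).2 hB)
    set l := lf b ((ab y - 1) / n) with hl
    have f3 : l * n + n ≤ b.X * n := by nlinarith
    obtain ⟨i, hi, hi'⟩ : ∃ i : ℤ, |i| ≤ 1 ∧ l * n ≤ x + i ∧ x + i < b.X * n := by
      by_cases c : x < l * n
      · exact ⟨1, by simp, by omega, by omega⟩
      · by_cases c' : x < b.X * n
        · exact ⟨0, by simp, by omega, by omega⟩
        · exact ⟨-1, by simp, by omega, by omega⟩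
    refine ⟨i, j, hi, hj, ?_⟩
    rw [InQ_iff hb hn, hj']
    exact ⟨hj'', hi'⟩

omit hb in
lemma ab_lt_iff (N y : ℤ) : ab y - 1 < N ↔ -N - 1 ≤ y ∧ y < N + 1 := by
  unfold ab
  split_ifs <;> omega

omit hb in
/-- level of the rows of a mark -/
lemma ab_dgt (hn : 0 < n) (c : Bool × ℕ) : ab (dgt b n c).2 = (b.H + c.2 + 1) * n := by
  unfold dgt cpt ab
  have h0 : 0 ≤ ((b.H : ℤ) + c.2 + 1) * n := by positivity
  have h1 : 0 < ((b.H : ℤ) + c.2 + 1) * n := by positivity
  cases h : c.1
  · simp only [Bool.false_eq_true, if_false]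
    rw [if_neg (by omega)]
    ring
  · simp only [if_true]
    rw [if_pos h0]

omit hb in
lemma lev_dgt (hn : 0 < n) (i : ℕ) {r : ℤ} (h1 : 0 < r) (h2 : r ≤ n) :
    lf b (((b.H + i + 1) * n - r) / n) = b.st i := by
  have e : ((b.H + i + 1) * n - r) / n = b.H + i := by
    have : ((b.H : ℤ) + i + 1) * n - r = (n - r) + (b.H + i) * n := by ring
    rw [this, Int.add_mul_ediv_right _ _ hn.ne', Int.ediv_eq_zero_of_lt (by omega) (by omega), zero_add]
  rw [e]
  unfold lf
  rw [if_neg (by omega)]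
  congr 1
  omega

omit hb in
/-- the diagonal tile is the first tile of its row -/
lemma dgt_fst (hn : 0 < n) (c : Bool × ℕ) : (dgt b n c).1 = aT0 b n (dgt b n c).2 := by
  unfold aT0
  rw [ab_dgt hn, lev_dgt hn _ one_pos (by omega)]
  rfl

variable {M : Finset (Bool × ℕ)}

/-- **Rows of the thin region.** -/
theorem LamT_rows (hn : 0 < n) :
    Rows (LamT b n M) (-((b.H + b.K) * n) - 1) ((b.H + b.K) * n + 1) (aT b n M)
      (fun _ => b.X * n + 1) := by
  classical
  intro x y
  have e1 : vt x y ∈ LamT b n M ↔ (∃ i j : ℤ, |i| ≤ 1 ∧ |j| ≤ 1 ∧ InQ b n (x + i) (y + j)) ∧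
      ∀ c ∈ M, (x, y) ≠ dgt b n c := by
    unfold LamT
    constructor
    · rintro ⟨x', y', h1, h2, h3⟩
      rw [vt_eq_lt] at h1
      have h4 := lt_inj h1
      rw [Prod.mk.injEq] at h4
      obtain ⟨rfl, rfl⟩ := h4
      exact ⟨h2, h3⟩
    · rintro ⟨h2, h3⟩
      exact ⟨x, y, vt_eq_lt x y, h2, h3⟩
  rw [e1, near_iff hb hn, ab_lt_iff]
  unfold aT
  by_cases c : ∃ c ∈ M, (dgt b n c).2 = y
  · rw [if_pos c]
    obtain ⟨c, hc, rfl⟩ := c
    have e2 := dgt_fst (b := b) hn c
    constructor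
    · rintro ⟨⟨⟨h1, h2⟩, h3, h4⟩, h5⟩
      refine ⟨h1, h2, ?_, h4⟩
      have : x ≠ aT0 b n (dgt b n c).2 := fun h => h5 c hc (Prod.ext (by rw [e2]; exact h) rfl)
      omega
    · rintro ⟨h1, h2, h3, h4⟩
      refine ⟨⟨⟨h1, h2⟩, by omega, h4⟩, fun c' hc' h5 => ?_⟩
      have e3 := dgt_fst (b := b) hn c'
      rw [← h5] at e3
      simp only at e3
      omega
  · rw [if_neg c, add_zero]
    constructor
    · rintro ⟨⟨⟨h1, h2⟩, h3, h4⟩, -⟩
      exact ⟨h1, h2, h3, h4⟩
    · rintro ⟨h1, h2, h3, h4⟩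
      exact ⟨⟨⟨h1, h2⟩, h3, h4⟩, fun c' hc' h5 => c ⟨c', hc', by rw [← h5]⟩⟩

omit hb in
lemma Yr_cases (s : Bool) : Yr s = 0 ∨ Yr s = -1 := by cases s <;> simp [Yr]

/-- rows near the axis -/
lemma aT_axis (hn : 2 ≤ n) {y : ℤ} (h1 : -2 ≤ y) (h2 : y ≤ 1) : aT b n M y = -(b.X * n) - 1 := by
  classical
  have hH := hb.H0
  unfold aT
  have h3 : ab y ≤ 1 := by unfold ab; split_ifs <;> omega
  have h4 := ab_nonneg y
  rw [if_neg]
  · unfold aT0 lf
    rw [if_pos]
    · ring
    · have : (ab y - 1) / n ≤ 0 := by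
        have := Int.ediv_le_ediv (by omega : 0 < n) (show ab y - 1 ≤ 0 by omega)
        simpa using this
      omega
  · rintro ⟨c, -, rfl⟩
    rw [ab_dgt (by omega)] at h3
    have : (1 : ℤ) ≤ b.H + c.2 + 1 := by omega
    nlinarith

/-- **Rows of the cut region.** -/
theorem LamC_rows (hn : 2 ≤ n) (s : Bool) {x1 : ℤ} (hx : -(b.X * n) ≤ x1) :
    Rows (LamC b n M s x1) (-((b.H + b.K) * n) - 1) ((b.H + b.K) * n + 1) (aK b n M s x1)
      (fun _ => b.X * n + 1) := by
  intro x y
  have e1 : vt x y ∈ LamC b n M s x1 ↔ vt x y ∈ LamT b n M ∧ ¬ (y = Yr s ∧ x < x1) := by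
    unfold LamC
    rw [Set.mem_sdiff]
    refine and_congr_right fun _ => not_congr ?_
    constructor
    · rintro ⟨p, ⟨h1, h2⟩, h3⟩
      rw [vt_eq_lt] at h3
      have h4 := lt_inj h3
      subst h4
      exact ⟨h1, h2⟩
    · rintro ⟨h1, h2⟩
      exact ⟨(x, y), ⟨h1, h2⟩, (vt_eq_lt x y).symm⟩
  rw [e1, LamT_rows hb (by omega)]
  unfold aK
  by_cases c : y = Yr s
  · rw [if_pos c]
    have e2 : aT b n M y = -(b.X * n) - 1 := by
      rcases Yr_cases s with h | h <;> exact aT_axis hb hn (by omega) (by omega)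
    rw [e2]
    constructor
    · rintro ⟨⟨h1, h2, h3, h4⟩, h5⟩
      exact ⟨h1, h2, by by_contra h; exact h5 ⟨c, by omega⟩, h4⟩
    · rintro ⟨h1, h2, h3, h4⟩
      exact ⟨⟨h1, h2, by omega, h4⟩, fun h => by omega⟩
  · rw [if_neg c]
    constructor
    · exact fun h => h.1
    · exact fun h => ⟨h, fun h' => c h'.1⟩

/-! ### The names -/

/-- all rows are shorter than the right wall -/
lemma aT_lt (hn : 0 < n) {y : ℤ} (h1 : -((b.H + b.K) * n) - 1 ≤ y) (h2 : y < (b.H + b.K) * n + 1) :
    aT b n M y < b.X * n + 1 := by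
  classical
  have h3 := (ab_lt_iff _ y).2 ⟨h1, h2⟩
  have h4 := (lf_bds hb (q := (ab y - 1) / n) ((Int.ediv_lt_iff_lt_mul hn).2 h3)).2
  unfold aT aT0
  set l := lf b ((ab y - 1) / n)
  have : l * n + n ≤ b.X * n := by nlinarith
  split_ifs <;> omega

lemma aK_lt (hn : 0 < n) {s : Bool} {x1 : ℤ} (hx : x1 < 0) {y : ℤ}
    (h1 : -((b.H + b.K) * n) - 1 ≤ y) (h2 : y < (b.H + b.K) * n + 1) :
    aK b n M s x1 y < b.X * n + 1 := by
  unfold aK
  split_ifs
  · have : 0 ≤ (b.X : ℤ) * n := by positivity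
    omega
  · exact aT_lt hb hn h1 h2

omit hb in
/-- at the row of a mark -/
lemma aT_mark (hn : 0 < n) {c : Bool × ℕ} (hc : c ∈ M) : aT b n M (dgt b n c).2 = b.st c.2 * n := by
  classical
  unfold aT
  rw [if_pos ⟨c, hc, rfl⟩, ← dgt_fst hn]
  unfold dgt cpt
  simp

omit hb in
/-- next to the row of a mark, towards the axis -/
lemma aT_next (hn : 2 ≤ n) (i : ℕ) {Y : ℤ} (hY : ab Y = (b.H + i + 1) * n - 1) :
    aT b n M Y = b.st i * n - 1 := by
  classical
  unfold aT
  rw [if_neg]
  · unfold aT0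
    rw [hY]
    have : ((b.H : ℤ) + i + 1) * n - 1 - 1 = (b.H + i + 1) * n - 2 := by ring
    rw [this, lev_dgt (by omega) _ (by omega) hn, add_zero]
  · rintro ⟨c', -, h2⟩
    have h3 := ab_dgt (b := b) (n := n) (by omega) c'
    rw [h2, hY] at h3
    have h4 : ((b.H : ℤ) + i + 1 - (b.H + c'.2 + 1)) * n = 1 := by linarith
    have h5 : n ∣ 1 := Dvd.intro_left _ h4
    have h6 := Int.le_of_dvd one_pos h5
    omega

/-- the two heights of a mark -/
def hgt (b : JBox) (n : ℤ) (c : Bool × ℕ) : ℤ :=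
  if c.1 then (b.H + c.2 + 1) * n else -((b.H + c.2 + 1) * n)

/-- key of a name for the left arc `a` -/
def key (b : JBox) (n : ℤ) (a : ℤ → ℤ) (s : Bool) (x1 : ℤ) : Nm → ℤ × ℤ
  | .z => (0, 0)
  | .m => (Yr s, x1 + b.X * n + 1)
  | .nn x => (Yr s + 1, x1 - 1 - x)
  | .ss x => (Yr s, x + b.X * n + 1)
  | .f c i => if c.1 then (hgt b n c, if i then 1 else 0)
      else if i then (hgt b n c - 1, ln a (hgt b n c - 1)) else (hgt b n c, 0)

/-- admissible names: names of ends on the boundary -/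
def VN (M : Finset (Bool × ℕ)) (x1 : ℤ) : Nm → Prop
  | .z => False
  | .m => True
  | .nn x => -(b.X * n) - 1 ≤ x ∧ x < x1
  | .ss x => -(b.X * n) - 1 ≤ x ∧ x < x1
  | .f c _ => c ∈ M

omit hb in
lemma hgt_ge (hn : 2 ≤ n) (c : Bool × ℕ) : 2 ≤ ((b.H : ℤ) + c.2 + 1) * n := by
  have : (1 : ℤ) ≤ b.H + c.2 + 1 := by omega
  nlinarith

omit hb in
/-- the ends at the marks lie on the left arc -/
lemma key_f (hn : 2 ≤ n) (hM : ∀ c ∈ M, c.2 < b.K) {a : ℤ → ℤ}
    (ha : ∀ y, y ≠ 0 → y ≠ -1 → a y = aT b n M y) (s : Bool) (x1 : ℤ) (zz : ℤ × ℤ) {c : Bool × ℕ}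
    (hc : c ∈ M) (i : Bool) :
    KOk (-((b.H + b.K) * n) - 1) ((b.H + b.K) * n + 1) a (key b n a s x1 (.f c i)) ∧
      cr b n zz s x1 (.f c i) = aC a (key b n a s x1 (.f c i)).1 (key b n a s x1 (.f c i)).2 := by
  have hK := hM c hc
  have h1 := hgt_ge (b := b) hn c
  have h2 : ((b.H : ℤ) + c.2 + 1) * n ≤ (b.H + b.K) * n := by
    have : (b.H : ℤ) + c.2 + 1 ≤ b.H + b.K := by omega
    exact mul_le_mul_of_nonneg_right this (by omega)
  have h3 := aT_mark (b := b) (n := n) (by omega) hc
  obtain ⟨cb, ci⟩ := c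
  simp only at h1 h2 h3 hK
  set N := ((b.H : ℤ) + ci + 1) * n with hN
  cases cb with
  | true =>
    have d2 : (dgt b n (true, ci)).2 = N := by unfold dgt cpt; simp; ring
    have d1 : (dgt b n (true, ci)).1 = b.st ci * n - 1 := by unfold dgt cpt; simp
    rw [d2] at h3
    have h4 : aT b n M (N - 1) = b.st ci * n - 1 := aT_next hn ci (by
      unfold ab; rw [if_pos (by omega)])
    have g1 : a N = b.st ci * n := by rw [ha _ (by omega) (by omega), h3]
    have g2 : a (N - 1) = b.st ci * n - 1 := by rw [ha _ (by omega) (by omega), h4]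
    have g3 : ln a N = 1 := by
      rcases ln_cases a N with ⟨g, e⟩ | ⟨g, e⟩ <;> rw [e] <;> omega
    have hh : hgt b n (true, ci) = N := by unfold hgt; simp [hN]
    cases i with
    | true =>
      have hk : key b n a s x1 (.f (true, ci) true) = (N, 1) := by simp [key, hh]
      rw [hk]
      refine ⟨⟨by simp only; omega, by simp only; omega, by simp, by simp [g3], fun _ => by
        simp [g3]⟩, ?_⟩
      have e1 : cr b n zz s x1 (.f (true, ci) true) = vt (b.st ci * n) N := by
        show f1 b n (true, ci) = _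
        unfold f1
        rw [show dgt b n (true, ci) = (b.st ci * n - 1, N) from Prod.ext d1 d2, ← vt_eq_lt, eE_vt,
          sub_add_cancel]
      rw [e1]
      simp only
      rw [← g3, aC_vert, g1]
    | false =>
      have hk : key b n a s x1 (.f (true, ci) false) = (N, 0) := by simp [key, hh]
      rw [hk]
      refine ⟨⟨by simp only; omega, by simp only; omega, by simp, by simp [g3], fun h => ?_⟩, ?_⟩
      · simp only at h; omega
      have e1 : cr b n zz s x1 (.f (true, ci) false) = hz (b.st ci * n - 1) N := by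
        show f2 b n (true, ci) = _
        unfold f2
        rw [show dgt b n (true, ci) = (b.st ci * n - 1, N) from Prod.ext d1 d2, ← vt_eq_lt]
        simp only [if_true]
        rw [eS_vt]
      rw [e1]
      simp only
      unfold aC
      rw [if_neg (by omega), if_pos (by omega), g2, add_zero]
  | false =>
    have d2 : (dgt b n (false, ci)).2 = -N - 1 := by unfold dgt cpt; simp; ring
    have d1 : (dgt b n (false, ci)).1 = b.st ci * n - 1 := by unfold dgt cpt; simp
    rw [d2] at h3
    have h4 : aT b n M (-N) = b.st ci * n - 1 := aT_next hn ci (by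
      unfold ab; rw [if_neg (by omega)]; ring)
    have g1 : a (-N - 1) = b.st ci * n := by rw [ha _ (by omega) (by omega), h3]
    have g2 : a (-N) = b.st ci * n - 1 := by rw [ha _ (by omega) (by omega), h4]
    have g3 : ln a (-N) = 1 := by
      rcases ln_cases a (-N) with ⟨g, e⟩ | ⟨g, e⟩ <;> rw [e] <;> omega
    have hh : hgt b n (false, ci) = -N := by unfold hgt; simp [hN]
    cases i with
    | true =>
      have hk : key b n a s x1 (.f (false, ci) true) = (-N - 1, ln a (-N - 1)) := by simp [key, hh]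
      rw [hk]
      refine ⟨⟨by simp only; omega, by simp only; omega, ln_nonneg _ _, le_rfl, fun _ => rfl⟩, ?_⟩
      have e1 : cr b n zz s x1 (.f (false, ci) true) = vt (b.st ci * n) (-N - 1) := by
        show f1 b n (false, ci) = _
        unfold f1
        rw [show dgt b n (false, ci) = (b.st ci * n - 1, -N - 1) from Prod.ext d1 d2, ← vt_eq_lt, eE_vt,
          sub_add_cancel]
      rw [e1]
      simp only
      rw [aC_vert, g1]
    | false =>
      have hk : key b n a s x1 (.f (false, ci) false) = (-N, 0) := by simp [key, hh]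
      rw [hk]
      refine ⟨⟨by simp only; omega, by simp only; omega, by simp, by simp [g3], fun h => ?_⟩, ?_⟩
      · simp only at h; omega
      have e1 : cr b n zz s x1 (.f (false, ci) false) = hz (b.st ci * n - 1) (-N) := by
        show f2 b n (false, ci) = _
        unfold f2
        rw [show dgt b n (false, ci) = (b.st ci * n - 1, -N - 1) from Prod.ext d1 d2, ← vt_eq_lt]
        simp only [Bool.false_eq_true, if_false]
        rw [eN_vt, sub_add_cancel]
      rw [e1]
      simp only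
      unfold aC
      rw [if_neg (by omega), if_neg (by omega), g1]
      congr 1
      ring

/-- the names of the slit lie on the left arc of the cut region -/
lemma key_slit (hn : 2 ≤ n) (s : Bool) {x1 : ℤ} (hx : -(b.X * n) ≤ x1) (zz : ℤ × ℤ) {u : Nm}
    (hu : VN (b := b) (n := n) M x1 u) (hf : ∀ c i, u ≠ .f c i) :
    KOk (-((b.H + b.K) * n) - 1) ((b.H + b.K) * n + 1) (aK b n M s x1)
        (key b n (aK b n M s x1) s x1 u) ∧
      cr b n zz s x1 u = aC (aK b n M s x1) (key b n (aK b n M s x1) s x1 u).1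
        (key b n (aK b n M s x1) s x1 u).2 := by
  have hH := hb.H0
  have hHK : 2 ≤ ((b.H : ℤ) + b.K) * n := by
    have : (1 : ℤ) ≤ b.H + b.K := by omega
    nlinarith
  set a := aK b n M s x1 with ha
  have hY := Yr_cases s
  have g0 : a (Yr s) = x1 := by rw [ha]; unfold aK; rw [if_pos rfl]
  have g1 : a (Yr s - 1) = -(b.X * n) - 1 := by
    rw [ha]; unfold aK; rw [if_neg (by omega)]; exact aT_axis hb hn (by omega) (by omega)
  have g2 : a (Yr s + 1) = -(b.X * n) - 1 := by
    rw [ha]; unfold aK; rw [if_neg (by omega)]; exact aT_axis hb hn (by omega) (by omega)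
  have l0 : ln a (Yr s) = x1 + b.X * n + 1 := by
    rcases ln_cases a (Yr s) with ⟨g, e⟩ | ⟨g, e⟩ <;> rw [e] <;> omega
  have l1 : ln a (Yr s + 1) = x1 + b.X * n + 1 := by
    have e0 := ln_cases a (Yr s + 1)
    rw [add_sub_cancel_right] at e0
    rcases e0 with ⟨g, e⟩ | ⟨g, e⟩ <;> rw [e] <;> omega
  cases u with
  | z => exact absurd hu id
  | f c i => exact absurd rfl (hf c i)
  | m =>
    show KOk _ _ a (Yr s, x1 + b.X * n + 1) ∧ mc s x1 = aC a (Yr s) (x1 + b.X * n + 1)
    refine ⟨⟨by simp only; omega, by simp only; omega, by simp only; omega, by simp only; omega,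
      fun h => by simp only at h; omega⟩, ?_⟩
    rw [← l0, aC_vert, g0]
    unfold mc
    rw [← vt_eq_lt, eW_vt]
  | nn x =>
    obtain ⟨u1, u2⟩ := hu
    show KOk _ _ a (Yr s + 1, x1 - 1 - x) ∧ Nn s x = aC a (Yr s + 1) (x1 - 1 - x)
    refine ⟨⟨by simp only; omega, by simp only; omega, by simp only; omega, by simp only; omega,
      fun h => by simp only at h; omega⟩, ?_⟩
    unfold Nn aC
    rw [← vt_eq_lt, eN_vt, if_neg (by omega), add_sub_cancel_right, if_neg (by omega), g0]
    congr 1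
    ring
  | ss x =>
    obtain ⟨u1, u2⟩ := hu
    show KOk _ _ a (Yr s, x + b.X * n + 1) ∧ Sn s x = aC a (Yr s) (x + b.X * n + 1)
    refine ⟨⟨by simp only; omega, by simp only; omega, by simp only; omega, by simp only; omega,
      fun h => by simp only at h; omega⟩, ?_⟩
    unfold Sn aC
    rw [← vt_eq_lt, eS_vt, if_neg (by omega), if_pos (by omega), g1]
    congr 1
    ring

/-- all names of the cut region -/
lemma key_all (hn : 2 ≤ n) (hM : ∀ c ∈ M, c.2 < b.K) (s : Bool) {x1 : ℤ} (hx : -(b.X * n) ≤ x1)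
    (zz : ℤ × ℤ) {u : Nm} (hu : VN (b := b) (n := n) M x1 u) :
    KOk (-((b.H + b.K) * n) - 1) ((b.H + b.K) * n + 1) (aK b n M s x1)
        (key b n (aK b n M s x1) s x1 u) ∧
      cr b n zz s x1 u = aC (aK b n M s x1) (key b n (aK b n M s x1) s x1 u).1
        (key b n (aK b n M s x1) s x1 u).2 := by
  by_cases hf : ∃ c i, u = .f c i
  · obtain ⟨c, i, rfl⟩ := hf
    refine key_f hn hM (fun y h1 h2 => ?_) s x1 zz hu i
    unfold aK
    rw [if_neg]
    rcases Yr_cases s with h | h <;> omega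
  · push Not at hf
    exact key_slit hb hn s hx zz hu hf

/-! ### The order -/

/-- names at the ceiling -/
def clg : Nm → Prop
  | .f c _ => c.1 = true
  | _ => False

omit hb in
lemma hgt_lt {c c' : Bool × ℕ} (hn : 0 < n) (h : c.2 < c'.2) :
    ((b.H : ℤ) + c.2 + 1) * n + n ≤ (b.H + c'.2 + 1) * n := by
  have : (b.H : ℤ) + c.2 + 1 + 1 ≤ b.H + c'.2 + 1 := by omega
  nlinarith

omit hb in
/-- within a class the order is reversed -/
lemma ord1 (hn : 2 ≤ n) (hM : ∀ c ∈ M, c.2 < b.K) (a : ℤ → ℤ) (s : Bool) {x1 : ℤ}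
    (hx : -(b.X * n) ≤ x1) {u v : Nm} (hu : VN (b := b) (n := n) M x1 u)
    (hv : VN (b := b) (n := n) M x1 v) (h : posJ b n x1 u < posJ b n x1 v) (hc : clg u ↔ clg v) :
    LL (key b n a s x1 v) (key b n a s x1 u) := by
  have hY := Yr_cases s
  have big : ∀ c : Bool × ℕ, 2 ≤ ((b.H : ℤ) + c.2 + 1) * n := fun c => hgt_ge hn c
  -- two marks
  have two : ∀ (c c' : Bool × ℕ) (i i' : Bool), c ∈ M → c' ∈ M → (c.1 = true ↔ c'.1 = true) →
      posJ b n x1 (.f c i) < posJ b n x1 (.f c' i') →
      LL (key b n a s x1 (.f c' i')) (key b n a s x1 (.f c i)) := by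
    rintro ⟨cb, ci⟩ ⟨cb', ci'⟩ i i' h1 h2 h3 h4
    simp only [posJ, ky] at h4
    have b1 := big (cb, ci)
    have b2 := big (cb', ci')
    rcases lt_trichotomy ci ci' with h5 | h5 | h5
    · have h6 := hgt_lt (b := b) (n := n) (c := (cb, ci)) (c' := (cb', ci')) (by omega) h5
      simp only at h6 b1 b2
      cases cb <;> cases cb' <;> simp at h3 <;> cases i <;> cases i' <;> simp at h4 <;>
        simp [key, hgt, LL] <;> omega
    · subst h5
      simp only at b1 b2
      cases cb <;> cases cb' <;> simp at h3 <;> cases i <;> cases i' <;> simp at h4 <;>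
        simp [key, hgt, LL]
    · have h6 := hgt_lt (b := b) (n := n) (c := (cb', ci')) (c' := (cb, ci)) (by omega) h5
      simp only at h6 b1 b2
      cases cb <;> cases cb' <;> simp at h3 <;> cases i <;> cases i' <;> simp at h4 <;>
        simp [key, hgt, LL] <;> omega
  cases u with
  | z => exact absurd hu id
  | m =>
    cases v with
    | z => exact absurd hv id
    | m => exact absurd h (lt_irrefl _)
    | nn x => exact absurd h (by have := hv.2; simp only [posJ]; omega)
    | ss x =>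
      have := hv.2
      right; exact ⟨rfl, by simp only [key]; omega⟩
    | f c i =>
      have hc' : c.1 = false := by simpa [clg] using hc
      have := big c
      left
      cases i <;> simp [key, hgt, hc'] <;> omega
  | nn x =>
    cases v with
    | z => exact absurd hv id
    | m => left; simp only [key]; omega
    | nn x' => right; simp only [posJ] at h; exact ⟨rfl, by simp only [key]; omega⟩
    | ss x' => left; simp only [key]; omega
    | f c i =>
      have hc' : c.1 = false := by simpa [clg] using hc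
      have := big c
      left
      cases i <;> simp [key, hgt, hc'] <;> omega
  | ss x =>
    cases v with
    | z => exact absurd hv id
    | m => exact absurd h (by have := hu.2; simp only [posJ]; omega)
    | nn x' => exact absurd h (by have := hu.2; have := hv.2; simp only [posJ]; omega)
    | ss x' => right; simp only [posJ] at h; exact ⟨rfl, by simp only [key]; omega⟩
    | f c i =>
      have hc' : c.1 = false := by simpa [clg] using hc
      have := big c
      left
      cases i <;> simp [key, hgt, hc'] <;> omega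
  | f c i =>
    have hk : 0 ≤ ky b c := by
      have := hM c hu
      unfold ky; split_ifs <;> omega
    cases v with
    | z => exact absurd hv id
    | m => exact absurd h (by simp only [posJ]; split_ifs <;> omega)
    | nn x' => exact absurd h (by have := hv.2; simp only [posJ]; split_ifs <;> omega)
    | ss x' => exact absurd h (by have := hv.1; simp only [posJ]; split_ifs <;> omega)
    | f c' i' => exact two c c' i i' hu hv (by simpa [clg] using hc) h

omit hb in
/-- the ceiling comes last -/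
lemma ord2 (hn : 2 ≤ n) (hM : ∀ c ∈ M, c.2 < b.K) (a : ℤ → ℤ) (s : Bool) {x1 : ℤ}
    (hx : -(b.X * n) ≤ x1) {u v : Nm} (hu : VN (b := b) (n := n) M x1 u)
    (hv : VN (b := b) (n := n) M x1 v) (hcu : ¬ clg u) (hcv : clg v) :
    LL (key b n a s x1 u) (key b n a s x1 v) ∧ posJ b n x1 u < posJ b n x1 v := by
  have hY := Yr_cases s
  have big : ∀ c : Bool × ℕ, 2 ≤ ((b.H : ℤ) + c.2 + 1) * n := fun c => hgt_ge hn c
  cases v with
  | z => exact absurd hcv id
  | m => exact absurd hcv id
  | nn x => exact absurd hcv id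
  | ss x => exact absurd hcv id
  | f c' i' =>
    have hc' : c'.1 = true := hcv
    have b1 := big c'
    have hM' := hM c' hv
    cases u with
    | z => exact absurd hu id
    | m =>
      refine ⟨Or.inl ?_, ?_⟩
      · simp [key, hgt, hc']; omega
      · simp only [posJ, ky, hc', if_true]; split_ifs <;> omega
    | nn x =>
      obtain ⟨h1, h2⟩ := hu
      refine ⟨?_, ?_⟩
      · by_cases h3 : Yr s + 1 < hgt b n c'
        · left; simp [key, hc']; exact h3
        · exfalso
          apply h3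
          unfold hgt
          rw [if_pos hc']
          omega
      · simp only [posJ, ky, hc', if_true]; split_ifs <;> omega
    | ss x =>
      obtain ⟨h1, h2⟩ := hu
      refine ⟨Or.inl ?_, ?_⟩
      · simp [key, hgt, hc']; omega
      · simp only [posJ, ky, hc', if_true]; split_ifs <;> omega
    | f c i =>
      have hc : c.1 = false := by simpa [clg] using hcu
      have b2 := big c
      have hM := hM c hu
      refine ⟨Or.inl ?_, ?_⟩
      · cases i <;> simp [key, hgt, hc, hc'] <;> omega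
      · simp only [posJ, ky, hc', hc, if_true]
        simp
        split_ifs <;> omega

/-! ### Results -/

/-- the string of an end in the room does not touch the ends on the boundary -/
lemma str_cr (hn : 2 ≤ n) {s : Bool} {x1 : ℤ}
    {v : ℤ × ℤ} (hv : InQ b n v.1 v.2) (hv1 : v.2 = Yr s → x1 < v.1) (zz : ℤ × ℤ) {u : Nm}
    (hu : VN (b := b) (n := n) M x1 u) {e : ℤ × ℤ} (he : e ∈ lt '' strD v) :
    eW e ≠ cr b n zz s x1 u ∧ eE e ≠ cr b n zz s x1 u := by
  obtain ⟨⟨p1, p2⟩, ⟨h1, h2⟩, rfl⟩ := he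
  simp only at h1 h2
  rw [← vt_eq_lt, eW_vt, eE_vt]
  cases u with
  | z => exact absurd hu id
  | m =>
    have e1 : cr b n zz s x1 .m = vt x1 (Yr s) := by
      show mc s x1 = _
      unfold mc
      rw [← vt_eq_lt, eW_vt]
    rw [e1]
    constructor
    · intro h
      obtain ⟨h3, h4⟩ := vt_inj h
      have := hv1 (by omega)
      omega
    · intro h
      obtain ⟨h3, h4⟩ := vt_inj h
      have := hv1 (by omega)
      omega
  | nn x =>
    have e1 : cr b n zz s x1 (.nn x) = hz x (Yr s + 1) := by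
      show Nn s x = _
      unfold Nn
      rw [← vt_eq_lt, eN_vt]
    rw [e1]
    exact ⟨(hz_ne_vt _ _ _ _).symm, (hz_ne_vt _ _ _ _).symm⟩
  | ss x =>
    have e1 : cr b n zz s x1 (.ss x) = hz x (Yr s) := by
      show Sn s x = _
      unfold Sn
      rw [← vt_eq_lt, eS_vt]
    rw [e1]
    exact ⟨(hz_ne_vt _ _ _ _).symm, (hz_ne_vt _ _ _ _).symm⟩
  | f c i =>
    cases i with
    | false =>
      have e1 : ∃ x y, cr b n zz s x1 (.f c false) = hz x y := by
        show ∃ x y, f2 b n c = hz x y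
        unfold f2
        have e2 : dgt b n c = ((dgt b n c).1, (dgt b n c).2) := rfl
        rw [e2, ← vt_eq_lt]
        split_ifs
        · rw [eS_vt]; exact ⟨_, _, rfl⟩
        · rw [eN_vt]; exact ⟨_, _, rfl⟩
      obtain ⟨x, y, e1⟩ := e1
      rw [e1]
      exact ⟨(hz_ne_vt _ _ _ _).symm, (hz_ne_vt _ _ _ _).symm⟩
    | true =>
      have e1 : cr b n zz s x1 (.f c true) = vt ((dgt b n c).1 + 1) (dgt b n c).2 := by
        show f1 b n c = _
        unfold f1
        have e2 : dgt b n c = ((dgt b n c).1, (dgt b n c).2) := rfl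
        rw [e2, ← vt_eq_lt, eE_vt]
      have e2 : (dgt b n c).1 + 1 = b.st c.2 * n := by unfold dgt cpt; simp
      have hfar : v.2 = (dgt b n c).2 → b.st c.2 * n < v.1 := by
        intro h3
        rw [InQ_iff hb (by omega)] at hv
        obtain ⟨h4, h5, -⟩ := hv
        rw [h3, ab_dgt (by omega)] at h4 h5
        have h6 : ((b.H : ℤ) + c.2 + 1) * n / n = b.H + c.2 + 1 := Int.mul_ediv_cancel _ (by omega)
        rw [h6] at h5
        have h7 : (b.H : ℤ) + c.2 + 1 < b.H + b.K := by
          by_contra h7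
          push Not at h7
          have := mul_le_mul_of_nonneg_right h7 (by omega : 0 ≤ n)
          omega
        unfold lf at h5
        rw [if_neg (by omega)] at h5
        have h8 : ((b.H : ℤ) + c.2 + 1 - b.H).toNat = c.2 + 1 := by omega
        rw [h8] at h5
        have h9 := hb.st_mono c.2 (by omega)
        nlinarith
      rw [e1, e2]
      constructor
      · intro h
        obtain ⟨h3, h4⟩ := vt_inj h
        have := hfar (by omega)
        omega
      · intro h
        obtain ⟨h3, h4⟩ := vt_inj h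
        have := hfar (by omega)
        omega

omit hb in
/-- in the cut region only the string of the moving end is deleted -/
lemma cut_str {s : Bool} {x1 : ℤ} {v e : ℤ × ℤ} (he : e ∈ LamC b n M s x1)
    (h : e ∈ lt '' (strD v ∪ slD s x1)) : e ∈ lt '' strD v := by
  obtain ⟨p, h1 | h1, rfl⟩ := h
  · exact ⟨p, h1, rfl⟩
  · exact absurd ⟨p, h1, rfl⟩ he.2

omit hb in
lemma odd_of_lt {D : Set (ℤ × ℤ)} {e : ℤ × ℤ} (h : e ∈ lt '' D) : (e.1 + e.2) % 2 = 1 := by
  obtain ⟨p, -, rfl⟩ := h
  exact lt_odd p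

/-- the names of the boundary of the cut region are boundary sides -/
theorem cr_bd (hn : 2 ≤ n) (hM : ∀ c ∈ M, c.2 < b.K) (s : Bool) {x1 : ℤ} (hx : -(b.X * n) ≤ x1)
    (hx' : x1 < 0) (zz : ℤ × ℤ) {u : Nm} (hu : VN (b := b) (n := n) M x1 u) :
    Bd (LamC b n M s x1) (cr b n zz s x1 u) := by
  obtain ⟨h1, h2⟩ := key_all hb hn hM s hx zz hu
  rw [h2]
  exact aC_bd (LamC_rows hb hn s hx) (fun y k1 k2 => aK_lt hb (by omega) hx' k1 k2)
    (fun y k1 k2 => ⟨aK_lt hb (by omega) hx' k1 (by omega), aK_lt hb (by omega) hx' (by omega) (by omega)⟩)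
    h1

/-- different names, different sides -/
theorem cr_inj (hn : 2 ≤ n) (hM : ∀ c ∈ M, c.2 < b.K) (s : Bool) {x1 : ℤ} (hx : -(b.X * n) ≤ x1)
    (zz : ℤ × ℤ) {u v : Nm} (hu : VN (b := b) (n := n) M x1 u) (hv : VN (b := b) (n := n) M x1 v)
    (h : cr b n zz s x1 u = cr b n zz s x1 v) : u = v := by
  obtain ⟨h1, h2⟩ := key_all hb hn hM s hx zz hu
  obtain ⟨h3, h4⟩ := key_all hb hn hM s hx zz hv
  rw [h2, h4] at h
  have h5 := aC_inj h1 h3 h
  -- the keys order the names
  have hp : ∀ u v : Nm, VN (b := b) (n := n) M x1 u → VN (b := b) (n := n) M x1 v →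
      key b n (aK b n M s x1) s x1 u = key b n (aK b n M s x1) s x1 v →
      ¬ posJ b n x1 u < posJ b n x1 v := by
    intro u v hu hv e h
    by_cases c : clg u ↔ clg v
    · have := ord1 hn hM (aK b n M s x1) s hx hu hv h c
      rw [e] at this
      exact absurd this this.asymm
    · by_cases cu : clg u
      · have cv : ¬ clg v := fun t => c ⟨fun _ => t, fun _ => cu⟩
        have := (ord2 hn hM (aK b n M s x1) s hx hv hu cv cu).1
        rw [e] at this
        exact absurd this this.asymm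
      · have cv : clg v := by
          by_contra t
          exact c ⟨fun t' => absurd t' cu, fun t' => absurd t' t⟩
        have := (ord2 hn hM (aK b n M s x1) s hx hu hv cu cv).1
        rw [e] at this
        exact absurd this this.asymm
  have e : posJ b n x1 u = posJ b n x1 v := by
    have := hp u v hu hv h5
    have := hp v u hv hu h5.symm
    omega
  -- `posJ` is injective on the admissible names
  cases u with
  | z => exact absurd hu id
  | m =>
    cases v with
    | z => exact absurd hv id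
    | m => rfl
    | nn x => have := hv.2; simp only [posJ] at e; omega
    | ss x => have := hv.2; simp only [posJ] at e; omega
    | f c i =>
      have : 0 ≤ ky b c := by have := hM c hv; unfold ky; split_ifs <;> omega
      simp only [posJ] at e; split_ifs at e <;> omega
  | nn x =>
    cases v with
    | z => exact absurd hv id
    | m => have := hu.2; simp only [posJ] at e; omega
    | nn x' => simp only [posJ] at e; rw [e]
    | ss x' => have := hv.2; have := hu.2; simp only [posJ] at e; omega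
    | f c i =>
      have := hu.2
      have : 0 ≤ ky b c := by have := hM c hv; unfold ky; split_ifs <;> omega
      simp only [posJ] at e; split_ifs at e <;> omega
  | ss x =>
    cases v with
    | z => exact absurd hv id
    | m => have := hu.2; simp only [posJ] at e; omega
    | nn x' => have := hv.2; have := hu.2; simp only [posJ] at e; omega
    | ss x' =>
      simp only [posJ] at e
      have : x = x' := by omega
      rw [this]
    | f c i =>
      have := hu.1
      have : 0 ≤ ky b c := by have := hM c hv; unfold ky; split_ifs <;> omega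
      simp only [posJ] at e; split_ifs at e <;> omega
  | f c i =>
    have hk : 0 ≤ ky b c := by have := hM c hu; unfold ky; split_ifs <;> omega
    cases v with
    | z => exact absurd hv id
    | m => simp only [posJ] at e; split_ifs at e <;> omega
    | nn x' => have := hv.2; simp only [posJ] at e; split_ifs at e <;> omega
    | ss x' => have := hv.1; simp only [posJ] at e; split_ifs at e <;> omega
    | f c' i' =>
      have h6 := hM c hu
      have h7 := hM c' hv
      obtain ⟨cb, ci⟩ := c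
      obtain ⟨cb', ci'⟩ := c'
      simp only [posJ, ky] at e h6 h7
      cases cb <;> cases cb' <;> cases i <;> cases i' <;> simp at e <;> first
        | (exfalso; omega)
        | (have e' : ci = ci' := by omega
           rw [e'])

/-- **Noncrossing link pattern of the cut thin region.** -/
theorem nc_J (hn : 2 ≤ n) (hM : ∀ c ∈ M, c.2 < b.K) (s : Bool) {x1 : ℤ} (hx : -(b.X * n) ≤ x1)
    (hx' : x1 < 0) {A : Nm → Prop} {D : Set (ℤ × ℤ)} {w : Finset (ℤ × ℤ)} {zz : ℤ × ℤ}
    (hA : ∀ u, A u → u = .z ∨ VN (b := b) (n := n) M x1 u)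
    (hD : ∀ u, VN (b := b) (n := n) M x1 u → ∀ e ∈ LamC b n M s x1, e ∈ D →
      eW e ≠ cr b n zz s x1 u ∧ eE e ≠ cr b n zz s x1 u)
    (hDo : ∀ e ∈ LamC b n M s x1, e ∈ D → (e.1 + e.2) % 2 = 1)
    (h : Act (SG (LamC b n M s x1) D w) A (cr b n zz s x1)) {x y : Nm} (h1 : x ≠ .z)
    (h1' : x ≠ sgp (SG (LamC b n M s x1) D w) A (cr b n zz s x1) .z) (h2 : y ≠ .z)
    (h2' : y ≠ sgp (SG (LamC b n M s x1) D w) A (cr b n zz s x1) .z) :
    NX (posJ b n x1) (sgp (SG (LamC b n M s x1) D w) A (cr b n zz s x1)) x y := by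
  have hV : ∀ u, A u → u ≠ .z → VN (b := b) (n := n) M x1 u := fun u h3 h4 =>
    (hA u h3).resolve_left h4
  exact nc_rows (LamC_rows hb hn s hx) (fun y k1 k2 => aK_lt hb (by omega) hx' k1 k2)
    (fun y k1 k2 => ⟨aK_lt hb (by omega) hx' k1 (by omega), aK_lt hb (by omega) hx' (by omega) (by omega)⟩)
    h (z := .z) (key := key b n (aK b n M s x1) s x1) (cl := clg)
    (fun u k1 k2 => key_all hb hn hM s hx zz (hV u k1 k2)) (fun u k1 k2 => hD u (hV u k1 k2)) hDo
    (fun u v k1 k2 k3 k4 k5 k6 => ord1 hn hM _ s hx (hV u k1 k3) (hV v k2 k4) k5 k6)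
    (fun u v k1 k2 k3 k4 k5 k6 => ord2 hn hM _ s hx (hV u k1 k3) (hV v k2 k4) k5 k6) h1 h1' h2 h2'

/-- version without moving end -/
theorem nc_J' (hn : 2 ≤ n) (hM : ∀ c ∈ M, c.2 < b.K) (s : Bool) {x1 : ℤ} (hx : -(b.X * n) ≤ x1)
    (hx' : x1 < 0) {A : Nm → Prop} {D : Set (ℤ × ℤ)} {w : Finset (ℤ × ℤ)} {zz : ℤ × ℤ}
    (hA : ∀ u, A u → VN (b := b) (n := n) M x1 u)
    (hD : ∀ u, VN (b := b) (n := n) M x1 u → ∀ e ∈ LamC b n M s x1, e ∈ D →
      eW e ≠ cr b n zz s x1 u ∧ eE e ≠ cr b n zz s x1 u)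
    (hDo : ∀ e ∈ LamC b n M s x1, e ∈ D → (e.1 + e.2) % 2 = 1)
    (h : Act (SG (LamC b n M s x1) D w) A (cr b n zz s x1)) (x y : Nm) :
    NX (posJ b n x1) (sgp (SG (LamC b n M s x1) D w) A (cr b n zz s x1)) x y := by
  have hz : ¬ A .z := fun t => hA _ t
  exact nc_rows' (LamC_rows hb hn s hx) (fun y k1 k2 => aK_lt hb (by omega) hx' k1 k2)
    (fun y k1 k2 => ⟨aK_lt hb (by omega) hx' k1 (by omega), aK_lt hb (by omega) hx' (by omega) (by omega)⟩)
    h hz (key := key b n (aK b n M s x1) s x1) (cl := clg)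
    (fun u k1 k2 => key_all hb hn hM s hx zz (hA u k1)) (fun u k1 k2 => hD u (hA u k1)) hDo
    (fun u v k1 k2 k3 k4 k5 k6 => ord1 hn hM _ s hx (hA u k1) (hA v k2) k5 k6)
    (fun u v k1 k2 k3 k4 k5 k6 => ord2 hn hM _ s hx (hA u k1) (hA v k2) k5 k6) x y

/-- the marks are boundary sides of the uncut region -/
theorem cr_bdT (hn : 2 ≤ n) (hM : ∀ c ∈ M, c.2 < b.K) (s : Bool) (x1 : ℤ) (zz : ℤ × ℤ)
    {c : Bool × ℕ} (hc : c ∈ M) (i : Bool) : Bd (LamT b n M) (cr b n zz s x1 (.f c i)) := by
  obtain ⟨h1, h2⟩ := key_f (b := b) (n := n) hn hM (fun y _ _ => rfl) s x1 zz hc i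
  rw [h2]
  exact aC_bd (LamT_rows hb (by omega)) (fun y k1 k2 => aT_lt hb (by omega) k1 k2)
    (fun y k1 k2 => ⟨aT_lt hb (by omega) k1 (by omega), aT_lt hb (by omega) (by omega) (by omega)⟩) h1

/-- **Noncrossing link pattern of the uncut thin region.** -/
theorem nc_T (hn : 2 ≤ n) (hM : ∀ c ∈ M, c.2 < b.K) (s : Bool) {x1 : ℤ} (hx : -(b.X * n) ≤ x1)
    {A : Nm → Prop} {D : Set (ℤ × ℤ)} {w : Finset (ℤ × ℤ)} {zz : ℤ × ℤ}
    (hA : ∀ u, A u → u = .z ∨ ∃ c i, c ∈ M ∧ u = .f c i)
    (hD : ∀ c i, c ∈ M → ∀ e ∈ LamT b n M, e ∈ D →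
      eW e ≠ cr b n zz s x1 (.f c i) ∧ eE e ≠ cr b n zz s x1 (.f c i))
    (hDo : ∀ e ∈ LamT b n M, e ∈ D → (e.1 + e.2) % 2 = 1)
    (h : Act (SG (LamT b n M) D w) A (cr b n zz s x1)) {x y : Nm} (h1 : x ≠ .z)
    (h1' : x ≠ sgp (SG (LamT b n M) D w) A (cr b n zz s x1) .z) (h2 : y ≠ .z)
    (h2' : y ≠ sgp (SG (LamT b n M) D w) A (cr b n zz s x1) .z) :
    NX (posJ b n x1) (sgp (SG (LamT b n M) D w) A (cr b n zz s x1)) x y := by
  have hV : ∀ u, A u → u ≠ .z → VN (b := b) (n := n) M x1 u := by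
    intro u h3 h4
    obtain ⟨c, i, h5, rfl⟩ := (hA u h3).resolve_left h4
    exact h5
  exact nc_rows (LamT_rows hb (by omega)) (fun y k1 k2 => aT_lt hb (by omega) k1 k2)
    (fun y k1 k2 => ⟨aT_lt hb (by omega) k1 (by omega), aT_lt hb (by omega) (by omega) (by omega)⟩)
    h (z := .z) (key := key b n (aT b n M) s x1) (cl := clg)
    (fun u k1 k2 => by
      obtain ⟨c, i, h5, rfl⟩ := (hA u k1).resolve_left k2
      exact key_f hn hM (fun y _ _ => rfl) s x1 zz h5 i)
    (fun u k1 k2 => by
      obtain ⟨c, i, h5, rfl⟩ := (hA u k1).resolve_left k2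
      exact hD c i h5) hDo
    (fun u v k1 k2 k3 k4 k5 k6 => ord1 hn hM _ s hx (hV u k1 k3) (hV v k2 k4) k5 k6)
    (fun u v k1 k2 k3 k4 k5 k6 => ord2 hn hM _ s hx (hV u k1 k3) (hV v k2 k4) k5 k6) h1 h1' h2 h2'

end ok

end box

end Pool.Agent.H47.W
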