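import Pool.Agent.H47.W.Room9

set_option autoImplicit false
open Finset

/-! # Planarity of the strand graph, part 11: arcs with bottom and top

Arc `aC a Y t`, `y0 ≤ Y ≤ y1`, all horizontal sides at the heights `y0` and `y1` included, no vertical side at
the height `y1`; it starts in `(a (y0 - 1), y0)` and ends in `(a y1, y1)`. `arc_planar` : strands between
sides of such an arc do not cross. Only used: the sides of the arc are boundary sides, the outer tiles are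
joined outside. -/

namespace Pool.Agent.H47.W

open Pool.Agent.H75.Perc Pool.Agent.H75.TwoArm Pool.Agent.H99.W Pool.Agent.H13.W Pool.Agent.H73.W

/-- admissible keys of an arc with bottom and top -/
def KO2 (y0 y1 : ℤ) (a : ℤ → ℤ) (k : ℤ × ℤ) : Prop :=
  y0 ≤ k.1 ∧ k.1 ≤ y1 ∧ 0 ≤ k.2 ∧ k.2 ≤ ln a k.1 ∧ (k.1 = y1 → k.2 < ln a k.1)

/-- the sides of the arc determine the keys -/
lemma aC_inj2 {y0 y1 : ℤ} {a : ℤ → ℤ} {k k' : ℤ × ℤ} (h : KO2 y0 y1 a k) (h' : KO2 y0 y1 a k')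
    (e : aC a k.1 k.2 = aC a k'.1 k'.2) : k = k' := by
  obtain ⟨Y, t⟩ := k
  obtain ⟨Y', t'⟩ := k'
  obtain ⟨-, -, h1, h2, -⟩ := h
  obtain ⟨-, -, h1', h2', -⟩ := h'
  simp only at h1 h2 h1' h2' e
  unfold aC at e
  by_cases c : t = ln a Y
  · rw [if_pos c] at e
    by_cases c' : t' = ln a Y'
    · rw [if_pos c'] at e
      obtain ⟨-, rfl⟩ := vt_inj e
      rw [c, c']
    · rw [if_neg c'] at e
      split_ifs at e
      · exact absurd e.symm (hz_ne_vt _ _ _ _)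
      · exact absurd e.symm (hz_ne_vt _ _ _ _)
  · rw [if_neg c] at e
    by_cases c' : t' = ln a Y'
    · rw [if_pos c'] at e
      split_ifs at e
      · exact absurd e (hz_ne_vt _ _ _ _)
      · exact absurd e (hz_ne_vt _ _ _ _)
    · rw [if_neg c'] at e
      have hY : Y = Y' := by
        split_ifs at e <;> exact (hz_inj e).2
      subst hY
      have ht : t = t' := by
        split_ifs at e
        · have := (hz_inj e).1; omega
        · have := (hz_inj e).1; omega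
      rw [ht]

section arc2

variable {Λ D : Set (ℤ × ℤ)} {w : Finset (ℤ × ℤ)} {y0 y1 : ℤ} {a : ℤ → ℤ}

/-- one step of an indicator -/
lemma ind_step (k0 : ℤ × ℤ) (Y t : ℤ) [Decidable (LL k0 (Y, t + 1))] [Decidable (LL k0 (Y, t))]
    [Decidable ((Y, t) = k0)] :
    (if LL k0 (Y, t + 1) then 1 else 0 : ZMod 2) =
      (if LL k0 (Y, t) then 1 else 0) + (if (Y, t) = k0 then 1 else 0) := by
  obtain ⟨Y0, t0⟩ := k0
  unfold LL
  simp only [Prod.mk.injEq]
  by_cases c : Y = Y0 ∧ t = t0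
  · rw [if_pos c, if_pos (by omega), if_neg (by omega), zero_add]
  · rw [if_neg c, add_zero]
    congr 1
    apply propext
    constructor
    · intro h
      rcases h with h | ⟨h, h'⟩
      · exact Or.inl h
      · right; refine ⟨h, ?_⟩; by_contra h''; exact c ⟨by omega, by omega⟩
    · intro h
      rcases h with h | ⟨h, h'⟩
      · exact Or.inl h
      · right; exact ⟨h, by omega⟩

lemma ind_stepv {k0 : ℤ × ℤ} (hk0 : KO2 y0 y1 a k0 ∨ y1 < k0.1) {Y : ℤ} (hY : Y < y1)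
    [Decidable (LL k0 (Y + 1, 0))] [Decidable (LL k0 (Y, ln a Y))] [Decidable ((Y, ln a Y) = k0)] :
    (if LL k0 (Y + 1, 0) then 1 else 0 : ZMod 2) =
      (if LL k0 (Y, ln a Y) then 1 else 0) + (if (Y, ln a Y) = k0 then 1 else 0) := by
  obtain ⟨Y0, t0⟩ := k0
  have b : y1 < Y0 ∨ (0 ≤ t0 ∧ t0 ≤ ln a Y0) := by
    rcases hk0 with ⟨-, -, b1, b2, -⟩ | h
    · exact Or.inr ⟨b1, b2⟩
    · exact Or.inl h
  unfold LL
  simp only [Prod.mk.injEq]
  by_cases c : Y = Y0 ∧ ln a Y = t0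
  · rw [if_pos c, if_pos (by omega), if_neg (by omega), zero_add]
  · rw [if_neg c, add_zero]
    congr 1
    apply propext
    constructor
    · intro h
      rcases h with h | ⟨h, h'⟩
      · by_cases c1 : Y0 < Y
        · exact Or.inl c1
        · have : Y0 = Y := by omega
          subst this
          right; refine ⟨rfl, ?_⟩
          by_contra h''; exact c ⟨rfl, by omega⟩
      · omega
    · intro h
      rcases h with h | ⟨h, h'⟩
      · exact Or.inl (by omega)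
      · exact Or.inl (by omega)

open Classical in
/-- **A potential which jumps at two sides**; a key above `y1` = the side is not on the arc. -/
lemma pot2 {S : ℤ × ℤ → ZMod 2} {k1 k2 : ℤ × ℤ} (h1 : KO2 y0 y1 a k1 ∨ y1 < k1.1)
    (h2 : KO2 y0 y1 a k2 ∨ y1 < k2.1)
    (hS : ∀ k, KO2 y0 y1 a k → ∀ p q, Jn (aC a k.1 k.2) p q →
      S q = S p + (if k = k1 then 1 else 0) + (if k = k2 then 1 else 0)) {Y t : ℤ}
    (g1 : y0 ≤ Y) (g2 : Y ≤ y1) (g3 : 0 ≤ t) (g4 : t ≤ ln a Y) :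
    S (aP a Y t) = S (a (y0 - 1), y0) + (if LL k1 (Y, t) then 1 else 0) +
      (if LL k2 (Y, t) then 1 else 0) := by
  obtain ⟨m, rfl⟩ : ∃ m : ℕ, Y = y0 + m := ⟨(Y - y0).toNat, by omega⟩
  -- along the sides of one height
  have along : ∀ Y, y0 ≤ Y → Y ≤ y1 →
      S (aP a Y 0) = S (a (y0 - 1), y0) + (if LL k1 (Y, 0) then 1 else 0) +
        (if LL k2 (Y, 0) then 1 else 0) →
      ∀ t, 0 ≤ t → t ≤ ln a Y →
        S (aP a Y t) = S (a (y0 - 1), y0) + (if LL k1 (Y, t) then 1 else 0) +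
          (if LL k2 (Y, t) then 1 else 0) := by
    intro Y e1 e2 e4 t e5 e6
    obtain ⟨r, rfl⟩ : ∃ r : ℕ, t = r := ⟨t.toNat, by omega⟩
    induction r with
    | zero => exact e4
    | succ r ih =>
      have ih := ih (by omega) (by push_cast at e6; omega)
      push_cast at e6 ⊢
      have := hS (Y, (r : ℤ)) ⟨e1, e2, by simp, by simp only; omega, fun _ => by simp only; omega⟩ _ _
        (Jn_hor a (Y := Y) (t := r) (by omega))
      rw [this, ih, ind_step k1 Y r, ind_step k2 Y r]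
      ring
  -- from height to height
  have key : ∀ m : ℕ, y0 + (m : ℤ) ≤ y1 →
      S (aP a (y0 + m) 0) = S (a (y0 - 1), y0) +
        (if LL k1 (y0 + m, 0) then 1 else 0) + (if LL k2 (y0 + m, 0) then 1 else 0) := by
    intro m hm
    induction m with
    | zero =>
      simp only [Nat.cast_zero, add_zero] at hm ⊢
      have no : ∀ k0 : ℤ × ℤ, (KO2 y0 y1 a k0 ∨ y1 < k0.1) → ¬ LL k0 (y0, 0) := by
        rintro k0 (⟨h, -, h', -⟩ | h) (t | ⟨t, t'⟩) <;> simp only at * <;> omega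
      rw [aP_zero, if_neg (no k1 h1), if_neg (no k2 h2), add_zero, add_zero]
    | succ m ih =>
      have ih := ih (by push_cast at hm; omega)
      push_cast at hm ⊢
      rw [← add_assoc] at hm ⊢
      have hl := along (y0 + m) (by omega) (by omega) ih _ (ln_nonneg _ _) le_rfl
      have := hS (y0 + m, ln a (y0 + m)) ⟨by simp, by simp only; omega, ln_nonneg _ _, le_rfl,
        fun h => by simp only at h; omega⟩ _ _ (Jn_vert a (y0 + m))
      rw [this, hl, ind_stepv h1 (by omega), ind_stepv h2 (by omega)]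
      ring
  exact along _ g1 g2 (key m g2) t g3 g4

/-- **Planarity on an arc with bottom and top.** -/
theorem arc_planar (hB : ∀ k, KO2 y0 y1 a k → Bd Λ (aC a k.1 k.2)) {k1 k2 k3 k4 : ℤ × ℤ}
    (h1 : KO2 y0 y1 a k1) (h2 : KO2 y0 y1 a k2) (h3 : KO2 y0 y1 a k3) (h4 : KO2 y0 y1 a k4)
    (n12 : k1 ≠ k2) (n31 : k3 ≠ k1) (n32 : k3 ≠ k2)
    (hT : ∀ o o', OutT Λ (aC a k1.1 k1.2) o → OutT Λ (aC a k2.1 k2.2) o' → TC Λ o o')
    (hD : ∀ e ∈ Λ, e ∈ D → eW e ≠ aC a k1.1 k1.2 ∧ eE e ≠ aC a k1.1 k1.2 ∧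
      eW e ≠ aC a k2.1 k2.2 ∧ eE e ≠ aC a k2.1 k2.2)
    (hDo : ∀ e ∈ Λ, e ∈ D → (e.1 + e.2) % 2 = 1)
    (hr : (SG Λ D w).Reachable (aC a k1.1 k1.2) (aC a k2.1 k2.2))
    (hr' : (SG Λ D w).Reachable (aC a k3.1 k3.2) (aC a k4.1 k4.2)) :
    (Xor (LL k1 k3) (LL k2 k3)) ↔ (Xor (LL k1 k4) (LL k2 k4)) := by
  classical
  have b1 := hB _ h1
  have b2 := hB _ h2
  have b3 := hB _ h3
  obtain ⟨o1, ho1⟩ := b1.2
  obtain ⟨o2, ho2⟩ := b2.2
  have hne : aC a k1.1 k1.2 ≠ aC a k2.1 k2.2 := fun h => n12 (aC_inj2 h1 h2 h)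
  obtain ⟨S, s1, s2, s3, s4⟩ := exists_sep hr hne ho1 ho2 (hT _ _ ho1 ho2) hD hDo
  have hoff : ∀ c, Bd Λ c → c ≠ aC a k1.1 k1.2 → c ≠ aC a k2.1 k2.2 →
      ¬ (SG Λ D w).Reachable (aC a k1.1 k1.2) c := by
    intro c hc e1 e2 h
    rcases ends_two SG_deg2 b1.isEnd b2.isEnd hc.isEnd hr h hne with k | k
    · exact e1 k
    · exact e2 k
  have jump : ∀ c p q, Jn c p q → S (pb c) = S (pa c) + 1 → S q = S p + 1 := by
    rintro c p q (⟨rfl, rfl⟩ | ⟨rfl, rfl⟩) h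
    · exact h
    · rw [h]
      have := z2_add_self (1 : ZMod 2)
      linear_combination -this
  have flat : ∀ c p q, Jn c p q → S (pb c) = S (pa c) → S q = S p := by
    rintro c p q (⟨rfl, rfl⟩ | ⟨rfl, rfl⟩) h
    · exact h
    · exact h.symm
  have hS : ∀ k, KO2 y0 y1 a k → ∀ p q, Jn (aC a k.1 k.2) p q →
      S q = S p + (if k = k1 then 1 else 0) + (if k = k2 then 1 else 0) := by
    intro k hk p q hj
    by_cases c1 : k = k1
    · subst c1
      rw [if_pos rfl, if_neg n12, add_zero]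
      exact jump _ _ _ hj s2
    · by_cases c2 : k = k2
      · subst c2
        rw [if_neg c1, if_pos rfl, add_zero]
        exact jump _ _ _ hj s3
      · rw [if_neg c1, if_neg c2, add_zero, add_zero]
        have hb := hB _ hk
        exact flat _ _ _ hj (s1 _ hb.1 (hoff _ hb (fun e => c1 (aC_inj2 hk h1 e))
          (fun e => c2 (aC_inj2 hk h2 e))))
  have hoff3 := hoff _ b3 (fun e => n31 (aC_inj2 h3 h1 e)) (fun e => n32 (aC_inj2 h3 h2 e))
  have e34 := s4 _ _ hr' b3.1 hoff3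
  have val : ∀ k, KO2 y0 y1 a k → k ≠ k1 → k ≠ k2 → S (pa (aC a k.1 k.2)) = S (aP a k.1 k.2) := by
    intro k hk c1 c2
    have hJ : ∃ q, Jn (aC a k.1 k.2) (aP a k.1 k.2) q := by
      by_cases c : k.2 = ln a k.1
      · rw [c]; exact ⟨_, Jn_vert a k.1⟩
      · exact ⟨_, Jn_hor a c⟩
    obtain ⟨q, hq⟩ := hJ
    have hb := hB _ hk
    have hf := s1 _ hb.1 (hoff _ hb (fun e => c1 (aC_inj2 hk h1 e)) (fun e => c2 (aC_inj2 hk h2 e)))
    rcases hq with ⟨e1, -⟩ | ⟨-, e2⟩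
    · rw [e1]
    · rw [← e2, hf]
  have n41 : k4 ≠ k1 := by
    rintro rfl
    exact hoff3 hr'.symm
  have n42 : k4 ≠ k2 := by
    rintro rfl
    exact hoff3 (hr.trans hr'.symm)
  have P3 := pot2 (Or.inl h1) (Or.inl h2) hS h3.1 h3.2.1 h3.2.2.1 h3.2.2.2.1
  have P4 := pot2 (Or.inl h1) (Or.inl h2) hS h4.1 h4.2.1 h4.2.2.1 h4.2.2.2.1
  rw [val k3 h3 n31 n32, val k4 h4 n41 n42, P3, P4] at e34
  have e5 : ((if LL k1 k3 then 1 else 0 : ZMod 2) + (if LL k2 k3 then 1 else 0)) =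
      (if LL k1 k4 then 1 else 0) + (if LL k2 k4 then 1 else 0) := by
    linear_combination e34
  by_cases c1 : LL k1 k3 <;> by_cases c2 : LL k2 k3 <;> by_cases c3 : LL k1 k4 <;>
    by_cases c4 : LL k2 k4 <;> simp only [c1, c2, c3, c4, if_true, if_false] at e5 ⊢ <;>
    first
    | (exfalso; revert e5; decide)
    | simp [Xor]

/-- four sides in the order of the arc: the strands do not cross -/
theorem arc_planar4 (hB : ∀ k, KO2 y0 y1 a k → Bd Λ (aC a k.1 k.2)) {k1 k2 k3 k4 : ℤ × ℤ}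
    (h1 : KO2 y0 y1 a k1) (h2 : KO2 y0 y1 a k2) (h3 : KO2 y0 y1 a k3) (h4 : KO2 y0 y1 a k4)
    (l12 : LL k1 k2) (l23 : LL k2 k3) (l34 : LL k3 k4)
    (hT : ∀ o o', OutT Λ (aC a k1.1 k1.2) o → OutT Λ (aC a k3.1 k3.2) o' → TC Λ o o')
    (hD : ∀ e ∈ Λ, e ∈ D → eW e ≠ aC a k1.1 k1.2 ∧ eE e ≠ aC a k1.1 k1.2 ∧
      eW e ≠ aC a k3.1 k3.2 ∧ eE e ≠ aC a k3.1 k3.2)
    (hDo : ∀ e ∈ Λ, e ∈ D → (e.1 + e.2) % 2 = 1)
    (hr : (SG Λ D w).Reachable (aC a k1.1 k1.2) (aC a k3.1 k3.2))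
    (hr' : (SG Λ D w).Reachable (aC a k2.1 k2.2) (aC a k4.1 k4.2)) : False := by
  have ne : ∀ {p q : ℤ × ℤ}, LL p q → p ≠ q := by
    rintro p q h rfl
    unfold LL at h; omega
  have tr : ∀ {p q r : ℤ × ℤ}, LL p q → LL q r → LL p r := by
    intro p q r h h'
    unfold LL at *; omega
  have h := arc_planar hB h1 h3 h2 h4 (ne (tr l12 l23)) (ne l12).symm (ne l23) hT hD hDo hr hr'
  have a1 : ¬ LL k3 k2 := l23.asymm
  have a2 : LL k1 k4 := tr (tr l12 l23) l34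
  simp [Xor, l12, a1, a2, l34] at h

end arc2

end Pool.Agent.H47.W
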