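import Pool.Agent.H47.W.Room7
import Pool.Agent.H47.W.Room11
import Pool.Agent.H21.W.RoomIn
import Pool.Agent.H33.FM.Wires

set_option autoImplicit false
open Finset

/-! # Planarity of the strand graph, part 12: polygon without a room

`Rem C n s` : the tiles of the room `C` (rows `s, .., s + n H - 1`) and the layer tiles of its right wall.
`LamX Λ0 C n s = Λ0 \ Rem C n s` for the region `Λ0` of a polygon with wall layers. The boundary of `LamX` :
the arc between room and walls (`aR`), then the outer boundary of the polygon. -/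

namespace Pool.Agent.H47.W

open Pool.Agent.H75.Perc hiding WL CT hh PB
open Pool.Agent.H75.TwoArm Pool.Agent.H99.W Pool.Agent.H13.W
open Pool.Agent.H33.Q1
open Pool.Agent.Q1.M4 (Cell Good IsSide nextSide tail head PType Adj4 Conn4)
open Pool.Agent.H54.W (CD)
open Pool.Agent.H21.W (RP)

lemma dir_cg {k l : ℤ} (h : k % 4 = l % 4) : dir k = dir l := by
  rcases dir_cases k with ⟨a, e⟩ | ⟨a, e⟩ | ⟨a, e⟩ | ⟨a, e⟩ <;>
  rcases dir_cases l with ⟨b, f⟩ | ⟨b, f⟩ | ⟨b, f⟩ | ⟨b, f⟩ <;>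
  first
  | (exfalso; omega)
  | rw [e, f]

/-! ### Partial versions of the walk along the outer boundary -/

section partial_walk

variable {P : PType} {n : ℤ} {Λ M : Set (ℤ × ℤ)}

lemma BC_step' (hf : ∀ p, FarT n P.Q p → lt p ∉ Λ) (hM : MOk P n M) {p : ℤ × ℤ} {k : ℤ}
    (h1 : lt (p + io k) ∈ Λ) (h2 : FarT n P.Q (p + io k + dir (k - 1))) :
    BC Λ M p (p + dir k) :=
  BC.single (Jn_sd p k) (Bd_sd fun h => hf _ h2 (h.1 h1)) (side_ok hM h2)

/-- along the outer line of a side -/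
lemma BC_line' (hn : 4 ≤ n) (hf : ∀ p, FarT n P.Q p → lt p ∉ Λ) (hM : MOk P n M) (i : ℕ)
    (hl : ∀ j, 0 ≤ j → j < n → lt (ott n (P.side i) j 1) ∈ Λ) {a b : ℤ}
    (h0 : r0 P.Q (P.side i) ≤ a) (hab : a ≤ b) (h1 : b ≤ r1 P.Q n (P.side i)) :
    BC Λ M (ol n (P.side i) a) (ol n (P.side i) b) := by
  obtain ⟨m, rfl⟩ : ∃ m : ℕ, b = a + m := ⟨(b - a).toNat, by omega⟩
  induction m with
  | zero => simpa using BC.refl Λ M (ol n (P.side i) a)
  | succ m ih =>
    push_cast at h1 hab ⊢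
    refine (ih (by omega) (by omega)).trans ?_
    set s := P.side i with hs
    set j := a + (m : ℤ) with hj
    have hr0 := r0_range P.Q s
    have hr1 := r1_range P.Q n s
    have e1 : a + ((m : ℤ) + 1) = j + 1 := by omega
    rw [e1, ol_succ]
    obtain ⟨t1, t2⟩ := ol_tile n s j
    refine BC_step' hf hM ?_ ?_
    · rw [t1]
      exact hl j (by omega) (by omega)
    · rw [t2]
      have hside := isSide_side' P i
      refine far_row2 hn hside.2 (by omega) (by omega) ?_ ?_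
      · intro k0 k1
        unfold r0 at h0
        rw [if_pos k1] at h0
        omega
      · intro k0 k1
        unfold r1 at h1
        rw [if_pos k1] at h1
        omega

/-- around a vertex -/
lemma BC_vertex' (hn : 4 ≤ n) (hf : ∀ p, FarT n P.Q p → lt p ∉ Λ) (hM : MOk P n M) (i : ℕ)
    (hd : P.side (i + 1) = ((P.side i).1, (P.side i).2 + 1) → lt (ott n (P.side i) n 1) ∈ Λ) :
    BC Λ M (ol n (P.side i) (r1 P.Q n (P.side i))) (ol n (P.side (i + 1)) (r0 P.Q (P.side (i + 1)))) := by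
  have hside := isSide_side' P i
  rw [side_succ] at hd ⊢
  set s := P.side i with hs
  have hw := wp_next P.Q n s
  rcases next_cases P.Q s with ⟨h1, h2⟩ | ⟨h1, h2, h3⟩ | ⟨h1, h2, h3⟩
  · rw [h2] at hw ⊢
    have e1 : r1 P.Q n s = n - 1 := by unfold r1; rw [if_pos h1]
    have e2 : r0 P.Q (s.1 + dir s.2 + dir (s.2 - 1), s.2 - 1) = 1 := by
      unfold r0
      rw [if_pos]
      have : s.1 + dir s.2 + dir (s.2 - 1) + dir (s.2 - 1 - 1) - dir (s.2 - 1) = s.1 := by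
        rcases io_dir s.2 with ⟨a, -, c, d⟩ | ⟨a, -, c, d⟩ | ⟨a, -, c, d⟩ | ⟨a, -, c, d⟩ <;>
        rcases dir_cases (s.2 - 1 - 1) with ⟨a', c'⟩ | ⟨a', c'⟩ | ⟨a', c'⟩ | ⟨a', c'⟩ <;>
        first
        | (exfalso; omega)
        | (rw [c, d, c']; refine Prod.ext ?_ ?_ <;> simp)
      show s.1 + dir s.2 + dir (s.2 - 1) + dir (s.2 - 1 - 1) - dir (s.2 - 1) ∈ P.Q
      rw [this]
      exact hside.1
    rw [e1, e2]
    have e3 : ol n s (n - 1) = ol n (s.1 + dir s.2 + dir (s.2 - 1), s.2 - 1) 1 := by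
      have h4 := ol_succ n (s.1 + dir s.2 + dir (s.2 - 1), s.2 - 1) 0
      rw [zero_add] at h4
      rw [h4]
      have h5 := ol_succ n s (n - 1)
      rw [sub_add_cancel] at h5
      have h6 : ol n s (n - 1) = ol n s n - dir s.2 := by rw [h5, add_sub_cancel_right]
      rw [h6]
      unfold ol
      rw [hw]
      rcases io_dir s.2 with ⟨a, -, c, d⟩ | ⟨a, -, c, d⟩ | ⟨a, -, c, d⟩ | ⟨a, -, c, d⟩ <;>
        rcases dir_cases (s.2 - 1 - 1) with ⟨a', c'⟩ | ⟨a', c'⟩ | ⟨a', c'⟩ | ⟨a', c'⟩ <;>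
        first
        | (exfalso; omega)
        | (simp only [c, d, c']; refine Prod.ext ?_ ?_ <;> simp [sub_eq_add_neg])
    rw [e3]
    exact BC.refl _ _ _
  · rw [h3] at hw ⊢
    have e1 : r1 P.Q n s = n := by unfold r1; rw [if_neg h1]
    have e2 : r0 P.Q (s.1 + dir s.2, s.2) = 0 := by
      unfold r0
      rw [if_neg]
      have : s.1 + dir s.2 + dir (s.2 - 1) - dir s.2 = s.1 + dir (s.2 - 1) := by abel
      show s.1 + dir s.2 + dir (s.2 - 1) - dir s.2 ∉ P.Q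
      rw [this]
      exact hside.2
    rw [e1, e2]
    have e3 : ol n (s.1 + dir s.2, s.2) 0 = ol n s n := by
      unfold ol
      rw [hw]
    rw [e3]
    exact BC.refl _ _ _
  · have hdg := hd h3
    rw [h3] at hw ⊢
    have e1 : r1 P.Q n s = n := by unfold r1; rw [if_neg h1]
    have e2 : r0 P.Q (s.1, s.2 + 1) = 0 := by
      unfold r0
      rw [if_neg]
      have : s.1 + dir (s.2 + 1 - 1) - dir (s.2 + 1) = s.1 + dir s.2 + dir (s.2 - 1) := by
        rw [add_sub_cancel_right]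
        rcases io_dir s.2 with ⟨a, -, c, d⟩ | ⟨a, -, c, d⟩ | ⟨a, -, c, d⟩ | ⟨a, -, c, d⟩ <;>
        rcases dir_cases (s.2 + 1) with ⟨a', c'⟩ | ⟨a', c'⟩ | ⟨a', c'⟩ | ⟨a', c'⟩ <;>
        first
        | (exfalso; omega)
        | (rw [c, d, c']; refine Prod.ext ?_ ?_ <;> simp [sub_eq_add_neg])
      show s.1 + dir (s.2 + 1 - 1) - dir (s.2 + 1) ∉ P.Q
      rw [this]
      exact h1
    rw [e1, e2]
    obtain ⟨f1, f2, -⟩ := far_dg hn hside.2 h2 h1
    obtain ⟨t1, t2⟩ := ol_tile n s n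
    have b1 : BC Λ M (ol n s n) (ol n s n + dir s.2) := by
      refine BC_step' hf hM ?_ ?_
      · rw [t1]; exact hdg
      · rw [t2]; exact f1
    -- second side of the diagonal tile
    set p := ol n s n + dir s.2 with hp
    have t3 : p + io (s.2 + 1) = ott n s n 1 ∧ p + io (s.2 + 1) + dir (s.2 + 1 - 1) = ott n s (n + 1) 1 ∧
        p + dir (s.2 + 1) = ol n (s.1, s.2 + 1) 0 := by
      have hx : ott n s (n + 1) 1 = ott n s n 1 + dir s.2 := by
        have := ott_add n s n 1 1 0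
        rw [add_zero] at this
        rw [this]
        refine Prod.ext ?_ ?_ <;> simp
      have hy : ol n (s.1, s.2 + 1) 0 = wp n s n + dir s.2 := by
        unfold ol
        rw [hw, add_sub_cancel_right]
      rw [hx, hy, ← t1, hp]
      unfold ol
      rw [add_sub_cancel_right]
      rcases io_dir s.2 with ⟨a, b, c, d⟩ | ⟨a, b, c, d⟩ | ⟨a, b, c, d⟩ | ⟨a, b, c, d⟩ <;>
        rcases io_dir (s.2 + 1) with ⟨a', b', c', -⟩ | ⟨a', b', c', -⟩ | ⟨a', b', c', -⟩ | ⟨a', b', c', -⟩ <;>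
        first
        | (exfalso; omega)
        | (rw [b, c, d, b', c']; refine ⟨?_, ?_, ?_⟩ <;> refine Prod.ext ?_ ?_ <;> simp)
    have b2 : BC Λ M p (p + dir (s.2 + 1)) := by
      refine BC_step' hf hM ?_ ?_
      · rw [t3.1]; exact hdg
      · rw [t3.2.1]; exact f2
    rw [t3.2.2] at b2
    exact b1.trans b2

/-- the outer boundary between two sides -/
theorem BC_arc' (hn : 4 ≤ n) (hf : ∀ p, FarT n P.Q p → lt p ∉ Λ) (hM : MOk P n M) {i i' : ℕ}
    (hii : i ≤ i') (hl : ∀ t, i ≤ t → t ≤ i' → ∀ j, 0 ≤ j → j < n → lt (ott n (P.side t) j 1) ∈ Λ)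
    (hd : ∀ t, i ≤ t → t < i' → P.side (t + 1) = ((P.side t).1, (P.side t).2 + 1) →
      lt (ott n (P.side t) n 1) ∈ Λ) {a : ℤ} (ha0 : r0 P.Q (P.side i) ≤ a)
    (ha1 : a ≤ r1 P.Q n (P.side i)) :
    BC Λ M (ol n (P.side i) a) (ol n (P.side i') (r1 P.Q n (P.side i'))) := by
  obtain ⟨m, rfl⟩ : ∃ m : ℕ, i' = i + m := ⟨i' - i, by omega⟩
  induction m with
  | zero => exact BC_line' hn hf hM i (hl i le_rfl le_rfl) ha0 ha1 le_rfl
  | succ m ih =>
    refine (ih (by omega) (fun t h1 h2 => hl t h1 (by omega))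
      (fun t h1 h2 => hd t h1 (by omega))).trans ?_
    change BC Λ M _ (ol n (P.side (i + m + 1)) (r1 P.Q n (P.side (i + m + 1))))
    refine (BC_vertex' hn hf hM (i + m) (hd _ (by omega) (by omega))).trans ?_
    have h1 := r0_range P.Q (P.side (i + m + 1))
    have h2 := r1_range P.Q n (P.side (i + m + 1))
    exact BC_line' hn hf hM (i + m + 1) (hl _ (by omega) (by omega)) le_rfl (by omega) le_rfl

/-- the layer tile of the next side at a convex vertex -/
lemma next_first {i : ℕ} (hc : P.side (i + 1) = ((P.side i).1, (P.side i).2 + 1)) :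
    ott n (P.side (i + 1)) 0 1 = ott n (P.side i) n 0 := by
  have h3 : wp n (P.side (i + 1)) 0 = wp n (P.side i) n := by rw [side_succ]; exact wp_next _ _ _
  rw [ott_one, ott_zero]
  unfold ot it
  rw [h3, hc]
  simp only
  rw [add_sub_cancel_right]
  rcases io_dir (P.side i).2 with ⟨a, b, c, -⟩ | ⟨a, b, c, -⟩ | ⟨a, b, c, -⟩ | ⟨a, b, c, -⟩ <;>
    rcases io_dir ((P.side i).2 + 1) with ⟨a', b', -, -⟩ | ⟨a', b', -, -⟩ | ⟨a', b', -, -⟩ |
      ⟨a', b', -, -⟩ <;>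
    first
    | (exfalso; omega)
    | (rw [b, c, b']; refine Prod.ext ?_ ?_ <;> simp)

/-- a mark side is a boundary side if its layer tile is in the region -/
lemma mkS_bd' {s : Cell × ℤ} {b : Bool} (h : lt (if b then ott n s n 0 else ott n s (n - 1) 1) ∈ Λ)
    (h' : lt (ott n s n 1) ∉ Λ) : Bd Λ (mkS n s b) := by
  obtain ⟨t, ht, h1⟩ := tiles_mkS n s b
  rw [← ht] at h
  unfold Bd InT OutT
  rcases h1 with ⟨e1, e2⟩ | ⟨e1, e2⟩ <;> rw [e1, e2]
  · exact ⟨Or.inl h, _, h', Or.inr rfl⟩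
  · exact ⟨Or.inr h, _, h', Or.inl rfl⟩

/-- the outer tile of a mark side -/
lemma mkS_out' {s : Cell × ℤ} {b : Bool} {o : ℤ × ℤ} (hi : InT Λ (mkS n s b))
    (h' : lt (ott n s n 1) ∉ Λ) (ho : OutT Λ (mkS n s b) o) : o = lt (ott n s n 1) := by
  obtain ⟨t, -, h1⟩ := tiles_mkS n s b
  unfold InT at hi
  unfold OutT at ho
  rcases h1 with ⟨e1, e2⟩ | ⟨e1, e2⟩ <;> rw [e1, e2] at ho hi
  · have h3 : lt t ∈ Λ := hi.resolve_right h'
    rcases ho with ⟨h4, rfl | rfl⟩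
    · exact absurd h3 h4
    · rfl
  · have h3 : lt t ∈ Λ := hi.resolve_left h'
    rcases ho with ⟨h4, rfl | rfl⟩
    · rfl
    · exact absurd h3 h4

end partial_walk

/-! ### The cut region -/

/-- the tiles of the room and the layer tiles of its right wall -/
def Rem (C : CD) (n s : ℤ) : Set (ℤ × ℤ) :=
  {e | ∃ x y, e = lt (x, y + s) ∧ (RP C n x y ∨ (x = n * C.W ∧ 0 ≤ y ∧ y < n * C.H))}

/-- the region without the room -/
def LamX (Λ0 : Set (ℤ × ℤ)) (C : CD) (n s : ℤ) : Set (ℤ × ℤ) := {e | e ∈ Λ0 ∧ e ∉ Rem C n s}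

/-- the arc between the room and its walls -/
def aR (C : CD) (n s eS eN : ℤ) (Y : ℤ) : ℤ :=
  if Y < s then n * C.W + eS else if Y < s + n * C.H then n * C.A ((Y - s) / n) else n * C.W + eN

/-- **Hypotheses**: a polygon with wall layers, the room, the first side `t0` of its right wall, the sides
`u 0, u 1, u 2` before the three marks. -/
structure CutH (P : PType) (n : ℤ) (mk : ℕ → Prop) (Λ0 : Set (ℤ × ℤ)) (C : CD) (y0 : ℤ) (t0 : ℕ)
    (u : Fin 3 → ℕ) : Prop where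
  hn : 8 ≤ n
  hL : LamV P n mk Λ0
  full : ∀ p, ct n p ∈ P.Q → lt p ∈ Λ0
  inn : ∀ X Y, 0 ≤ Y → Y < C.H → C.A Y ≤ X → X < C.W → (X, y0 + Y) ∈ P.Q
  rt : ∀ Y, -1 ≤ Y → Y ≤ C.H → (C.W, y0 + Y) ∉ P.Q
  t0c : (P.side t0).1 = (C.W - 1, y0)
  t0k : (P.side t0).2 % 4 = 1
  u0 : t0 + C.H.toNat ≤ u 0 + 1
  u01 : u 0 < u 1
  u12 : u 1 < u 2
  u2 : u 2 < t0 + P.N
  um : ∀ i, mk (u i + 1)
  uo : ∀ t, t0 < t → t ≤ t0 + P.N → mk t → ∃ i, t = u i + 1

namespace CutH

variable {P : PType} {n : ℤ} {mk : ℕ → Prop} {Λ0 : Set (ℤ × ℤ)} {C : CD} {y0 : ℤ} {t0 : ℕ}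
  {u : Fin 3 → ℕ} (H : CutH P n mk Λ0 C y0 t0 u)

include H

lemma hp : 0 < n := by have := H.hn; omega

/-- a tile with a neighbour in the polygon belongs to the region -/
lemma near_mem {p : ℤ × ℤ} {k : ℤ} (h : ct n (p + dir k) ∈ P.Q) : lt p ∈ Λ0 := by
  have hp := H.hp
  by_cases h0 : ct n p ∈ P.Q
  · exact H.full p h0
  have h1 := ct_add_dir hp (k := k) (rfl : ct n (p + dir k) = ct n (p + dir k))
  have h2 : ct n p = ct n (p + dir k) - dir k := by
    rcases h1 with h1 | h1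
    · exact absurd (h1 ▸ h) h0
    · exact h1
  have hd : dir (k + 3 - 1) = -dir k := by
    rcases dir_cases k with ⟨a, e⟩ | ⟨a, e⟩ | ⟨a, e⟩ | ⟨a, e⟩ <;>
    rcases dir_cases (k + 3 - 1) with ⟨b, f⟩ | ⟨b, f⟩ | ⟨b, f⟩ | ⟨b, f⟩ <;>
    first
    | (exfalso; omega)
    | (rw [e, f]; refine Prod.ext ?_ ?_ <;> simp)
  have hs : IsSide P.Q (ct n (p + dir k), k + 3) := by
    refine ⟨h, ?_⟩
    show ct n (p + dir k) + dir (k + 3 - 1) ∉ P.Q
    rw [hd, ← sub_eq_add_neg, ← h2]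
    exact h0
  obtain ⟨i, -, h3, h4⟩ := P.all _ hs
  have h3 : (P.side i).1 = ct n (p + dir k) := h3
  have h4 : ((P.side i).2 - (k + 3)) % 4 = 0 := h4
  have h5 : lt p ∈ LY n (P.side i) := by
    rw [mem_LY hp, tt_lt]
    have hd' : dir ((P.side i).2 - 1) = -dir k := by
      rw [← hd]; exact dir_cg (by omega)
    refine ⟨lt_odd p, ?_, ?_⟩
    · rw [hd', h3, ← sub_eq_add_neg]; exact h2
    · rw [hd', h3, sub_neg_eq_add]
  rw [mem_LY' hp] at h5
  obtain ⟨j, ⟨j0, j1⟩, h6⟩ := h5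
  rw [h6, ← ott_one]
  exact H.hL.lay i j j0 j1

lemma A_lt {Y : ℤ} (h1 : 0 ≤ Y) (h2 : Y < n * C.H) : n * C.A (Y / n) + n ≤ n * C.W := by
  have hp := H.hp
  have a1 : 0 ≤ Y / n := Int.ediv_nonneg h1 hp.le
  have a2 : Y / n < C.H := (Int.ediv_lt_iff_lt_mul hp).2 (by linarith [mul_comm n C.H])
  have := C.AW _ a1 a2
  nlinarith

omit H in
lemma mem_Rem {x Y s : ℤ} : vt x Y ∈ Rem C n s ↔
    RP C n x (Y - s) ∨ (x = n * C.W ∧ 0 ≤ Y - s ∧ Y - s < n * C.H) := by
  rw [vt_eq_lt]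
  constructor
  · rintro ⟨x', y', h1, h2⟩
    have h3 := lt_inj h1
    rw [Prod.mk.injEq] at h3
    obtain ⟨rfl, rfl⟩ := h3
    rw [add_sub_cancel_right]
    exact h2
  · intro h
    exact ⟨x, Y - s, by rw [sub_add_cancel], h⟩

/-- rows of the removed tiles -/
lemma mem_Rem' {x Y s eS eN : ℤ} : vt x Y ∈ Rem C n s ↔
    s ≤ Y ∧ Y < s + n * C.H ∧ aR C n s eS eN Y ≤ x ∧ x ≤ n * C.W := by
  rw [mem_Rem]
  unfold RP
  constructor
  · intro h
    have h1 : s ≤ Y := by rcases h with h | h <;> omega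
    have h2 : Y < s + n * C.H := by rcases h with h | h <;> omega
    refine ⟨h1, h2, ?_, ?_⟩
    · unfold aR
      rw [if_neg (by omega), if_pos h2]
      rcases h with h | h
      · exact h.2.2.1
      · have := H.A_lt (Y := Y - s) (by omega) (by omega)
        have := H.hp
        omega
    · rcases h with h | h <;> omega
  · rintro ⟨h1, h2, h3, h4⟩
    unfold aR at h3
    rw [if_neg (by omega), if_pos h2] at h3
    by_cases c : x = n * C.W
    · right; exact ⟨c, by omega, by omega⟩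
    · left; exact ⟨by omega, by omega, h3, by omega⟩

/-- the tiles of the room are in the polygon -/
lemma room_ct {x Y : ℤ} (h : RP C n x (Y - n * y0)) : ct n (x, Y) ∈ P.Q := by
  have hp := H.hp
  obtain ⟨h1, h2, h3, h4⟩ := h
  have a1 : 0 ≤ (Y - n * y0) / n := Int.ediv_nonneg h1 hp.le
  have a2 : (Y - n * y0) / n < C.H := (Int.ediv_lt_iff_lt_mul hp).2 (by linarith [mul_comm n C.H])
  have e : ct n (x, Y) = (x / n, y0 + (Y - n * y0) / n) := by
    unfold ct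
    refine Prod.ext rfl ?_
    simp only
    have : Y = (Y - n * y0) + n * y0 := by ring
    conv_lhs => rw [this, Int.add_mul_ediv_left _ _ hp.ne']
    ring
  rw [e]
  refine H.inn _ _ a1 a2 ?_ ?_
  · rw [Int.le_ediv_iff_mul_le hp, mul_comm]; exact h3
  · rw [Int.ediv_lt_iff_lt_mul hp, mul_comm]; exact h4

/-- the removed tiles belong to the region -/
lemma Rem_sub {e : ℤ × ℤ} (h : e ∈ Rem C n (n * y0)) : e ∈ Λ0 := by
  have hp := H.hp
  obtain ⟨x, y, rfl, h⟩ := h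
  rcases h with h | ⟨rfl, h1, h2⟩
  · exact H.full _ (H.room_ct (by rw [add_sub_cancel_right]; exact h))
  · refine H.near_mem (k := 2) ?_
    have e : ((n * C.W, y + n * y0) + dir 2 : ℤ × ℤ) = (n * C.W - 1, y + n * y0) := by
      rcases dir_cases 2 with ⟨a, e⟩ | ⟨a, e⟩ | ⟨a, e⟩ | ⟨a, e⟩ <;> first | omega | skip
      rw [e]; refine Prod.ext ?_ ?_ <;> simp [sub_eq_add_neg]
    rw [e]
    refine H.room_ct ⟨by omega, by omega, ?_, by omega⟩
    have := H.A_lt (Y := y) h1 h2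
    rw [add_sub_cancel_right]
    omega

end CutH

end Pool.Agent.H47.W
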