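import Pool.Agent.H47.W.Room12

set_option autoImplicit false
open Finset

/-! # Planarity of the strand graph, part 13: the boundary of a polygon without a room -/

namespace Pool.Agent.H47.W

open Pool.Agent.H75.Perc hiding WL CT hh PB
open Pool.Agent.H75.TwoArm Pool.Agent.H99.W Pool.Agent.H13.W
open Pool.Agent.H33.Q1
open Pool.Agent.Q1.M4 (Cell Good IsSide nextSide tail head PType Adj4 Conn4)
open Pool.Agent.H54.W (CD)
open Pool.Agent.H21.W (RP)

/-- the corner tiles at the right wall -/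
structure Ends (C : CD) (n s eS eN : ℤ) (Λ0 : Set (ℤ × ℤ)) : Prop where
  s01 : eS = 0 ∨ eS = 1
  n01 : eN = 0 ∨ eN = 1
  se : eS = 1 ↔ vt (n * C.W) (s - 1) ∈ Λ0
  ne : eN = 1 ↔ vt (n * C.W) (s + n * C.H) ∈ Λ0

open Classical in
lemma exists_ends (C : CD) (n s : ℤ) (Λ0 : Set (ℤ × ℤ)) : ∃ eS eN, Ends C n s eS eN Λ0 := by
  refine ⟨if vt (n * C.W) (s - 1) ∈ Λ0 then 1 else 0,
    if vt (n * C.W) (s + n * C.H) ∈ Λ0 then 1 else 0, ?_, ?_, ?_, ?_⟩
  · split_ifs <;> simp
  · split_ifs <;> simp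
  · split_ifs with h <;> simp [h]
  · split_ifs with h <;> simp [h]

/-- the two tiles of a side are `r` and `o` -/
def Two (c r o : ℤ × ℤ) : Prop := (lab c = lt r ∧ plab c = lt o) ∨ (lab c = lt o ∧ plab c = lt r)

lemma Two_vt (x Y : ℤ) : Two (vt x Y) (x, Y) (x - 1, Y) := by
  have := tiles_vt x Y
  rw [vt_eq_lt (x - 1) Y] at this
  unfold Two
  rw [vt_eq_lt] at this ⊢
  exact this

lemma Two_hz (x Y : ℤ) : Two (hz x Y) (x, Y) (x, Y - 1) := by
  have := tiles_hz x Y
  rw [vt_eq_lt x (Y - 1), vt_eq_lt] at this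
  exact this

lemma Two.symm {c r o : ℤ × ℤ} (h : Two c r o) : Two c o r := Or.symm h

lemma Two.bd {Λ : Set (ℤ × ℤ)} {c r o : ℤ × ℤ} (h : Two c r o) (hr : lt r ∉ Λ) (ho : lt o ∈ Λ) :
    Bd Λ c := by
  unfold Bd InT OutT
  rcases h with ⟨e1, e2⟩ | ⟨e1, e2⟩ <;> rw [e1, e2]
  · exact ⟨Or.inr ho, _, hr, Or.inl rfl⟩
  · exact ⟨Or.inl ho, _, hr, Or.inr rfl⟩

lemma Two.out {Λ : Set (ℤ × ℤ)} {c r o e : ℤ × ℤ} (h : Two c r o) (ho : lt o ∈ Λ)
    (he : OutT Λ c e) : e = lt r := by
  unfold OutT at he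
  rcases h with ⟨e1, e2⟩ | ⟨e1, e2⟩ <;> rw [e1, e2] at he
  · rcases he with ⟨h1, h2 | h2⟩
    · exact h2
    · exact absurd (h2 ▸ ho) h1
  · rcases he with ⟨h1, h2 | h2⟩
    · exact absurd (h2 ▸ ho) h1
    · exact h2

namespace CutH

variable {P : PType} {n : ℤ} {mk : ℕ → Prop} {Λ0 : Set (ℤ × ℤ)} {C : CD} {y0 : ℤ} {t0 : ℕ}
  {u : Fin 3 → ℕ} (H : CutH P n mk Λ0 C y0 t0 u) {eS eN : ℤ}
  (E : Ends C n (n * y0) eS eN Λ0)

include H

omit H in
lemma aa_mid {Y : ℤ} (h1 : n * y0 ≤ Y) (h2 : Y < n * y0 + n * C.H) :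
    (aR C n (n * y0) eS eN) Y = n * C.A ((Y - n * y0) / n) := by
  unfold aR; rw [if_neg (by omega), if_pos h2]

lemma nH_ge : n ≤ n * C.H := by
  have := C.H0
  have := H.hp
  nlinarith

lemma aa_le {Y : ℤ} (h1 : n * y0 ≤ Y) (h2 : Y < n * y0 + n * C.H) : (aR C n (n * y0) eS eN) Y + n ≤ n * C.W := by
  rw [aa_mid h1 h2]
  exact H.A_lt (by omega) (by omega)

omit H in
lemma aa_bot : (aR C n (n * y0) eS eN) (n * y0 - 1) = n * C.W + eS := by
  unfold aR; rw [if_pos (by omega)]

lemma aa_top : (aR C n (n * y0) eS eN) (n * y0 + n * C.H) = n * C.W + eN := by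
  have := H.nH_ge
  have := H.hp
  unfold aR; rw [if_neg (by omega), if_neg (by omega)]

/-- tiles of the room are in the polygon -/
lemma aa_ct {x Y : ℤ} (h1 : n * y0 ≤ Y) (h2 : Y < n * y0 + n * C.H) (h3 : (aR C n (n * y0) eS eN) Y ≤ x)
    (h4 : x < n * C.W) : ct n (x, Y) ∈ P.Q := by
  rw [aa_mid h1 h2] at h3
  exact H.room_ct ⟨by omega, by omega, h3, h4⟩

omit H in
lemma dir_vals : dir 0 = (1, 0) ∧ dir 1 = (0, 1) ∧ dir 2 = (-1, 0) ∧ dir 3 = (0, -1) := by
  refine ⟨?_, ?_, ?_, ?_⟩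
  · rcases dir_cases 0 with ⟨a, e⟩ | ⟨a, e⟩ | ⟨a, e⟩ | ⟨a, e⟩ <;> first | exact e | omega
  · rcases dir_cases 1 with ⟨a, e⟩ | ⟨a, e⟩ | ⟨a, e⟩ | ⟨a, e⟩ <;> first | exact e | omega
  · rcases dir_cases 2 with ⟨a, e⟩ | ⟨a, e⟩ | ⟨a, e⟩ | ⟨a, e⟩ <;> first | exact e | omega
  · rcases dir_cases 3 with ⟨a, e⟩ | ⟨a, e⟩ | ⟨a, e⟩ | ⟨a, e⟩ <;> first | exact e | omega

lemma mem_up {x Y : ℤ} (h : ct n (x, Y + 1) ∈ P.Q) : lt (x, Y) ∈ Λ0 :=
  H.near_mem (k := 1) (by
    rw [dir_vals.2.1]
    have : ((x, Y) + (0, 1) : ℤ × ℤ) = (x, Y + 1) := by simp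
    rw [this]; exact h)

lemma mem_dn {x Y : ℤ} (h : ct n (x, Y - 1) ∈ P.Q) : lt (x, Y) ∈ Λ0 :=
  H.near_mem (k := 3) (by
    rw [dir_vals.2.2.2]
    have : ((x, Y) + (0, -1) : ℤ × ℤ) = (x, Y - 1) := by simp [sub_eq_add_neg]
    rw [this]; exact h)

lemma mem_rt {x Y : ℤ} (h : ct n (x + 1, Y) ∈ P.Q) : lt (x, Y) ∈ Λ0 :=
  H.near_mem (k := 0) (by
    rw [dir_vals.1]
    have : ((x, Y) + (1, 0) : ℤ × ℤ) = (x + 1, Y) := by simp
    rw [this]; exact h)

include E

/-- **The sides of the arc**: a removed tile `r` and a tile `o` of the cut region, both near a tile `q` of the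
polygon. -/
lemma arc_tiles {k : ℤ × ℤ} (hk : KO2 (n * y0) (n * y0 + n * C.H) (aR C n (n * y0) eS eN) k) :
    ∃ r o : ℤ × ℤ, Two (aC (aR C n (n * y0) eS eN) k.1 k.2) r o ∧ lt r ∈ Rem C n (n * y0) ∧ lt o ∈ (LamX Λ0 C n (n * y0)) ∧
      ∃ q, ct n q ∈ P.Q ∧ (-1 ≤ q.1 - r.1 ∧ q.1 - r.1 ≤ 1 ∧ -1 ≤ q.2 - r.2 ∧ q.2 - r.2 ≤ 1) ∧
        (-1 ≤ q.1 - o.1 ∧ q.1 - o.1 ≤ 1 ∧ -1 ≤ q.2 - o.2 ∧ q.2 - o.2 ≤ 1) := by
  obtain ⟨Y, t⟩ := k
  obtain ⟨k1, k2, k3, k4, k5⟩ := hk
  simp only at k1 k2 k3 k4 k5 ⊢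
  have hn := H.hn
  have hH := H.nH_ge
  have s01 := E.s01
  have n01 := E.n01
  by_cases c : t = ln (aR C n (n * y0) eS eN) Y
  · -- vertical
    have hY : Y < n * y0 + n * C.H := by
      rcases lt_or_eq_of_le k2 with h | h
      · exact h
      · have := k5 h; omega
    have hle := H.aa_le (eS := eS) (eN := eN) k1 hY
    rw [c, aC_vert]
    refine ⟨((aR C n (n * y0) eS eN) Y, Y), ((aR C n (n * y0) eS eN) Y - 1, Y), Two_vt _ _, ?_, ⟨?_, ?_⟩, ((aR C n (n * y0) eS eN) Y, Y), ?_, ?_, ?_⟩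
    · rw [← vt_eq_lt, H.mem_Rem' (eS := eS) (eN := eN)]
      exact ⟨k1, hY, le_rfl, by omega⟩
    · refine H.mem_rt ?_
      rw [sub_add_cancel]
      exact H.aa_ct (eS := eS) (eN := eN) k1 hY le_rfl (by omega)
    · rw [← vt_eq_lt, H.mem_Rem' (eS := eS) (eN := eN)]
      rintro ⟨-, -, h, -⟩
      omega
    · exact H.aa_ct (eS := eS) (eN := eN) k1 hY le_rfl (by omega)
    · simp
    · simp
  · -- horizontal
    unfold aC
    rw [if_neg c]
    by_cases cS : Y = n * y0
    · -- floor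
      subst cS
      have h0 := H.aa_le (eS := eS) (eN := eN) (Y := n * y0) le_rfl (by omega)
      have hb := aa_bot (C := C) (n := n) (y0 := y0) (eS := eS) (eN := eN)
      rcases ln_cases (aR C n (n * y0) eS eN) (n * y0) with ⟨g, e⟩ | ⟨g, e⟩
      · omega
      rw [if_neg (by omega), hb]
      rw [hb] at e
      set x := n * C.W + eS - t - 1 with hx
      have hx1 : (aR C n (n * y0) eS eN) (n * y0) ≤ x := by omega
      refine ⟨(x, n * y0), (x, n * y0 - 1), Two_hz _ _, ?_, ⟨?_, ?_⟩, ?_⟩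
      · rw [← vt_eq_lt, H.mem_Rem' (eS := eS) (eN := eN)]
        exact ⟨le_rfl, by omega, hx1, by omega⟩
      · by_cases cx : x < n * C.W
        · refine H.mem_up ?_
          rw [sub_add_cancel]
          exact H.aa_ct (eS := eS) (eN := eN) le_rfl (by omega) hx1 cx
        · have h1 : x = n * C.W := by omega
          have h2 : eS = 1 := by omega
          rw [h1]
          exact E.se.1 h2
      · rw [← vt_eq_lt, H.mem_Rem' (eS := eS) (eN := eN)]
        rintro ⟨h, -⟩
        omega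
      · by_cases cx : x < n * C.W
        · exact ⟨(x, n * y0), H.aa_ct (eS := eS) (eN := eN) le_rfl (by omega) hx1 cx, by simp, by simp⟩
        · exact ⟨(x - 1, n * y0), H.aa_ct (eS := eS) (eN := eN) le_rfl (by omega) (by omega) (by omega), by simp, by simp⟩
    by_cases cN : Y = n * y0 + n * C.H
    · -- ceiling
      subst cN
      have h0 := H.aa_le (eS := eS) (eN := eN) (Y := n * y0 + n * C.H - 1) (by omega) (by omega)
      have hb := H.aa_top (eS := eS) (eN := eN)
      rcases ln_cases (aR C n (n * y0) eS eN) (n * y0 + n * C.H) with ⟨g, e⟩ | ⟨g, e⟩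
      swap
      · omega
      rw [if_pos g]
      rw [hb] at e
      set x := (aR C n (n * y0) eS eN) (n * y0 + n * C.H - 1) + t with hx
      have hx1 : (aR C n (n * y0) eS eN) (n * y0 + n * C.H - 1) ≤ x := by omega
      refine ⟨(x, n * y0 + n * C.H - 1), (x, n * y0 + n * C.H), (Two_hz _ _).symm, ?_, ⟨?_, ?_⟩, ?_⟩
      · rw [← vt_eq_lt, H.mem_Rem' (eS := eS) (eN := eN)]
        exact ⟨by omega, by omega, hx1, by omega⟩
      · by_cases cx : x < n * C.W
        · refine H.mem_dn ?_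
          exact H.aa_ct (eS := eS) (eN := eN) (by omega) (by omega) hx1 cx
        · have h1 : x = n * C.W := by omega
          have h2 : eN = 1 := by omega
          rw [h1]
          exact E.ne.1 h2
      · rw [← vt_eq_lt, H.mem_Rem' (eS := eS) (eN := eN)]
        rintro ⟨-, h, -⟩
        omega
      · by_cases cx : x < n * C.W
        · exact ⟨(x, n * y0 + n * C.H - 1), H.aa_ct (eS := eS) (eN := eN) (by omega) (by omega) hx1 cx, by simp, by simp⟩
        · exact ⟨(x - 1, n * y0 + n * C.H - 1), H.aa_ct (eS := eS) (eN := eN) (by omega) (by omega) (by omega) (by omega),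
            by simp, by simp⟩
    · -- inside
      have h0 := H.aa_le (eS := eS) (eN := eN) (Y := Y) k1 (by omega)
      have h1 := H.aa_le (eS := eS) (eN := eN) (Y := Y - 1) (by omega) (by omega)
      rcases ln_cases (aR C n (n * y0) eS eN) Y with ⟨g, e⟩ | ⟨g, e⟩
      · rw [if_pos g]
        set x := (aR C n (n * y0) eS eN) (Y - 1) + t with hx
        refine ⟨(x, Y - 1), (x, Y), (Two_hz _ _).symm, ?_, ⟨?_, ?_⟩, ?_⟩
        · rw [← vt_eq_lt, H.mem_Rem' (eS := eS) (eN := eN)]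
          exact ⟨by omega, by omega, by omega, by omega⟩
        · exact H.mem_dn (H.aa_ct (eS := eS) (eN := eN) (by omega) (by omega) (by omega) (by omega))
        · rw [← vt_eq_lt, H.mem_Rem' (eS := eS) (eN := eN)]
          rintro ⟨-, -, h, -⟩
          omega
        · exact ⟨(x, Y - 1), H.aa_ct (eS := eS) (eN := eN) (by omega) (by omega) (by omega)
            (by omega), by simp, by simp⟩
      · rw [if_neg (by omega)]
        set x := (aR C n (n * y0) eS eN) (Y - 1) - t - 1 with hx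
        refine ⟨(x, Y), (x, Y - 1), Two_hz _ _, ?_, ⟨?_, ?_⟩, ?_⟩
        · rw [← vt_eq_lt, H.mem_Rem' (eS := eS) (eN := eN)]
          exact ⟨by omega, by omega, by omega, by omega⟩
        · refine H.mem_up ?_
          rw [sub_add_cancel]
          exact H.aa_ct (eS := eS) (eN := eN) (by omega) (by omega) (by omega) (by omega)
        · rw [← vt_eq_lt, H.mem_Rem' (eS := eS) (eN := eN)]
          rintro ⟨-, -, h, -⟩
          omega
        · exact ⟨(x, Y), H.aa_ct (eS := eS) (eN := eN) (by omega) (by omega) (by omega)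
            (by omega), by simp, by simp⟩

/-- the sides of the arc are boundary sides -/
lemma arc_bd {k : ℤ × ℤ} (hk : KO2 (n * y0) (n * y0 + n * C.H) (aR C n (n * y0) eS eN) k) : Bd (LamX Λ0 C n (n * y0)) (aC (aR C n (n * y0) eS eN) k.1 k.2) := by
  obtain ⟨r, o, h1, h2, h3, -⟩ := H.arc_tiles E hk
  exact h1.bd (fun h => h.2 h2) h3

/-- the tiles of the sides of the arc are near the polygon -/
lemma arc_near {k : ℤ × ℤ} (hk : KO2 (n * y0) (n * y0 + n * C.H) (aR C n (n * y0) eS eN) k) (p : ℤ × ℤ)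
    (hp : FarT n P.Q p) : lab (aC (aR C n (n * y0) eS eN) k.1 k.2) ≠ lt p ∧ plab (aC (aR C n (n * y0) eS eN) k.1 k.2) ≠ lt p := by
  obtain ⟨r, o, h1, -, -, q, hq, h4, h5⟩ := H.arc_tiles E hk
  have key : ∀ r : ℤ × ℤ, (-1 ≤ q.1 - r.1 ∧ q.1 - r.1 ≤ 1 ∧ -1 ≤ q.2 - r.2 ∧ q.2 - r.2 ≤ 1) →
      lt r ≠ lt p := by
    intro r h e
    have := lt_inj e
    subst this
    refine hp (q.1 - r.1) (q.2 - r.2) h.1 h.2.1 h.2.2.1 h.2.2.2 ?_
    have : r + (q.1 - r.1, q.2 - r.2) = q := by refine Prod.ext ?_ ?_ <;> simp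
    rw [this]
    exact hq
  rcases h1 with ⟨e1, e2⟩ | ⟨e1, e2⟩ <;> rw [e1, e2]
  · exact ⟨key r h4, key o h5⟩
  · exact ⟨key o h5, key r h4⟩

/-- the sides of the arc are not mark sides -/
lemma arc_ne_mk {k : ℤ × ℤ} (hk : KO2 (n * y0) (n * y0 + n * C.H) (aR C n (n * y0) eS eN) k) {i : ℕ} (hi : mk (i + 1))
    (b : Bool) : aC (aR C n (n * y0) eS eN) k.1 k.2 ≠ mkS n (P.side i) b := by
  intro e
  obtain ⟨r, o, h1, h2, h3, -⟩ := H.arc_tiles E hk
  obtain ⟨t, -, h4⟩ := tiles_mkS n (P.side i) b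
  have hm := H.hL.mark i hi
  rw [← e] at h4
  have hr := H.Rem_sub h2
  have ho := h3.1
  rcases h1 with ⟨e1, e2⟩ | ⟨e1, e2⟩ <;> rcases h4 with ⟨e3, e4⟩ | ⟨e3, e4⟩
  · exact hm (e4 ▸ e2 ▸ ho)
  · exact hm (e3 ▸ e1 ▸ hr)
  · exact hm (e4 ▸ e2 ▸ hr)
  · exact hm (e3 ▸ e1 ▸ ho)

omit E

/-! ### The right wall of the room -/

/-- the sides of the right wall -/
lemma wall {j : ℕ} (hj : (j : ℤ) < C.H) : (P.side (t0 + j)).1 = (C.W - 1, y0 + j) ∧
    (P.side (t0 + j)).2 % 4 = 1 := by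
  induction j with
  | zero => simpa using ⟨H.t0c, H.t0k⟩
  | succ j ih =>
    obtain ⟨h1, h2⟩ := ih (by push_cast at hj; omega)
    have e : t0 + (j + 1) = t0 + j + 1 := by ring
    rw [e, side_succ]
    set s := P.side (t0 + j) with hs
    rcases io_dir s.2 with ⟨a, -, c, d⟩ | ⟨a, -, c, d⟩ | ⟨a, -, c, d⟩ | ⟨a, -, c, d⟩
    · omega
    · have e1 : s.1 + dir s.2 + dir (s.2 - 1) = (C.W, y0 + (j + 1)) := by
        rw [h1, c, d]; refine Prod.ext ?_ ?_ <;> simp; ring
      have e2 : s.1 + dir s.2 = (C.W - 1, y0 + (j + 1)) := by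
        rw [h1, c]; refine Prod.ext ?_ ?_ <;> simp; ring
      rcases next_cases P.Q s with ⟨k1, -⟩ | ⟨-, -, k3⟩ | ⟨-, k2, -⟩
      · rw [e1] at k1
        exact absurd k1 (H.rt _ (by omega) (by push_cast at hj; omega))
      · rw [k3, e2]
        exact ⟨by push_cast; rfl, h2⟩
      · rw [e2] at k2
        have := C.AW (j + 1) (by omega) (by push_cast at hj; omega)
        exact absurd (H.inn (C.W - 1) (j + 1) (by omega) (by push_cast at hj; omega) (by omega)
          (by omega)) k2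
    · omega
    · omega

/-- the last side of the right wall -/
lemma wall_last : (P.side (t0 + C.H.toNat - 1)).1 = (C.W - 1, y0 + C.H - 1) ∧
    (P.side (t0 + C.H.toNat - 1)).2 % 4 = 1 := by
  have h0 := C.H0
  have h := H.wall (j := C.H.toNat - 1) (by omega)
  have e : t0 + (C.H.toNat - 1) = t0 + C.H.toNat - 1 := by omega
  rw [e] at h
  refine ⟨?_, h.2⟩
  rw [h.1]
  refine Prod.ext rfl ?_
  simp only
  omega

omit H in
lemma side_addP (i m : ℕ) :
    P.side (i + m * P.N) = ((P.side i).1, (P.side i).2 + 4 * m) := by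
  induction m with
  | zero => simp
  | succ m ih =>
    have e : i + (m + 1) * P.N = P.N + (i + m * P.N) := by ring
    rw [e, side_period, ih]
    refine Prod.ext rfl ?_
    simp only
    push_cast
    ring

lemma side_modP (i : ℕ) : (P.side i).1 = (P.side (i % P.N)).1 ∧
    ((P.side i).2 - (P.side (i % P.N)).2) % 4 = 0 := by
  have e : i = i % P.N + i / P.N * P.N := by
    rw [Nat.mul_comm]; exact (Nat.mod_add_div i P.N).symm
  have h := side_addP (P := P) (i % P.N) (i / P.N)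
  rw [← e] at h
  rw [h]
  simp

/-- the same side -/
lemma side_injP {i j : ℕ} (h1 : (P.side i).1 = (P.side j).1)
    (h2 : ((P.side i).2 - (P.side j).2) % 4 = 0) : i % P.N = j % P.N := by
  have hN : 0 < P.N := by have := P.hm0; have := P.hmN; omega
  obtain ⟨a1, a2⟩ := H.side_modP i
  obtain ⟨b1, b2⟩ := H.side_modP j
  refine P.inj _ (Nat.mod_lt _ hN) _ (Nat.mod_lt _ hN) ?_ ?_
  · show (P.side (i % P.N)).1 = (P.side (j % P.N)).1
    rw [← a1, ← b1, h1]
  · show ((P.side (i % P.N)).2 - (P.side (j % P.N)).2) % 4 = 0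
    omega

lemma H_le_N : C.H.toNat ≤ P.N := by
  by_contra h
  push Not at h
  have hN : 0 < P.N := by have := P.hm0; have := P.hmN; omega
  have h1 := H.wall (j := P.N) (by omega)
  have h2 := side_period P t0
  rw [Nat.add_comm] at h2
  rw [h2] at h1
  have h3 := h1.1
  simp only at h3
  rw [H.t0c] at h3
  have := congrArg Prod.snd h3
  simp only at this
  omega

/-- the layers of the other sides belong to the cut region -/
lemma lay_X {i : ℕ} (h1 : t0 + C.H.toNat ≤ i) (h2 : i < t0 + P.N) {j : ℤ} (j0 : 0 ≤ j) (j1 : j < n) :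
    lt (ott n (P.side i) j 1) ∈ (LamX Λ0 C n (n * y0)) := by
  have hp := H.hp
  have hn := H.hn
  refine ⟨H.hL.lay i j j0 j1, fun hR => ?_⟩
  have hs := isSide_side' P i
  have hct : ct n (ott n (P.side i) j 1) = (P.side i).1 + dir ((P.side i).2 - 1) := by
    rw [ct_ott hp _ (a := 0) (b := 1) (by omega) (by omega) (by omega) (by omega)]
    refine Prod.ext ?_ ?_ <;> simp
  have hit : ct n (ott n (P.side i) j 0) = (P.side i).1 := by
    rw [ct_ott hp _ (a := 0) (b := 0) (by omega) (by omega) (by omega) (by omega)]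
    refine Prod.ext ?_ ?_ <;> simp
  have hto : ott n (P.side i) j 1 = ott n (P.side i) j 0 + dir ((P.side i).2 - 1) := by
    have := ott_add n (P.side i) j 0 0 1
    rw [add_zero, zero_add] at this
    rw [this]
    refine Prod.ext ?_ ?_ <;> simp
  obtain ⟨x, Y, hxY⟩ : ∃ x Y, ott n (P.side i) j 1 = (x, Y) := ⟨_, _, rfl⟩
  rw [hxY, ← vt_eq_lt] at hR
  rw [mem_Rem] at hR
  rcases hR with hR | ⟨hx, hY0, hY1⟩
  · have := H.room_ct hR
    rw [← hxY, hct] at this
    exact hs.2 this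
  · -- layer tile of the right wall
    subst hx
    have q0 : 0 ≤ (Y - n * y0) / n := Int.ediv_nonneg hY0 hp.le
    have q1 : (Y - n * y0) / n < C.H := (Int.ediv_lt_iff_lt_mul hp).2 (by linarith [mul_comm n C.H])
    set q := (Y - n * y0) / n with hq
    have hctR : ct n (n * C.W, Y) = (C.W, y0 + q) := by
      have e1 := Int.emod_add_mul_ediv (Y - n * y0) n
      have e2 := Int.emod_nonneg (Y - n * y0) hp.ne'
      have e3 := Int.emod_lt_of_pos (Y - n * y0) hp
      rw [← hq] at e1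
      rw [ct_eq hp]
      refine ⟨⟨?_, ?_⟩, ?_, ?_⟩ <;> simp only <;> nlinarith
    rw [hxY, hctR] at hct
    rcases io_dir (P.side i).2 with ⟨a, -, c, d⟩ | ⟨a, -, c, d⟩ | ⟨a, -, c, d⟩ | ⟨a, -, c, d⟩
    · -- the polygon is above
      rw [d] at hct
      have e : (P.side i).1 = (C.W, y0 + (q + 1)) := by
        have h3 := congrArg Prod.fst hct
        have h4 := congrArg Prod.snd hct
        simp only [Prod.fst_add, Prod.snd_add] at h3 h4
        refine Prod.ext ?_ ?_ <;> simp only <;> omega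
      exact H.rt (q + 1) (by omega) (by omega) (e ▸ hs.1)
    · -- a side of the right wall
      rw [d] at hct
      have e : (P.side i).1 = (C.W - 1, y0 + q) := by
        have h3 := congrArg Prod.fst hct
        have h4 := congrArg Prod.snd hct
        simp only [Prod.fst_add, Prod.snd_add] at h3 h4
        refine Prod.ext ?_ ?_ <;> simp only <;> omega
      obtain ⟨w1, w2⟩ := H.wall (j := q.toNat) (by omega)
      have e' : (P.side i).1 = (P.side (t0 + q.toNat)).1 := by
        rw [e, w1]; refine Prod.ext rfl ?_; simp only; omega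
      have hm := H.side_injP e' (by omega)
      have hle := H.H_le_N
      have hk : t0 + q.toNat < i := by omega
      have hN : i - (t0 + q.toNat) < P.N := by omega
      have h5 := (Nat.modEq_iff_dvd' (by omega : t0 + q.toNat ≤ i)).1 (show (t0 + q.toNat) ≡ i [MOD P.N] from hm.symm)
      have := Nat.le_of_dvd (by omega) h5
      omega
    · -- the polygon is below
      rw [d] at hct
      have e : (P.side i).1 = (C.W, y0 + (q - 1)) := by
        have h3 := congrArg Prod.fst hct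
        have h4 := congrArg Prod.snd hct
        simp only [Prod.fst_add, Prod.snd_add] at h3 h4
        refine Prod.ext ?_ ?_ <;> simp only <;> omega
      exact H.rt (q - 1) (by omega) (by omega) (e ▸ hs.1)
    · -- the polygon is on the right
      rw [d] at hto
      have h3 := congrArg Prod.fst hto
      rw [hxY] at h3
      simp only [Prod.fst_add] at h3
      have h4 : (ct n (ott n (P.side i) j 0)).1 = C.W := by
        have e2 : (ct n (ott n (P.side i) j 0)) = (C.W, (ct n (ott n (P.side i) j 0)).2) := by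
          rw [ct_eq hp]
          have := (ct_eq hp (p := ott n (P.side i) j 0) (c := ct n (ott n (P.side i) j 0))).1 rfl
          refine ⟨⟨?_, ?_⟩, this.2⟩
          · simp only; nlinarith
          · simp only; nlinarith
        rw [e2]
      rw [hit] at h4
      have h5 := congrArg Prod.fst hct
      rw [d] at h5
      simp only [Prod.fst_add] at h5
      omega

/-- the diagonal tiles belong to the cut region -/
lemma dg_X {i : ℕ} (hc : P.side (i + 1) = ((P.side i).1, (P.side i).2 + 1)) (hm : ¬ mk (i + 1)) :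
    lt (ott n (P.side i) n 1) ∈ (LamX Λ0 C n (n * y0)) := by
  have hp := H.hp
  have hn := H.hn
  refine ⟨H.hL.dgm i hc hm, fun hR => ?_⟩
  obtain ⟨c1, c2⟩ := cvx_cells hc
  have hct : ct n (ott n (P.side i) n 1) = (P.side i).1 + dir (P.side i).2 + dir ((P.side i).2 - 1) := by
    rw [ct_ott hp _ (a := 1) (b := 1) (by omega) (by omega) (by omega) (by omega)]
    refine Prod.ext ?_ ?_ <;> simp <;> ring
  -- a removed tile is in the polygon or its left neighbour is
  obtain ⟨x, Y, hxY⟩ : ∃ x Y, ott n (P.side i) n 1 = (x, Y) := ⟨_, _, rfl⟩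
  rw [hxY, ← vt_eq_lt, mem_Rem] at hR
  rcases hR with hR | ⟨hx, hY0, hY1⟩
  · have := H.room_ct hR
    rw [← hxY, hct] at this
    exact c2 this
  · have hl : ct n (x - 1, Y) ∈ P.Q := by
      refine H.room_ct ⟨hY0, hY1, ?_, by omega⟩
      have := H.A_lt hY0 hY1
      omega
    -- the cells round the diagonal tile
    have hs := isSide_side' P i
    have g : ∀ a b : ℤ, 0 ≤ n + a → -n < b → n + a < 2 * n → b < n → ct n (ott n (P.side i) (n + a) (1 + b)) =
        (P.side i).1 + ((if 0 ≤ a then 1 else 0) * (dir (P.side i).2).1 +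
            (if 0 ≤ b then 1 else 0) * (dir ((P.side i).2 - 1)).1,
          (if 0 ≤ a then 1 else 0) * (dir (P.side i).2).2 +
            (if 0 ≤ b then 1 else 0) * (dir ((P.side i).2 - 1)).2) := by
      intro a b h1 h2 h3 h4
      by_cases ha : 0 ≤ a <;> by_cases hb : 0 ≤ b
      · rw [if_pos ha, if_pos hb]
        exact ct_ott hp _ (by omega) (by omega) (by omega) (by omega)
      · rw [if_pos ha, if_neg hb]
        exact ct_ott hp _ (by omega) (by omega) (by omega) (by omega)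
      · rw [if_neg ha, if_pos hb]
        exact ct_ott hp _ (by omega) (by omega) (by omega) (by omega)
      · rw [if_neg ha, if_neg hb]
        exact ct_ott hp _ (by omega) (by omega) (by omega) (by omega)
    have hx1 : ∀ a b : ℤ, ott n (P.side i) (n + a) (1 + b) = (x, Y) +
        (a * (dir (P.side i).2).1 + b * (dir ((P.side i).2 - 1)).1,
          a * (dir (P.side i).2).2 + b * (dir ((P.side i).2 - 1)).2) := by
      intro a b
      rw [ott_add, hxY]
    rcases io_dir (P.side i).2 with ⟨a, -, c, d⟩ | ⟨a, -, c, d⟩ | ⟨a, -, c, d⟩ | ⟨a, -, c, d⟩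
    · have g1 := g (-1) 0 (by omega) (by omega) (by omega) (by omega)
      rw [hx1, c, d] at g1
      norm_num at g1
      rw [← sub_eq_add_neg] at g1
      rw [g1] at hl
      apply hs.2
      rw [d]
      simpa using hl
    · have g1 := g 0 (-1) (by omega) (by omega) (by omega) (by omega)
      rw [hx1, c, d] at g1
      norm_num at g1
      rw [← sub_eq_add_neg] at g1
      rw [g1] at hl
      apply c1
      rw [c]
      simpa using hl
    · have g1 := g 1 0 (by omega) (by omega) (by omega) (by omega)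
      rw [hx1, c, d] at g1
      norm_num at g1
      rw [← sub_eq_add_neg] at g1
      rw [g1] at hl
      apply c2
      rw [c, d, add_assoc]
      simpa using hl
    · have g1 := g 0 1 (by omega) (by omega) (by omega) (by omega)
      rw [hx1, c, d] at g1
      norm_num at g1
      rw [← sub_eq_add_neg] at g1
      rw [g1] at hl
      apply c2
      rw [c, d, add_assoc]
      simpa using hl

end CutH

end Pool.Agent.H47.W
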