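import Pool.Agent.H47.W.Room13
import Pool.Agent.H47.W.Room8

set_option autoImplicit false
open Finset

/-! # Planarity of the strand graph, part 14: the cut region of a polygon is planar

Names of ends: `s k` = side of the arc between the room and its walls with the key `k`, `y i` = one of the two
sides at the mark `i`. `cut_parity`, `cut_planar` : strands of the cut region between these ends do not
cross; order: first the keys, then `y 0`, `y 1`, `y 2`. -/

namespace Pool.Agent.H47.W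

open Pool.Agent.H75.Perc hiding WL CT hh PB
open Pool.Agent.H75.TwoArm Pool.Agent.H99.W Pool.Agent.H13.W
open Pool.Agent.H33.Q1
open Pool.Agent.Q1.M4 (Cell Good IsSide nextSide tail head PType Adj4 Conn4)
open Pool.Agent.H54.W (CD)
open Pool.Agent.H21.W (RP)

/-- names of ends of the cut region -/
inductive CNm
  | s (k : ℤ × ℤ)
  | y (i : Fin 3)
deriving DecidableEq

namespace CutH

variable {P : PType} {n : ℤ} {mk : ℕ → Prop} {Λ0 : Set (ℤ × ℤ)} {C : CD} {y0 : ℤ} {t0 : ℕ}
  {u : Fin 3 → ℕ} (H : CutH P n mk Λ0 C y0 t0 u) {eS eN : ℤ}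
  (E : Ends C n (n * y0) eS eN Λ0)

include H

lemma farX {p : ℤ × ℤ} (h : FarT n P.Q p) : lt p ∉ (LamX Λ0 C n (n * y0)) := fun h' => H.hL.far p h h'.1

lemma W_out : ((C.W, y0) : Cell) ∉ P.Q := by
  have := H.rt 0 (by omega) (by have := C.H0; omega)
  simpa using this

/-- a removed tile is joined to the outside -/
lemma TC_rem {r : ℤ × ℤ} (hr : lt r ∈ Rem C n (n * y0)) :
    TC (LamX Λ0 C n (n * y0)) (lt r) (lt (bt n (C.W, y0))) := by
  have hn := H.hn
  have hH := H.nH_ge
  obtain ⟨x, Y⟩ := r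
  rw [← vt_eq_lt, H.mem_Rem' (eS := 0) (eN := 0)] at hr
  obtain ⟨h1, h2, h3, h4⟩ := hr
  have out : ∀ x' Y', n * y0 ≤ Y' → Y' < n * y0 + n * C.H → aR C n (n * y0) 0 0 Y' ≤ x' →
      x' ≤ n * C.W → vt x' Y' ∉ (LamX Λ0 C n (n * y0)) := by
    intro x' Y' k1 k2 k3 k4 h
    exact h.2 ((H.mem_Rem' (eS := 0) (eN := 0)).2 ⟨k1, k2, k3, k4⟩)
  have hle := H.aa_le (eS := 0) (eN := 0) h1 h2
  have s1 : TC (LamX Λ0 C n (n * y0)) (vt x Y) (vt (n * C.W) Y) :=
    TC_h' fun x' k1 k2 => out x' Y h1 h2 (by omega) (by omega)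
  have s2 : TC (LamX Λ0 C n (n * y0)) (vt (n * C.W) Y) (vt (n * C.W) (n * y0 + 1)) := by
    refine TC_v' fun Y' k1 k2 => out _ Y' (by omega) (by omega) ?_ le_rfl
    have := H.aa_le (eS := 0) (eN := 0) (Y := Y') (by omega) (by omega)
    omega
  have s3 : TC (LamX Λ0 C n (n * y0)) (vt (n * C.W) (n * y0 + 1)) (vt (n * C.W + 1) (n * y0 + 1)) := by
    refine TC_h' fun x' k1 k2 => ?_
    rcases lt_or_eq_of_le (show n * C.W ≤ x' by omega) with h | h
    · have e : x' = n * C.W + 1 := by omega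
      subst e
      rw [vt_eq_lt]
      refine H.farX (far_cell H.hp H.W_out ?_ ?_ ?_ ?_) <;> simp only <;> nlinarith
    · subst h
      have := H.aa_le (eS := 0) (eN := 0) (Y := n * y0 + 1) (by omega) (by omega)
      exact out _ _ (by omega) (by omega) (by omega) le_rfl
  have e : bt n (C.W, y0) = (n * C.W + 1, n * y0 + 1) := by
    unfold bt; refine Prod.ext ?_ ?_ <;> simp only <;> ring
  rw [e, ← vt_eq_lt, ← vt_eq_lt]
  exact s1.trans (s2.trans s3)

/-- a diagonal tile at a mark is joined to the outside -/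
lemma TC_mark {i : ℕ} (hi : mk (i + 1)) :
    TC (LamX Λ0 C n (n * y0)) (lt (ott n (P.side i) n 1)) (lt (bt n (C.W, y0))) := by
  have hn := H.hn
  obtain ⟨a1, a2⟩ := cvx_cells (H.hL.cvx i hi)
  have h1 := TC_dg_cell (Λ := (LamX Λ0 C n (n * y0))) (by omega) (fun p h => H.farX h) (isSide_side' P i).2 a1 a2
    (fun h => H.hL.mark i hi h.1)
  exact h1.trans (TC_compl (by omega) (fun p h => H.farX h) P.good a2 H.W_out)

/-! ### The end of the arc -/

omit H in
/-- points of a side which goes up -/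
lemma up_pts {s : Cell × ℤ} (h : s.2 % 4 = 1) (j : ℤ) :
    wp n s j = (n * (s.1.1 + 1), n * s.1.2 + j) ∧ ol n s j = (n * (s.1.1 + 1) + 1, n * s.1.2 + j) ∧
      ott n s j 1 = (n * (s.1.1 + 1), n * s.1.2 + j) := by
  have e1 : wp n s j = (n * (s.1.1 + 1), n * s.1.2 + j) := by
    unfold wp
    rw [tail_io]
    rcases io_dir s.2 with ⟨a, b, c, d⟩ | ⟨a, b, c, d⟩ | ⟨a, b, c, d⟩ | ⟨a, b, c, d⟩
    · omega
    · rw [b, c]; refine Prod.ext ?_ ?_ <;> simp
    · omega
    · omega
  refine ⟨e1, ?_, ?_⟩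
  · unfold ol
    rw [e1]
    rcases io_dir s.2 with ⟨a, b, c, d⟩ | ⟨a, b, c, d⟩ | ⟨a, b, c, d⟩ | ⟨a, b, c, d⟩
    · omega
    · rw [d]; refine Prod.ext ?_ ?_ <;> simp
    · omega
    · omega
  · unfold ott it
    rw [e1]
    rcases io_dir s.2 with ⟨a, b, c, d⟩ | ⟨a, b, c, d⟩ | ⟨a, b, c, d⟩ | ⟨a, b, c, d⟩
    · omega
    · rw [b, d]; refine Prod.ext ?_ ?_ <;> simp
    · omega
    · omega

/-- points at the upper end of the right wall -/
lemma wall_pts : wp n (P.side (t0 + C.H.toNat - 1)) n = (n * C.W, n * y0 + n * C.H) ∧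
    ol n (P.side (t0 + C.H.toNat - 1)) n = (n * C.W + 1, n * y0 + n * C.H) ∧
    ott n (P.side (t0 + C.H.toNat - 1)) n 1 = (n * C.W, n * y0 + n * C.H) := by
  obtain ⟨h1, h2⟩ := H.wall_last
  obtain ⟨e1, e2, e3⟩ := up_pts (n := n) h2 n
  rw [e1, e2, e3, h1]
  refine ⟨?_, ?_, ?_⟩ <;> refine Prod.ext ?_ ?_ <;> simp <;> ring

lemma r1_wall : r1 P.Q n (P.side (t0 + C.H.toNat - 1)) = n := by
  obtain ⟨h1, h2⟩ := H.wall_last
  unfold r1
  rw [if_neg]
  rcases io_dir (P.side (t0 + C.H.toNat - 1)).2 with ⟨a, b, c, d⟩ | ⟨a, b, c, d⟩ | ⟨a, b, c, d⟩ |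
    ⟨a, b, c, d⟩
  · omega
  · rw [c, d, h1]
    have e : ((C.W - 1, y0 + C.H - 1) + (0, 1) + (1, 0) : ℤ × ℤ) = (C.W, y0 + C.H) := by
      refine Prod.ext ?_ ?_ <;> simp
    rw [e]
    exact H.rt _ (by have := C.H0; omega) le_rfl
  · omega
  · omega

include E

lemma eN_mark (hm : mk (t0 + C.H.toNat - 1 + 1)) : eN = 0 := by
  rcases E.n01 with h | h
  · exact h
  · have h1 := E.ne.1 h
    rw [vt_eq_lt, ← H.wall_pts.2.2] at h1
    exact absurd h1 (H.hL.mark _ hm)

lemma eN_nomark (hm : ¬ mk (t0 + C.H.toNat - 1 + 1)) : eN = 1 := by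
  rw [E.ne, vt_eq_lt, ← H.wall_pts.2.2]
  set i := t0 + C.H.toNat - 1 with hi
  obtain ⟨h1, h2⟩ := H.wall_last
  rw [← hi] at h1 h2
  have hs := side_succ P i
  rcases next_cases P.Q (P.side i) with ⟨k1, -⟩ | ⟨-, -, k3⟩ | ⟨-, -, k3⟩
  · exfalso
    rcases io_dir (P.side i).2 with ⟨a, b, c, d⟩ | ⟨a, b, c, d⟩ | ⟨a, b, c, d⟩ | ⟨a, b, c, d⟩
    · omega
    · rw [c, d, h1] at k1
      have e : ((C.W - 1, y0 + C.H - 1) + (0, 1) + (1, 0) : ℤ × ℤ) = (C.W, y0 + C.H) := by
        refine Prod.ext ?_ ?_ <;> simp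
      rw [e] at k1
      exact H.rt _ (by have := C.H0; omega) le_rfl k1
    · omega
    · omega
  · -- straight
    rw [k3] at hs
    have h3 := H.hL.lay (i + 1) 0 le_rfl H.hp
    have h4 : (P.side (i + 1)).2 % 4 = 1 := by rw [hs]; exact h2
    have h5 := (up_pts (n := n) h4 0).2.2
    have h6 : (P.side (i + 1)).1 = (C.W - 1, y0 + C.H) := by
      rw [hs]
      rcases io_dir (P.side i).2 with ⟨a, b, c, d⟩ | ⟨a, b, c, d⟩ | ⟨a, b, c, d⟩ | ⟨a, b, c, d⟩
      · omega
      · simp only; rw [c, h1]; refine Prod.ext ?_ ?_ <;> simp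
      · omega
      · omega
    rw [h5, h6] at h3
    have h7 := H.wall_pts.2.2
    rw [← hi] at h7
    rw [h7]
    convert h3 using 2
    refine Prod.ext ?_ ?_ <;> simp <;> ring
  · exact H.hL.dgm i (by rw [hs, k3]) hm

variable {M : Set (ℤ × ℤ)}

/-- **From the end of the arc to the first mark.** -/
lemma walk0 (hM : MOk P n M) :
    (u 0 = t0 + C.H.toNat - 1 ∧ ((aR C n (n * y0) eS eN) (n * y0 + n * C.H), n * y0 + n * C.H) = wp n (P.side (u 0)) n) ∨
    (t0 + C.H.toNat ≤ u 0 ∧
      BC (LamX Λ0 C n (n * y0)) M ((aR C n (n * y0) eS eN) (n * y0 + n * C.H), n * y0 + n * C.H) (ol n (P.side (u 0)) n)) := by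
  have hn := H.hn
  have h0 := C.H0
  have hu0 := H.u0
  obtain ⟨w1, w2, w3⟩ := H.wall_pts
  set t1 := t0 + C.H.toNat - 1 with ht1
  have e1 : t1 + 1 = t0 + C.H.toNat := by omega
  rw [H.aa_top (eS := eS) (eN := eN)]
  have hu1 := H.u01
  have hu2 := H.u12
  have hu3 := H.u2
  have hNle := H.H_le_N
  rcases lt_or_eq_of_le (show t1 ≤ u 0 by omega) with h | h
  · right
    have hnm : ∀ t, t0 < t → t ≤ u 0 → ¬ mk t := by
      intro t h1 h2 hm
      obtain ⟨i, hi⟩ := H.uo t h1 (by omega) hm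
      have : u 0 ≤ u i := by
        fin_cases i
        · exact le_rfl
        · exact hu1.le
        · exact (hu1.trans hu2).le
      omega
    have he := H.eN_nomark E (hnm _ (by omega) (by omega))
    refine ⟨by omega, ?_⟩
    rw [he, ← w2]
    have b1 := BC_vertex' (M := M) (Λ := (LamX Λ0 C n (n * y0))) (by omega) (fun p hp => H.farX hp) hM t1 (fun hc =>
      H.dg_X hc (hnm _ (by omega) (by omega)))
    rw [H.r1_wall] at b1
    refine b1.trans ?_
    have b2 := BC_arc' (M := M) (Λ := (LamX Λ0 C n (n * y0))) (i := t1 + 1) (i' := u 0) (by omega)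
      (fun p hp => H.farX hp) hM (by omega)
      (fun t k1 k2 j k3 k4 => H.lay_X (by omega) (by omega) k3 k4)
      (fun t k1 k2 hc => H.dg_X hc (hnm _ (by omega) (by omega)))
      (a := r0 P.Q (P.side (t1 + 1))) le_rfl (by
        have a1 := r0_range P.Q (P.side (t1 + 1))
        have a2 := r1_range P.Q n (P.side (t1 + 1))
        omega)
    rw [r1_mark H.hL (H.um 0)] at b2
    exact b2
  · left
    have hm := H.um 0
    rw [← h] at hm ⊢
    have he := H.eN_mark E hm
    refine ⟨rfl, ?_⟩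
    rw [he, w1, add_zero]

omit E in
/-- from one mark to the next one -/
lemma walk1 (hM : MOk P n M) {i j : Fin 3} (hij : u i < u j) (hno : ∀ l, ¬ (u i < u l ∧ u l < u j)) :
    BC (LamX Λ0 C n (n * y0)) M (ol n (P.side (u i + 1)) 0) (ol n (P.side (u j)) n) := by
  have hn := H.hn
  have h0 := C.H0
  have hu0 := H.u0
  have hu1 := H.u01
  have hu2 := H.u12
  have hu3 := H.u2
  have r : ∀ i, u 0 ≤ u i ∧ u i ≤ u 2 := by
    intro i
    fin_cases i
    · exact ⟨le_rfl, (hu1.trans hu2).le⟩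
    · exact ⟨hu1.le, hu2.le⟩
    · exact ⟨(hu1.trans hu2).le, le_rfl⟩
  have ri := r i
  have rj := r j
  have hnm : ∀ t, u i + 1 < t → t ≤ u j → ¬ mk t := by
    intro t h1 h2 hm
    obtain ⟨l, hl⟩ := H.uo t (by omega) (by omega) hm
    exact hno l ⟨by omega, by omega⟩
  have b2 := BC_arc' (M := M) (Λ := (LamX Λ0 C n (n * y0))) (i := u i + 1) (i' := u j) (by omega)
    (fun p hp => H.farX hp) hM (by omega)
    (fun t k1 k2 j k3 k4 => H.lay_X (by omega) (by omega) k3 k4)
    (fun t k1 k2 hc => H.dg_X hc (hnm _ (by omega) (by omega)))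
    (a := 0) (r0_mark H.hL (H.um i)).le (by
      have a2 := r1_range P.Q n (P.side (u i + 1))
      omega)
  rw [r1_mark H.hL (H.um j)] at b2
  exact b2

omit E in
/-- the diagonal tiles at the marks are different -/
lemma dg_ne {i j : Fin 3} (h : i ≠ j) :
    ott n (P.side (u i)) n 1 ≠ ott n (P.side (u j)) n 1 := by
  intro e
  have hn := H.hn
  rw [ott_one, ott_one] at e
  obtain ⟨e1, e2⟩ := Pool.Agent.H37.W.diag_inj (by omega) e
  have hm := H.side_injP e1 e2
  have h0 := C.H0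
  have hu0 := H.u0
  have hu1 := H.u01
  have hu2 := H.u12
  have hu3 := H.u2
  have key : ∀ p q : ℕ, u 0 ≤ p → p < q → q ≤ u 2 → p % P.N ≠ q % P.N := by
    intro p q h1 h2 h3 h4
    have h5 := (Nat.modEq_iff_dvd' h2.le).1 (show p ≡ q [MOD P.N] from h4)
    have := Nat.le_of_dvd (by omega) h5
    omega
  fin_cases i <;> fin_cases j <;> simp at h hm
  · exact key _ _ le_rfl hu1 hu2.le hm
  · exact key _ _ le_rfl (hu1.trans hu2) le_rfl hm
  · exact key _ _ le_rfl hu1 hu2.le hm.symm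
  · exact key _ _ hu1.le hu2 le_rfl hm
  · exact key _ _ le_rfl (hu1.trans hu2) le_rfl hm.symm
  · exact key _ _ hu1.le hu2 le_rfl hm.symm

/-! ### Names -/

omit H in
/-- the side of a name -/
def sdN (P : PType) (n : ℤ) (C : CD) (y0 : ℤ) (u : Fin 3 → ℕ) (bb : Fin 3 → Bool) (eS eN : ℤ) :
    CNm → ℤ × ℤ
  | .s k => aC (aR C n (n * y0) eS eN) k.1 k.2
  | .y i => mkS n (P.side (u i)) (bb i)

omit H in
/-- first point of a name -/
def fpN (P : PType) (n : ℤ) (C : CD) (y0 : ℤ) (u : Fin 3 → ℕ) (bb : Fin 3 → Bool) (eS eN : ℤ) :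
    CNm → ℤ × ℤ
  | .s k => aP (aR C n (n * y0) eS eN) k.1 k.2
  | .y i => mkm n (P.side (u i)) (bb i)

omit H in
/-- the key of a name: the marks come after the arc -/
def kyN (n : ℤ) (C : CD) (y0 : ℤ) : CNm → ℤ × ℤ
  | .s k => k
  | .y i => (n * y0 + n * C.H + 1 + (i.val : ℤ), 0)

omit H in
/-- admissible names -/
def VC (P : PType) (n : ℤ) (Λ0 : Set (ℤ × ℤ)) (C : CD) (y0 : ℤ) (u : Fin 3 → ℕ) (bb : Fin 3 → Bool)
    (eS eN : ℤ) : CNm → Prop
  | .s k => KO2 (n * y0) (n * y0 + n * C.H) (aR C n (n * y0) eS eN) k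
  | .y i => InT (LamX Λ0 C n (n * y0)) (mkS n (P.side (u i)) (bb i))

variable {bb : Fin 3 → Bool}

omit E

lemma dg_notin (i : Fin 3) : lt (ott n (P.side (u i)) n 1) ∉ (LamX Λ0 C n (n * y0)) :=
  fun h => H.hL.mark _ (H.um i) h.1

include E

/-- names are boundary sides -/
lemma name_bd {a : CNm} (ha : (VC P n Λ0 C y0 u bb eS eN) a) : Bd (LamX Λ0 C n (n * y0)) ((sdN P n C y0 u bb eS eN) a) := by
  cases a with
  | s k => exact H.arc_bd E ha
  | y i =>
    have ha : InT (LamX Λ0 C n (n * y0)) (mkS n (P.side (u i)) (bb i)) := ha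
    refine ⟨ha, ?_⟩
    obtain ⟨t, -, h1⟩ := tiles_mkS n (P.side (u i)) (bb i)
    have h2 := H.dg_notin i
    show ∃ o, OutT (LamX Λ0 C n (n * y0)) (mkS n (P.side (u i)) (bb i)) o
    rcases h1 with ⟨e1, e2⟩ | ⟨e1, e2⟩
    · exact ⟨_, h2, Or.inr e2.symm⟩
    · exact ⟨_, h2, Or.inl e1.symm⟩

/-- the outer tile of a name is joined to the outside -/
lemma name_TC {a : CNm} (ha : (VC P n Λ0 C y0 u bb eS eN) a) {o : ℤ × ℤ} (ho : OutT (LamX Λ0 C n (n * y0)) ((sdN P n C y0 u bb eS eN) a) o) :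
    TC (LamX Λ0 C n (n * y0)) o (lt (bt n (C.W, y0))) := by
  cases a with
  | s k =>
    obtain ⟨r, o', h1, h2, h3, -⟩ := H.arc_tiles E ha
    have := h1.out h3 ho
    rw [this]
    exact H.TC_rem h2
  | y i =>
    have ha : InT (LamX Λ0 C n (n * y0)) (mkS n (P.side (u i)) (bb i)) := ha
    have := mkS_out' ha (H.dg_notin i) ho
    rw [this]
    exact H.TC_mark (H.um i)

/-- different names, different sides -/
lemma name_inj {a b : CNm} (ha : (VC P n Λ0 C y0 u bb eS eN) a) (hb : (VC P n Λ0 C y0 u bb eS eN) b) (h : (sdN P n C y0 u bb eS eN) a = (sdN P n C y0 u bb eS eN) b) : a = b := by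
  cases a with
  | s k =>
    cases b with
    | s k' => rw [aC_inj2 ha hb h]
    | y i => exact absurd h (H.arc_ne_mk E ha (H.um i) (bb i))
  | y i =>
    cases b with
    | s k' => exact absurd h.symm (H.arc_ne_mk E hb (H.um i) (bb i))
    | y j =>
      by_cases e : i = j
      · rw [e]
      · exfalso
        exact mkS_ne_of (by have := H.hn; omega) H.hL (H.um i) (H.um j) (H.dg_ne e) (bb i) (bb j) h

/-- the tiles of a name are near the polygon -/
lemma name_near {a : CNm} (ha : (VC P n Λ0 C y0 u bb eS eN) a) (p : ℤ × ℤ) (hp : FarT n P.Q p) :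
    lab ((sdN P n C y0 u bb eS eN) a) ≠ lt p ∧ plab ((sdN P n C y0 u bb eS eN) a) ≠ lt p := by
  cases a with
  | s k => exact H.arc_near E ha p hp
  | y i => exact mark_MOk (by have := H.hn; omega) (u i) (bb i) p hp

/-- the other side at a mark is not a name -/
lemma other_ne {a : CNm} (ha : (VC P n Λ0 C y0 u bb eS eN) a) {i : Fin 3} {b : Bool} (hb : b ≠ bb i) :
    mkS n (P.side (u i)) b ≠ (sdN P n C y0 u bb eS eN) a := by
  cases a with
  | s k => exact fun h => H.arc_ne_mk E ha (H.um i) b h.symm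
  | y j =>
    intro h
    have h : mkS n (P.side (u i)) b = mkS n (P.side (u j)) (bb j) := h
    by_cases e : i = j
    · subst e
      apply hb
      cases b <;> cases hbb : bb i <;> rw [hbb] at h
      · exact absurd h.symm (mkS_ne n (P.side (u i)))
      · exact absurd h (mkS_ne n (P.side (u i)))
    · exact mkS_ne_of (by have := H.hn; omega) H.hL (H.um i) (H.um j) (H.dg_ne e) b (bb j) h

/-! ### The potential -/

open Classical in
/-- **Value of a potential which jumps at the names `x`, `x'`** at the first point of a name. -/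
lemma pot_name {x x' : CNm} (hx : (VC P n Λ0 C y0 u bb eS eN) x) (hx' : (VC P n Λ0 C y0 u bb eS eN) x') {S : ℤ × ℤ → ZMod 2}
    (hS : ∀ c, Bd (LamX Λ0 C n (n * y0)) c → ∀ p q, Jn c p q →
      S q = S p + (if c = (sdN P n C y0 u bb eS eN) x then 1 else 0) + (if c = (sdN P n C y0 u bb eS eN) x' then 1 else 0)) {a : CNm} (ha : (VC P n Λ0 C y0 u bb eS eN) a) :
    S ((fpN P n C y0 u bb eS eN) a) = S ((aR C n (n * y0) eS eN) (n * y0 - 1), n * y0) + (if LL ((kyN n C y0) x) ((kyN n C y0) a) then 1 else 0) +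
      (if LL ((kyN n C y0) x') ((kyN n C y0) a) then 1 else 0) := by
  have hn := H.hn
  have hH := H.nH_ge
  -- keys of names
  have kx : ∀ x, (VC P n Λ0 C y0 u bb eS eN) x → KO2 (n * y0) (n * y0 + n * C.H) (aR C n (n * y0) eS eN) ((kyN n C y0) x) ∨ n * y0 + n * C.H < ((kyN n C y0) x).1 := by
    intro x hx
    cases x with
    | s k => exact Or.inl hx
    | y i => right; simp only [kyN]; omega
  have iS : ∀ x, (VC P n Λ0 C y0 u bb eS eN) x → ∀ k, KO2 (n * y0) (n * y0 + n * C.H) (aR C n (n * y0) eS eN) k →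
      (aC (aR C n (n * y0) eS eN) k.1 k.2 = (sdN P n C y0 u bb eS eN) x ↔ k = (kyN n C y0) x) := by
    intro x hx k hk
    cases x with
    | s k' =>
      constructor
      · exact fun h => aC_inj2 hk hx h
      · rintro rfl; rfl
    | y i =>
      constructor
      · exact fun h => absurd h (H.arc_ne_mk E hk (H.um i) (bb i))
      · intro h
        have := hk.2.1
        rw [h] at this
        simp only [kyN] at this
        omega
  have arcP : ∀ Y t, n * y0 ≤ Y → Y ≤ n * y0 + n * C.H → 0 ≤ t → t ≤ ln (aR C n (n * y0) eS eN) Y →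
      S (aP (aR C n (n * y0) eS eN) Y t) = S ((aR C n (n * y0) eS eN) (n * y0 - 1), n * y0) + (if LL ((kyN n C y0) x) (Y, t) then 1 else 0) +
        (if LL ((kyN n C y0) x') (Y, t) then 1 else 0) := by
    intro Y t g1 g2 g3 g4
    refine pot2 (kx x hx) (kx x' hx') (fun k hk p q hj => ?_) g1 g2 g3 g4
    rw [hS _ (H.arc_bd E hk) p q hj]
    simp only [iS x hx k hk, iS x' hx' k hk]
  -- constant along walks
  set M : Set (ℤ × ℤ) := {(sdN P n C y0 u bb eS eN) x, (sdN P n C y0 u bb eS eN) x'} with hM'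
  have hM : MOk P n M := by
    rintro c (rfl | rfl) p hp
    · exact H.name_near E hx p hp
    · exact H.name_near E hx' p hp
  have hBC : ∀ p q, BC (LamX Λ0 C n (n * y0)) M p q → S p = S q := by
    intro p q h
    induction h with
    | refl => rfl
    | tail _ h ih =>
      obtain ⟨c, h1, h2, h3⟩ := h
      have q1 : c ≠ (sdN P n C y0 u bb eS eN) x := fun e => h3 (by rw [e]; exact Or.inl rfl)
      have q2 : c ≠ (sdN P n C y0 u bb eS eN) x' := fun e => h3 (by rw [e]; exact Or.inr rfl)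
      rw [ih, hS c h2 _ _ h1, if_neg q1, if_neg q2, add_zero, add_zero]
  -- the jump at the mark `i`
  set J : Fin 3 → ZMod 2 := fun i => (if x = .y i then 1 else 0) + (if x' = .y i then 1 else 0) with hJ
  have isY : ∀ x, (VC P n Λ0 C y0 u bb eS eN) x → ∀ i : Fin 3, (VC P n Λ0 C y0 u bb eS eN) (.y i) → (mkS n (P.side (u i)) (bb i) = (sdN P n C y0 u bb eS eN) x ↔ x = .y i) := by
    intro x hx i hi
    constructor
    · exact fun h => (H.name_inj E hi hx h).symm
    · rintro rfl; rfl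
  have jY : ∀ (i : Fin 3) (b : Bool), Bd (LamX Λ0 C n (n * y0)) (mkS n (P.side (u i)) b) →
      S (mkp n (P.side (u i)) b) = S (mkm n (P.side (u i)) b) + if b = bb i then J i else 0 := by
    intro i b hb
    rw [hS _ hb _ _ (Jn_mkS n (P.side (u i)) b)]
    by_cases hbb : b = bb i
    · subst hbb
      have hi : (VC P n Λ0 C y0 u bb eS eN) (.y i) := hb.1
      rw [if_pos rfl]
      simp only [isY x hx i hi, isY x' hx' i hi, hJ, add_assoc]
    · rw [if_neg hbb, if_neg (H.other_ne E hx hbb), if_neg (H.other_ne E hx' hbb)]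
      simp
  -- a name which is not admissible does not jump
  have jno : ∀ i : Fin 3, ¬ (VC P n Λ0 C y0 u bb eS eN) (.y i) → J i = 0 := by
    intro i hi
    simp only [hJ]
    rw [if_neg (fun e => hi (by rw [← e]; exact hx)), if_neg (fun e => hi (by rw [← e]; exact hx')),
      add_zero]
  have h0 := C.H0
  have hu0 := H.u0
  have hu1 := H.u01
  have hu2 := H.u12
  have hu3 := H.u2
  -- sides at the marks
  have bF : ∀ i, t0 + C.H.toNat ≤ u i → u i < t0 + P.N → Bd (LamX Λ0 C n (n * y0)) (mkS n (P.side (u i)) false) := by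
    intro i h1 h2
    refine mkS_bd' ?_ (H.dg_notin i)
    simpa using H.lay_X (j := n - 1) h1 h2 (by omega) (by omega)
  have bT : ∀ i, t0 + C.H.toNat ≤ u i + 1 → u i + 1 < t0 + P.N → Bd (LamX Λ0 C n (n * y0)) (mkS n (P.side (u i)) true) := by
    intro i h1 h2
    refine mkS_bd' ?_ (H.dg_notin i)
    have := H.lay_X (j := 0) h1 h2 le_rfl H.hp
    rw [next_first (H.hL.cvx _ (H.um i))] at this
    simpa using this
  -- points at a mark
  have p1 : ∀ i, mkm n (P.side (u i)) false = ol n (P.side (u i)) n := fun i => rfl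
  have p2 : ∀ i, mkm n (P.side (u i)) true = wp n (P.side (u i)) n := fun i => rfl
  have p2' : ∀ i, mkp n (P.side (u i)) false = wp n (P.side (u i)) n := fun i => rfl
  have p3 : ∀ i, mkp n (P.side (u i)) true = ol n (P.side (u i + 1)) 0 := by
    intro i
    unfold ol
    rw [side_succ, wp_next, ← side_succ, H.hL.cvx _ (H.um i)]
    simp only
    rw [add_sub_cancel_right]
    simp [mkp]
  -- the end of the arc
  set SE := S ((aR C n (n * y0) eS eN) (n * y0 + n * C.H), n * y0 + n * C.H) with hSE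
  have vE : SE = S ((aR C n (n * y0) eS eN) (n * y0 - 1), n * y0) +
      (if LL ((kyN n C y0) x) (n * y0 + n * C.H, ln (aR C n (n * y0) eS eN) (n * y0 + n * C.H)) then 1 else 0) +
      (if LL ((kyN n C y0) x') (n * y0 + n * C.H, ln (aR C n (n * y0) eS eN) (n * y0 + n * C.H)) then 1 else 0) := by
    rw [hSE, ← arcP _ _ (by omega) le_rfl (ln_nonneg _ _) le_rfl, aP_ln]
  -- first mark
  have m0 : ((VC P n Λ0 C y0 u bb eS eN) (.y 0) → S ((fpN P n C y0 u bb eS eN) (.y 0)) = SE) ∧ S (ol n (P.side (u 0 + 1)) 0) = SE + J 0 := by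
    have hT := bT 0 (by omega) (by omega)
    rcases H.walk0 (u := u) E hM with ⟨k1, k2⟩ | ⟨k1, k2⟩
    · -- the mark is at the wall
      have e2 : S (wp n (P.side (u 0)) n) = SE := by rw [hSE, k2]
      have e3 := jY 0 true hT
      rw [p3, p2, e2] at e3
      by_cases hb : bb 0 = true
      · rw [hb, if_pos rfl] at e3
        refine ⟨fun _ => ?_, e3⟩
        show S (mkm n (P.side (u 0)) (bb 0)) = SE
        rw [hb, p2, e2]
      · have hb' : bb 0 = false := by simpa using hb
        -- the name is not admissible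
        have hv : ¬ (VC P n Λ0 C y0 u bb eS eN) (.y 0) := by
          intro hv
          have hv : InT (LamX Λ0 C n (n * y0)) (mkS n (P.side (u 0)) (bb 0)) := hv
          rw [hb'] at hv
          obtain ⟨t, ht, h1⟩ := tiles_mkS n (P.side (u 0)) false
          simp only [Bool.false_eq_true, if_false] at ht
          have hd := H.dg_notin 0
          have htn : lt t ∈ (LamX Λ0 C n (n * y0)) := by
            unfold InT at hv
            rcases h1 with ⟨a1, a2⟩ | ⟨a1, a2⟩ <;> rw [a1, a2] at hv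
            · exact hv.resolve_right hd
            · exact hv.resolve_left hd
          obtain ⟨w1, w2⟩ := H.wall_last
          rw [← k1] at w1 w2
          have e5 := (up_pts (n := n) w2 (n - 1)).2.2
          rw [w1] at e5
          apply htn.2
          rw [ht, e5, ← vt_eq_lt, mem_Rem]
          right
          refine ⟨by ring, ?_, ?_⟩ <;> nlinarith
        rw [hb', if_neg (by simp)] at e3
        rw [jno 0 hv]
        exact ⟨fun h => absurd h hv, e3⟩
    · have e1 : S (ol n (P.side (u 0)) n) = SE := (hBC _ _ k2).symm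
      have hF := bF 0 k1 (by omega)
      have e2 := jY 0 false hF
      have e3 := jY 0 true hT
      rw [p1, p2', e1] at e2
      rw [p3, p2, e2] at e3
      cases hb : bb 0
      · rw [hb] at e3
        simp only [if_true, Bool.true_eq_false, if_false, add_zero] at e3
        refine ⟨fun _ => ?_, e3⟩
        show S (mkm n (P.side (u 0)) (bb 0)) = SE
        rw [hb, p1, e1]
      · rw [hb] at e2 e3
        simp only [if_true, Bool.false_eq_true, if_false, add_zero] at e2 e3
        refine ⟨fun _ => ?_, e3⟩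
        show S (mkm n (P.side (u 0)) (bb 0)) = SE
        rw [hb, p2, e2]
  -- second mark
  have m1 : S ((fpN P n C y0 u bb eS eN) (.y 1)) = SE + J 0 ∧ S (ol n (P.side (u 1 + 1)) 0) = SE + J 0 + J 1 := by
    have hW := hBC _ _ (H.walk1 hM (i := 0) (j := 1) hu1 (by
      intro l ⟨h1, h2⟩; fin_cases l <;> simp at h1 h2 <;> omega))
    have hT := bT 1 (by omega) (by omega)
    have hF := bF 1 (by omega) (by omega)
    have e2 := jY 1 false hF
    have e3 := jY 1 true hT
    rw [p1, p2', ← hW, m0.2] at e2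
    rw [p3, p2, e2] at e3
    cases hb : bb 1
    · rw [hb] at e3
      simp only [if_true, Bool.true_eq_false, if_false, add_zero] at e3
      refine ⟨?_, e3⟩
      show S (mkm n (P.side (u 1)) (bb 1)) = _
      rw [hb, p1, ← hW, m0.2]
    · rw [hb] at e2 e3
      simp only [if_true, Bool.false_eq_true, if_false, add_zero] at e2 e3
      refine ⟨?_, e3⟩
      show S (mkm n (P.side (u 1)) (bb 1)) = _
      rw [hb, p2, e2]
  -- third mark
  have m2 : S ((fpN P n C y0 u bb eS eN) (.y 2)) = SE + J 0 + J 1 := by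
    have hW := hBC _ _ (H.walk1 hM (i := 1) (j := 2) hu2 (by
      intro l ⟨h1, h2⟩; fin_cases l <;> simp at h1 h2 <;> omega))
    have hF := bF 2 (by omega) (by omega)
    have e2 := jY 2 false hF
    rw [p1, p2', ← hW, m1.2] at e2
    cases hb : bb 2
    · show S (mkm n (P.side (u 2)) (bb 2)) = _
      rw [hb, p1, ← hW, m1.2]
    · rw [hb] at e2
      simp only [Bool.false_eq_true, if_false, add_zero] at e2
      show S (mkm n (P.side (u 2)) (bb 2)) = _
      rw [hb, p2, e2]
  cases a with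
  | s k =>
    obtain ⟨g1, g2, g3, g4, -⟩ := ha
    exact arcP _ _ g1 g2 g3 g4
  | y i =>
    -- comparison of the keys
    have cmp : ∀ x, (VC P n Λ0 C y0 u bb eS eN) x → ∀ i : Fin 3, (if LL ((kyN n C y0) x) ((kyN n C y0) (.y i)) then 1 else 0 : ZMod 2) =
        (if LL ((kyN n C y0) x) (n * y0 + n * C.H, ln (aR C n (n * y0) eS eN) (n * y0 + n * C.H)) then 1 else 0) +
          ∑ j : Fin 3, if j < i ∧ x = .y j then 1 else 0 := by
      intro x hx i
      cases x with
      | s k =>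
        obtain ⟨g1, g2, g3, g4, g5⟩ := hx
        have l1 : LL ((kyN n C y0) (.s k)) ((kyN n C y0) (.y i)) := by
          left; simp only [kyN]; omega
        have l2 : LL ((kyN n C y0) (.s k)) (n * y0 + n * C.H, ln (aR C n (n * y0) eS eN) (n * y0 + n * C.H)) := by
          simp only [kyN]
          rcases lt_or_eq_of_le g2 with h | h
          · exact Or.inl h
          · exact Or.inr ⟨h, by have := g5 h; rw [h] at this; exact this⟩
        rw [if_pos l1, if_pos l2]
        simp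
      | y j =>
        have l2 : ¬ LL ((kyN n C y0) (.y j)) (n * y0 + n * C.H, ln (aR C n (n * y0) eS eN) (n * y0 + n * C.H)) := by
          simp only [kyN]
          rintro (h | ⟨h, -⟩) <;> simp only at h <;> omega
        rw [if_neg l2, zero_add]
        have l1 : LL ((kyN n C y0) (.y j)) ((kyN n C y0) (.y i)) ↔ j < i := by
          simp only [kyN, LL]
          rw [Fin.lt_def]
          omega
        simp only [l1]
        rw [Finset.sum_eq_single j]
        · simp
        · intro j' _ hne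
          rw [if_neg]
          rintro ⟨-, h⟩
          exact hne (CNm.y.inj h).symm
        · exact fun h => absurd (mem_univ _) h
    have sumJ : ∀ i : Fin 3, (∑ j : Fin 3, if j < i ∧ x = .y j then 1 else 0 : ZMod 2) +
        (∑ j : Fin 3, if j < i ∧ x' = .y j then 1 else 0) = ∑ j : Fin 3, if j < i then J j else 0 := by
      intro i
      rw [← Finset.sum_add_distrib]
      refine Finset.sum_congr rfl fun j _ => ?_
      by_cases h : j < i
      · simp [h, hJ]
      · simp [h]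
    have vals : S ((fpN P n C y0 u bb eS eN) (.y i)) = SE + ∑ j : Fin 3, if j < i then J j else 0 := by
      fin_cases i
      · have := m0.1 ha
        simpa [Fin.sum_univ_three] using this
      · have := m1.1
        simpa [Fin.sum_univ_three] using this
      · have := m2
        simpa [Fin.sum_univ_three, add_assoc] using this
    rw [vals, ← sumJ, vE, cmp x hx i, cmp x' hx' i]
    ring

variable {D : Set (ℤ × ℤ)} {w : Finset (ℤ × ℤ)}

/-- **Parity.** A strand between the names `x`, `x'` and a strand between `a`, `a'` do not cross. -/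
theorem cut_parity (hD : Disjoint D (LamX Λ0 C n (n * y0))) {x x' a a' : CNm} (hx : (VC P n Λ0 C y0 u bb eS eN) x) (hx' : (VC P n Λ0 C y0 u bb eS eN) x') (ha : (VC P n Λ0 C y0 u bb eS eN) a)
    (ha' : (VC P n Λ0 C y0 u bb eS eN) a') (nx : x ≠ x') (n1 : a ≠ x) (n2 : a ≠ x')
    (hr : (SG (LamX Λ0 C n (n * y0)) D w).Reachable ((sdN P n C y0 u bb eS eN) x) ((sdN P n C y0 u bb eS eN) x')) (hr' : (SG (LamX Λ0 C n (n * y0)) D w).Reachable ((sdN P n C y0 u bb eS eN) a) ((sdN P n C y0 u bb eS eN) a')) :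
    (Xor (LL ((kyN n C y0) x) ((kyN n C y0) a)) (LL ((kyN n C y0) x') ((kyN n C y0) a))) ↔
      (Xor (LL ((kyN n C y0) x) ((kyN n C y0) a')) (LL ((kyN n C y0) x') ((kyN n C y0) a'))) := by
  classical
  have hno : ∀ e ∈ (LamX Λ0 C n (n * y0)), e ∉ D := fun e h1 h2 => Set.disjoint_left.1 hD h2 h1
  have b1 := H.name_bd E hx
  have b2 := H.name_bd E hx'
  have b3 := H.name_bd E ha
  have b4 := H.name_bd E ha'
  have hne : (sdN P n C y0 u bb eS eN) x ≠ (sdN P n C y0 u bb eS eN) x' := fun h => nx (H.name_inj E hx hx' h)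
  obtain ⟨o1, ho1⟩ := b1.2
  obtain ⟨o2, ho2⟩ := b2.2
  obtain ⟨S, s1, s2, s3, s4⟩ := exists_sep hr hne ho1 ho2
    ((H.name_TC E hx ho1).trans (H.name_TC E hx' ho2).symm)
    (fun e h1 h2 => absurd h2 (hno e h1)) (fun e h1 h2 => absurd h2 (hno e h1))
  have hoff : ∀ c, Bd (LamX Λ0 C n (n * y0)) c → c ≠ (sdN P n C y0 u bb eS eN) x → c ≠ (sdN P n C y0 u bb eS eN) x' → ¬ (SG (LamX Λ0 C n (n * y0)) D w).Reachable ((sdN P n C y0 u bb eS eN) x) c := by
    intro c hc e1 e2 h
    rcases ends_two SG_deg2 b1.isEnd b2.isEnd hc.isEnd hr h hne with k | k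
    · exact e1 k
    · exact e2 k
  have hS : ∀ c, Bd (LamX Λ0 C n (n * y0)) c → ∀ p q, Jn c p q →
      S q = S p + (if c = (sdN P n C y0 u bb eS eN) x then 1 else 0) + (if c = (sdN P n C y0 u bb eS eN) x' then 1 else 0) := by
    intro c hc p q hj
    have two := z2_add_self (1 : ZMod 2)
    by_cases c1 : c = (sdN P n C y0 u bb eS eN) x
    · rw [if_pos c1, if_neg (fun h => hne (c1 ▸ h)), add_zero]
      rcases hj with ⟨rfl, rfl⟩ | ⟨rfl, rfl⟩
      · rw [c1]; exact s2
      · rw [c1, s2]; linear_combination -two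
    · by_cases c2 : c = (sdN P n C y0 u bb eS eN) x'
      · rw [if_neg c1, if_pos c2, add_zero]
        rcases hj with ⟨rfl, rfl⟩ | ⟨rfl, rfl⟩
        · rw [c2]; exact s3
        · rw [c2, s3]; linear_combination -two
      · rw [if_neg c1, if_neg c2, add_zero, add_zero]
        have := s1 c hc.1 (hoff c hc c1 c2)
        rcases hj with ⟨rfl, rfl⟩ | ⟨rfl, rfl⟩
        · exact this
        · exact this.symm
  have hoff3 := hoff _ b3 (fun e => n1 (H.name_inj E ha hx e)) (fun e => n2 (H.name_inj E ha hx' e))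
  have e34 := s4 _ _ hr' b3.1 hoff3
  have val : ∀ a, (VC P n Λ0 C y0 u bb eS eN) a → a ≠ x → a ≠ x' → S (pa ((sdN P n C y0 u bb eS eN) a)) = S ((fpN P n C y0 u bb eS eN) a) := by
    intro a ha c1 c2
    have hb := H.name_bd E ha
    have hf := s1 _ hb.1 (hoff _ hb (fun e => c1 (H.name_inj E ha hx e))
      (fun e => c2 (H.name_inj E ha hx' e)))
    have hJ : ∃ q, Jn ((sdN P n C y0 u bb eS eN) a) ((fpN P n C y0 u bb eS eN) a) q := by
      cases a with
      | s k =>
        by_cases c : k.2 = ln (aR C n (n * y0) eS eN) k.1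
        · exact ⟨_, by
            show Jn (aC (aR C n (n * y0) eS eN) k.1 k.2) (aP (aR C n (n * y0) eS eN) k.1 k.2) _
            rw [c]; exact Jn_vert (aR C n (n * y0) eS eN) k.1⟩
        · exact ⟨_, Jn_hor (aR C n (n * y0) eS eN) c⟩
      | y i => exact ⟨_, Jn_mkS n (P.side (u i)) (bb i)⟩
    obtain ⟨q, hq⟩ := hJ
    rcases hq with ⟨e1, -⟩ | ⟨-, e2⟩
    · rw [e1]
    · rw [← e2, hf]
  have n3 : a' ≠ x := by
    rintro rfl
    exact hoff3 hr'.symm
  have n4 : a' ≠ x' := by
    rintro rfl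
    exact hoff3 (hr.trans hr'.symm)
  rw [val a ha n1 n2, val a' ha' n3 n4, H.pot_name E hx hx' hS ha, H.pot_name E hx hx' hS ha'] at e34
  have e5 : ((if LL ((kyN n C y0) x) ((kyN n C y0) a) then 1 else 0 : ZMod 2) + (if LL ((kyN n C y0) x') ((kyN n C y0) a) then 1 else 0)) =
      (if LL ((kyN n C y0) x) ((kyN n C y0) a') then 1 else 0) + (if LL ((kyN n C y0) x') ((kyN n C y0) a') then 1 else 0) := by
    linear_combination e34
  by_cases c1 : LL ((kyN n C y0) x) ((kyN n C y0) a) <;> by_cases c2 : LL ((kyN n C y0) x') ((kyN n C y0) a) <;>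
    by_cases c3 : LL ((kyN n C y0) x) ((kyN n C y0) a') <;> by_cases c4 : LL ((kyN n C y0) x') ((kyN n C y0) a') <;>
    simp only [c1, c2, c3, c4, if_true, if_false] at e5 ⊢ <;>
    first
    | (exfalso; revert e5; decide)
    | simp [Xor]

omit H E in
lemma LL.ne {p q : ℤ × ℤ} (h : LL p q) : p ≠ q := by
  rintro rfl
  unfold LL at h
  omega

omit H E in
lemma LL.trans {p q r : ℤ × ℤ} (h : LL p q) (h' : LL q r) : LL p r := by
  unfold LL at *
  omega

/-- **The cut region is planar.** -/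
theorem cut_planar (hD : Disjoint D (LamX Λ0 C n (n * y0))) {a1 a2 a3 a4 : CNm} (h1 : (VC P n Λ0 C y0 u bb eS eN) a1) (h2 : (VC P n Λ0 C y0 u bb eS eN) a2) (h3 : (VC P n Λ0 C y0 u bb eS eN) a3)
    (h4 : (VC P n Λ0 C y0 u bb eS eN) a4) (l12 : LL ((kyN n C y0) a1) ((kyN n C y0) a2)) (l23 : LL ((kyN n C y0) a2) ((kyN n C y0) a3)) (l34 : LL ((kyN n C y0) a3) ((kyN n C y0) a4))
    (hr : (SG (LamX Λ0 C n (n * y0)) D w).Reachable ((sdN P n C y0 u bb eS eN) a1) ((sdN P n C y0 u bb eS eN) a3)) (hr' : (SG (LamX Λ0 C n (n * y0)) D w).Reachable ((sdN P n C y0 u bb eS eN) a2) ((sdN P n C y0 u bb eS eN) a4)) :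
    False := by
  have ne : ∀ {a b : CNm}, LL ((kyN n C y0) a) ((kyN n C y0) b) → a ≠ b := by
    rintro a b h rfl
    exact LL.ne h rfl
  have h := H.cut_parity E hD h1 h3 h2 h4 (ne (LL.trans l12 l23)) (ne l12).symm (ne l23) hr hr'
  have a1 := l23.asymm
  have a2 := LL.trans (LL.trans l12 l23) l34
  simp [Xor, l12, a1, a2, l34] at h

end CutH

end Pool.Agent.H47.W
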