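import Pool.Agent.H47.W.Room14
import Pool.Agent.H29.W.RoomI
import Pool.Agent.H78.W.FRm

set_option autoImplicit false
open Finset

/-! # Planarity of the strand graph, part 15: the outside of a fine room

`SK C n s k c` : `c` is one of the two sides between the room and its walls at the corner `k` of the room.
`PS` : positions: the corners `-1, .., H + 1`, then the three far ends counterclockwise from the exit
(`oj t0`, `t0` = first side of the right wall of the room). `cut_planar_S` : the strands of the region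
`LamX (Lam3 S h) C (2 h) (2 h y0)` between such sides do not cross. -/

namespace Pool.Agent.H47.W

open Pool.Agent.H75.Perc hiding WL CT hh PB
open Pool.Agent.H75.TwoArm Pool.Agent.H99.W Pool.Agent.H13.W
open Pool.Agent.H33.Q1
open Pool.Agent.Q1.M4 (Cell Good IsSide nextSide tail head PType Adj4 Conn4)
open Pool.Agent.H54.W (CD)
open Pool.Agent.H21.W (RP)
open Pool.Agent.H21.FM
open Pool.Agent.H29.W (BLk TLk)
open Pool.Agent.H74.W (Lam3 Del Ex Wp yy GW Cv)
open Pool.Agent.H78.W (FRm)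

/-- a side between the room and its walls (or removed layer tiles) at the corner `k` -/
inductive SK (C : CD) (n s : ℤ) : ℤ → ℤ × ℤ → Prop
  | bl3 (k : ℤ) (h : BLk C k) : SK C n s k (eW (lt (n * C.A k, n * k + s)))
  | bl1 (k : ℤ) (h : BLk C k) : SK C n s k (eS (lt (n * C.A k, n * k + s)))
  | tl3 (k : ℤ) (h : TLk C k) : SK C n s k (eW (lt (n * C.A (k - 1), n * k + s - 1)))
  | tl0 (k : ℤ) (h : TLk C k) : SK C n s k (eS (lt (n * C.A (k - 1), n * k + s)))
  | se1 : SK C n s (-1) (eS (lt (n * C.W - 1, s)))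
  | se2 : SK C n s (-1) (eS (lt (n * C.W, s)))
  | ne0 : SK C n s (C.H + 1) (eS (lt (n * C.W - 1, n * C.H + s)))
  | ne2 : SK C n s (C.H + 1) (eS (lt (n * C.W, n * C.H + s)))

/-- key of a corner -/
inductive KS (C : CD) (n s : ℤ) : ℤ → ℤ × ℤ → Prop
  | se (k κ : ℤ × ℤ) (h : κ.1 = s) (h' : κ.2 ≤ 1) : KS C n s (-1) κ
  | bl (k : ℤ) (κ : ℤ × ℤ) (hk : 0 ≤ k) (hk' : k < C.H) (h : κ.1 = n * k + s) (h' : n - 1 ≤ κ.2) :
    KS C n s k κ
  | tl (k : ℤ) (κ : ℤ × ℤ) (hk : 0 < k) (hk' : k ≤ C.H) (h : κ.1 = n * k + s - 1) : KS C n s k κ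
  | tl' (k : ℤ) (κ : ℤ × ℤ) (hk : 0 < k) (hk' : k ≤ C.H) (h : κ.1 = n * k + s) (h' : κ.2 = 0) :
    KS C n s k κ
  | ne (κ : ℤ × ℤ) (h : κ.1 = n * C.H + s) (h' : n - 1 ≤ κ.2) : KS C n s (C.H + 1) κ
  | y (i : Fin 3) (κ : ℤ × ℤ) (h : κ = (s + n * C.H + 1 + (i.val : ℤ), 0)) :
    KS C n s (C.H + 2 + (i.val : ℤ)) κ

/-- the keys are in the order of the positions -/
lemma KS.lt {C : CD} {n s : ℤ} (hn : 8 ≤ n) {k k' : ℤ} {κ κ' : ℤ × ℤ} (h : KS C n s k κ)
    (h' : KS C n s k' κ') (hk : k < k') : LL κ κ' := by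
  have h0 := C.H0
  have mul : ∀ a b : ℤ, a < b → n * a + n ≤ n * b := by
    intro a b hab
    nlinarith
  have hH : n ≤ n * C.H := by nlinarith
  have hz0 : n * 0 = 0 := mul_zero n
  unfold LL
  cases h with
  | se a b c d =>
    cases h' with
    | se a' b' c' d' => omega
    | bl _ _ c' c'' d' e' =>
      rcases eq_or_lt_of_le c' with g | g
      · subst g; omega
      · have := mul 0 k' g; omega
    | tl _ _ c' c'' d' => have := mul 0 k' c'; omega
    | tl' _ _ c' c'' d' e' => have := mul 0 k' c'; omega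
    | ne _ d' e' => omega
    | y i _ d' => subst d'; simp only; omega
  | bl _ _ c c2 d e =>
    have mH : n * k + n ≤ n * C.H := mul _ _ c2
    cases h' with
    | se a' b' c' d' => omega
    | bl _ _ c' c'' d' e' => have := mul _ _ hk; omega
    | tl _ _ c' c'' d' => have := mul _ _ hk; omega
    | tl' _ _ c' c'' d' e' => have := mul _ _ hk; omega
    | ne _ d' e' => omega
    | y i _ d' => subst d'; simp only; omega
  | tl _ _ c c2 d =>
    have mH : n * k ≤ n * C.H := by nlinarith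
    cases h' with
    | se a' b' c' d' => omega
    | bl _ _ c' c'' d' e' => have := mul _ _ hk; omega
    | tl _ _ c' c'' d' => have := mul _ _ hk; omega
    | tl' _ _ c' c'' d' e' => have := mul _ _ hk; omega
    | ne _ d' e' => omega
    | y i _ d' => subst d'; simp only; omega
  | tl' _ _ c c2 d e =>
    have mH : n * k ≤ n * C.H := by nlinarith
    cases h' with
    | se a' b' c' d' => omega
    | bl _ _ c' c'' d' e' => have := mul _ _ hk; omega
    | tl _ _ c' c'' d' => have := mul _ _ hk; omega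
    | tl' _ _ c' c'' d' e' => have := mul _ _ hk; omega
    | ne _ d' e' => omega
    | y i _ d' => subst d'; simp only; omega
  | ne _ d e =>
    cases h' with
    | se a' b' c' d' => omega
    | bl _ _ c' c'' d' e' => omega
    | tl _ _ c' c'' d' => omega
    | tl' _ _ c' c'' d' e' => omega
    | ne _ d' e' => omega
    | y i _ d' => subst d'; simp only; omega
  | y i _ d =>
    subst d
    cases h' with
    | se a' b' c' d' => omega
    | bl _ _ c' c'' d' e' => omega
    | tl _ _ c' c'' d' => omega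
    | tl' _ _ c' c'' d' e' => omega
    | ne _ d' e' => omega
    | y j _ d' => subst d'; simp only; omega

namespace CutH

variable {P : PType} {n : ℤ} {mk : ℕ → Prop} {Λ0 : Set (ℤ × ℤ)} {C : CD} {y0 : ℤ} {t0 : ℕ}
  {u : Fin 3 → ℕ} (H : CutH P n mk Λ0 C y0 t0 u) {eS eN : ℤ}
  (E : Ends C n (n * y0) eS eN Λ0)

include H

lemma div_row {k r : ℤ} (h0 : 0 ≤ r) (h1 : r < n) : (n * k + r) / n = k := by
  rw [Int.ediv_eq_iff_of_pos H.hp]
  constructor <;> nlinarith

/-- left end at the first row of the cell row `k` -/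
lemma aa_row {k : ℤ} (h0 : 0 ≤ k) (h1 : k < C.H) : (aR C n (n * y0) eS eN) (n * k + n * y0) = n * C.A k := by
  have hp := H.hp
  have h2 : n * k + n ≤ n * C.H := by nlinarith
  rw [aa_mid (by nlinarith) (by omega)]
  have e : n * k + n * y0 - n * y0 = n * k + 0 := by ring
  rw [e, H.div_row le_rfl hp]

/-- left end at the last row of the cell row `k - 1` -/
lemma aa_row' {k : ℤ} (h0 : 0 < k) (h1 : k ≤ C.H) : (aR C n (n * y0) eS eN) (n * k + n * y0 - 1) = n * C.A (k - 1) := by
  have hp := H.hp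
  have hn := H.hn
  have h2 : n * k ≤ n * C.H := by nlinarith
  have h3 : n ≤ n * k := by nlinarith
  rw [aa_mid (by omega) (by omega)]
  have e : n * k + n * y0 - 1 - n * y0 = n * (k - 1) + (n - 1) := by ring
  rw [e, H.div_row (by omega) (by omega)]

lemma A_ltW {k : ℤ} (h0 : 0 ≤ k) (h1 : k < C.H) : n * C.A k + n ≤ n * C.W := by
  have := C.AW k h0 h1
  have := H.hp
  nlinarith

include E

/-- **The corners of the room and their keys.** -/
lemma SK_key' {k : ℤ} {c : ℤ × ℤ} (h : SK C n (n * y0) k c)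
    (hc : c = hz (n * C.W) (n * y0) ∨ c = hz (n * C.W) (n * C.H + n * y0) → InT (LamX Λ0 C n (n * y0)) c) :
    ∃ κ, KS C n (n * y0) k κ ∧ KO2 (n * y0) (n * y0 + n * C.H) (aR C n (n * y0) eS eN) κ ∧ aC (aR C n (n * y0) eS eN) κ.1 κ.2 = c := by
  have hn := H.hn
  have hp := H.hp
  have hH := H.nH_ge
  have h0 := C.H0
  have s01 := E.s01
  have n01 := E.n01
  have hb := aa_bot (C := C) (n := n) (y0 := y0) (eS := eS) (eN := eN)
  have ht := H.aa_top (eS := eS) (eN := eN)
  -- the group of a lower left corner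
  have gBL : ∀ k, BLk C k → 0 ≤ k ∧ k < C.H ∧ (aR C n (n * y0) eS eN) (n * k + n * y0) = n * C.A k ∧
      n * C.A k + n ≤ (aR C n (n * y0) eS eN) (n * k + n * y0 - 1) ∧
      ln (aR C n (n * y0) eS eN) (n * k + n * y0) = (aR C n (n * y0) eS eN) (n * k + n * y0 - 1) - n * C.A k := by
    intro k hk
    have hk0 : 0 ≤ k ∧ k < C.H := by rcases hk with h | h <;> omega
    have e1 := H.aa_row (eS := eS) (eN := eN) hk0.1 hk0.2
    have e2 : n * C.A k + n ≤ (aR C n (n * y0) eS eN) (n * k + n * y0 - 1) := by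
      rcases hk with rfl | ⟨g1, g2, g3⟩
      · rw [mul_zero, zero_add, hb]
        have := H.A_ltW hk0.1 hk0.2
        omega
      · rw [H.aa_row' g1 (by omega)]
        nlinarith
    refine ⟨hk0.1, hk0.2, e1, e2, ?_⟩
    rcases ln_cases (aR C n (n * y0) eS eN) (n * k + n * y0) with ⟨g, e⟩ | ⟨g, e⟩ <;> rw [e] <;> omega
  -- the group of an upper left corner
  have gTL : ∀ k, TLk C k → 0 < k ∧ k ≤ C.H ∧ (aR C n (n * y0) eS eN) (n * k + n * y0 - 1) = n * C.A (k - 1) ∧
      n * C.A (k - 1) + n ≤ (aR C n (n * y0) eS eN) (n * k + n * y0) ∧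
      ln (aR C n (n * y0) eS eN) (n * k + n * y0) = (aR C n (n * y0) eS eN) (n * k + n * y0) - n * C.A (k - 1) := by
    intro k hk
    have hk0 : 0 < k ∧ k ≤ C.H := by rcases hk with h | h <;> omega
    have e1 := H.aa_row' (eS := eS) (eN := eN) hk0.1 hk0.2
    have e2 : n * C.A (k - 1) + n ≤ (aR C n (n * y0) eS eN) (n * k + n * y0) := by
      rcases hk with rfl | ⟨g1, g2, g3⟩
      · rw [add_comm (n * C.H), ht]
        have := H.A_ltW (k := C.H - 1) (by omega) (by omega)
        omega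
      · rw [H.aa_row (by omega) g2]
        nlinarith
    refine ⟨hk0.1, hk0.2, e1, e2, ?_⟩
    rcases ln_cases (aR C n (n * y0) eS eN) (n * k + n * y0) with ⟨g, e⟩ | ⟨g, e⟩ <;> rw [e] <;> omega
  have mul : ∀ a b : ℤ, a < b → n * a + n ≤ n * b := by
    intro a b hab
    nlinarith
  have mul' : ∀ a b : ℤ, a ≤ b → n * a ≤ n * b := fun a b hab => by nlinarith
  cases h with
  | bl3 _ h =>
    obtain ⟨k0, k1, e1, e2, e3⟩ := gBL k h
    have m1 := mul _ _ k1
    have m0 := mul' 0 k k0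
    rw [mul_zero] at m0
    refine ⟨(n * k + n * y0, ln (aR C n (n * y0) eS eN) (n * k + n * y0)), .bl k _ k0 k1 rfl (by simp only; omega),
      ⟨by simp only; omega, by simp only; omega, ln_nonneg _ _, le_rfl, fun g => ?_⟩, ?_⟩
    · simp only at g; omega
    · simp only
      rw [aC_vert, e1, ← vt_eq_lt, eW_vt]
  | bl1 _ h =>
    obtain ⟨k0, k1, e1, e2, e3⟩ := gBL k h
    have m1 := mul _ _ k1
    have m0 := mul' 0 k k0
    rw [mul_zero] at m0
    refine ⟨(n * k + n * y0, ln (aR C n (n * y0) eS eN) (n * k + n * y0) - 1), .bl k _ k0 k1 rfl (by simp only; omega),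
      ⟨by simp only; omega, by simp only; omega, by simp only; omega, by simp only; omega,
        fun g => ?_⟩, ?_⟩
    · simp only at g; omega
    · simp only
      unfold aC
      rw [if_neg (by omega), if_neg (by omega), ← vt_eq_lt, eS_vt, e3]
      congr 1
      ring
  | tl3 _ h =>
    obtain ⟨k0, k1, e1, e2, e3⟩ := gTL k h
    have m1 := mul' _ _ k1
    have m0 := mul 0 k k0
    rw [mul_zero] at m0
    refine ⟨(n * k + n * y0 - 1, ln (aR C n (n * y0) eS eN) (n * k + n * y0 - 1)), .tl k _ k0 k1 rfl,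
      ⟨by simp only; omega, by simp only; omega, ln_nonneg _ _, le_rfl, fun g => ?_⟩, ?_⟩
    · simp only at g; omega
    · simp only
      rw [aC_vert, e1, ← vt_eq_lt, eW_vt]
  | tl0 _ h =>
    obtain ⟨k0, k1, e1, e2, e3⟩ := gTL k h
    have m1 := mul' _ _ k1
    have m0 := mul 0 k k0
    rw [mul_zero] at m0
    refine ⟨(n * k + n * y0, 0), .tl' k _ k0 k1 rfl rfl,
      ⟨by simp only; omega, by simp only; omega, by simp, by simp only; omega, fun g => ?_⟩, ?_⟩
    · simp only; omega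
    · simp only
      unfold aC
      rw [if_neg (by omega), if_pos (by omega), ← vt_eq_lt, eS_vt, e1, add_zero]
  | se1 =>
    obtain ⟨k0, k1, e1, e2, e3⟩ := gBL 0 (Or.inl rfl)
    rw [mul_zero, zero_add] at e1 e2 e3
    rw [hb] at e2 e3
    refine ⟨(n * y0, eS), .se (0, 0) _ rfl (by simp only; omega),
      ⟨by simp only; omega, by simp only; omega, by simp only; omega, by simp only; omega,
        fun g => by simp only at g; omega⟩, ?_⟩
    simp only
    unfold aC
    rw [if_neg (by omega), if_neg (by omega), ← vt_eq_lt, eS_vt, hb]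
    congr 1
    ring
  | se2 =>
    obtain ⟨k0, k1, e1, e2, e3⟩ := gBL 0 (Or.inl rfl)
    rw [mul_zero, zero_add] at e1 e2 e3
    rw [hb] at e2 e3
    -- the diagonal tile is in the region
    have hS : eS = 1 := by
      rw [E.se]
      have hc := hc (Or.inl (by rw [← vt_eq_lt, eS_vt]))
      rw [← vt_eq_lt, eS_vt, InT_hz] at hc
      rcases hc with hc | hc
      · exfalso
        apply hc.2
        rw [mem_Rem]
        right
        exact ⟨rfl, by omega, by omega⟩
      · exact hc.1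
    refine ⟨(n * y0, 0), .se (0, 0) _ rfl (by simp only; omega),
      ⟨by simp only; omega, by simp only; omega, by simp only; omega, by simp only; omega,
        fun g => by simp only at g; omega⟩, ?_⟩
    simp only
    unfold aC
    rw [if_neg (by omega), if_neg (by omega), ← vt_eq_lt, eS_vt, hb]
    congr 1
    omega
  | ne0 =>
    obtain ⟨k0, k1, e1, e2, e3⟩ := gTL C.H (Or.inl rfl)
    rw [add_comm (n * C.H)] at e1 e2 e3
    rw [ht] at e2 e3
    have := H.A_ltW (k := C.H - 1) (by omega) (by omega)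
    refine ⟨(n * y0 + n * C.H, n * C.W - 1 - n * C.A (C.H - 1)), .ne _ (by simp only; ring)
      (by simp only; omega),
      ⟨by simp only; omega, by simp only; omega, by simp only; omega, by simp only; omega,
        fun g => by simp only; omega⟩, ?_⟩
    simp only
    unfold aC
    rw [if_neg (by omega), if_pos (by omega), ← vt_eq_lt, eS_vt, e1, add_comm (n * C.H)]
    congr 1
    ring
  | ne2 =>
    obtain ⟨k0, k1, e1, e2, e3⟩ := gTL C.H (Or.inl rfl)
    rw [add_comm (n * C.H)] at e1 e2 e3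
    rw [ht] at e2 e3
    have := H.A_ltW (k := C.H - 1) (by omega) (by omega)
    have hN : eN = 1 := by
      rw [E.ne]
      have hc := hc (Or.inr (by rw [← vt_eq_lt, eS_vt]))
      rw [← vt_eq_lt, eS_vt, InT_hz] at hc
      rcases hc with hc | hc
      · rw [add_comm]; exact hc.1
      · exfalso
        apply hc.2
        rw [mem_Rem]
        right
        exact ⟨rfl, by omega, by omega⟩
    refine ⟨(n * y0 + n * C.H, n * C.W - n * C.A (C.H - 1)), .ne _ (by simp only; ring)
      (by simp only; omega),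
      ⟨by simp only; omega, by simp only; omega, by simp only; omega, by simp only; omega,
        fun g => by simp only; omega⟩, ?_⟩
    simp only
    unfold aC
    rw [if_neg (by omega), if_pos (by omega), ← vt_eq_lt, eS_vt, e1, add_comm (n * C.H)]
    congr 1
    ring

lemma SK_key {k : ℤ} {c : ℤ × ℤ} (h : SK C n (n * y0) k c) (hc : InT (LamX Λ0 C n (n * y0)) c) :
    ∃ κ, KS C n (n * y0) k κ ∧ KO2 (n * y0) (n * y0 + n * C.H) (aR C n (n * y0) eS eN) κ ∧ aC (aR C n (n * y0) eS eN) κ.1 κ.2 = c :=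
  H.SK_key' E h fun _ => hc

omit E

/-- the sides at the corners have a tile in the cut region, except the two at the removed layer -/
lemma SK_inT {k : ℤ} {c : ℤ × ℤ} (h : SK C n (n * y0) k c) (h1 : c ≠ hz (n * C.W) (n * y0))
    (h2 : c ≠ hz (n * C.W) (n * C.H + n * y0)) : InT (LamX Λ0 C n (n * y0)) c := by
  obtain ⟨eS, eN, E⟩ := exists_ends C n (n * y0) Λ0
  obtain ⟨κ, -, h3, h4⟩ := H.SK_key' E h fun h => h.elim (fun e => absurd e h1) fun e => absurd e h2
  rw [← h4]
  exact (H.arc_bd E h3).1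

/-- they are boundary sides -/
lemma SK_bd {k : ℤ} {c : ℤ × ℤ} (h : SK C n (n * y0) k c) (hc : InT (LamX Λ0 C n (n * y0)) c) : Bd (LamX Λ0 C n (n * y0)) c := by
  obtain ⟨eS, eN, E⟩ := exists_ends C n (n * y0) Λ0
  obtain ⟨κ, -, h3, h4⟩ := H.SK_key E h hc
  rw [← h4]
  exact H.arc_bd E h3

/-- different corners, different sides -/
lemma SK_inj {k k' : ℤ} {c : ℤ × ℤ} (h : SK C n (n * y0) k c) (h' : SK C n (n * y0) k' c)
    (hc : InT (LamX Λ0 C n (n * y0)) c) : k = k' := by
  obtain ⟨eS, eN, E⟩ := exists_ends C n (n * y0) Λ0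
  obtain ⟨κ, a1, a2, a3⟩ := H.SK_key E h hc
  obtain ⟨κ', b1, b2, b3⟩ := H.SK_key E h' hc
  have e : κ = κ' := aC_inj2 a2 b2 (a3.trans b3.symm)
  subst e
  rcases lt_trichotomy k k' with g | g | g
  · exact absurd rfl (LL.ne (a1.lt H.hn b1 g))
  · exact g
  · exact absurd rfl (LL.ne (b1.lt H.hn a1 g))

/-- a side at a corner is not a side at a mark -/
lemma SK_ne_mk {k : ℤ} {c : ℤ × ℤ} (h : SK C n (n * y0) k c) (hc : InT (LamX Λ0 C n (n * y0)) c) {i : ℕ}
    (hi : mk (i + 1)) (b : Bool) : c ≠ mkS n (P.side i) b := by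
  obtain ⟨eS, eN, E⟩ := exists_ends C n (n * y0) Λ0
  obtain ⟨κ, -, h3, h4⟩ := H.SK_key E h hc
  rw [← h4]
  exact H.arc_ne_mk E h3 hi b

/-- a side at a corner: one tile is removed -/
lemma SK_tiles {k : ℤ} {c : ℤ × ℤ} (h : SK C n (n * y0) k c) (hc : InT (LamX Λ0 C n (n * y0)) c) :
    ∃ r o : ℤ × ℤ, Two c r o ∧ lt r ∈ Rem C n (n * y0) ∧ lt o ∈ (LamX Λ0 C n (n * y0)) := by
  obtain ⟨eS, eN, E⟩ := exists_ends C n (n * y0) Λ0
  obtain ⟨κ, -, h3, h4⟩ := H.SK_key E h hc
  obtain ⟨r, o, h5, h6, h7, -⟩ := H.arc_tiles E h3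
  rw [h4] at h5
  exact ⟨r, o, h5, h6, h7⟩

/-- **Planarity**, corners and marks with their positions. -/
theorem cut_pos {bb : Fin 3 → Bool} {D : Set (ℤ × ℤ)} {w : Finset (ℤ × ℤ)} (hD : Disjoint D (LamX Λ0 C n (n * y0)))
    {c : Fin 4 → ℤ × ℤ} {p : Fin 4 → ℤ} (hp : StrictMono p)
    (hc : ∀ i, SK C n (n * y0) (p i) (c i) ∨
      ∃ j : Fin 3, p i = C.H + 2 + (j.val : ℤ) ∧ c i = mkS n (P.side (u j)) (bb j))
    (hi : ∀ i, InT (LamX Λ0 C n (n * y0)) (c i)) (hr : (SG (LamX Λ0 C n (n * y0)) D w).Reachable (c 0) (c 2))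
    (hr' : (SG (LamX Λ0 C n (n * y0)) D w).Reachable (c 1) (c 3)) : False := by
  obtain ⟨eS, eN, E⟩ := exists_ends C n (n * y0) Λ0
  have key : ∀ i, ∃ a : CNm, VC P n Λ0 C y0 u bb eS eN a ∧ sdN P n C y0 u bb eS eN a = c i ∧
      KS C n (n * y0) (p i) (kyN n C y0 a) := by
    intro i
    rcases hc i with h | ⟨j, h1, h2⟩
    · obtain ⟨κ, k1, k2, k3⟩ := H.SK_key E h (hi i)
      exact ⟨.s κ, k2, k3, k1⟩
    · refine ⟨.y j, ?_, h2.symm, ?_⟩
      · show InT (LamX Λ0 C n (n * y0)) (mkS n (P.side (u j)) (bb j))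
        rw [← h2]
        exact hi i
      · rw [h1]
        exact .y j _ rfl
  choose a ha hs hk using key
  have hn := H.hn
  have l : ∀ i j, i < j → LL (kyN n C y0 (a i)) (kyN n C y0 (a j)) := fun i j hij =>
    (hk i).lt hn (hk j) (hp hij)
  rw [← hs 0, ← hs 2] at hr
  rw [← hs 1, ← hs 3] at hr'
  exact H.cut_planar E hD (ha 0) (ha 1) (ha 2) (ha 3) (l 0 1 (by decide)) (l 1 2 (by decide))
    (l 2 3 (by decide)) hr hr'

end CutH

/-! ### The room in the world of a shape -/

/-- the sides of the right wall -/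
lemma wall0 {P : PType} {C : CD} {y0 : ℤ} {t0 : ℕ}
    (inn : ∀ X Y, 0 ≤ Y → Y < C.H → C.A Y ≤ X → X < C.W → (X, y0 + Y) ∈ P.Q)
    (rt : ∀ Y, -1 ≤ Y → Y ≤ C.H → (C.W, y0 + Y) ∉ P.Q)
    (t0c : (P.side t0).1 = (C.W - 1, y0)) (t0k : (P.side t0).2 % 4 = 1)
    {j : ℕ} (hj : (j : ℤ) < C.H) : (P.side (t0 + j)).1 = (C.W - 1, y0 + j) ∧
    (P.side (t0 + j)).2 % 4 = 1 := by
  induction j with
  | zero => simpa using ⟨t0c, t0k⟩
  | succ j ih =>
    obtain ⟨h1, h2⟩ := ih (by push_cast at hj; omega)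
    have e : t0 + (j + 1) = t0 + j + 1 := by ring
    rw [e, side_succ]
    set s := P.side (t0 + j) with hs
    rcases io_dir s.2 with ⟨a, -, c, d⟩ | ⟨a, -, c, d⟩ | ⟨a, -, c, d⟩ | ⟨a, -, c, d⟩
    · omega
    · have e1 : s.1 + dir s.2 + dir (s.2 - 1) = (C.W, y0 + (j + 1)) := by
        rw [h1, c, d]; refine Prod.ext ?_ ?_ <;> simp; ring
      have e2 : s.1 + dir s.2 = (C.W - 1, y0 + (j + 1)) := by
        rw [h1, c]; refine Prod.ext ?_ ?_ <;> simp; ring
      rcases next_cases P.Q s with ⟨k1, -⟩ | ⟨-, -, k3⟩ | ⟨-, k2, -⟩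
      · rw [e1] at k1
        exact absurd k1 (rt _ (by omega) (by push_cast at hj; omega))
      · rw [k3, e2]
        exact ⟨by push_cast; rfl, h2⟩
      · rw [e2] at k2
        have := C.AW (j + 1) (by omega) (by push_cast at hj; omega)
        exact absurd (inn (C.W - 1) (j + 1) (by omega) (by push_cast at hj; omega) (by omega)
          (by omega)) k2
    · omega
    · omega

section shape

variable {S : Shape} {h : ℕ}

/-- the sides before the three marks, counterclockwise from the side `t0` -/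
def uS (S : Shape) (t0 : ℕ) (i : Fin 3) : ℕ :=
  if t0 < S.m2 then (if i = 0 then S.m2 - 1 else if i = 1 then S.m3 - 1 else S.N - 1)
  else if t0 < S.m3 then (if i = 0 then S.m3 - 1 else if i = 1 then S.N - 1 else S.N + (S.m2 - 1))
  else (if i = 0 then S.N - 1 else if i = 1 then S.N + (S.m2 - 1) else S.N + (S.m3 - 1))

/-- the order of the far ends, counterclockwise from the side `t0` -/
def oj (S : Shape) (t0 : ℕ) (i : Fin 3) : Fin 3 :=
  if t0 < S.m2 then i + 1 else if t0 < S.m3 then i + 2 else i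

lemma uS_oj (t0 : ℕ) (i : Fin 3) :
    uS S t0 i = vx3 S (oj S t0 i) ∨ uS S t0 i = S.N + vx3 S (oj S t0 i) := by
  unfold uS oj vx3
  fin_cases i <;> split_ifs <;> simp_all

/-- the far ends are sides at the marks -/
lemma yy_uS (p : ℤ × ℤ) (t0 : ℕ) : ∃ bb : Fin 3 → Bool, ∀ i,
    yy S h p (oj S t0 i) = mkS (2 * h) (S.P.side (uS S t0 i)) (bb i) := by
  have key : ∀ i, ∃ b, yy S h p (oj S t0 i) = mkS (2 * h) (S.P.side (uS S t0 i)) b := by
    intro i
    obtain ⟨b, e⟩ := yy_mark (S := S) (h := h) p (oj S t0 i)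
    refine ⟨b, ?_⟩
    rcases uS_oj (S := S) t0 i with h1 | h1
    · rw [h1]; exact e
    · rw [h1, mkS_N]; exact e
  choose bb hbb using key
  exact ⟨bb, hbb⟩

variable {κ : Type*} {pl : Cell → Option κ} {W y0 y1 : ℤ} {A : ℤ → ℤ} {C : CD}

/-- the first side of the right wall -/
lemma exists_t0 (R : FRm S.P.Q pl W y0 y1 A) : ∃ t0 < S.N, (S.P.side t0).1 = (W - 1, y0) ∧
    (S.P.side t0).2 % 4 = 1 := by
  have hs : IsSide S.P.Q ((W - 1, y0), 1) := by
    refine ⟨(R.nat (W - 1) y0 le_rfl R.lt (by have := R.AW y0 le_rfl R.lt; omega) (by omega)).1, ?_⟩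
    show (W - 1, y0) + dir (1 - 1) ∉ S.P.Q
    have e : ((W - 1, y0) + dir (1 - 1) : ℤ × ℤ) = (W, y0) := by
      rw [sub_self, CutH.dir_vals.1]; refine Prod.ext ?_ ?_ <;> simp
    rw [e]
    exact R.rt y0 (by omega) R.lt.le
  obtain ⟨t, ht, h1, h2⟩ := S.P.all _ hs
  refine ⟨t, ht, h1, ?_⟩
  have h2 : ((S.P.side t).2 - 1) % 4 = 0 := h2
  omega

/-- **The hypotheses of the cut region.** -/
theorem cutH_S (hh : 4 ≤ h) (R : FRm S.P.Q pl W y0 y1 A) (hH : C.H = y1 - y0) (hW : C.W = W)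
    (hA : ∀ Y, 0 ≤ Y → Y < C.H → C.A Y = A (y0 + Y)) {t0 : ℕ} (ht : t0 < S.N)
    (tc : (S.P.side t0).1 = (W - 1, y0)) (tk : (S.P.side t0).2 % 4 = 1) :
    CutH S.P (2 * h) (mk3 S) (Lam3 S h : Set (ℤ × ℤ)) C y0 t0 (uS S t0) := by
  obtain ⟨n1, n2, n3⟩ := posN (S := S)
  have inn : ∀ X Y, 0 ≤ Y → Y < C.H → C.A Y ≤ X → X < C.W → (X, y0 + Y) ∈ S.P.Q := by
    intro X Y h1 h2 h3 h4
    rw [hA Y h1 h2] at h3
    exact (R.nat X (y0 + Y) (by omega) (by omega) h3 (by omega)).1
  have rt : ∀ Y, -1 ≤ Y → Y ≤ C.H → (C.W, y0 + Y) ∉ S.P.Q := by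
    intro Y h1 h2
    rw [hW]
    exact R.rt (y0 + Y) (by omega) (by omega)
  have t0c : (S.P.side t0).1 = (C.W - 1, y0) := by rw [hW]; exact tc
  have mm : ∀ i : Fin 3, mk3 S (uS S t0 i + 1) := by
    intro i
    unfold mk3 uS
    have e1 : (S.N + (S.m2 - 1) + 1) % S.N = S.m2 := by
      rw [show S.N + (S.m2 - 1) + 1 = S.N + S.m2 by omega, Nat.add_mod_left, Nat.mod_eq_of_lt (by omega)]
    have e2 : (S.N + (S.m3 - 1) + 1) % S.N = S.m3 := by
      rw [show S.N + (S.m3 - 1) + 1 = S.N + S.m3 by omega, Nat.add_mod_left, Nat.mod_eq_of_lt (by omega)]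
    have e3 : (S.N - 1 + 1) % S.N = 0 := by
      rw [show S.N - 1 + 1 = S.N by omega, Nat.mod_self]
    have e4 : (S.m2 - 1 + 1) % S.N = S.m2 := by
      rw [show S.m2 - 1 + 1 = S.m2 by omega, Nat.mod_eq_of_lt (by omega)]
    have e5 : (S.m3 - 1 + 1) % S.N = S.m3 := by
      rw [show S.m3 - 1 + 1 = S.m3 by omega, Nat.mod_eq_of_lt (by omega)]
    split_ifs
    · right; left; exact e4
    · right; right; exact e5
    · left; exact e3
    · right; right; exact e5
    · left; exact e3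
    · right; left; exact e1
    · left; exact e3
    · right; left; exact e1
    · right; right; exact e2
  refine ⟨by omega, lamV3 (by omega), fun p hp => lab_lt_mem (by omega) hp, inn, rt, t0c, tk,
    ?_, ?_, ?_, ?_, mm, ?_⟩
  · -- no mark on the right wall
    by_contra hc
    push Not at hc
    have hu : t0 < uS S t0 0 + 1 := by
      unfold uS
      simp only [if_true]
      split_ifs <;> omega
    have hcv := (lamV3 (S := S) (h := h) (by omega)).cvx _ (mm 0)
    obtain ⟨j, hj⟩ : ∃ j : ℕ, uS S t0 0 = t0 + j := ⟨uS S t0 0 - t0, by omega⟩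
    rw [hj] at hcv hc
    have h1 := wall0 inn rt t0c tk (j := j) (by omega)
    have h2 := wall0 inn rt t0c tk (j := j + 1) (by push_cast; omega)
    have e : t0 + (j + 1) = t0 + j + 1 := by ring
    rw [e, hcv] at h2
    have := h1.2
    have := h2.2
    simp only at this
    omega
  · unfold uS
    simp only [if_true, one_ne_zero, if_false]
    split_ifs <;> omega
  · unfold uS
    have e1 : ¬ (2 : Fin 3) = 0 := by decide
    have e2 : ¬ (2 : Fin 3) = 1 := by decide
    simp only [if_true, one_ne_zero, if_false, e1, e2]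
    split_ifs <;> omega
  · unfold uS
    have e1 : ¬ (2 : Fin 3) = 0 := by decide
    have e2 : ¬ (2 : Fin 3) = 1 := by decide
    simp only [if_false, e1, e2]
    show _ < t0 + S.N
    split_ifs <;> omega
  · intro t h1 h2 hm
    have h2 : t ≤ t0 + S.N := h2
    unfold mk3 at hm
    have e1 : ¬ (2 : Fin 3) = 0 := by decide
    have e2 : ¬ (2 : Fin 3) = 1 := by decide
    have e0 : ¬ (1 : Fin 3) = 0 := by decide
    rcases lt_or_ge t S.N with h3 | h3
    · rw [Nat.mod_eq_of_lt h3] at hm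
      rcases hm with h4 | h4 | h4
      · omega
      · refine ⟨0, ?_⟩
        unfold uS
        rw [if_pos (by omega), if_pos rfl]
        omega
      · by_cases c : t0 < S.m2
        · refine ⟨1, ?_⟩
          unfold uS
          rw [if_pos c, if_neg e0, if_pos rfl]
          omega
        · refine ⟨0, ?_⟩
          unfold uS
          rw [if_neg c, if_pos (by omega), if_pos rfl]
          omega
    · have h4 : t % S.N = t - S.N := by
        rw [Nat.mod_eq_sub_mod h3, Nat.mod_eq_of_lt (by omega)]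
      rw [h4] at hm
      rcases hm with h5 | h5 | h5
      · by_cases c : t0 < S.m2
        · refine ⟨2, ?_⟩
          unfold uS
          rw [if_pos c, if_neg e1, if_neg e2]
          omega
        · by_cases c' : t0 < S.m3
          · refine ⟨1, ?_⟩
            unfold uS
            rw [if_neg c, if_pos c', if_neg e0, if_pos rfl]
            omega
          · refine ⟨0, ?_⟩
            unfold uS
            rw [if_neg c, if_neg c', if_pos rfl]
            omega
      · have c : ¬ t0 < S.m2 := by omega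
        by_cases c' : t0 < S.m3
        · refine ⟨2, ?_⟩
          unfold uS
          rw [if_neg c, if_pos c', if_neg e1, if_neg e2]
          omega
        · refine ⟨1, ?_⟩
          unfold uS
          rw [if_neg c, if_neg c', if_neg e0, if_pos rfl]
          omega
      · have c : ¬ t0 < S.m2 := by omega
        have c' : ¬ t0 < S.m3 := by omega
        refine ⟨2, ?_⟩
        unfold uS
        rw [if_neg c, if_neg c', if_neg e1, if_neg e2]
        omega

/-- **Outside of a fine room the strands do not cross.** Positions: the corners `-1, .., H + 1`, then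
`H + 2`, `H + 3`, `H + 4` for the far ends `oj t0 0`, `oj t0 1`, `oj t0 2`. -/
theorem cut_planar_S (hh : 4 ≤ h) (R : FRm S.P.Q pl W y0 y1 A) (hH : C.H = y1 - y0) (hW : C.W = W)
    (hA : ∀ Y, 0 ≤ Y → Y < C.H → C.A Y = A (y0 + Y)) {t0 : ℕ} (ht : t0 < S.N)
    (tc : (S.P.side t0).1 = (W - 1, y0)) (tk : (S.P.side t0).2 % 4 = 1) (q : ℤ × ℤ)
    {D : Set (ℤ × ℤ)} {w : Finset (ℤ × ℤ)}
    (hD : Disjoint D (LamX (Lam3 S h : Set (ℤ × ℤ)) C (2 * h) (2 * h * y0)))
    {c : Fin 4 → ℤ × ℤ} {p : Fin 4 → ℤ} (hp : StrictMono p)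
    (hc : ∀ i, SK C (2 * h) (2 * h * y0) (p i) (c i) ∨
      ∃ j : Fin 3, p i = C.H + 2 + (j.val : ℤ) ∧ c i = yy S h q (oj S t0 j))
    (hi : ∀ i, InT (LamX (Lam3 S h : Set (ℤ × ℤ)) C (2 * h) (2 * h * y0)) (c i))
    (hr : (SG (LamX (Lam3 S h : Set (ℤ × ℤ)) C (2 * h) (2 * h * y0)) D w).Reachable (c 0) (c 2))
    (hr' : (SG (LamX (Lam3 S h : Set (ℤ × ℤ)) C (2 * h) (2 * h * y0)) D w).Reachable (c 1) (c 3)) :
    False := by
  obtain ⟨bb, hbb⟩ := yy_uS (S := S) (h := h) q t0
  refine (cutH_S hh R hH hW hA ht tc tk).cut_pos (bb := bb) hD hp (fun i => ?_) hi hr hr'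
  rcases hc i with h1 | ⟨j, h1, h2⟩
  · exact Or.inl h1
  · exact Or.inr ⟨j, h1, by rw [h2, hbb]⟩

end shape

end Pool.Agent.H47.W
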