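import Pool.Agent.H47.W.Room2

set_option autoImplicit false
open Finset

/-! # Planarity of the strand graph, part 5: a block near a wall

`third_end` : the interior end `z` lies in a set `I` of sides with one exit (13's block), `I` reaches the
wall between the marks `x`, `y`. Then the strand of `z` does not arrive at the third mark `u`. -/

namespace Pool.Agent.H47.W

open Pool.Agent.H75.Perc Pool.Agent.H75.TwoArm Pool.Agent.H99.W Pool.Agent.H13.W

/-- joined by sides of `I` -/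
def PI (Λ I : Set (ℤ × ℤ)) (p q : ℤ × ℤ) : Prop :=
  Relation.ReflTransGen (fun p q => ∃ c ∈ I, Jn c p q ∧ InT Λ c) p q

section

variable {Λ D I M : Set (ℤ × ℤ)} {w : Finset (ℤ × ℤ)} {x y z u b : ℤ × ℤ}

/-- a strand which does not belong to `z` does not enter a set with one exit -/
theorem no_enter {G : SimpleGraph (ℤ × ℤ)} (hd : Deg2 G) (ex : IsEnd G x) (ey : IsEnd G y)
    (eu : IsEnd G u) (hxy : G.Reachable x y) (nxy : x ≠ y) (nux : u ≠ x) (nuy : u ≠ y)
    (hI : ∀ s t, s ∈ I → t ∉ I → G.Adj s t → t = b) (hz : z ∈ I) (hu : u ∉ I) (hx : x ∉ I)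
    (hzu : G.Reachable z u) : ∀ c ∈ I, ¬ G.Reachable x c := by
  intro c hc h
  obtain ⟨s, -, -, -, h1⟩ := last_exit hI hc hx h.symm
  obtain ⟨t, -, -, -, h2⟩ := last_exit hI hz hu hzu
  have h3 : G.Reachable x u := (h1.mono (off_le G I)).symm.trans (h2.mono (off_le G I))
  rcases ends_two hd ex ey eu hxy h3 nxy with k | k
  · exact nux k
  · exact nuy k

/-- if each of the four ends has a partner among them and `z` is joined to `u`, then `x` is joined
to `y` -/
theorem pair_rest {G : SimpleGraph (ℤ × ℤ)} (hd : Deg2 G) (ex : IsEnd G x) (ez : IsEnd G z)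
    (eu : IsEnd G u) (hp : ∃ c, (c = z ∨ c = y ∨ c = u) ∧ c ≠ x ∧ G.Reachable x c) (nzx : z ≠ x)
    (nux : u ≠ x) (nzu : z ≠ u) (hzu : G.Reachable z u) : G.Reachable x y := by
  obtain ⟨c, hc, h1, h2⟩ := hp
  rcases hc with rfl | rfl | rfl
  · exfalso
    rcases ends_two hd ez eu ex hzu h2.symm nzu with k | k
    · exact nzx k.symm
    · exact nux k.symm
  · exact h2
  · exfalso
    rcases ends_two hd ez eu ex hzu (hzu.trans h2.symm) nzu with k | k
    · exact nzx k.symm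
    · exact nux k.symm

/-- **The third end is not reached.** `x`, `y`, `u` : marks, `q` : point of the wall between `x` and `y`,
`M` contains the marks. -/
theorem third_end (hdo : ∀ e ∈ Λ, e ∈ D → (e.1 + e.2) % 2 = 1)
    (hD : ∀ e ∈ Λ, e ∈ D → eW e ≠ x ∧ eE e ≠ x ∧ eW e ≠ y ∧ eE e ≠ y)
    (bx : Bd Λ x) (bY : Bd Λ y) (bu : Bd Λ u) (nxy : x ≠ y) (nux : u ≠ x) (nuy : u ≠ y)
    (hC : ∀ o o', OutT Λ x o → OutT Λ y o' → TC Λ o o')
    (hxM : x ∈ M) (hyM : y ∈ M)
    (hI : ∀ s t, s ∈ I → t ∉ I → (SG Λ D w).Adj s t → t = b) (hz : z ∈ I) (hu : u ∉ I)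
    (hx : x ∉ I) (iz : InT Λ z) {q qm qp um up p : ℤ × ℤ} (hp : p = pa z ∨ p = pb z)
    (hpq : PI Λ I p q) (h1 : BC Λ M q qm) (jy : Jn y qm qp) (h2 : BC Λ M qp um) (ju : Jn u um up)
    (hxy : (SG Λ D w).Reachable x y) : ¬ (SG Λ D w).Reachable z u := by
  intro hzu
  obtain ⟨o, ho⟩ := bx.2
  obtain ⟨o', ho'⟩ := bY.2
  obtain ⟨S, s1, s2, s3, s4⟩ := exists_sep hxy nxy ho ho' (hC _ _ ho ho') hD hdo
  have hoff := no_enter SG_deg2 bx.isEnd bY.isEnd bu.isEnd hxy nxy nux nuy hI hz hu hx hzu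
  have hb : ∀ c, Bd Λ c → c ≠ x → c ≠ y → S (pb c) = S (pa c) := by
    intro c hc k1 k2
    refine s1 c hc.1 fun k => ?_
    rcases ends_two SG_deg2 bx.isEnd bY.isEnd hc.isEnd hxy k nxy with k3 | k3
    · exact k1 k3
    · exact k2 k3
  have hJ : ∀ c p q, Jn c p q → S (pb c) = S (pa c) → S p = S q := by
    rintro c p q (⟨rfl, rfl⟩ | ⟨rfl, rfl⟩) k
    · exact k.symm
    · exact k
  have hBC : ∀ p q, BC Λ M p q → S p = S q := by
    intro p q k
    induction k with
    | refl => rfl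
    | tail _ k ih =>
      obtain ⟨c, k1, k2, k3⟩ := k
      rw [ih]
      exact hJ c _ _ k1 (hb c k2 (fun e => k3 (e ▸ hxM)) (fun e => k3 (e ▸ hyM)))
  have hPI : ∀ p q, PI Λ I p q → S p = S q := by
    intro p q k
    induction k with
    | refl => rfl
    | tail _ k ih =>
      obtain ⟨c, k1, k2, k3⟩ := k
      rw [ih]
      exact hJ c _ _ k2 (s1 c k3 (hoff c k1))
  have e1 : S (pa z) = S (pa u) := s4 z u hzu iz (hoff z hz)
  have e2 : S p = S (pa z) := by
    rcases hp with rfl | rfl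
    · rfl
    · exact s1 z iz (hoff z hz)
  have e3 : S qp = S qm + 1 := by
    rcases jy with ⟨rfl, rfl⟩ | ⟨rfl, rfl⟩
    · exact s3
    · rw [s3]
      have := z2_add_self (1 : ZMod 2)
      linear_combination -this
  have e4 : S um = S (pa u) := by
    rcases ju with ⟨rfl, rfl⟩ | ⟨rfl, rfl⟩
    · rfl
    · exact hb u bu nux nuy
  have e5 := hPI _ _ hpq
  have e6 := hBC _ _ h1
  have e7 := hBC _ _ h2
  have : (1 : ZMod 2) = 0 := by
    linear_combination -e3 + e7 + e4 - e1 - e2 + e5 + e6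
  exact one_ne_zero this

end

end Pool.Agent.H47.W
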