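import Pool.Agent.H47.W.Room4
import Pool.Agent.H47.W.Room5
import Pool.Agent.H33.Q1.Layers

set_option autoImplicit false
open Finset

/-! # Planarity of the strand graph, part 6: polygons with a wall layer

`ott n s j r` : tile in the column `j`, row `r` of the side `s` (`r = 0` inner row, `r = 1` wall layer).
`FarT n Q p` : no tile of the polygon touches the tile `p`. `LamV P n mk Λ` : `Λ` contains the wall layers
and the diagonal tiles at the convex vertices which are not marks. `BC_arc` : the outer boundary of `Λ`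
between two vertices; `TC_dg` : the diagonal tiles at the marks are joined outside of `Λ`. -/

namespace Pool.Agent.H47.W

open Pool.Agent.H75.Perc hiding WL CT hh
open Pool.Agent.H75.TwoArm Pool.Agent.H99.W Pool.Agent.H13.W
open Pool.Agent.H33.Q1
open Pool.Agent.Q1.M4 (Cell Good IsSide nextSide tail head PType Adj4 Conn4)

/-! ### Directed sides -/

/-- the side from `p` to `p + dir k` -/
def sd (p : ℤ × ℤ) (k : ℤ) : ℤ × ℤ :=
  if k % 4 = 0 then hz p.1 p.2 else if k % 4 = 1 then vt p.1 p.2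
  else if k % 4 = 2 then hz (p.1 - 1) p.2 else vt p.1 (p.2 - 1)

lemma Jn_sd (p : ℤ × ℤ) (k : ℤ) : Jn (sd p k) p (p + dir k) := by
  unfold sd
  obtain ⟨x, y⟩ := p
  rcases dir_cases k with ⟨h, e⟩ | ⟨h, e⟩ | ⟨h, e⟩ | ⟨h, e⟩ <;> rw [e]
  · rw [if_pos h]
    have := Jn_hz x y
    simpa using this
  · rw [if_neg (by omega), if_pos h]
    have := Jn_vt x y
    simpa using this
  · rw [if_neg (by omega), if_neg (by omega), if_pos h]
    have := (Jn_hz (x - 1) y).symm
    simpa [sub_eq_add_neg] using this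
  · rw [if_neg (by omega), if_neg (by omega), if_neg (by omega)]
    have := (Jn_vt x (y - 1)).symm
    simpa [sub_eq_add_neg] using this

/-- the tiles on both sides of a directed side -/
lemma tiles_sd (p : ℤ × ℤ) (k : ℤ) :
    (lab (sd p k) = lt (p + io k) ∧ plab (sd p k) = lt (p + io k + dir (k - 1))) ∨
    (lab (sd p k) = lt (p + io k + dir (k - 1)) ∧ plab (sd p k) = lt (p + io k)) := by
  obtain ⟨x, y⟩ := p
  unfold sd
  rcases io_dir k with ⟨h, e, -, f⟩ | ⟨h, e, -, f⟩ | ⟨h, e, -, f⟩ | ⟨h, e, -, f⟩ <;> rw [e, f]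
  · rw [if_pos h]
    have := tiles_hz x y
    simpa [vt_eq_lt, sub_eq_add_neg] using this
  · rw [if_neg (by omega), if_pos h]
    have := tiles_vt x y
    simp only [vt_eq_lt] at this
    simp only [Prod.mk_add_mk, add_zero, neg_add_cancel_right, sub_eq_add_neg] at this ⊢
    tauto
  · rw [if_neg (by omega), if_neg (by omega), if_pos h]
    have := tiles_hz (x - 1) y
    simp only [vt_eq_lt] at this
    simp only [Prod.mk_add_mk, add_zero, neg_add_cancel_right, sub_eq_add_neg] at this ⊢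
    tauto
  · rw [if_neg (by omega), if_neg (by omega), if_neg (by omega)]
    have := tiles_vt x (y - 1)
    simp only [vt_eq_lt] at this
    simp only [Prod.mk_add_mk, add_zero, neg_add_cancel_right, sub_eq_add_neg] at this ⊢
    tauto

section

variable {Λ M : Set (ℤ × ℤ)}

lemma Bd_sd {p : ℤ × ℤ} {k : ℤ} (h : ¬ (lt (p + io k) ∈ Λ ↔ lt (p + io k + dir (k - 1)) ∈ Λ)) :
    Bd Λ (sd p k) := by
  rcases tiles_sd p k with ⟨h1, h2⟩ | ⟨h1, h2⟩
  · by_cases h3 : lt (p + io k) ∈ Λ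
    · exact ⟨Or.inl (h1 ▸ h3), _, ⟨by tauto, Or.inr h2.symm⟩⟩
    · have h4 : lt (p + io k + dir (k - 1)) ∈ Λ := by tauto
      exact ⟨Or.inr (h2 ▸ h4), _, ⟨h3, Or.inl h1.symm⟩⟩
  · by_cases h3 : lt (p + io k) ∈ Λ
    · exact ⟨Or.inr (h2 ▸ h3), _, ⟨by tauto, Or.inl h1.symm⟩⟩
    · have h4 : lt (p + io k + dir (k - 1)) ∈ Λ := by tauto
      exact ⟨Or.inl (h1 ▸ h4), _, ⟨h3, Or.inr h2.symm⟩⟩

end

/-! ### Tiles near a side -/

/-- tile in the column `j`, row `r` of the side `s` -/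
def ott (n : ℤ) (s : Cell × ℤ) (j r : ℤ) : ℤ × ℤ :=
  it n s j + (r * (dir (s.2 - 1)).1, r * (dir (s.2 - 1)).2)

lemma ott_one (n : ℤ) (s : Cell × ℤ) (j : ℤ) : ott n s j 1 = ot n s j := by
  unfold ott ot
  refine Prod.ext ?_ ?_ <;> simp

lemma ott_zero (n : ℤ) (s : Cell × ℤ) (j : ℤ) : ott n s j 0 = it n s j := by
  unfold ott
  refine Prod.ext ?_ ?_ <;> simp

lemma ott_add (n : ℤ) (s : Cell × ℤ) (j r a b : ℤ) : ott n s (j + a) (r + b) = ott n s j r +
    (a * (dir s.2).1 + b * (dir (s.2 - 1)).1, a * (dir s.2).2 + b * (dir (s.2 - 1)).2) := by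
  unfold ott it wp
  refine Prod.ext ?_ ?_ <;> simp only [Prod.fst_add, Prod.snd_add] <;> ring

/-- the cell of a tile near a side -/
lemma ct_ott {n : ℤ} (hn : 0 < n) (s : Cell × ℤ) {j r a b : ℤ} (h0 : a * n ≤ j) (h1 : j < a * n + n)
    (h2 : b * n - n < r) (h3 : r ≤ b * n) : ct n (ott n s j r) =
      s.1 + (a * (dir s.2).1 + b * (dir (s.2 - 1)).1, a * (dir s.2).2 + b * (dir (s.2 - 1)).2) := by
  rw [ct_eq hn]
  unfold ott it wp
  rw [tail_io]
  rcases io_dir s.2 with ⟨-, b', c, d⟩ | ⟨-, b', c, d⟩ | ⟨-, b', c, d⟩ | ⟨-, b', c, d⟩ <;>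
    rw [b', c, d] <;> simp only [Prod.fst_add, Prod.snd_add, Prod.fst_sub, Prod.snd_sub] <;>
    refine ⟨⟨?_, ?_⟩, ?_, ?_⟩ <;> nlinarith

/-- no tile of the polygon touches the tile `p` -/
def FarT (n : ℤ) (Q : Finset Cell) (p : ℤ × ℤ) : Prop :=
  ∀ a b : ℤ, -1 ≤ a → a ≤ 1 → -1 ≤ b → b ≤ 1 → ct n (p + (a, b)) ∉ Q

/-- in the coordinates of a side -/
lemma FarT_ott {n : ℤ} {Q : Finset Cell} {s : Cell × ℤ} {j r : ℤ}
    (h : ∀ a b : ℤ, -1 ≤ a → a ≤ 1 → -1 ≤ b → b ≤ 1 → ct n (ott n s (j + a) (r + b)) ∉ Q) :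
    FarT n Q (ott n s j r) := by
  intro a b h1 h2 h3 h4
  rcases io_dir s.2 with ⟨-, -, c, d⟩ | ⟨-, -, c, d⟩ | ⟨-, -, c, d⟩ | ⟨-, -, c, d⟩
  · have := h a (-b) h1 h2 (by omega) (by omega)
    rw [ott_add, c, d] at this
    convert this using 3
    refine Prod.ext ?_ ?_ <;> simp
  · have := h b a h3 h4 h1 h2
    rw [ott_add, c, d] at this
    convert this using 3
    refine Prod.ext ?_ ?_ <;> simp
  · have := h (-a) b (by omega) (by omega) h3 h4
    rw [ott_add, c, d] at this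
    convert this using 3
    refine Prod.ext ?_ ?_ <;> simp
  · have := h (-b) (-a) (by omega) (by omega) (by omega) (by omega)
    rw [ott_add, c, d] at this
    convert this using 3
    refine Prod.ext ?_ ?_ <;> simp

section far

variable {n : ℤ} {Q : Finset Cell} {s : Cell × ℤ}

/-- second row of a side -/
lemma far_row2 (hn : 4 ≤ n) (h1 : s.1 + dir (s.2 - 1) ∉ Q) {j : ℤ} (j0 : 0 ≤ j) (j1 : j < n)
    (h2 : j = 0 → s.1 + dir (s.2 - 1) - dir s.2 ∉ Q)
    (h3 : j = n - 1 → s.1 + dir s.2 + dir (s.2 - 1) ∉ Q) : FarT n Q (ott n s j 2) := by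
  have e0 : s.1 + (0 * (dir s.2).1 + 1 * (dir (s.2 - 1)).1, 0 * (dir s.2).2 + 1 * (dir (s.2 - 1)).2) =
      s.1 + dir (s.2 - 1) := by refine Prod.ext ?_ ?_ <;> simp
  have e1 : s.1 + (1 * (dir s.2).1 + 1 * (dir (s.2 - 1)).1, 1 * (dir s.2).2 + 1 * (dir (s.2 - 1)).2) =
      s.1 + dir s.2 + dir (s.2 - 1) := by refine Prod.ext ?_ ?_ <;> simp <;> ring
  have e2 : s.1 + (-1 * (dir s.2).1 + 1 * (dir (s.2 - 1)).1, -1 * (dir s.2).2 + 1 * (dir (s.2 - 1)).2) =
      s.1 + dir (s.2 - 1) - dir s.2 := by refine Prod.ext ?_ ?_ <;> simp <;> ring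
  refine FarT_ott fun a b a0 a1 b0 b1 => ?_
  by_cases c1 : j + a < 0
  · rw [ct_ott (by omega) s (a := -1) (b := 1) (by omega) (by omega) (by omega) (by omega), e2]
    exact h2 (by omega)
  · by_cases c2 : j + a < n
    · rw [ct_ott (by omega) s (a := 0) (b := 1) (by omega) (by omega) (by omega) (by omega), e0]
      exact h1
    · rw [ct_ott (by omega) s (a := 1) (b := 1) (by omega) (by omega) (by omega) (by omega), e1]
      exact h3 (by omega)

/-- outer neighbours of the diagonal tile at a convex vertex -/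
lemma far_dg (hn : 4 ≤ n) (h1 : s.1 + dir (s.2 - 1) ∉ Q) (h2 : s.1 + dir s.2 ∉ Q)
    (h3 : s.1 + dir s.2 + dir (s.2 - 1) ∉ Q) : FarT n Q (ott n s n 2) ∧
      FarT n Q (ott n s (n + 1) 1) ∧ FarT n Q (ott n s (n + 1) 2) := by
  have e0 : s.1 + (0 * (dir s.2).1 + 1 * (dir (s.2 - 1)).1, 0 * (dir s.2).2 + 1 * (dir (s.2 - 1)).2) =
      s.1 + dir (s.2 - 1) := by refine Prod.ext ?_ ?_ <;> simp
  have e1 : s.1 + (1 * (dir s.2).1 + 1 * (dir (s.2 - 1)).1, 1 * (dir s.2).2 + 1 * (dir (s.2 - 1)).2) =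
      s.1 + dir s.2 + dir (s.2 - 1) := by refine Prod.ext ?_ ?_ <;> simp <;> ring
  have e2 : s.1 + (1 * (dir s.2).1 + 0 * (dir (s.2 - 1)).1, 1 * (dir s.2).2 + 0 * (dir (s.2 - 1)).2) =
      s.1 + dir s.2 := by refine Prod.ext ?_ ?_ <;> simp
  refine ⟨FarT_ott fun a b a0 a1 b0 b1 => ?_, FarT_ott fun a b a0 a1 b0 b1 => ?_,
    FarT_ott fun a b a0 a1 b0 b1 => ?_⟩
  · by_cases c2 : n + a < n
    · rw [ct_ott (by omega) s (a := 0) (b := 1) (by omega) (by omega) (by omega) (by omega), e0]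
      exact h1
    · rw [ct_ott (by omega) s (a := 1) (b := 1) (by omega) (by omega) (by omega) (by omega), e1]
      exact h3
  · by_cases c2 : 1 + b ≤ 0
    · rw [ct_ott (by omega) s (a := 1) (b := 0) (by omega) (by omega) (by omega) (by omega), e2]
      exact h2
    · rw [ct_ott (by omega) s (a := 1) (b := 1) (by omega) (by omega) (by omega) (by omega), e1]
      exact h3
  · rw [ct_ott (by omega) s (a := 1) (b := 1) (by omega) (by omega) (by omega) (by omega), e1]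
    exact h3

/-- interior tiles of an outer cell -/
lemma far_cell (hn : 0 < n) {c : Cell} (hc : c ∉ Q) {p : ℤ × ℤ} (h1 : c.1 * n + 1 ≤ p.1)
    (h2 : p.1 ≤ c.1 * n + n - 2) (h3 : c.2 * n + 1 ≤ p.2) (h4 : p.2 ≤ c.2 * n + n - 2) :
    FarT n Q p := by
  intro a b a0 a1 b0 b1
  have : ct n (p + (a, b)) = c := ct_of hn (by simp only [Prod.fst_add]; omega)
    (by simp only [Prod.fst_add]; omega) (by simp only [Prod.snd_add]; omega)
    (by simp only [Prod.snd_add]; omega)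
  rw [this]
  exact hc

end far

/-! ### The region -/

/-- **Polygon with wall layers** and diagonal tiles at the convex vertices which are not marks
(`mk i` : the vertex `i` is a mark). -/
structure LamV (P : PType) (n : ℤ) (mk : ℕ → Prop) (Λ : Set (ℤ × ℤ)) : Prop where
  lay : ∀ i j, 0 ≤ j → j < n → lt (ott n (P.side i) j 1) ∈ Λ
  dgm : ∀ i, P.side (i + 1) = ((P.side i).1, (P.side i).2 + 1) → ¬ mk (i + 1) →
    lt (ott n (P.side i) n 1) ∈ Λ
  cvx : ∀ i, mk (i + 1) → P.side (i + 1) = ((P.side i).1, (P.side i).2 + 1)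
  mark : ∀ i, mk (i + 1) → lt (ott n (P.side i) n 1) ∉ Λ
  far : ∀ p, FarT n P.Q p → lt p ∉ Λ

/-- first column of the outer boundary along a side -/
def r0 (Q : Finset Cell) (s : Cell × ℤ) : ℤ := if s.1 + dir (s.2 - 1) - dir s.2 ∈ Q then 1 else 0

/-- last column of the outer boundary along a side -/
def r1 (Q : Finset Cell) (n : ℤ) (s : Cell × ℤ) : ℤ :=
  if s.1 + dir s.2 + dir (s.2 - 1) ∈ Q then n - 1 else n

/-- point of the outer line of a side -/
def ol (n : ℤ) (s : Cell × ℤ) (j : ℤ) : ℤ × ℤ := wp n s j + dir (s.2 - 1)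

lemma r0_range (Q : Finset Cell) (s : Cell × ℤ) : 0 ≤ r0 Q s ∧ r0 Q s ≤ 1 := by
  unfold r0; split_ifs <;> omega

lemma r1_range (Q : Finset Cell) (n : ℤ) (s : Cell × ℤ) : n - 1 ≤ r1 Q n s ∧ r1 Q n s ≤ n := by
  unfold r1; split_ifs <;> omega

lemma ol_succ (n : ℤ) (s : Cell × ℤ) (j : ℤ) : ol n s (j + 1) = ol n s j + dir s.2 := by
  unfold ol wp
  refine Prod.ext ?_ ?_ <;> simp only [Prod.fst_add, Prod.snd_add] <;> ring

section region

variable {P : PType} {n : ℤ} {mk : ℕ → Prop} {Λ M : Set (ℤ × ℤ)}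

lemma tail_next (Q : Finset Cell) (s : Cell × ℤ) : tail (nextSide Q s) = tail s + dir s.2 :=
  Pool.Agent.Q1.M4.head_eq_tail_next s

lemma side_succ (P : PType) (i : ℕ) : P.side (i + 1) = nextSide P.Q (P.side i) := by
  unfold PType.side
  rw [Function.iterate_succ_apply']

lemma next_cases (Q : Finset Cell) (s : Cell × ℤ) :
    (s.1 + dir s.2 + dir (s.2 - 1) ∈ Q ∧ nextSide Q s = (s.1 + dir s.2 + dir (s.2 - 1), s.2 - 1)) ∨
    (s.1 + dir s.2 + dir (s.2 - 1) ∉ Q ∧ s.1 + dir s.2 ∈ Q ∧ nextSide Q s = (s.1 + dir s.2, s.2)) ∨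
    (s.1 + dir s.2 + dir (s.2 - 1) ∉ Q ∧ s.1 + dir s.2 ∉ Q ∧ nextSide Q s = (s.1, s.2 + 1)) := by
  unfold nextSide
  split_ifs with h1 h2
  · exact Or.inl ⟨h1, rfl⟩
  · exact Or.inr (Or.inl ⟨h1, h2, rfl⟩)
  · exact Or.inr (Or.inr ⟨h1, h2, rfl⟩)

lemma wp_next (Q : Finset Cell) (n : ℤ) (s : Cell × ℤ) : wp n (nextSide Q s) 0 = wp n s n := by
  unfold wp
  rw [tail_next]
  refine Prod.ext ?_ ?_ <;> simp only [Prod.fst_add, Prod.snd_add] <;> ring

/-- the sides with one tile in `Λ` and one far tile do not belong to `M` -/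
def MOk (P : PType) (n : ℤ) (M : Set (ℤ × ℤ)) : Prop :=
  ∀ c ∈ M, ∀ p, FarT n P.Q p → lab c ≠ lt p ∧ plab c ≠ lt p

lemma side_ok (hM : MOk P n M) {p : ℤ × ℤ} {k : ℤ} (h : FarT n P.Q (p + io k + dir (k - 1))) :
    sd p k ∉ M := by
  intro hc
  obtain ⟨h1, h2⟩ := hM _ hc _ h
  rcases tiles_sd p k with ⟨-, h3⟩ | ⟨h3, -⟩
  · exact h2 h3
  · exact h1 h3

/-- one step along the outer line -/
lemma BC_step (hL : LamV P n mk Λ) (hM : MOk P n M) {p : ℤ × ℤ} {k : ℤ}
    (h1 : lt (p + io k) ∈ Λ) (h2 : FarT n P.Q (p + io k + dir (k - 1))) :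
    BC Λ M p (p + dir k) :=
  BC.single (Jn_sd p k) (Bd_sd fun h => hL.far _ h2 (h.1 h1)) (side_ok hM h2)

lemma ol_tile (n : ℤ) (s : Cell × ℤ) (j : ℤ) : ol n s j + io s.2 = ott n s j 1 ∧
    ol n s j + io s.2 + dir (s.2 - 1) = ott n s j 2 := by
  unfold ol ott it
  constructor <;> refine Prod.ext ?_ ?_ <;> simp only [Prod.fst_add, Prod.snd_add] <;> ring

/-- along the outer line of a side -/
lemma BC_line (hn : 4 ≤ n) (hL : LamV P n mk Λ) (hM : MOk P n M) (i : ℕ) {a b : ℤ}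
    (h0 : r0 P.Q (P.side i) ≤ a) (hab : a ≤ b) (h1 : b ≤ r1 P.Q n (P.side i)) :
    BC Λ M (ol n (P.side i) a) (ol n (P.side i) b) := by
  obtain ⟨m, rfl⟩ : ∃ m : ℕ, b = a + m := ⟨(b - a).toNat, by omega⟩
  induction m with
  | zero => simpa using BC.refl Λ M (ol n (P.side i) a)
  | succ m ih =>
    push_cast at h1 hab ⊢
    refine (ih (by omega) (by omega)).trans ?_
    set s := P.side i with hs
    set j := a + (m : ℤ) with hj
    have hr0 := r0_range P.Q s
    have hr1 := r1_range P.Q n s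
    have e1 : a + ((m : ℤ) + 1) = j + 1 := by omega
    rw [e1, ol_succ]
    obtain ⟨t1, t2⟩ := ol_tile n s j
    refine BC_step hL hM ?_ ?_
    · rw [t1]
      exact hL.lay i j (by omega) (by omega)
    · rw [t2]
      have hside := isSide_side' P i
      refine far_row2 hn hside.2 (by omega) (by omega) ?_ ?_
      · intro k0 k1
        unfold r0 at h0
        rw [if_pos k1] at h0
        omega
      · intro k0 k1
        unfold r1 at h1
        rw [if_pos k1] at h1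
        omega

/-- around a vertex which is not a mark -/
lemma BC_vertex (hn : 4 ≤ n) (hL : LamV P n mk Λ) (hM : MOk P n M) (i : ℕ) (hi : ¬ mk (i + 1)) :
    BC Λ M (ol n (P.side i) (r1 P.Q n (P.side i))) (ol n (P.side (i + 1)) (r0 P.Q (P.side (i + 1)))) := by
  have hside := isSide_side' P i
  have hd := hL.dgm i
  rw [side_succ] at hd ⊢
  set s := P.side i with hs
  have hw := wp_next P.Q n s
  rcases next_cases P.Q s with ⟨h1, h2⟩ | ⟨h1, h2, h3⟩ | ⟨h1, h2, h3⟩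
  · rw [h2] at hw ⊢
    have e1 : r1 P.Q n s = n - 1 := by unfold r1; rw [if_pos h1]
    have e2 : r0 P.Q (s.1 + dir s.2 + dir (s.2 - 1), s.2 - 1) = 1 := by
      unfold r0
      rw [if_pos]
      have : s.1 + dir s.2 + dir (s.2 - 1) + dir (s.2 - 1 - 1) - dir (s.2 - 1) = s.1 := by
        rcases io_dir s.2 with ⟨a, -, c, d⟩ | ⟨a, -, c, d⟩ | ⟨a, -, c, d⟩ | ⟨a, -, c, d⟩ <;>
        rcases dir_cases (s.2 - 1 - 1) with ⟨a', c'⟩ | ⟨a', c'⟩ | ⟨a', c'⟩ | ⟨a', c'⟩ <;>
        first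
        | (exfalso; omega)
        | (rw [c, d, c']; refine Prod.ext ?_ ?_ <;> simp)
      show s.1 + dir s.2 + dir (s.2 - 1) + dir (s.2 - 1 - 1) - dir (s.2 - 1) ∈ P.Q
      rw [this]
      exact hside.1
    rw [e1, e2]
    have e3 : ol n s (n - 1) = ol n (s.1 + dir s.2 + dir (s.2 - 1), s.2 - 1) 1 := by
      have h4 := ol_succ n (s.1 + dir s.2 + dir (s.2 - 1), s.2 - 1) 0
      rw [zero_add] at h4
      rw [h4]
      have h5 := ol_succ n s (n - 1)
      rw [sub_add_cancel] at h5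
      have h6 : ol n s (n - 1) = ol n s n - dir s.2 := by rw [h5, add_sub_cancel_right]
      rw [h6]
      unfold ol
      rw [hw]
      rcases io_dir s.2 with ⟨a, -, c, d⟩ | ⟨a, -, c, d⟩ | ⟨a, -, c, d⟩ | ⟨a, -, c, d⟩ <;>
        rcases dir_cases (s.2 - 1 - 1) with ⟨a', c'⟩ | ⟨a', c'⟩ | ⟨a', c'⟩ | ⟨a', c'⟩ <;>
        first
        | (exfalso; omega)
        | (simp only [c, d, c']; refine Prod.ext ?_ ?_ <;> simp [sub_eq_add_neg])
    rw [e3]
    exact BC.refl _ _ _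
  · rw [h3] at hw ⊢
    have e1 : r1 P.Q n s = n := by unfold r1; rw [if_neg h1]
    have e2 : r0 P.Q (s.1 + dir s.2, s.2) = 0 := by
      unfold r0
      rw [if_neg]
      have : s.1 + dir s.2 + dir (s.2 - 1) - dir s.2 = s.1 + dir (s.2 - 1) := by abel
      show s.1 + dir s.2 + dir (s.2 - 1) - dir s.2 ∉ P.Q
      rw [this]
      exact hside.2
    rw [e1, e2]
    have e3 : ol n (s.1 + dir s.2, s.2) 0 = ol n s n := by
      unfold ol
      rw [hw]
    rw [e3]
    exact BC.refl _ _ _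
  · have hdg := hd h3 hi
    rw [h3] at hw ⊢
    have e1 : r1 P.Q n s = n := by unfold r1; rw [if_neg h1]
    have e2 : r0 P.Q (s.1, s.2 + 1) = 0 := by
      unfold r0
      rw [if_neg]
      have : s.1 + dir (s.2 + 1 - 1) - dir (s.2 + 1) = s.1 + dir s.2 + dir (s.2 - 1) := by
        rw [add_sub_cancel_right]
        rcases io_dir s.2 with ⟨a, -, c, d⟩ | ⟨a, -, c, d⟩ | ⟨a, -, c, d⟩ | ⟨a, -, c, d⟩ <;>
        rcases dir_cases (s.2 + 1) with ⟨a', c'⟩ | ⟨a', c'⟩ | ⟨a', c'⟩ | ⟨a', c'⟩ <;>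
        first
        | (exfalso; omega)
        | (rw [c, d, c']; refine Prod.ext ?_ ?_ <;> simp [sub_eq_add_neg])
      show s.1 + dir (s.2 + 1 - 1) - dir (s.2 + 1) ∉ P.Q
      rw [this]
      exact h1
    rw [e1, e2]
    obtain ⟨f1, f2, -⟩ := far_dg hn hside.2 h2 h1
    obtain ⟨t1, t2⟩ := ol_tile n s n
    have b1 : BC Λ M (ol n s n) (ol n s n + dir s.2) := by
      refine BC_step hL hM ?_ ?_
      · rw [t1]; exact hdg
      · rw [t2]; exact f1
    -- second side of the diagonal tile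
    set p := ol n s n + dir s.2 with hp
    have t3 : p + io (s.2 + 1) = ott n s n 1 ∧ p + io (s.2 + 1) + dir (s.2 + 1 - 1) = ott n s (n + 1) 1 ∧
        p + dir (s.2 + 1) = ol n (s.1, s.2 + 1) 0 := by
      have hx : ott n s (n + 1) 1 = ott n s n 1 + dir s.2 := by
        have := ott_add n s n 1 1 0
        rw [add_zero] at this
        rw [this]
        refine Prod.ext ?_ ?_ <;> simp
      have hy : ol n (s.1, s.2 + 1) 0 = wp n s n + dir s.2 := by
        unfold ol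
        rw [hw, add_sub_cancel_right]
      rw [hx, hy, ← t1, hp]
      unfold ol
      rw [add_sub_cancel_right]
      rcases io_dir s.2 with ⟨a, b, c, d⟩ | ⟨a, b, c, d⟩ | ⟨a, b, c, d⟩ | ⟨a, b, c, d⟩ <;>
        rcases io_dir (s.2 + 1) with ⟨a', b', c', -⟩ | ⟨a', b', c', -⟩ | ⟨a', b', c', -⟩ | ⟨a', b', c', -⟩ <;>
        first
        | (exfalso; omega)
        | (rw [b, c, d, b', c']; refine ⟨?_, ?_, ?_⟩ <;> refine Prod.ext ?_ ?_ <;> simp)
    have b2 : BC Λ M p (p + dir (s.2 + 1)) := by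
      refine BC_step hL hM ?_ ?_
      · rw [t3.1]; exact hdg
      · rw [t3.2.1]; exact f2
    rw [t3.2.2] at b2
    exact b1.trans b2

/-- **The outer boundary between two points of the outer lines** without marks in between -/
theorem BC_arc (hn : 4 ≤ n) (hL : LamV P n mk Λ) (hM : MOk P n M) {i i' : ℕ} (hii : i ≤ i')
    (hmk : ∀ t, i < t → t ≤ i' → ¬ mk t) {a : ℤ} (ha0 : r0 P.Q (P.side i) ≤ a)
    (ha1 : a ≤ r1 P.Q n (P.side i)) :
    BC Λ M (ol n (P.side i) a) (ol n (P.side i') (r1 P.Q n (P.side i'))) := by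
  obtain ⟨m, rfl⟩ : ∃ m : ℕ, i' = i + m := ⟨i' - i, by omega⟩
  induction m with
  | zero => exact BC_line hn hL hM i ha0 ha1 le_rfl
  | succ m ih =>
    refine (ih (by omega) fun t h1 h2 => hmk t h1 (by omega)).trans ?_
    change BC Λ M _ (ol n (P.side (i + m + 1)) (r1 P.Q n (P.side (i + m + 1))))
    refine (BC_vertex hn hL hM (i + m) (hmk _ (by omega) (by omega))).trans ?_
    have h1 := r0_range P.Q (P.side (i + m + 1))
    have h2 := r1_range P.Q n (P.side (i + m + 1))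
    exact BC_line hn hL hM (i + m + 1) le_rfl (by omega) le_rfl

end region

end Pool.Agent.H47.W
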