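import Pool.Agent.H47.W.Room6

set_option autoImplicit false
open Finset

/-! # Planarity of the strand graph, part 7: marks of a polygon

`mkS n s b` : one of the two sides of the diagonal tile at the convex head of the side `s` which are
sides of layer tiles. `TC_dg` : the diagonal tiles are joined by tiles outside of the region. -/

namespace Pool.Agent.H47.W

open Pool.Agent.H75.Perc hiding WL CT hh
open Pool.Agent.H75.TwoArm Pool.Agent.H99.W Pool.Agent.H13.W
open Pool.Agent.H33.Q1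
open Pool.Agent.Q1.M4 (Cell Good IsSide nextSide tail head PType Adj4 Conn4)

section

variable {n : ℤ} {Q : Finset Cell} {Λ M : Set (ℤ × ℤ)}

/-! ### The complement -/

lemma TC_far_h (hL : ∀ p, FarT n Q p → lt p ∉ Λ) {x0 x1 y : ℤ} (h : ∀ x, min x0 x1 ≤ x →
    x ≤ max x0 x1 → FarT n Q (x, y)) : TC Λ (lt (x0, y)) (lt (x1, y)) :=
  TC_h' (Λ := Λ) (x0 := x0) (x1 := x1) (y := y) fun x h1 h2 => hL _ (h x h1 h2)

lemma TC_far_v (hL : ∀ p, FarT n Q p → lt p ∉ Λ) {x y0 y1 : ℤ} (h : ∀ y, min y0 y1 ≤ y →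
    y ≤ max y0 y1 → FarT n Q (x, y)) : TC Λ (lt (x, y0)) (lt (x, y1)) :=
  TC_v' (Λ := Λ) (x := x) (y0 := y0) (y1 := y1) fun y h1 h2 => hL _ (h y h1 h2)

/-- one step outside of the region -/
lemma TC_dir {p : ℤ × ℤ} {k : ℤ} (hp : lt p ∉ Λ) (hq : lt (p + dir k) ∉ Λ) :
    TC Λ (lt p) (lt (p + dir k)) := by
  obtain ⟨x, y⟩ := p
  rcases dir_cases k with ⟨-, e⟩ | ⟨-, e⟩ | ⟨-, e⟩ | ⟨-, e⟩ <;> rw [e] at hq ⊢
  · have e1 : ((x, y) + (1, 0) : ℤ × ℤ) = (x + 1, y) := by simp
    rw [e1] at hq ⊢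
    exact Relation.ReflTransGen.single (TA_h (Λ := Λ) (x := x) (y := y) hp hq)
  · have e1 : ((x, y) + (0, 1) : ℤ × ℤ) = (x, y + 1) := by simp
    rw [e1] at hq ⊢
    exact Relation.ReflTransGen.single (TA_v (Λ := Λ) (x := x) (y := y) hp hq)
  · have e1 : ((x, y) + (-1, 0) : ℤ × ℤ) = (x - 1, y) := by simp [sub_eq_add_neg]
    rw [e1] at hq ⊢
    have h4 : TC Λ (vt (x - 1) y) (vt (x - 1 + 1) y) := Relation.ReflTransGen.single
      (TA_h hq (by rw [sub_add_cancel]; exact hp))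
    rw [sub_add_cancel] at h4
    exact h4.symm
  · have e1 : ((x, y) + (0, -1) : ℤ × ℤ) = (x, y - 1) := by simp [sub_eq_add_neg]
    rw [e1] at hq ⊢
    have h4 : TC Λ (vt x (y - 1)) (vt x (y - 1 + 1)) := Relation.ReflTransGen.single
      (TA_v hq (by rw [sub_add_cancel]; exact hp))
    rw [sub_add_cancel] at h4
    exact h4.symm

/-- base tile of a cell -/
def bt (n : ℤ) (c : Cell) : ℤ × ℤ := (c.1 * n + 1, c.2 * n + 1)

/-- inside an outer cell -/
lemma TC_cell (hn : 4 ≤ n) (hL : ∀ p, FarT n Q p → lt p ∉ Λ) {c : Cell} (hc : c ∉ Q) {p : ℤ × ℤ}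
    (h1 : c.1 * n + 1 ≤ p.1) (h2 : p.1 ≤ c.1 * n + n - 2) (h3 : c.2 * n + 1 ≤ p.2)
    (h4 : p.2 ≤ c.2 * n + n - 2) : TC Λ (lt p) (lt (bt n c)) := by
  obtain ⟨x, y⟩ := p
  simp only at h1 h2 h3 h4
  unfold bt
  refine (TC_far_h hL (x1 := c.1 * n + 1) fun x' k1 k2 => ?_).trans
    (TC_far_v hL fun y' k1 k2 => ?_)
  · exact far_cell (by omega) hc (by simp only; omega) (by simp only; omega) (by simp only; omega)
      (by simp only; omega)
  · exact far_cell (by omega) hc (by simp only; omega) (by simp only; omega) (by simp only; omega)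
      (by simp only; omega)

/-- between neighbouring outer cells -/
lemma TC_adj (hn : 4 ≤ n) (hL : ∀ p, FarT n Q p → lt p ∉ Λ) {c d : Cell} (hc : c ∉ Q) (hd : d ∉ Q)
    (h : Adj4 c d) : TC Λ (lt (bt n c)) (lt (bt n d)) := by
  have key1 : ∀ c : Cell, c ∉ Q → c + (1, 0) ∉ Q →
      TC Λ (lt (bt n c)) (lt (bt n (c + (1, 0)))) := by
    intro c h1 h2
    unfold bt
    simp only [Prod.fst_add, Prod.snd_add, add_zero]
    refine TC_far_h hL fun x k1 k2 a b a0 a1 b0 b1 => ?_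
    have e1 : (c.1 + 1) * n = c.1 * n + n := by ring
    rw [e1] at k1 k2
    by_cases k : x + a < c.1 * n + n
    · have : ct n ((x, c.2 * n + 1) + (a, b)) = c := ct_of (by omega)
        (by simp only [Prod.fst_add]; omega) (by simp only [Prod.fst_add]; omega)
        (by simp only [Prod.snd_add]; omega) (by simp only [Prod.snd_add]; omega)
      rw [this]; exact h1
    · have : ct n ((x, c.2 * n + 1) + (a, b)) = c + (1, 0) := ct_of (by omega)
        (by simp only [Prod.fst_add, e1]; omega) (by simp only [Prod.fst_add, e1]; omega)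
        (by simp only [Prod.snd_add, add_zero]; omega) (by simp only [Prod.snd_add, add_zero]; omega)
      rw [this]; exact h2
  have key2 : ∀ c : Cell, c ∉ Q → c + (0, 1) ∉ Q →
      TC Λ (lt (bt n c)) (lt (bt n (c + (0, 1)))) := by
    intro c h1 h2
    unfold bt
    simp only [Prod.fst_add, Prod.snd_add, add_zero]
    refine TC_far_v hL fun y k1 k2 a b a0 a1 b0 b1 => ?_
    have e1 : (c.2 + 1) * n = c.2 * n + n := by ring
    rw [e1] at k1 k2
    by_cases k : y + b < c.2 * n + n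
    · have : ct n ((c.1 * n + 1, y) + (a, b)) = c := ct_of (by omega)
        (by simp only [Prod.fst_add]; omega) (by simp only [Prod.fst_add]; omega)
        (by simp only [Prod.snd_add]; omega) (by simp only [Prod.snd_add]; omega)
      rw [this]; exact h1
    · have : ct n ((c.1 * n + 1, y) + (a, b)) = c + (0, 1) := ct_of (by omega)
        (by simp only [Prod.fst_add, add_zero]; omega) (by simp only [Prod.fst_add, add_zero]; omega)
        (by simp only [Prod.snd_add, e1]; omega) (by simp only [Prod.snd_add, e1]; omega)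
      rw [this]; exact h2
  obtain ⟨k, rfl⟩ := h
  rcases dir_cases k with ⟨-, e⟩ | ⟨-, e⟩ | ⟨-, e⟩ | ⟨-, e⟩ <;> rw [e] at hd ⊢
  · exact key1 c hc hd
  · exact key2 c hc hd
  · have e1 : c + (-1, 0) + (1, 0) = c := by refine Prod.ext ?_ ?_ <;> simp
    have := key1 (c + (-1, 0)) hd (by rw [e1]; exact hc)
    rw [e1] at this
    exact this.symm
  · have e1 : c + (0, -1) + (0, 1) = c := by refine Prod.ext ?_ ?_ <;> simp
    have := key2 (c + (0, -1)) hd (by rw [e1]; exact hc)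
    rw [e1] at this
    exact this.symm

/-- **all outer cells are joined** -/
theorem TC_compl (hn : 4 ≤ n) (hL : ∀ p, FarT n Q p → lt p ∉ Λ) (hQ : Good Q) {c d : Cell}
    (hc : c ∉ Q) (hd : d ∉ Q) : TC Λ (lt (bt n c)) (lt (bt n d)) := by
  have h := hQ.conn_compl c (by simpa using hc) d (by simpa using hd)
  clear hd
  induction h with
  | refl => exact TC.refl _ _
  | @tail a b h1 h ih =>
    have hb : b ∉ Q := by simpa using h.2
    have ha : a ∉ Q := by
      rcases Relation.ReflTransGen.cases_tail h1 with h2 | ⟨e, -, h3⟩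
      · rw [h2]; exact hc
      · simpa using h3.2
    exact ih.trans (TC_adj hn hL ha hb h.1)

/-- from the diagonal tile at a convex vertex to the base tile of its cell -/
lemma TC_dg_cell (hn : 4 ≤ n) (hL : ∀ p, FarT n Q p → lt p ∉ Λ) {s : Cell × ℤ}
    (h1 : s.1 + dir (s.2 - 1) ∉ Q) (h2 : s.1 + dir s.2 ∉ Q) (h3 : s.1 + dir s.2 + dir (s.2 - 1) ∉ Q)
    (hd : lt (ott n s n 1) ∉ Λ) :
    TC Λ (lt (ott n s n 1)) (lt (bt n (s.1 + dir s.2 + dir (s.2 - 1)))) := by
  obtain ⟨-, f2, f3⟩ := far_dg hn h1 h2 h3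
  have g2 := hL _ f2
  have g3 := hL _ f3
  have key : ∀ {p q : ℤ × ℤ} {k : ℤ}, q = p + dir k → lt p ∉ Λ → lt q ∉ Λ → TC Λ (lt p) (lt q) :=
    fun h => h ▸ TC_dir
  have e1 : ott n s (n + 1) 1 = ott n s n 1 + dir s.2 := by
    have := ott_add n s n 1 1 0
    rw [add_zero] at this
    rw [this]
    refine Prod.ext ?_ ?_ <;> simp
  have e2 : ott n s (n + 1) 2 = ott n s (n + 1) 1 + dir (s.2 - 1) := by
    have := ott_add n s (n + 1) 1 0 1
    rw [add_zero] at this
    norm_num at this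
    rw [this]
  refine (key e1 hd g2).trans ((key e2 g2 g3).trans ?_)
  have hb : ∀ s : Cell × ℤ, (s.1 + dir s.2 + dir (s.2 - 1)).1 * n + 1 ≤ (ott n s (n + 1) 2).1 ∧
      (ott n s (n + 1) 2).1 ≤ (s.1 + dir s.2 + dir (s.2 - 1)).1 * n + n - 2 ∧
      (s.1 + dir s.2 + dir (s.2 - 1)).2 * n + 1 ≤ (ott n s (n + 1) 2).2 ∧
      (ott n s (n + 1) 2).2 ≤ (s.1 + dir s.2 + dir (s.2 - 1)).2 * n + n - 2 := by
    intro s
    unfold ott it wp
    rw [tail_io]
    rcases io_dir s.2 with ⟨-, b, c, d⟩ | ⟨-, b, c, d⟩ | ⟨-, b, c, d⟩ | ⟨-, b, c, d⟩ <;>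
      rw [b, c, d] <;> simp only [Prod.fst_add, Prod.snd_add, Prod.fst_sub, Prod.snd_sub] <;>
      refine ⟨?_, ?_, ?_, ?_⟩ <;> nlinarith
  obtain ⟨b1, b2, b3, b4⟩ := hb s
  exact TC_cell hn hL h3 b1 b2 b3 b4

end

section marks

variable {P : PType} {n : ℤ} {mk : ℕ → Prop} {Λ M : Set (ℤ × ℤ)}

/-- the cells round a convex vertex -/
lemma cvx_cells {i : ℕ} (h : P.side (i + 1) = ((P.side i).1, (P.side i).2 + 1)) :
    (P.side i).1 + dir (P.side i).2 ∉ P.Q ∧
      (P.side i).1 + dir (P.side i).2 + dir ((P.side i).2 - 1) ∉ P.Q := by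
  rw [side_succ] at h
  rcases next_cases P.Q (P.side i) with ⟨h1, h2⟩ | ⟨h1, h2, h3⟩ | ⟨h1, h2, h3⟩
  · rw [h2] at h
    have := congrArg Prod.snd h
    simp only at this
    omega
  · rw [h3] at h
    have := congrArg Prod.snd h
    simp only at this
    omega
  · exact ⟨h2, h1⟩

/-- **the diagonal tiles at two marks are joined** outside of the region -/
theorem TC_dg (hn : 4 ≤ n) (hL : LamV P n mk Λ) {i j : ℕ} (hi : mk (i + 1)) (hj : mk (j + 1)) :
    TC Λ (lt (ott n (P.side i) n 1)) (lt (ott n (P.side j) n 1)) := by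
  obtain ⟨a1, a2⟩ := cvx_cells (hL.cvx i hi)
  obtain ⟨b1, b2⟩ := cvx_cells (hL.cvx j hj)
  have h1 := TC_dg_cell hn hL.far (isSide_side' P i).2 a1 a2 (hL.mark i hi)
  have h2 := TC_dg_cell hn hL.far (isSide_side' P j).2 b1 b2 (hL.mark j hj)
  exact h1.trans ((TC_compl hn hL.far P.good a2 b2).trans h2.symm)

/-- one of the two sides at the diagonal tile of the head of `s` -/
def mkS (n : ℤ) (s : Cell × ℤ) (b : Bool) : ℤ × ℤ :=
  if b then sd (wp n s n) s.2 else sd (ol n s n) (s.2 + 1)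

/-- first point of `mkS` -/
def mkm (n : ℤ) (s : Cell × ℤ) (b : Bool) : ℤ × ℤ := if b then wp n s n else ol n s n

/-- last point of `mkS` -/
def mkp (n : ℤ) (s : Cell × ℤ) (b : Bool) : ℤ × ℤ := if b then wp n s n + dir s.2 else wp n s n

lemma ol_dir (n : ℤ) (s : Cell × ℤ) (j : ℤ) : ol n s j + dir (s.2 + 1) = wp n s j := by
  unfold ol
  rcases io_dir s.2 with ⟨a, -, -, d⟩ | ⟨a, -, -, d⟩ | ⟨a, -, -, d⟩ | ⟨a, -, -, d⟩ <;>
    rcases dir_cases (s.2 + 1) with ⟨a', c'⟩ | ⟨a', c'⟩ | ⟨a', c'⟩ | ⟨a', c'⟩ <;>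
    first
    | (exfalso; omega)
    | (rw [d, c']; refine Prod.ext ?_ ?_ <;> simp)

lemma Jn_mkS (n : ℤ) (s : Cell × ℤ) (b : Bool) : Jn (mkS n s b) (mkm n s b) (mkp n s b) := by
  unfold mkS mkm mkp
  cases b with
  | true => simpa using Jn_sd (wp n s n) s.2
  | false =>
    have := Jn_sd (ol n s n) (s.2 + 1)
    rw [ol_dir] at this
    simpa using this

/-- the tiles of `mkS` : a layer tile and the diagonal tile -/
lemma tiles_mkS (n : ℤ) (s : Cell × ℤ) (b : Bool) : ∃ t : ℤ × ℤ,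
    (t = if b then ott n s n 0 else ott n s (n - 1) 1) ∧
    ((lab (mkS n s b) = lt t ∧ plab (mkS n s b) = lt (ott n s n 1)) ∨
      (lab (mkS n s b) = lt (ott n s n 1) ∧ plab (mkS n s b) = lt t)) := by
  refine ⟨_, rfl, ?_⟩
  unfold mkS
  cases b with
  | true =>
    have h := tiles_sd (wp n s n) s.2
    have e1 : wp n s n + io s.2 = ott n s n 0 := by rw [ott_zero]; rfl
    have e2 : wp n s n + io s.2 + dir (s.2 - 1) = ott n s n 1 := by rw [ott_one]; rfl
    rw [e1] at h e2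
    rw [e2] at h
    simpa using h
  | false =>
    have h := tiles_sd (ol n s n) (s.2 + 1)
    have hx : ott n s n 1 = ott n s (n - 1) 1 + dir s.2 := by
      have := ott_add n s (n - 1) 1 1 0
      rw [add_zero, sub_add_cancel] at this
      rw [this]
      refine Prod.ext ?_ ?_ <;> simp
    have e1 : ol n s n + io (s.2 + 1) = ott n s (n - 1) 1 := by
      have h1 := (ol_tile n s n).1
      rw [hx] at h1
      have h2 : ott n s (n - 1) 1 = ol n s n + io s.2 - dir s.2 := by rw [h1, add_sub_cancel_right]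
      rw [h2]
      rcases io_dir s.2 with ⟨a, b, c, -⟩ | ⟨a, b, c, -⟩ | ⟨a, b, c, -⟩ | ⟨a, b, c, -⟩ <;>
        rcases io_dir (s.2 + 1) with ⟨a', b', -, -⟩ | ⟨a', b', -, -⟩ | ⟨a', b', -, -⟩ | ⟨a', b', -, -⟩ <;>
        first
        | (exfalso; omega)
        | (rw [b, c, b']; refine Prod.ext ?_ ?_ <;> simp [sub_eq_add_neg])
    rw [e1, add_sub_cancel_right, ← hx] at h
    simpa using h

/-- the layer tile of a mark belongs to the region -/
lemma mark_in (hn : 4 ≤ n) (hL : LamV P n mk Λ) {i : ℕ} (hi : mk (i + 1)) (b : Bool) :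
    lt (if b then ott n (P.side i) n 0 else ott n (P.side i) (n - 1) 1) ∈ Λ := by
  cases b with
  | false => simpa using hL.lay i (n - 1) (by omega) (by omega)
  | true =>
    have h1 := hL.lay (i + 1) 0 le_rfl (by omega)
    have h2 := hL.cvx i hi
    have h3 : wp n (P.side (i + 1)) 0 = wp n (P.side i) n := by rw [side_succ]; exact wp_next _ _ _
    have e : ott n (P.side (i + 1)) 0 1 = ott n (P.side i) n 0 := by
      rw [ott_one, ott_zero]
      unfold ot it
      rw [h3, h2]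
      simp only
      rw [add_sub_cancel_right]
      rcases io_dir (P.side i).2 with ⟨a, b, c, -⟩ | ⟨a, b, c, -⟩ | ⟨a, b, c, -⟩ | ⟨a, b, c, -⟩ <;>
        rcases io_dir ((P.side i).2 + 1) with ⟨a', b', -, -⟩ | ⟨a', b', -, -⟩ | ⟨a', b', -, -⟩ |
          ⟨a', b', -, -⟩ <;>
        first
        | (exfalso; omega)
        | (rw [b, c, b']; refine Prod.ext ?_ ?_ <;> simp)
    rw [e] at h1
    simpa using h1

/-- the outer tile of a mark is the diagonal tile -/
lemma mark_out (hn : 4 ≤ n) (hL : LamV P n mk Λ) {i : ℕ} (hi : mk (i + 1)) (b : Bool) {o : ℤ × ℤ} :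
    OutT Λ (mkS n (P.side i) b) o ↔ o = lt (ott n (P.side i) n 1) := by
  obtain ⟨t, ht, h⟩ := tiles_mkS n (P.side i) b
  have h1 := mark_in hn hL hi b
  rw [← ht] at h1
  have h2 := hL.mark i hi
  unfold OutT
  rcases h with ⟨e1, e2⟩ | ⟨e1, e2⟩ <;> rw [e1, e2] <;> constructor
  · rintro ⟨k, rfl | rfl⟩
    · exact absurd h1 k
    · rfl
  · rintro rfl
    exact ⟨h2, Or.inr rfl⟩
  · rintro ⟨k, rfl | rfl⟩
    · rfl
    · exact absurd h1 k
  · rintro rfl
    exact ⟨h2, Or.inl rfl⟩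

lemma mark_bd (hn : 4 ≤ n) (hL : LamV P n mk Λ) {i : ℕ} (hi : mk (i + 1)) (b : Bool) :
    Bd Λ (mkS n (P.side i) b) := by
  refine ⟨?_, _, (mark_out hn hL hi b).2 rfl⟩
  obtain ⟨t, ht, h⟩ := tiles_mkS n (P.side i) b
  have h1 := mark_in hn hL hi b
  rw [← ht] at h1
  unfold InT
  rcases h with ⟨e1, e2⟩ | ⟨e1, e2⟩ <;> rw [e1, e2]
  · exact Or.inl h1
  · exact Or.inr h1

/-- a far tile is not a tile of a mark -/
lemma mark_MOk (hn : 4 ≤ n) (i : ℕ) (b : Bool) (p : ℤ × ℤ) (hp : FarT n P.Q p) :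
    lab (mkS n (P.side i) b) ≠ lt p ∧ plab (mkS n (P.side i) b) ≠ lt p := by
  set s := P.side i with hs
  have hside := isSide_side' P i
  -- both tiles touch the cell of the side
  have key : ∀ j r : ℤ, n - 1 ≤ j → j ≤ n → 0 ≤ r → r ≤ 1 → ott n s j r ≠ p := by
    rintro j r j0 j1 q0 q1 rfl
    have h1 : ct n (ott n s (n - 1) 0) = s.1 := by
      rw [ct_ott (by omega) s (a := 0) (b := 0) (by omega) (by omega) (by omega) (by omega)]
      refine Prod.ext ?_ ?_ <;> simp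
    have e : ott n s (n - 1) 0 = ott n s (j + (n - 1 - j)) (r + -r) := by
      congr 1 <;> ring
    rw [e, ott_add] at h1
    rcases io_dir s.2 with ⟨-, -, c, d⟩ | ⟨-, -, c, d⟩ | ⟨-, -, c, d⟩ | ⟨-, -, c, d⟩ <;>
      rw [c, d] at h1 <;> refine hp _ _ ?_ ?_ ?_ ?_ (h1 ▸ hside.1) <;> simp <;> omega
  obtain ⟨t, ht, h⟩ := tiles_mkS n s b
  have h1 : t ≠ p := by
    rw [ht]
    split_ifs
    · exact key n 0 (by omega) le_rfl le_rfl (by omega)
    · exact key (n - 1) 1 le_rfl (by omega) (by omega) le_rfl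
  have h2 := key n 1 (by omega) le_rfl (by omega) le_rfl
  rcases h with ⟨e1, e2⟩ | ⟨e1, e2⟩ <;> rw [e1, e2]
  · exact ⟨fun k => h1 (lt_inj k), fun k => h2 (lt_inj k)⟩
  · exact ⟨fun k => h2 (lt_inj k), fun k => h1 (lt_inj k)⟩

/-- the two sides at a mark are different -/
lemma mkS_ne (n : ℤ) (s : Cell × ℤ) : mkS n s true ≠ mkS n s false := by
  intro h
  obtain ⟨t, ht, h1⟩ := tiles_mkS n s true
  obtain ⟨t', ht', h2⟩ := tiles_mkS n s false
  rw [h] at h1
  have e1 : t = t' := by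
    have hne := lab_ne_plab (mkS n s false)
    rcases h1 with ⟨a1, a2⟩ | ⟨a1, a2⟩ <;> rcases h2 with ⟨b1, b2⟩ | ⟨b1, b2⟩
    · exact lt_inj (a1.symm.trans b1)
    · exact absurd (b1.trans a2.symm) hne
    · exact absurd (a1.trans b2.symm) hne
    · exact lt_inj (a2.symm.trans b2)
  rw [ht, ht'] at e1
  simp only [if_true] at e1
  have e2 : ott n s n 0 = ott n s ((n - 1) + 1) (1 + -1) := by congr 1; ring
  rw [e2, ott_add] at e1
  rcases io_dir s.2 with ⟨-, -, c, d⟩ | ⟨-, -, c, d⟩ | ⟨-, -, c, d⟩ | ⟨-, -, c, d⟩ <;>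
    rw [c, d] at e1 <;> simp [Prod.ext_iff] at e1

/-- from the outer line to the first point of the mark -/
lemma BC_to_mark (hn : 4 ≤ n) (hL : LamV P n mk Λ) {i : ℕ} (hi : mk (i + 1)) (b : Bool)
    (hM : b = true → mkS n (P.side i) false ∉ M) : BC Λ M (ol n (P.side i) n) (mkm n (P.side i) b) := by
  cases b with
  | false => exact BC.refl _ _ _
  | true =>
    have := BC.single (Jn_mkS n (P.side i) false) (mark_bd hn hL hi false) (hM rfl)
    simpa [mkm, mkp] using this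

/-- from the last point of the mark to the next outer line -/
lemma BC_from_mark (hn : 4 ≤ n) (hL : LamV P n mk Λ) {i : ℕ} (hi : mk (i + 1)) (b : Bool)
    (hM : b = false → mkS n (P.side i) true ∉ M) :
    BC Λ M (mkp n (P.side i) b) (ol n (P.side (i + 1)) 0) := by
  have e : ol n (P.side (i + 1)) 0 = wp n (P.side i) n + dir (P.side i).2 := by
    unfold ol
    rw [side_succ, wp_next, ← side_succ, hL.cvx i hi]
    simp only
    rw [add_sub_cancel_right]
  rw [e]
  cases b with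
  | true =>
    have : mkp n (P.side i) true = wp n (P.side i) n + dir (P.side i).2 := by simp [mkp]
    rw [this]
    exact BC.refl _ _ _
  | false =>
    have := BC.single (Jn_mkS n (P.side i) true) (mark_bd hn hL hi true) (hM rfl)
    simpa [mkm, mkp] using this

/-- at a mark the outer lines are complete -/
lemma r1_mark (hL : LamV P n mk Λ) {i : ℕ} (hi : mk (i + 1)) : r1 P.Q n (P.side i) = n := by
  unfold r1
  rw [if_neg (cvx_cells (hL.cvx i hi)).2]

lemma r0_mark (hL : LamV P n mk Λ) {i : ℕ} (hi : mk (i + 1)) : r0 P.Q (P.side (i + 1)) = 0 := by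
  unfold r0
  rw [if_neg]
  have h1 := (cvx_cells (hL.cvx i hi)).2
  rw [hL.cvx i hi]
  have : (P.side i).1 + dir ((P.side i).2 + 1 - 1) - dir ((P.side i).2 + 1) =
      (P.side i).1 + dir (P.side i).2 + dir ((P.side i).2 - 1) := by
    rw [add_sub_cancel_right]
    rcases io_dir (P.side i).2 with ⟨a, -, c, d⟩ | ⟨a, -, c, d⟩ | ⟨a, -, c, d⟩ | ⟨a, -, c, d⟩ <;>
    rcases dir_cases ((P.side i).2 + 1) with ⟨a', c'⟩ | ⟨a', c'⟩ | ⟨a', c'⟩ | ⟨a', c'⟩ <;>
    first
    | (exfalso; omega)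
    | (rw [c, d, c']; refine Prod.ext ?_ ?_ <;> simp [sub_eq_add_neg])
  show (P.side i).1 + dir ((P.side i).2 + 1 - 1) - dir ((P.side i).2 + 1) ∉ P.Q
  rw [this]
  exact h1

end marks

end Pool.Agent.H47.W
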