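import Pool.Agent.H47.W.Room4
import Pool.Agent.H47.W.Room3

set_option autoImplicit false
open Finset

/-! # Planarity of the strand graph, part 9: the left arc of a region whose rows are intervals

Region `Rows Λ y0 y1 a b`. The left arc consists of the sides `aC a Y t`, `0 ≤ t ≤ ln a Y`, in
lexicographic order of the keys `(Y, t)`: at the height `Y` first the horizontal sides between `a (Y - 1)`
and `a Y`, then (`t = ln a Y`) the vertical side of the row `Y`. `rows_planar` : two strands between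
sides of the left arc do not cross. -/

namespace Pool.Agent.H47.W

open Pool.Agent.H75.Perc Pool.Agent.H75.TwoArm Pool.Agent.H99.W Pool.Agent.H13.W Pool.Agent.H73.W

/-- number of horizontal sides of the arc at the height `Y` -/
def ln (a : ℤ → ℤ) (Y : ℤ) : ℤ := |a Y - a (Y - 1)|

/-- the point `t` of the arc at the height `Y` -/
def aP (a : ℤ → ℤ) (Y t : ℤ) : ℤ × ℤ := (if a (Y - 1) ≤ a Y then a (Y - 1) + t else a (Y - 1) - t, Y)

/-- the side `t` of the arc at the height `Y`; the last one is vertical -/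
def aC (a : ℤ → ℤ) (Y t : ℤ) : ℤ × ℤ :=
  if t = ln a Y then vt (a Y) Y
  else if a (Y - 1) ≤ a Y then hz (a (Y - 1) + t) Y else hz (a (Y - 1) - t - 1) Y

/-- admissible keys -/
def KOk (y0 y1 : ℤ) (a : ℤ → ℤ) (k : ℤ × ℤ) : Prop :=
  y0 ≤ k.1 ∧ k.1 < y1 ∧ 0 ≤ k.2 ∧ k.2 ≤ ln a k.1 ∧ (k.1 = y0 → k.2 = ln a k.1)

/-- lexicographic order -/
def LL (p q : ℤ × ℤ) : Prop := p.1 < q.1 ∨ (p.1 = q.1 ∧ p.2 < q.2)

lemma ln_nonneg (a : ℤ → ℤ) (Y : ℤ) : 0 ≤ ln a Y := abs_nonneg _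

lemma ln_cases (a : ℤ → ℤ) (Y : ℤ) : (a (Y - 1) ≤ a Y ∧ ln a Y = a Y - a (Y - 1)) ∨
    (a Y < a (Y - 1) ∧ ln a Y = a (Y - 1) - a Y) := by
  unfold ln
  rcases le_or_gt (a (Y - 1)) (a Y) with h | h
  · left; exact ⟨h, abs_of_nonneg (by omega)⟩
  · right; refine ⟨h, ?_⟩
    rw [abs_of_neg (by omega)]; ring

lemma aC_vert (a : ℤ → ℤ) (Y : ℤ) : aC a Y (ln a Y) = vt (a Y) Y := by
  unfold aC; rw [if_pos rfl]

lemma aP_zero (a : ℤ → ℤ) (Y : ℤ) : aP a Y 0 = (a (Y - 1), Y) := by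
  unfold aP
  split_ifs <;> simp

lemma aP_ln (a : ℤ → ℤ) (Y : ℤ) : aP a Y (ln a Y) = (a Y, Y) := by
  unfold aP
  rcases ln_cases a Y with ⟨h, e⟩ | ⟨h, e⟩
  · rw [if_pos h, e]; refine Prod.ext ?_ ?_ <;> simp
  · rw [if_neg (by omega), e]; refine Prod.ext ?_ ?_ <;> simp

/-- the vertical side joins the heights -/
lemma Jn_vert (a : ℤ → ℤ) (Y : ℤ) : Jn (aC a Y (ln a Y)) (aP a Y (ln a Y)) (aP a (Y + 1) 0) := by
  rw [aC_vert, aP_ln, aP_zero, add_sub_cancel_right]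
  exact Jn_vt _ _

lemma Jn_hor (a : ℤ → ℤ) {Y t : ℤ} (h : t ≠ ln a Y) : Jn (aC a Y t) (aP a Y t) (aP a Y (t + 1)) := by
  unfold aC aP
  rw [if_neg h]
  split_ifs with h1
  · have := Jn_hz (a (Y - 1) + t) Y
    rwa [add_assoc] at this
  · have := (Jn_hz (a (Y - 1) - t - 1) Y).symm
    have e1 : a (Y - 1) - t - 1 + 1 = a (Y - 1) - t := by ring
    have e2 : a (Y - 1) - (t + 1) = a (Y - 1) - t - 1 := by ring
    rw [e1] at this
    rw [e2]
    exact this

/-- the sides of the arc determine the keys -/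
lemma aC_inj {y0 y1 : ℤ} {a : ℤ → ℤ} {k k' : ℤ × ℤ} (h : KOk y0 y1 a k) (h' : KOk y0 y1 a k')
    (e : aC a k.1 k.2 = aC a k'.1 k'.2) : k = k' := by
  obtain ⟨Y, t⟩ := k
  obtain ⟨Y', t'⟩ := k'
  obtain ⟨-, -, h1, h2, -⟩ := h
  obtain ⟨-, -, h1', h2', -⟩ := h'
  simp only at h1 h2 h1' h2' e
  unfold aC at e
  by_cases c : t = ln a Y
  · rw [if_pos c] at e
    by_cases c' : t' = ln a Y'
    · rw [if_pos c'] at e
      obtain ⟨-, rfl⟩ := vt_inj e
      rw [c, c']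
    · rw [if_neg c'] at e
      split_ifs at e
      · exact absurd e.symm (hz_ne_vt _ _ _ _)
      · exact absurd e.symm (hz_ne_vt _ _ _ _)
  · rw [if_neg c] at e
    by_cases c' : t' = ln a Y'
    · rw [if_pos c'] at e
      split_ifs at e
      · exact absurd e (hz_ne_vt _ _ _ _)
      · exact absurd e (hz_ne_vt _ _ _ _)
    · rw [if_neg c'] at e
      have hY : Y = Y' := by
        split_ifs at e <;> exact (hz_inj e).2
      subst hY
      have ht : t = t' := by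
        split_ifs at e
        · have := (hz_inj e).1; omega
        · have := (hz_inj e).1; omega
      rw [ht]

section arc

variable {Λ D : Set (ℤ × ℤ)} {w : Finset (ℤ × ℤ)} {y0 y1 : ℤ} {a b : ℤ → ℤ}

/-- the sides of the arc are boundary sides -/
lemma aC_bd (hR : Rows Λ y0 y1 a b) (hab : ∀ y, y0 ≤ y → y < y1 → a y < b y)
    (hov : ∀ y, y0 ≤ y → y + 1 < y1 → a y < b (y + 1) ∧ a (y + 1) < b y) {k : ℤ × ℤ}
    (hk : KOk y0 y1 a k) : Bd Λ (aC a k.1 k.2) := by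
  obtain ⟨Y, t⟩ := k
  obtain ⟨h1, h2, h3, h4, h5⟩ := hk
  simp only at h1 h2 h3 h4 h5 ⊢
  by_cases c : t = ln a Y
  · rw [c, aC_vert, Bd_vt]
    intro h
    have h6 := h.1 ((hR _ _).2 ⟨h1, h2, le_rfl, hab Y h1 h2⟩)
    have := ((hR _ _).1 h6).2.2.1
    omega
  · have hY : y0 < Y := by
      rcases lt_or_eq_of_le h1 with h | h
      · exact h
      · exact absurd (h5 h.symm) c
    have a1 := hab Y h1 h2
    have a2 := hab (Y - 1) (by omega) (by omega)
    obtain ⟨a3, a4⟩ := hov (Y - 1) (by omega) (by omega)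
    rw [sub_add_cancel] at a3 a4
    unfold aC
    rw [if_neg c]
    rcases ln_cases a Y with ⟨g, e⟩ | ⟨g, e⟩
    · rw [if_pos g, Bd_hz]
      intro h
      have h6 := h.2 ((hR _ _).2 ⟨by omega, by omega, by omega, by omega⟩)
      have := ((hR _ _).1 h6).2.2.1
      omega
    · rw [if_neg (by omega), Bd_hz]
      intro h
      have h6 := h.1 ((hR _ _).2 ⟨by omega, by omega, by omega, by omega⟩)
      have := ((hR _ _).1 h6).2.2.1
      omega

open Classical in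
/-- **A potential which jumps at two sides of the arc.** -/
lemma pot_arc {S : ℤ × ℤ → ZMod 2} {k1 k2 : ℤ × ℤ} (h1 : KOk y0 y1 a k1) (h2 : KOk y0 y1 a k2)
    (hS : ∀ k, KOk y0 y1 a k → ∀ p q, Jn (aC a k.1 k.2) p q →
      S q = S p + (if k = k1 then 1 else 0) + (if k = k2 then 1 else 0)) {k : ℤ × ℤ}
    (hk : KOk y0 y1 a k) : S (aP a k.1 k.2) = S (a y0, y0) + (if LL k1 k then 1 else 0) +
      (if LL k2 k then 1 else 0) := by
  obtain ⟨Y, t⟩ := k
  obtain ⟨g1, g2, g3, g4, g5⟩ := hk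
  simp only at g1 g2 g3 g4 g5 ⊢
  obtain ⟨m, rfl⟩ : ∃ m : ℕ, Y = y0 + m := ⟨(Y - y0).toNat, by omega⟩
  -- one step of an indicator
  have step : ∀ {k0 : ℤ × ℤ}, KOk y0 y1 a k0 → ∀ Y t : ℤ, t < ln a Y →
      ((if LL k0 (Y, t + 1) then 1 else 0 : ZMod 2) =
        (if LL k0 (Y, t) then 1 else 0) + (if (Y, t) = k0 then 1 else 0)) := by
    intro k0 _ Y t _
    obtain ⟨Y0, t0⟩ := k0
    unfold LL
    simp only [Prod.mk.injEq]
    by_cases c : Y = Y0 ∧ t = t0
    · rw [if_pos c, if_pos (by omega), if_neg (by omega), zero_add]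
    · rw [if_neg c, add_zero]
      congr 1
      apply propext
      constructor
      · intro h
        rcases h with h | ⟨h, h'⟩
        · exact Or.inl h
        · right; refine ⟨h, ?_⟩; by_contra h''; exact c ⟨by omega, by omega⟩
      · intro h
        rcases h with h | ⟨h, h'⟩
        · exact Or.inl h
        · right; exact ⟨h, by omega⟩
  have stepv : ∀ {k0 : ℤ × ℤ}, KOk y0 y1 a k0 → ∀ Y : ℤ,
      ((if LL k0 (Y + 1, 0) then 1 else 0 : ZMod 2) =
        (if LL k0 (Y, ln a Y) then 1 else 0) + (if (Y, ln a Y) = k0 then 1 else 0)) := by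
    intro k0 hk0 Y
    obtain ⟨Y0, t0⟩ := k0
    obtain ⟨-, -, b1, b2, -⟩ := hk0
    simp only at b1 b2
    unfold LL
    simp only [Prod.mk.injEq]
    by_cases c : Y = Y0 ∧ ln a Y = t0
    · rw [if_pos c, if_pos (by omega), if_neg (by omega), zero_add]
    · rw [if_neg c, add_zero]
      congr 1
      apply propext
      constructor
      · intro h
        rcases h with h | ⟨h, h'⟩
        · by_cases c1 : Y0 < Y
          · exact Or.inl c1
          · have : Y0 = Y := by omega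
            subst this
            right; refine ⟨rfl, ?_⟩
            by_contra h''; exact c ⟨rfl, by omega⟩
        · omega
      · intro h
        rcases h with h | ⟨h, h'⟩
        · exact Or.inl (by omega)
        · exact Or.inl (by omega)
  -- along the sides of one height
  have along : ∀ Y, y0 ≤ Y → Y < y1 → Y ≠ y0 →
      S (aP a Y 0) = S (a y0, y0) + (if LL k1 (Y, 0) then 1 else 0) + (if LL k2 (Y, 0) then 1 else 0) →
      ∀ t, 0 ≤ t → t ≤ ln a Y →
        S (aP a Y t) = S (a y0, y0) + (if LL k1 (Y, t) then 1 else 0) +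
          (if LL k2 (Y, t) then 1 else 0) := by
    intro Y e1 e2 e3 e4 t e5 e6
    obtain ⟨r, rfl⟩ : ∃ r : ℕ, t = r := ⟨t.toNat, by omega⟩
    induction r with
    | zero => exact e4
    | succ r ih =>
      have ih := ih (by omega) (by push_cast at e6; omega)
      push_cast at e6 ⊢
      have := hS (Y, (r : ℤ)) ⟨e1, e2, by simp, by simp only; omega, fun h => absurd h e3⟩ _ _
        (Jn_hor a (Y := Y) (t := r) (by omega))
      rw [this, ih, step h1 Y r (by omega), step h2 Y r (by omega)]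
      ring
  -- from height to height
  have key : ∀ m : ℕ, y0 + (m : ℤ) < y1 →
      S (aP a (y0 + m) (ln a (y0 + m))) = S (a y0, y0) +
        (if LL k1 (y0 + m, ln a (y0 + m)) then 1 else 0) +
        (if LL k2 (y0 + m, ln a (y0 + m)) then 1 else 0) := by
    intro m hm
    induction m with
    | zero =>
      simp only [Nat.cast_zero, add_zero]
      rw [aP_ln, if_neg, if_neg, add_zero, add_zero]
      · rintro (h | ⟨h, h'⟩)
        · have := h2.1; simp only at h; omega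
        · have := h2.2.2.2.2 h; simp only at h h'; rw [← h] at h'; omega
      · rintro (h | ⟨h, h'⟩)
        · have := h1.1; simp only at h; omega
        · have := h1.2.2.2.2 h; simp only at h h'; rw [← h] at h'; omega
    | succ m ih =>
      have ih := ih (by push_cast at hm; omega)
      push_cast at hm ⊢
      rw [← add_assoc] at hm ⊢
      refine along _ (by omega) (by omega) (by omega) ?_ _ (ln_nonneg _ _) le_rfl
      have := hS (y0 + m, ln a (y0 + m)) ⟨by simp, by simp only; omega, ln_nonneg _ _, le_rfl,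
        fun _ => rfl⟩ _ _ (Jn_vert a (y0 + m))
      rw [this, ih, stepv h1, stepv h2]
      ring
  by_cases c : m = 0
  · subst c
    simp only [Nat.cast_zero, add_zero] at g4 g5 ⊢
    rw [g5 trivial]
    have := key 0 (by push_cast at g2; omega)
    simpa using this
  · obtain ⟨m, rfl⟩ : ∃ m', m = m' + 1 := ⟨m - 1, by omega⟩
    push_cast at g2 g3 g4 g5 ⊢
    rw [← add_assoc] at g2 g4 g5 ⊢
    refine along _ (by omega) (by omega) (by omega) ?_ _ g3 g4
    have := hS (y0 + m, ln a (y0 + m)) ⟨by simp, by simp only; omega, ln_nonneg _ _, le_rfl,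
      fun _ => rfl⟩ _ _ (Jn_vert a (y0 + m))
    rw [this, key m (by omega), stepv h1, stepv h2]
    ring

/-- **Planarity on the left arc.** -/
theorem rows_planar (hR : Rows Λ y0 y1 a b) (hab : ∀ y, y0 ≤ y → y < y1 → a y < b y)
    (hov : ∀ y, y0 ≤ y → y + 1 < y1 → a y < b (y + 1) ∧ a (y + 1) < b y) {k1 k2 k3 k4 : ℤ × ℤ}
    (h1 : KOk y0 y1 a k1) (h2 : KOk y0 y1 a k2) (h3 : KOk y0 y1 a k3) (h4 : KOk y0 y1 a k4)
    (n12 : k1 ≠ k2) (n31 : k3 ≠ k1) (n32 : k3 ≠ k2)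
    (hD : ∀ e ∈ Λ, e ∈ D → eW e ≠ aC a k1.1 k1.2 ∧ eE e ≠ aC a k1.1 k1.2 ∧
      eW e ≠ aC a k2.1 k2.2 ∧ eE e ≠ aC a k2.1 k2.2)
    (hDo : ∀ e ∈ Λ, e ∈ D → (e.1 + e.2) % 2 = 1)
    (hr : (SG Λ D w).Reachable (aC a k1.1 k1.2) (aC a k2.1 k2.2))
    (hr' : (SG Λ D w).Reachable (aC a k3.1 k3.2) (aC a k4.1 k4.2)) :
    (Xor (LL k1 k3) (LL k2 k3)) ↔ (Xor (LL k1 k4) (LL k2 k4)) := by
  classical
  have b1 := aC_bd hR hab hov h1
  have b2 := aC_bd hR hab hov h2
  have b3 := aC_bd hR hab hov h3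
  obtain ⟨o1, ho1⟩ := b1.2
  obtain ⟨o2, ho2⟩ := b2.2
  have hne : aC a k1.1 k1.2 ≠ aC a k2.1 k2.2 := fun h => n12 (aC_inj h1 h2 h)
  obtain ⟨S, s1, s2, s3, s4⟩ := exists_sep hr hne ho1 ho2
    (TC_rows hR ho1.odd ho2.odd ho1.1 ho2.1) hD hDo
  have hoff : ∀ c, Bd Λ c → c ≠ aC a k1.1 k1.2 → c ≠ aC a k2.1 k2.2 →
      ¬ (SG Λ D w).Reachable (aC a k1.1 k1.2) c := by
    intro c hc e1 e2 h
    rcases ends_two SG_deg2 b1.isEnd b2.isEnd hc.isEnd hr h hne with k | k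
    · exact e1 k
    · exact e2 k
  have jump : ∀ c p q, Jn c p q → S (pb c) = S (pa c) + 1 → S q = S p + 1 := by
    rintro c p q (⟨rfl, rfl⟩ | ⟨rfl, rfl⟩) h
    · exact h
    · rw [h]
      have := z2_add_self (1 : ZMod 2)
      linear_combination -this
  have flat : ∀ c p q, Jn c p q → S (pb c) = S (pa c) → S q = S p := by
    rintro c p q (⟨rfl, rfl⟩ | ⟨rfl, rfl⟩) h
    · exact h
    · exact h.symm
  have hS : ∀ k, KOk y0 y1 a k → ∀ p q, Jn (aC a k.1 k.2) p q →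
      S q = S p + (if k = k1 then 1 else 0) + (if k = k2 then 1 else 0) := by
    intro k hk p q hj
    by_cases c1 : k = k1
    · subst c1
      rw [if_pos rfl, if_neg n12, add_zero]
      exact jump _ _ _ hj s2
    · by_cases c2 : k = k2
      · subst c2
        rw [if_neg c1, if_pos rfl, add_zero]
        exact jump _ _ _ hj s3
      · rw [if_neg c1, if_neg c2, add_zero, add_zero]
        have hb := aC_bd hR hab hov hk
        exact flat _ _ _ hj (s1 _ hb.1 (hoff _ hb (fun e => c1 (aC_inj hk h1 e))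
          (fun e => c2 (aC_inj hk h2 e))))
  have hoff3 := hoff _ b3 (fun e => n31 (aC_inj h3 h1 e)) (fun e => n32 (aC_inj h3 h2 e))
  have e34 := s4 _ _ hr' b3.1 hoff3
  -- both ends
  have val : ∀ k, KOk y0 y1 a k → k ≠ k1 → k ≠ k2 → S (pa (aC a k.1 k.2)) = S (aP a k.1 k.2) := by
    intro k hk c1 c2
    have hJ : ∃ q, Jn (aC a k.1 k.2) (aP a k.1 k.2) q := by
      by_cases c : k.2 = ln a k.1
      · rw [c]; exact ⟨_, Jn_vert a k.1⟩
      · exact ⟨_, Jn_hor a c⟩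
    obtain ⟨q, hq⟩ := hJ
    have hb := aC_bd hR hab hov hk
    have hf := s1 _ hb.1 (hoff _ hb (fun e => c1 (aC_inj hk h1 e)) (fun e => c2 (aC_inj hk h2 e)))
    rcases hq with ⟨e1, -⟩ | ⟨-, e2⟩
    · rw [e1]
    · rw [← e2, hf]
  have n41 : k4 ≠ k1 := by
    rintro rfl
    exact hoff3 hr'.symm
  have n42 : k4 ≠ k2 := by
    rintro rfl
    exact hoff3 (hr.trans hr'.symm)
  rw [val k3 h3 n31 n32, val k4 h4 n41 n42, pot_arc h1 h2 hS h3, pot_arc h1 h2 hS h4] at e34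
  have e5 : ((if LL k1 k3 then 1 else 0 : ZMod 2) + (if LL k2 k3 then 1 else 0)) =
      (if LL k1 k4 then 1 else 0) + (if LL k2 k4 then 1 else 0) := by
    linear_combination e34
  by_cases c1 : LL k1 k3 <;> by_cases c2 : LL k2 k3 <;> by_cases c3 : LL k1 k4 <;>
    by_cases c4 : LL k2 k4 <;> simp only [c1, c2, c3, c4, if_true, if_false] at e5 ⊢ <;>
    first
    | (exfalso; revert e5; decide)
    | simp [Xor]

variable {α : Type*} {A : α → Prop} {cor : α → ℤ × ℤ}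

lemma LL.asymm {p q : ℤ × ℤ} (h : LL p q) : ¬ LL q p := by
  unfold LL at h ⊢
  omega

/-- **Noncrossing link pattern**, ends on the left arc. `pos` = a cyclic order of the names: the names in
`cl` come last and are passed last on the arc, and within the two classes the order is reversed. -/
theorem nc_rows (hR : Rows Λ y0 y1 a b) (hab : ∀ y, y0 ≤ y → y < y1 → a y < b y)
    (hov : ∀ y, y0 ≤ y → y + 1 < y1 → a y < b (y + 1) ∧ a (y + 1) < b y)
    (h : Act (SG Λ D w) A cor) {z : α} {key : α → ℤ × ℤ} {pos : α → ℤ} {cl : α → Prop}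
    (hk : ∀ u, A u → u ≠ z → KOk y0 y1 a (key u) ∧ cor u = aC a (key u).1 (key u).2)
    (hD : ∀ u, A u → u ≠ z → ∀ e ∈ Λ, e ∈ D → eW e ≠ cor u ∧ eE e ≠ cor u)
    (hDo : ∀ e ∈ Λ, e ∈ D → (e.1 + e.2) % 2 = 1)
    (o1 : ∀ u v, A u → A v → u ≠ z → v ≠ z → pos u < pos v → (cl u ↔ cl v) → LL (key v) (key u))
    (o2 : ∀ u v, A u → A v → u ≠ z → v ≠ z → ¬ cl u → cl v → LL (key u) (key v) ∧ pos u < pos v)
    {x y : α} (hx : x ≠ z) (hx' : x ≠ sgp (SG Λ D w) A cor z) (hy : y ≠ z)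
    (hy' : y ≠ sgp (SG Λ D w) A cor z) : NX pos (sgp (SG Λ D w) A cor) x y := by
  rintro ⟨h1, h2, h3⟩
  set σ := sgp (SG Λ D w) A cor with hσ
  have ax : A x := (h.alive x).1 fun e => by rw [← hσ] at e; rw [e] at h2; omega
  have ay : A y := (h.alive y).1 fun e => by rw [← hσ] at e; rw [e] at h3; omega
  have asx := (h.sgp_mem ax).1
  have asy := (h.sgp_mem ay).1
  have zx : σ x ≠ z := fun e => hx' (by rw [← e, hσ, h.inv])
  have zy : σ y ≠ z := fun e => hy' (by rw [← e, hσ, h.inv])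
  have r1 := (h.sgp_mem ax).2.2
  have r2 := (h.sgp_mem ay).2.2
  rw [← hσ] at asx asy r1 r2
  obtain ⟨k1, c1⟩ := hk x ax hx
  obtain ⟨k2, c2⟩ := hk y ay hy
  obtain ⟨k3, c3⟩ := hk _ asx zx
  obtain ⟨k4, c4⟩ := hk _ asy zy
  -- comparison of two names
  have cmp : ∀ u v, A u → A v → u ≠ z → v ≠ z → pos u < pos v →
      (cl u → cl v) ∧ (LL (key u) (key v) ↔ (¬ cl u ∧ cl v)) ∧ (LL (key v) (key u) ↔ ¬ (¬ cl u ∧ cl v)) := by
    intro u v au av zu zv huv
    by_cases cu : cl u <;> by_cases cv : cl v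
    · have t := o1 u v au av zu zv huv ⟨fun _ => cv, fun _ => cu⟩
      exact ⟨fun _ => cv, ⟨fun t' => absurd t t'.asymm, fun t' => absurd cu t'.1⟩,
        ⟨fun _ t' => t'.1 cu, fun _ => t⟩⟩
    · have := (o2 v u av au zv zu cv cu).2
      omega
    · have t := (o2 u v au av zu zv cu cv).1
      exact ⟨fun _ => cv, ⟨fun _ => ⟨cu, cv⟩, fun _ => t⟩,
        ⟨fun t' => absurd t t'.asymm, fun t' => absurd ⟨cu, cv⟩ t'⟩⟩
    · have t := o1 u v au av zu zv huv ⟨fun t' => absurd t' cu, fun t' => absurd t' cv⟩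
      exact ⟨fun h => absurd h cu, ⟨fun t' => absurd t t'.asymm, fun t' => absurd t'.2 cv⟩,
        ⟨fun _ t' => cv t'.2, fun _ => t⟩⟩
  have ne_of : ∀ u v, A u → A v → pos u < pos v → KOk y0 y1 a (key u) ∧ cor u = aC a (key u).1 (key u).2 →
      KOk y0 y1 a (key v) ∧ cor v = aC a (key v).1 (key v).2 → key u ≠ key v := by
    rintro u v au av huv ⟨-, e1⟩ ⟨-, e2⟩ e
    rw [e, ← e2] at e1
    rw [h.inj u v au av e1] at huv
    omega
  obtain ⟨p1, p2, p3⟩ := cmp x y ax ay hx hy h1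
  obtain ⟨q1, q2, q3⟩ := cmp y (σ x) ay asx hy zx h2
  obtain ⟨t1, t2, t3⟩ := cmp (σ x) (σ y) asx asy zx zy h3
  obtain ⟨s1, s2, s3⟩ := cmp x (σ y) ax asy hx zy (by omega)
  rw [c1, c3] at r1
  rw [c2, c4] at r2
  have hpl := rows_planar hR hab hov k1 k3 k2 k4
    (ne_of x (σ x) ax asx (by omega) ⟨k1, c1⟩ ⟨k3, c3⟩)
    (ne_of x y ax ay h1 ⟨k1, c1⟩ ⟨k2, c2⟩).symm
    (ne_of y (σ x) ay asx h2 ⟨k2, c2⟩ ⟨k3, c3⟩) (fun e he hd => by
      obtain ⟨g1, g2⟩ := hD _ ax hx e he hd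
      obtain ⟨g3, g4⟩ := hD _ asx zx e he hd
      rw [c1] at g1 g2
      rw [c3] at g3 g4
      exact ⟨g1, g2, g3, g4⟩) hDo r1 r2
  rw [p2, q3, s2, t2] at hpl
  have q1' : ¬ cl (σ x) → ¬ cl y := fun t t' => t (q1 t')
  have t1' : ¬ cl (σ y) → ¬ cl (σ x) := fun t t' => t (t1 t')
  have p1' : ¬ cl y → ¬ cl x := fun t t' => t (p1 t')
  clear cmp ne_of p2 p3 q2 q3 t2 t3 s1 s2 s3 k1 k2 k3 k4 c1 c2 c3 c4 r1 r2 hk hD hDo o1 o2 hR hab hov
  by_cases d1 : cl (σ y)
  · by_cases d2 : cl (σ x)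
    · by_cases d3 : cl y
      · by_cases d4 : cl x <;> simp [Xor, d1, d2, d3, d4] at hpl
      · simp [Xor, d1, d2, d3, p1' d3] at hpl
    · simp [Xor, d1, d2, q1' d2, p1' (q1' d2)] at hpl
  · simp [Xor, d1, t1' d1, q1' (t1' d1), p1' (q1' (t1' d1))] at hpl

/-- version without interior end -/
theorem nc_rows' (hR : Rows Λ y0 y1 a b) (hab : ∀ y, y0 ≤ y → y < y1 → a y < b y)
    (hov : ∀ y, y0 ≤ y → y + 1 < y1 → a y < b (y + 1) ∧ a (y + 1) < b y)
    (h : Act (SG Λ D w) A cor) {z : α} (hz : ¬ A z) {key : α → ℤ × ℤ} {pos : α → ℤ} {cl : α → Prop}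
    (hk : ∀ u, A u → u ≠ z → KOk y0 y1 a (key u) ∧ cor u = aC a (key u).1 (key u).2)
    (hD : ∀ u, A u → u ≠ z → ∀ e ∈ Λ, e ∈ D → eW e ≠ cor u ∧ eE e ≠ cor u)
    (hDo : ∀ e ∈ Λ, e ∈ D → (e.1 + e.2) % 2 = 1)
    (o1 : ∀ u v, A u → A v → u ≠ z → v ≠ z → pos u < pos v → (cl u ↔ cl v) → LL (key v) (key u))
    (o2 : ∀ u v, A u → A v → u ≠ z → v ≠ z → ¬ cl u → cl v → LL (key u) (key v) ∧ pos u < pos v)
    (x y : α) : NX pos (sgp (SG Λ D w) A cor) x y := by
  have e : sgp (SG Λ D w) A cor z = z := sgp_dead hz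
  by_cases hx : x = z
  · rintro ⟨h1, h2, -⟩
    rw [hx, e] at h2
    rw [hx] at h1
    omega
  by_cases hy : y = z
  · rintro ⟨-, h2, h3⟩
    rw [hy, e] at h3
    rw [hy] at h2
    omega
  exact nc_rows hR hab hov h hk hD hDo o1 o2 hx (by rw [e]; exact hx) hy (by rw [e]; exact hy)

end arc

end Pool.Agent.H47.W
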