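import Pool.Agent.H47.W.NCBw
import Pool.Agent.H64.Q1.Reg6

/-!
# The frozen half row inside a network of `H64.Q1`

The frozen tiles `(W, l, E, r)` of a half line, nearest to the end first: the tile joins `W ~ l`, `E ~ r`
(state `true`, weight `1 - w`) or `W ~ r`, `l ~ E` (state `false`, weight `w`); `E` is wired to the `W` of the
next tile, the last `E` to `d`. `SF_frozen`: on top of any pairing `s : LP D` the mean over the states of these
tiles is `Val (1 - w) w` of `H47.W.Frozen` for the pairing `sg` of the legs `l`, `r`, of the outer names `O` and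
of the head.
-/

namespace Pool.Agent.H47.W

open Pool.Agent.H64.Q1 Pool.Agent.H64.Q1.LP Pool.Agent.H13.Q1

variable {D : Type*} [DecidableEq D]

/-- the pairing seen from the head `h` (called `e`) and the names `L` -/
def sg (L : List D) (e h : D) (s : D → D) (x : D) : D :=
  if x = e then s h else if x ∈ L then (if s x = h then e else s x) else x

theorem sg_stA {L : List D} {e h l E r h' : D} {s : LP D} (hE : s E = h')
    (nh : h ≠ E ∧ h ≠ h' ∧ h ≠ l ∧ h ≠ r ∧ h ∉ L) (nE : E ≠ l ∧ E ≠ r ∧ E ∉ L)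
    (nh' : h' ≠ l ∧ h' ≠ r ∧ h' ∉ L) (nl : l ≠ r ∧ l ∉ L) (nr : r ∉ L)
    (ne : e ≠ E ∧ e ≠ h' ∧ e ≠ l ∧ e ≠ r ∧ e ∉ L) (mh : s h = l ∨ s h = r ∨ s h ∈ L)
    (mp : ∀ x, x = l ∨ x = r ∨ x ∈ L → s x = h ∨ s x = l ∨ s x = r ∨ s x ∈ L) :
    sg L e h' (LP.tl true h l E r s) = stA e l r (sg (l :: r :: L) e h s) := by
  funext x
  unfold LP.tl
  rw [if_pos rfl]
  have a1 := s.invol h
  have a2 := s.invol l
  have a3 := s.invol E
  have a4 := s.invol r
  have a5 := s.invol x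
  have b1 := s.ne h
  have b2 := s.ne l
  have b3 := s.ne E
  have b4 := s.ne r
  have b5 := s.ne x
  have c1 := mp l (Or.inl rfl)
  have c2 := mp r (Or.inr (Or.inl rfl))
  have c3 := mp x
  have hh : s h' = E := by rw [← hE, s.invol]
  unfold sg stA ren jo
  simp only [Equiv.swap_apply_def, List.mem_cons, jn_apply _ _ _ _ _ nh.2.2.1,
    jn_apply _ _ _ _ _ nE.2.1]
  grind (splits := 200)

theorem sg_stB {L : List D} {e h l E r h' : D} {s : LP D} (hE : s E = h')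
    (nh : h ≠ E ∧ h ≠ h' ∧ h ≠ l ∧ h ≠ r ∧ h ∉ L) (nE : E ≠ l ∧ E ≠ r ∧ E ∉ L)
    (nh' : h' ≠ l ∧ h' ≠ r ∧ h' ∉ L) (nl : l ≠ r ∧ l ∉ L) (nr : r ∉ L)
    (ne : e ≠ E ∧ e ≠ h' ∧ e ≠ l ∧ e ≠ r ∧ e ∉ L) (mh : s h = l ∨ s h = r ∨ s h ∈ L)
    (mp : ∀ x, x = l ∨ x = r ∨ x ∈ L → s x = h ∨ s x = l ∨ s x = r ∨ s x ∈ L) :
    sg L e h' (LP.tl false h l E r s) = stB e l r (sg (l :: r :: L) e h s) := by
  funext x
  unfold LP.tl
  rw [if_neg (by simp)]
  have a1 := s.invol h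
  have a2 := s.invol l
  have a3 := s.invol E
  have a4 := s.invol r
  have a5 := s.invol x
  have b1 := s.ne h
  have b2 := s.ne l
  have b3 := s.ne E
  have b4 := s.ne r
  have b5 := s.ne x
  have c1 := mp l (Or.inl rfl)
  have c2 := mp r (Or.inr (Or.inl rfl))
  have c3 := mp x
  have hh : s h' = E := by rw [← hE, s.invol]
  have nlE : l ≠ E := Ne.symm nE.1
  unfold sg stB ren jo
  simp only [Equiv.swap_apply_def, List.mem_cons, jn_apply _ _ _ _ _ nh.2.2.2.1,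
    jn_apply _ _ _ _ _ nlE]
  grind (splits := 200)

/-! ### The half line -/

/-- the head of the remaining line -/
def hd (d : D) : List (D × D × D × D) → D
  | [] => d
  | t :: _ => t.1

/-- the names which are not the head -/
def nx (d : D) (O : List D) : List (D × D × D × D) → List D
  | [] => O
  | t :: Ts => t.2.1 :: t.2.2.1 :: t.2.2.2 :: hd d Ts :: nx d O Ts

/-- the legs of the line -/
def lgs (Ts : List (D × D × D × D)) : List (D × D) := Ts.map fun t => (t.2.1, t.2.2.2)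

/-- the legs and the outer names -/
def lo (O : List D) (Ts : List (D × D × D × D)) : List D := nms (lgs Ts) ++ O

/-- the wires of the line -/
def Wir (d : D) (s : D → D) : List (D × D × D × D) → Prop
  | [] => True
  | t :: Ts => s t.2.2.1 = hd d Ts ∧ Wir d s Ts

/-- the tiles of the line; the list has the nearest tile first -/
def tls (w : ℂ) (Ts : List (D × D × D × D)) : List (Tl D) :=
  (Ts.map fun t => (⟨t.1, t.2.1, t.2.2.1, t.2.2.2, w⟩ : Tl D)).reverse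

theorem lo_cons (O : List D) (t : D × D × D × D) (Ts : List (D × D × D × D)) :
    lo O (t :: Ts) = t.2.1 :: t.2.2.2 :: lo O Ts := rfl

theorem tls_cons (w : ℂ) (t : D × D × D × D) (Ts : List (D × D × D × D)) :
    tls w (t :: Ts) = tls w Ts ++ [⟨t.1, t.2.1, t.2.2.1, t.2.2.2, w⟩] := by
  unfold tls
  rw [List.map_cons, List.reverse_cons]

theorem lo_sub_nx {d : D} {O : List D} {Ts : List (D × D × D × D)} :
    ∀ x ∈ lo O Ts, x ∈ nx d O Ts := by
  induction Ts with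
  | nil => intro x hx; simpa [lo, lgs, nx] using hx
  | cons t Ts ih =>
    intro x hx
    rw [lo_cons, List.mem_cons, List.mem_cons] at hx
    unfold nx
    simp only [List.mem_cons]
    rcases hx with h | h | h
    · exact Or.inl h
    · exact Or.inr (Or.inr (Or.inl h))
    · exact Or.inr (Or.inr (Or.inr (Or.inr (ih x h))))

/-- closure of a set of names under a join -/
theorem stab_jn {S : Set D} {f : LP D} (hS : ∀ z ∈ S, f z ∈ S) {x y : D} (hx : x ∈ S) (hy : y ∈ S)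
    (hxy : x ≠ y) (τ κ : ℤ) : ∀ z ∈ {z | z ∈ S ∧ z ≠ x ∧ z ≠ y}, LP.jn x y τ κ f z ∈
      {z | z ∈ S ∧ z ≠ x ∧ z ≠ y} := by
  rintro z ⟨h0, h1, h2⟩
  have ix := f.invol x
  have iy := f.invol y
  have iz := f.invol z
  have nx := f.ne x
  have ny := f.ne y
  rw [jn_apply _ _ _ _ _ hxy, if_neg h1, if_neg h2]
  split_ifs with c1 c2
  · refine ⟨hS _ hy, ?_, ny⟩
    intro e
    apply h2
    rw [c1, ← e, iy]
  · refine ⟨hS _ hx, nx, ?_⟩
    intro e
    apply h1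
    rw [c2, ← e, ix]
  · exact ⟨hS _ h0, fun e => c1 (by rw [← e, iz]), fun e => c2 (by rw [← e, iz])⟩

/-- what is needed of a pairing under the line -/
structure Lok (d : D) (O : List D) (e : D) (Ts : List (D × D × D × D)) (s : LP D) : Prop where
  nd : (hd d Ts :: nx d O Ts).Nodup
  ne : e ∉ nx d O Ts
  wr : Wir d s Ts
  mh : s (hd d Ts) ∈ lo O Ts
  mp : ∀ x ∈ lo O Ts, s x = hd d Ts ∨ s x ∈ lo O Ts

theorem Wir.mono {d : D} {Ts : List (D × D × D × D)} {s s' : D → D}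
    (h : Wir d s Ts) (hE : ∀ x, (∃ t ∈ Ts, x = t.2.2.1) → s' x = s x) : Wir d s' Ts := by
  induction Ts with
  | nil => trivial
  | cons t Ts ih =>
    refine ⟨by rw [hE _ ⟨t, by simp, rfl⟩]; exact h.1, ih h.2 fun x hx => hE x ?_⟩
    obtain ⟨u, hu, rfl⟩ := hx
    exact ⟨u, by simp [hu], rfl⟩

theorem mem_nx_E {d : D} {O : List D} {Ts : List (D × D × D × D)} {x : D}
    (h : ∃ t ∈ Ts, x = t.2.2.1) : x ∈ nx d O Ts := by
  induction Ts with
  | nil => obtain ⟨t, ht, -⟩ := h; simp at ht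
  | cons u Ts ih =>
    obtain ⟨t, ht, rfl⟩ := h
    unfold nx
    simp only [List.mem_cons]
    rcases List.mem_cons.1 ht with rfl | ht
    · exact Or.inr (Or.inl rfl)
    · exact Or.inr (Or.inr (Or.inr (Or.inr (ih ⟨t, ht, rfl⟩))))

/-- the partners of the `E` are heads -/
theorem Wir.mem {d : D} {O : List D} {Ts : List (D × D × D × D)} {s : D → D} (h : Wir d s Ts) {x : D}
    (hx : ∃ t ∈ Ts, x = t.2.2.1) : s x ∈ nx d O Ts := by
  induction Ts with
  | nil => obtain ⟨t, ht, -⟩ := hx; simp at ht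
  | cons u Ts ih =>
    obtain ⟨t, ht, rfl⟩ := hx
    unfold nx
    simp only [List.mem_cons]
    rcases List.mem_cons.1 ht with rfl | ht
    · exact Or.inr (Or.inr (Or.inr (Or.inl h.1)))
    · exact Or.inr (Or.inr (Or.inr (Or.inr (ih h.2 ⟨t, ht, rfl⟩))))

theorem Lok.names {d : D} {O : List D} {e : D} {t : D × D × D × D} {Ts : List (D × D × D × D)}
    {s : LP D} (h : Lok d O e (t :: Ts) s) :
    (t.1 ≠ t.2.2.1 ∧ t.1 ≠ hd d Ts ∧ t.1 ≠ t.2.1 ∧ t.1 ≠ t.2.2.2 ∧ t.1 ∉ nx d O Ts) ∧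
    (t.2.2.1 ≠ t.2.1 ∧ t.2.2.1 ≠ t.2.2.2 ∧ t.2.2.1 ∉ nx d O Ts ∧ t.2.2.1 ≠ hd d Ts) ∧
    (hd d Ts ≠ t.2.1 ∧ hd d Ts ≠ t.2.2.2 ∧ hd d Ts ∉ nx d O Ts) ∧
    (t.2.1 ≠ t.2.2.2 ∧ t.2.1 ∉ nx d O Ts) ∧ t.2.2.2 ∉ nx d O Ts ∧
    (e ≠ t.2.2.1 ∧ e ≠ hd d Ts ∧ e ≠ t.2.1 ∧ e ≠ t.2.2.2 ∧ e ∉ nx d O Ts) ∧
    (nx d O Ts).Nodup := by
  have h1 := h.nd
  have h2 := h.ne
  unfold nx at h1 h2
  change (t.1 :: _).Nodup at h1
  simp only [List.nodup_cons, List.mem_cons, not_or] at h1 h2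
  obtain ⟨⟨a1, a2, a3, a4, a5⟩, ⟨b1, b2, b3, b4⟩, ⟨c1, c2, c3⟩, ⟨d1, d2⟩, e1, f1⟩ := h1
  obtain ⟨g1, g2, g3, g4, g5⟩ := h2
  exact ⟨⟨a2, a4, a1, a3, a5⟩, ⟨Ne.symm b1, c1, c3, c2⟩, ⟨Ne.symm b3, Ne.symm d1, e1⟩, ⟨b2, b4⟩, d2,
    ⟨g2, g4, g1, g3, g5⟩, f1⟩

/-- one tile -/
theorem Lok.step {d : D} {O : List D} {e : D} {t : D × D × D × D} {Ts : List (D × D × D × D)}
    {s : LP D} (h : Lok d O e (t :: Ts) s) (b : Bool) :
    Lok d O e Ts (LP.tl b t.1 t.2.1 t.2.2.1 t.2.2.2 s) := by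
  obtain ⟨⟨a1, a2, a3, a4, a5⟩, ⟨b1, b2, b3, b4⟩, ⟨c1, c2, c3⟩, ⟨d1, d2⟩, e1, ⟨g1, g2, g3, g4, g5⟩,
    f1⟩ := h.names
  obtain ⟨W, l, E, r⟩ := t
  simp only at a1 a2 a3 a4 a5 b1 b2 b3 b4 c1 c2 c3 d1 d2 e1 g1 g2 g3 g4 g5
  have hwr := h.wr
  have hE : s E = hd d Ts := hwr.1
  have hh : s (hd d Ts) = E := by rw [← hE, s.invol]
  have loL : ∀ x ∈ lo O Ts, x ∈ nx d O Ts := lo_sub_nx
  -- the closed set
  set S : Set D := {z | z = W ∨ z = E ∨ z = hd d Ts ∨ z ∈ lo O ((W, l, E, r) :: Ts)} with hS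
  have Sc : ∀ z ∈ S, s z ∈ S := by
    rintro z (rfl | rfl | rfl | hz)
    · exact Or.inr (Or.inr (Or.inr h.mh))
    · exact Or.inr (Or.inr (Or.inl hE))
    · exact Or.inr (Or.inl hh)
    · rcases h.mp z hz with h1 | h1
      · exact Or.inl h1
      · exact Or.inr (Or.inr (Or.inr h1))
  have mW : W ∈ S := Or.inl rfl
  have mE : E ∈ S := Or.inr (Or.inl rfl)
  have ml : l ∈ S := Or.inr (Or.inr (Or.inr (by rw [lo_cons]; simp)))
  have mr : r ∈ S := Or.inr (Or.inr (Or.inr (by rw [lo_cons]; simp)))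
  have Send : ∀ z, (z ∈ S ∧ z ≠ W ∧ z ≠ l ∧ z ≠ E ∧ z ≠ r) → z = hd d Ts ∨ z ∈ lo O Ts := by
    rintro z ⟨h1 | h1 | h1 | h1, h2, h3, h4, h5⟩
    · exact absurd h1 h2
    · exact absurd h1 h4
    · exact Or.inl h1
    · rw [lo_cons, List.mem_cons, List.mem_cons] at h1
      rcases h1 with h1 | h1 | h1
      · exact absurd h1 h3
      · exact absurd h1 h5
      · exact Or.inr h1
  have Sbeg : ∀ z, (z = hd d Ts ∨ z ∈ lo O Ts) → z ∈ S ∧ z ≠ W ∧ z ≠ l ∧ z ≠ E ∧ z ≠ r := by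
    rintro z (rfl | hz)
    · exact ⟨Or.inr (Or.inr (Or.inl rfl)), Ne.symm a2, c1, Ne.symm b4, c2⟩
    · have hz' := loL z hz
      refine ⟨Or.inr (Or.inr (Or.inr (by rw [lo_cons]; simp [hz]))), ?_, ?_, ?_, ?_⟩
      · rintro rfl; exact a5 hz'
      · rintro rfl; exact d2 hz'
      · rintro rfl; exact b3 hz'
      · rintro rfl; exact e1 hz'
  -- closure after the tile
  have cl : ∀ z, (z = hd d Ts ∨ z ∈ lo O Ts) →
      (LP.tl b W l E r s z = hd d Ts ∨ LP.tl b W l E r s z ∈ lo O Ts) := by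
    intro z hz
    obtain ⟨h1, h2, h3, h4, h5⟩ := Sbeg z hz
    apply Send
    unfold LP.tl
    cases b with
    | true =>
      rw [if_pos rfl]
      have k1 := stab_jn Sc mE mr b2 1 0
      have k2 := stab_jn k1 (x := W) (y := l) ⟨mW, a1, a4⟩ ⟨ml, Ne.symm b1, d1⟩ a3 1 0
      have k3 := k2 z ⟨⟨h1, h4, h5⟩, h2, h3⟩
      exact ⟨k3.1.1, k3.2.1, k3.2.2, k3.1.2.1, k3.1.2.2⟩
    | false =>
      rw [if_neg (by simp)]
      have k1 := stab_jn Sc ml mE (Ne.symm b1) 1 0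
      have k2 := stab_jn k1 (x := W) (y := r) ⟨mW, a3, a1⟩ ⟨mr, Ne.symm d1, Ne.symm b2⟩ a4 (-1) 0
      have k3 := k2 z ⟨⟨h1, h3, h4⟩, h2, h5⟩
      exact ⟨k3.1.1, k3.2.1, k3.1.2.1, k3.1.2.2, k3.2.2⟩
  refine ⟨List.nodup_cons.2 ⟨c3, f1⟩, g5, ?_, ?_, ?_⟩
  · refine Wir.mono hwr.2 ?_
    intro x hx
    have hx1 := mem_nx_E (d := d) (O := O) hx
    have hx2 := Wir.mem (O := O) hwr.2 hx
    have nW : x ≠ W := by rintro rfl; exact a5 hx1
    have nl : x ≠ l := by rintro rfl; exact d2 hx1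
    have nE : x ≠ E := by rintro rfl; exact b3 hx1
    have nr : x ≠ r := by rintro rfl; exact e1 hx1
    have sW : s x ≠ W := fun e' => a5 (e' ▸ hx2)
    have sl : s x ≠ l := fun e' => d2 (e' ▸ hx2)
    have sE : s x ≠ E := fun e' => b3 (e' ▸ hx2)
    have sr : s x ≠ r := fun e' => e1 (e' ▸ hx2)
    have q : ∀ {f : LP D} {y z : D} {τ κ : ℤ}, y ≠ z → x ≠ y → x ≠ z → f x ≠ y → f x ≠ z →
        LP.jn y z τ κ f x = f x := by
      intro f y z τ κ n1 n2 n3 n4 n5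
      rw [jn_apply _ _ _ _ _ n1, if_neg n2, if_neg n3,
        if_neg (fun e' => n4 (by rw [e', f.invol])), if_neg (fun e' => n5 (by rw [e', f.invol]))]
    unfold LP.tl
    cases b with
    | true =>
      rw [if_pos rfl]
      have q1 : LP.jn E r 1 0 s x = s x := q b2 nE nr sE sr
      rw [q a3 nW nl (by rw [q1]; exact sW) (by rw [q1]; exact sl), q1]
    | false =>
      rw [if_neg (by simp)]
      have q1 : LP.jn l E 1 0 s x = s x := q (Ne.symm b1) nl nE sl sE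
      rw [q a4 nW nr (by rw [q1]; exact sW) (by rw [q1]; exact sr), q1]
  · rcases cl _ (Or.inl rfl) with h1 | h1
    · exact absurd h1 (LP.ne _ _)
    · exact h1
  · exact fun x hx => cl x (Or.inr hx)

/-- **The frozen half line on top of a pairing** -/
theorem SF_frozen {d : D} {O : List D} {e : D} {Φ : LP D → ℂ} {v : (D → D) → ℂ}
    (hΦ : ∀ s : LP D, s d ∈ O → (∀ x ∈ O, s x = d ∨ s x ∈ O) → Φ s = v (sg O e d s)) (w : ℂ)
    {Ts : List (D × D × D × D)} {s : LP D} (h : Lok d O e Ts s) :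
    SF s (tls w Ts) Φ = Val (1 - w) w e v (lgs Ts) (sg (lo O Ts) e (hd d Ts) s) := by
  induction Ts generalizing s with
  | nil =>
    have h1 : s d ∈ O := by simpa [hd, lo, lgs] using h.mh
    have h2 : ∀ x ∈ O, s x = d ∨ s x ∈ O := by simpa [hd, lo, lgs] using h.mp
    have h3 := hΦ s h1 h2
    simpa [tls, lgs, lo, hd, SF_nil] using h3
  | cons t Ts ih =>
    obtain ⟨⟨a1, a2, a3, a4, a5⟩, ⟨b1, b2, b3, b4⟩, ⟨c1, c2, c3⟩, ⟨d1, d2⟩, e1,
      ⟨g1, g2, g3, g4, g5⟩, f1⟩ := h.names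
    have hT := h.step true
    have hF := h.step false
    have loL : ∀ x, x ∈ lo O Ts → x ∈ nx d O Ts := fun x hx => lo_sub_nx x hx
    have hmh := h.mh
    have hmp := h.mp
    rw [lo_cons, List.mem_cons, List.mem_cons] at hmh
    have hmp' : ∀ x, x = t.2.1 ∨ x = t.2.2.2 ∨ x ∈ lo O Ts →
        s x = t.1 ∨ s x = t.2.1 ∨ s x = t.2.2.2 ∨ s x ∈ lo O Ts := by
      intro x hx
      have h1 := hmp x (by rw [lo_cons, List.mem_cons, List.mem_cons]; exact hx)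
      rw [lo_cons, List.mem_cons, List.mem_cons] at h1
      exact h1
    have eT := sg_stA (L := lo O Ts) (e := e) (s := s) (h := t.1) (l := t.2.1) (E := t.2.2.1)
      (r := t.2.2.2) (h' := hd d Ts) h.wr.1 ⟨a1, a2, a3, a4, fun q => a5 (loL _ q)⟩
      ⟨b1, b2, fun q => b3 (loL _ q)⟩ ⟨c1, c2, fun q => c3 (loL _ q)⟩
      ⟨d1, fun q => d2 (loL _ q)⟩ (fun q => e1 (loL _ q)) ⟨g1, g2, g3, g4, fun q => g5 (loL _ q)⟩
      hmh hmp'
    have eF := sg_stB (L := lo O Ts) (e := e) (s := s) (h := t.1) (l := t.2.1) (E := t.2.2.1)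
      (r := t.2.2.2) (h' := hd d Ts) h.wr.1 ⟨a1, a2, a3, a4, fun q => a5 (loL _ q)⟩
      ⟨b1, b2, fun q => b3 (loL _ q)⟩ ⟨c1, c2, fun q => c3 (loL _ q)⟩
      ⟨d1, fun q => d2 (loL _ q)⟩ (fun q => e1 (loL _ q)) ⟨g1, g2, g3, g4, fun q => g5 (loL _ q)⟩
      hmh hmp'
    rw [tls_cons, SF_append, SF_cons, SF_nil]
    change w * SF (LP.tl false t.1 t.2.1 t.2.2.1 t.2.2.2 s) (tls w Ts) Φ +
      (1 - w) * SF (LP.tl true t.1 t.2.1 t.2.2.1 t.2.2.2 s) (tls w Ts) Φ = _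
    rw [ih hF, ih hT, eF, eT]
    change _ = (1 - w) * Val (1 - w) w e v (lgs Ts) (stA e t.2.1 t.2.2.2
        (sg (t.2.1 :: t.2.2.2 :: lo O Ts) e t.1 s)) +
      w * Val (1 - w) w e v (lgs Ts) (stB e t.2.1 t.2.2.2
        (sg (t.2.1 :: t.2.2.2 :: lo O Ts) e t.1 s))
    rw [add_comm]

/-! ### Planar data -/

/-- the cyclic order: left legs, head, right legs, outer names -/
def ordL (d : D) (O : List D) (Ts : List (D × D × D × D)) : List D :=
  ((lgs Ts).map Prod.fst).reverse ++ hd d Ts :: ((lgs Ts).map Prod.snd ++ O)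

theorem mem_ordL {d : D} {O : List D} {Ts : List (D × D × D × D)} {x : D} :
    x ∈ ordL d O Ts ↔ x = hd d Ts ∨ x ∈ lo O Ts := by
  unfold ordL lo
  simp only [List.mem_append, List.mem_reverse, List.mem_cons, List.mem_map, mem_nms]
  constructor
  · rintro (⟨t, ht, rfl⟩ | h | ⟨t, ht, rfl⟩ | h)
    · exact Or.inr (Or.inl ⟨t, ht, Or.inl rfl⟩)
    · exact Or.inl h
    · exact Or.inr (Or.inl ⟨t, ht, Or.inr rfl⟩)
    · exact Or.inr (Or.inr h)
  · rintro (h | ⟨t, ht, h | h⟩ | h)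
    · exact Or.inr (Or.inl h)
    · exact Or.inl ⟨t, ht, h.symm⟩
    · exact Or.inr (Or.inr (Or.inl ⟨t, ht, h.symm⟩))
    · exact Or.inr (Or.inr (Or.inr h))

theorem lo_nodup {d : D} {O : List D} {Ts : List (D × D × D × D)}
    (h : (hd d Ts :: nx d O Ts).Nodup) : (hd d Ts :: lo O Ts).Nodup := by
  have : (lo O Ts).Sublist (nx d O Ts) := by
    clear h
    induction Ts with
    | nil => simp [lo, lgs, nx]
    | cons t Ts ih =>
      rw [lo_cons]
      unfold nx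
      exact (((ih.cons _).cons_cons _).cons _).cons_cons _
  exact h.sublist (this.cons_cons _)

/-- **Planar data from the order of a front** -/
theorem Lok.pl {pos : D → ℤ} {d : D} {O : List D} {Ts : List (D × D × D × D)} {s : LP D}
    (h : Lok d O (hd d Ts) Ts s) (ho : Ord pos (ordL d O Ts)) (hn : NC pos (res (ordL d O Ts) s)) :
    Pl pos (hd d Ts) (lgs Ts) O.toFinset (sg (lo O Ts) (hd d Ts) (hd d Ts) s) := by
  have hsg : sg (lo O Ts) (hd d Ts) (hd d Ts) s = res (ordL d O Ts) s := by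
    funext x
    unfold sg res
    by_cases h1 : x = hd d Ts
    · rw [if_pos h1, if_pos (mem_ordL.2 (Or.inl h1)), h1]
    · rw [if_neg h1]
      by_cases h2 : x ∈ lo O Ts
      · rw [if_pos h2, if_pos (mem_ordL.2 (Or.inr h2))]
        split_ifs with h3
        · exact h3.symm
        · rfl
      · rw [if_neg h2, if_neg (fun h3 => (mem_ordL.1 h3).elim h1 h2)]
  have mp : ∀ x ∈ ordL d O Ts, s x ∈ ordL d O Ts := by
    intro x hx
    rw [mem_ordL] at hx ⊢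
    rcases hx with rfl | hx
    · exact Or.inr h.mh
    · exact h.mp x hx
  have q1 := List.pairwise_append.1 ho
  have q2 := List.pairwise_cons.1 q1.2.1
  have q3 := List.pairwise_append.1 q2.2
  rw [hsg]
  refine ⟨⟨res_inv s.invol mp, ?_, ?_⟩, ?_, ?_, ?_, ?_, hn⟩
  · have := lo_nodup h.nd
    refine this.sublist ?_
    unfold lo
    exact (List.sublist_append_left _ _).cons_cons _
  · intro x hx
    have : x ∈ ordL d O Ts := by
      rw [mem_ordL]
      rcases List.mem_cons.1 hx with h1 | h1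
      · exact Or.inl h1
      · exact Or.inr (by unfold lo; exact List.mem_append_left _ h1)
    rw [res_mem this]
    exact s.ne x
  · intro x hx
    have := (res_alive s.ne).1 hx
    rw [mem_ordL] at this
    unfold lo at this
    rw [List.mem_append] at this
    rcases this with h1 | h1 | h1
    · exact Or.inl h1
    · exact Or.inr (Or.inl h1)
    · exact Or.inr (Or.inr (List.mem_toFinset.2 h1))
  · intro t ht
    exact ⟨q1.2.2 t.1 (List.mem_reverse.2 (List.mem_map.2 ⟨t, ht, rfl⟩)) _ (by simp),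
      q2.1 t.2 (List.mem_append_left _ (List.mem_map.2 ⟨t, ht, rfl⟩))⟩
  · have w1 : (lgs Ts).Pairwise fun t t' => pos t'.1 < pos t.1 := by
      have := q1.1
      rw [List.pairwise_reverse, List.pairwise_map] at this
      exact this
    have w2 : (lgs Ts).Pairwise fun t t' => pos t.2 < pos t'.2 := by
      have := q3.1
      rw [List.pairwise_map] at this
      exact this
    exact List.Pairwise.and w1 w2
  · intro x hx
    have hx' := List.mem_toFinset.1 hx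
    refine ⟨q2.1 x (List.mem_append_right _ hx'), fun t ht => ?_⟩
    exact q3.2.2 t.2 (List.mem_map.2 ⟨t, ht, rfl⟩) x hx'

theorem norm_of_fz {w : ℂ} (hw : w * (1 - w) = 1) : ‖w‖ = 1 ∧ ‖1 - w‖ = 1 := by
  have key : ∀ w : ℂ, w * (1 - w) = 1 → ‖w‖ = 1 := by
    intro w hw
    have h3 : w ^ 3 = -1 := by linear_combination (-w - 1) * hw
    have h4 : ‖w‖ ^ 3 = 1 := by rw [← norm_pow, h3, norm_neg, norm_one]
    have h5 : 0 ≤ ‖w‖ := norm_nonneg w
    nlinarith [sq_nonneg (‖w‖ - 1), sq_nonneg (‖w‖ + 1)]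
  exact ⟨key w hw, key (1 - w) (by rw [sub_sub_cancel, mul_comm]; exact hw)⟩

/-- **The mean over the states of a frozen half line is bounded** -/
theorem norm_SF_frozen_le {pos : D → ℤ} (hp : Function.Injective pos) {d : D} {O : List D}
    {Φ : LP D → ℂ} {Ts : List (D × D × D × D)} {s : LP D}
    {v : (D → D) → ℂ} {M : ℝ} (hv : ∀ f, ‖v f‖ ≤ M)
    (hΦ : ∀ s : LP D, s d ∈ O → (∀ x ∈ O, s x = d ∨ s x ∈ O) → Φ s = v (sg O (hd d Ts) d s))
    {w : ℂ} (hw : w * (1 - w) = 1)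
    (h : Lok d O (hd d Ts) Ts s) (ho : Ord pos (ordL d O Ts)) (hn : NC pos (res (ordL d O Ts) s)) :
    ‖SF s (tls w Ts) Φ‖ ≤ 2 ^ ((O.toFinset.card - 1) / 2) * M := by
  obtain ⟨n1, n2⟩ := norm_of_fz hw
  rw [SF_frozen hΦ w h]
  exact norm_Val_le hp (h.pl ho hn) (by ring) (by rw [mul_comm]; exact hw) n2.le n1.le hv

end Pool.Agent.H47.W
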